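import Pool.Agent.H64.LG.Pls

/-!
# LG.Alg : globally bounded and algebraic power series

PROOFS. `gb_of_mem`: `algSeries_of_mem` and `eisenstein` (QF/Ei). `gb_zero`, `gb_add`, `gb_mul`: `GloballyBounded f` says that all
coefficients are in `RN N` (QF/Ei) for some `N ≥ 1`; take the product of the two `N` (`RN_mono`); `serRN` is a subring. `alg_of_mul`:
`A0` consists of the elements of the domain `PowerSeries Kbar` which are algebraic over `Polynomial Kbar`; if `q` and `q f` are algebraic
and `q ≠ 0` then `f` is (for instance `IsAlgebraic` of a quotient in the fraction field, or: `q` has a nonzero multiple `q z = P` with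
`z` algebraic and `P` in `Polynomial Kbar` nonzero (`IsAlgebraic.exists_nonzero_dvd` or the constant coefficient of the minimal
relation), so `P f = z q f` is algebraic, and `P` is nonzero in the base ring (`IsAlgebraic` of `P • f` implies that of `f`)).
`alg_X`: image of a polynomial. `gb_div`: `κ (1 - κ) w = const` with `κ` algebraic, so `w` is algebraic.
-/

set_option autoImplicit false

namespace Pool.Agent.H64.LG

open Pool.H61.QF

theorem gb_of_mem {f : PowerSeries Kbar} (hf : f ∈ A0) : GloballyBounded f :=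
  eisenstein f (algSeries_of_mem hf)

theorem gb_zero : GloballyBounded (0 : PowerSeries Kbar) := by
  refine ⟨1, le_rfl, fun n => ?_⟩
  change PowerSeries.coeff n (0 : PowerSeries Kbar) ∈ RN 1
  rw [map_zero]
  exact zero_mem _

theorem gb_add {f g : PowerSeries Kbar} (hf : GloballyBounded f) (hg : GloballyBounded g) :
    GloballyBounded (f + g) := by
  obtain ⟨N, hN, h⟩ := hf
  obtain ⟨M, hM, h'⟩ := hg
  refine ⟨N * M, Nat.mul_pos hN hM, fun n => ?_⟩
  change PowerSeries.coeff n (f + g) ∈ RN (N * M)
  rw [map_add]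
  exact add_mem (RN_mono (Dvd.intro _ rfl) (h n)) (RN_mono (Dvd.intro_left _ rfl) (h' n))

theorem gb_mul {f g : PowerSeries Kbar} (hf : GloballyBounded f) (hg : GloballyBounded g) :
    GloballyBounded (f * g) := by
  obtain ⟨N, hN, h⟩ := hf
  obtain ⟨M, hM, h'⟩ := hg
  refine ⟨N * M, Nat.mul_pos hN hM, ?_⟩
  have h1 : f ∈ serRN (N * M) := fun n => RN_mono (Dvd.intro _ rfl) (h n)
  have h2 : g ∈ serRN (N * M) := fun n => RN_mono (Dvd.intro_left _ rfl) (h' n)
  exact mul_mem h1 h2

theorem alg_X : (PowerSeries.X : PowerSeries Kbar) ∈ A0 := by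
  have h : IsAlgebraic (Polynomial Kbar) (algebraMap (Polynomial Kbar) (PowerSeries Kbar) Polynomial.X) :=
    isAlgebraic_algebraMap _
  have e : algebraMap (Polynomial Kbar) (PowerSeries Kbar) Polynomial.X = PowerSeries.X := by
    show ((Polynomial.X : Polynomial Kbar) : PowerSeries Kbar) = _
    exact Polynomial.coe_X
  rw [e] at h
  exact h

theorem alg_of_mul {q f : PowerSeries Kbar} (hq : q ∈ A0) (hq0 : q ≠ 0) (h : q * f ∈ A0) : f ∈ A0 := by
  have h1 : IsAlgebraic (Polynomial Kbar) q := hq
  have h2 : IsAlgebraic (Polynomial Kbar) (q * f) := h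
  exact IsAlgebraic.of_mul (mem_nonZeroDivisors_of_ne_zero hq0) h1 h2

end Pool.Agent.H64.LG
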