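import Pool.Agent.H64.LG.Defs

/-!
# LG.Gen : the generating function of `aK`

PROOFS. `cb_rec`: `Nat.succ_mul_centralBinom_succ`: `(n + 1) centralBinom (n + 1) = 2 (2 n + 1) centralBinom n`. `cb_sq`: `∑_{i+j=n} cb i cb j = 1`, i.e. the series
`u = ∑ cb i s^i` has `u² (1 - s) = 1`: both `u² (1-s)` and `1` have constant coefficient `1`, and from `2 (1 - s) u' = u` (`cb_rec`) the derivative of
`u² (1 - s)` is `0`. `w_sq`: `∑ aK c m s^m = u(s) u(c s)` (`PowerSeries.rescale`), `u(c s)² (1 - c s) = 1`. `dK_rel`: coefficient of `c^i`, with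
`q_i = cb i cb (m - i)`: `(i + 1) q_{i+1} - i q_i = m (cb i cb (m - 1 - i) - q_i)`, from `cb_rec` for `i` and for `m - 1 - i`. (As a polynomial identity in `c`;
compare the sums term by term.)
-/

set_option autoImplicit false

namespace Pool.Agent.H64.LG

open PowerSeries

theorem cb_rec (K : Type) [Field K] [CharZero K] (i : ℕ) :
    ((i : K) + 1) * cb K (i + 1) = ((i : K) + 1 / 2) * cb K i := by
  have h : ((i + 1 : ℕ) : K) * (Nat.centralBinom (i + 1) : K) =
      2 * (2 * (i : K) + 1) * (Nat.centralBinom i : K) := by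
    have h0 := Nat.succ_mul_centralBinom_succ i
    have h1 : (((i + 1) * (i + 1).centralBinom : ℕ) : K) = ((2 * (2 * i + 1) * i.centralBinom : ℕ) : K) := by
      rw [h0]
    push_cast at h1 ⊢
    exact h1
  have h4 : (4 : K) ≠ 0 := by norm_num
  have h4' : (4 : K) ^ i ≠ 0 := pow_ne_zero _ h4
  unfold cb
  rw [pow_succ]
  push_cast at h
  field_simp
  linear_combination (2 : K) * h

/-- the series `∑ cb i X^i` -/
private noncomputable def uu (K : Type) [Field K] : PowerSeries K := PowerSeries.mk (cb K)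

private lemma uu_der (K : Type) [Field K] [CharZero K] :
    2 * ((1 - X) * PowerSeries.derivative K (uu K)) = uu K := by
  ext n
  have e1 : (2 : PowerSeries K) * ((1 - X) * PowerSeries.derivative K (uu K)) =
      PowerSeries.C (2 : K) * (PowerSeries.derivative K (uu K)) -
        PowerSeries.C (2 : K) * (PowerSeries.derivative K (uu K) * X) := by
    rw [map_ofNat]
    ring
  rw [e1, map_sub, PowerSeries.coeff_C_mul, PowerSeries.coeff_C_mul]
  have hr := cb_rec K n
  cases n with
  | zero =>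
    rw [PowerSeries.coeff_zero_mul_X, PowerSeries.coeff_derivative]
    unfold uu
    rw [PowerSeries.coeff_mk, PowerSeries.coeff_mk]
    push_cast at hr ⊢
    linear_combination (2 : K) * hr
  | succ n =>
    rw [PowerSeries.coeff_succ_mul_X, PowerSeries.coeff_derivative, PowerSeries.coeff_derivative]
    unfold uu
    rw [PowerSeries.coeff_mk, PowerSeries.coeff_mk]
    push_cast at hr ⊢
    linear_combination (2 : K) * hr

private lemma uu_sq (K : Type) [Field K] [CharZero K] : uu K ^ 2 * (1 - X) = 1 := by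
  apply PowerSeries.derivative.ext
  · have h := uu_der K
    have e1 : PowerSeries.derivative K (uu K ^ 2 * (1 - X)) =
        uu K * (2 * ((1 - X) * PowerSeries.derivative K (uu K)) - uu K) := by
      rw [pow_two, Derivation.leibniz, Derivation.leibniz]
      rw [map_sub, PowerSeries.derivative_X]
      simp only [smul_eq_mul, Derivation.map_one_eq_zero]
      ring
    rw [e1, h, sub_self, mul_zero, Derivation.map_one_eq_zero]
  · simp [uu, cb]

theorem w_sq {K : Type} [Field K] [CharZero K] (c : K) :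
    (PowerSeries.mk (aK c)) ^ 2 * ((1 - X) * (1 - C c * X)) = 1 := by
  have h1 : PowerSeries.mk (aK c) = PowerSeries.rescale c (uu K) * uu K := by
    ext m
    rw [PowerSeries.coeff_mk, PowerSeries.coeff_mul,
      Finset.Nat.sum_antidiagonal_eq_sum_range_succ
        (fun i j => (PowerSeries.coeff i) (PowerSeries.rescale c (uu K)) * (PowerSeries.coeff j) (uu K)) m]
    unfold aK
    refine Finset.sum_congr rfl fun i _ => ?_
    rw [PowerSeries.coeff_rescale]
    unfold uu
    rw [PowerSeries.coeff_mk, PowerSeries.coeff_mk]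
    ring
  have h2 := uu_sq K
  have h3 : PowerSeries.rescale c (uu K) ^ 2 * (1 - C c * X) = 1 := by
    have h4 := congrArg (PowerSeries.rescale c) h2
    rw [map_mul, map_pow, map_sub, map_one, PowerSeries.rescale_X] at h4
    exact h4
  rw [h1]
  calc (PowerSeries.rescale c (uu K) * uu K) ^ 2 * ((1 - X) * (1 - C c * X)) =
      (PowerSeries.rescale c (uu K) ^ 2 * (1 - C c * X)) * (uu K ^ 2 * (1 - X)) := by ring
    _ = 1 := by rw [h2, h3, mul_one]

theorem dK_rel {K : Type} [Field K] [CharZero K] (c : K) (m : ℕ) (hm : 1 ≤ m) :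
    (1 - c) * dK c m = (m : K) * (aK c (m - 1) - aK c m) := by
  obtain ⟨n, rfl⟩ : ∃ n, m = n + 1 := ⟨m - 1, by omega⟩
  have e0 : n + 1 - 1 = n := by omega
  rw [e0]
  -- the second sum, shifted
  have e1 : ∑ i ∈ Finset.range (n + 1), ((i : K) + 1) * (cb K (i + 1) * cb K (n + 1 - (i + 1))) * c ^ (i + 1) =
      (∑ i ∈ Finset.range (n + 1), (i : K) * (cb K i * cb K (n + 1 - i)) * c ^ i) +
        ((n + 1 : ℕ) : K) * (cb K (n + 1) * cb K (n + 1 - (n + 1))) * c ^ (n + 1) := by
    have h1 := Finset.sum_range_succ' (fun i : ℕ => (i : K) * (cb K i * cb K (n + 1 - i)) * c ^ i) (n + 1)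
    have h2 := Finset.sum_range_succ (fun i : ℕ => (i : K) * (cb K i * cb K (n + 1 - i)) * c ^ i) (n + 1)
    rw [h2] at h1
    simp only [Nat.cast_zero, zero_mul, add_zero] at h1
    rw [h1]
    refine Finset.sum_congr rfl fun i _ => ?_
    push_cast
    ring
  have e2 : (1 - c) * dK c (n + 1) =
      (∑ i ∈ Finset.range (n + 1), ((i : K) + 1) * (cb K (i + 1) * cb K (n + 1 - (i + 1))) * c ^ i) -
      ∑ i ∈ Finset.range (n + 1), ((i : K) + 1) * (cb K (i + 1) * cb K (n + 1 - (i + 1))) * c ^ (i + 1) := by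
    unfold dK
    rw [sub_mul, one_mul, Finset.mul_sum]
    congr 1
    refine Finset.sum_congr rfl fun i _ => ?_
    ring
  have e3 : ((n + 1 : ℕ) : K) * (aK c n - aK c (n + 1)) =
      (∑ i ∈ Finset.range (n + 1), ((n + 1 : ℕ) : K) * (cb K i * cb K (n - i) - cb K i * cb K (n + 1 - i)) * c ^ i) -
        ((n + 1 : ℕ) : K) * (cb K (n + 1) * cb K (n + 1 - (n + 1))) * c ^ (n + 1) := by
    unfold aK
    rw [Finset.sum_range_succ (fun i : ℕ => cb K i * cb K (n + 1 - i) * c ^ i) (n + 1)]
    have h : ∑ i ∈ Finset.range (n + 1), ((n + 1 : ℕ) : K) *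
        (cb K i * cb K (n - i) - cb K i * cb K (n + 1 - i)) * c ^ i =
        ((n + 1 : ℕ) : K) * (∑ i ∈ Finset.range (n + 1), cb K i * cb K (n - i) * c ^ i) -
        ((n + 1 : ℕ) : K) * (∑ i ∈ Finset.range (n + 1), cb K i * cb K (n + 1 - i) * c ^ i) := by
      rw [Finset.mul_sum, Finset.mul_sum, ← Finset.sum_sub_distrib]
      refine Finset.sum_congr rfl fun i _ => ?_
      ring
    rw [h]
    ring
  rw [e2, e1, e3]
  have e4 : (∑ i ∈ Finset.range (n + 1), ((i : K) + 1) * (cb K (i + 1) * cb K (n + 1 - (i + 1))) * c ^ i) -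
      ∑ i ∈ Finset.range (n + 1), (i : K) * (cb K i * cb K (n + 1 - i)) * c ^ i =
      ∑ i ∈ Finset.range (n + 1), ((n + 1 : ℕ) : K) *
        (cb K i * cb K (n - i) - cb K i * cb K (n + 1 - i)) * c ^ i := by
    rw [← Finset.sum_sub_distrib]
    refine Finset.sum_congr rfl fun i hi => ?_
    have hi' : i ≤ n := by
      have := Finset.mem_range.1 hi
      omega
    obtain ⟨j, hj⟩ : ∃ j, n = i + j := ⟨n - i, by omega⟩
    have a1 : n + 1 - (i + 1) = j := by omega
    have a2 : n + 1 - i = j + 1 := by omega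
    have a3 : n - i = j := by omega
    rw [a1, a2, a3]
    have r1 := cb_rec K i
    have r2 := cb_rec K j
    have hn : ((n + 1 : ℕ) : K) = (i : K) + (j : K) + 1 := by
      rw [hj]
      push_cast
      ring
    rw [hn]
    linear_combination (cb K j * c ^ i) * r1 + (cb K i * c ^ i) * r2
  linear_combination e4

end Pool.Agent.H64.LG
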