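import Pool.Agent.H64.LG.Arc
import Pool.Agent.H64.LG.Gen

/-!
# LG.AnD : the analytic functions near `0`

`wf c s = ∑ aK c m s^m` (so `wf² (1 - s)(1 - c s) = 1`), `Fan c A B x = ∑ eK c A B k x^k`, with derivative `(A + B x²) wf (x²)`.

PROOF. `arca`, `arcc` give radii of convergence. `wf` and `Fan` are sums of convergent power series, analytic in a disc (`FormalMultilinearSeries.ofScalars` or
`hasFPowerSeriesOnBall` of `∑ a_n z^n`; or `hasDerivAt_tsum_of_isPreconnected`, `differentiableOn_tsum_of_summable_norm`). `wf² (..) = 1`: Cauchy product and `w_sq`. The derivative of `Fan` is the termwise derivative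
`∑ k eK k x^(k-1)`, `k eK k = bK (k/2)` for odd `k`, i.e. `∑ bK n x^(2n) = (A + B x²) wf (x²)`.
-/

set_option autoImplicit false

namespace Pool.Agent.H64.LG

open Metric

/-- `((1 - s)(1 - c s))^(-1/2)` near `0` -/
noncomputable def wf (c s : ℂ) : ℂ := ∑' m : ℕ, aK c m * s ^ m

/-- `F` as a function near `0` -/
noncomputable def Fan (c A B x : ℂ) : ℂ := ∑' k : ℕ, eK c A B k * x ^ k

private theorem and_sum (a : ℕ → ℂ) (C : ℝ) (hC : 1 ≤ C) (ha : ∀ n, ‖a n‖ ≤ C ^ n) (z : ℂ)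
    (hz : ‖z‖ ≤ 1 / (2 * C)) : Summable fun n => ‖a n * z ^ n‖ := by
  have hC0 : 0 < C := by linarith
  refine Summable.of_nonneg_of_le (fun n => norm_nonneg _) (fun n => ?_)
    (summable_geometric_of_lt_one (r := (1 / 2 : ℝ)) (by norm_num) (by norm_num))
  rw [norm_mul, norm_pow]
  calc ‖a n‖ * ‖z‖ ^ n ≤ C ^ n * (1 / (2 * C)) ^ n :=
        mul_le_mul (ha n) (pow_le_pow_left₀ (norm_nonneg _) hz n) (by positivity) (by positivity)
    _ = (1 / 2) ^ n := by
        rw [← mul_pow]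
        congr 1
        field_simp

private theorem and_der (a : ℕ → ℂ) (C : ℝ) (hC : 1 ≤ C) (ha : ∀ n, ‖a n‖ ≤ C ^ n) (z : ℂ)
    (hz : z ∈ ball (0 : ℂ) (1 / (2 * C))) :
    HasDerivAt (fun z => ∑' n, a n * z ^ n) (∑' n : ℕ, a (n + 1) * ((n + 1 : ℂ) * z ^ n)) z := by
  have hC0 : 0 < C := by linarith
  have hu0 : Summable fun n : ℕ => ((n : ℝ) ^ 1 * (1 / 2 : ℝ) ^ n) :=
    summable_pow_mul_geometric_of_norm_lt_one 1 (by norm_num)
  have hu : Summable fun n : ℕ => (2 * C) * ((n : ℝ) ^ 1 * (1 / 2 : ℝ) ^ n) := hu0.mul_left _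
  have hb : ∀ (n : ℕ) (y : ℂ), y ∈ ball (0 : ℂ) (1 / (2 * C)) →
      ‖a n * (n * y ^ (n - 1))‖ ≤ (2 * C) * ((n : ℝ) ^ 1 * (1 / 2 : ℝ) ^ n) := by
    intro n y hy
    rw [mem_ball_zero_iff] at hy
    rcases n with _ | n
    · simp
    · rw [norm_mul, norm_mul, norm_pow, Nat.add_sub_cancel, pow_one, Complex.norm_natCast]
      calc ‖a (n + 1)‖ * (((n + 1 : ℕ) : ℝ) * ‖y‖ ^ n)
          ≤ C ^ (n + 1) * (((n + 1 : ℕ) : ℝ) * (1 / (2 * C)) ^ n) :=
            mul_le_mul (ha _) (mul_le_mul_of_nonneg_left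
              (pow_le_pow_left₀ (norm_nonneg _) hy.le n) (by positivity)) (by positivity)
              (by positivity)
        _ = (2 * C) * (((n + 1 : ℕ) : ℝ) * (1 / 2 : ℝ) ^ (n + 1)) := by
            have h1 : C ^ n * (1 / (2 * C)) ^ n = (1 / 2 : ℝ) ^ n := by
              rw [← mul_pow]
              congr 1
              field_simp
            rw [pow_succ, pow_succ]
            linear_combination (C * ((n + 1 : ℕ) : ℝ)) * h1
  have h1 := hasDerivAt_tsum_of_isPreconnected (g := fun n z => a n * z ^ n)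
    (g' := fun n y => a n * (n * y ^ (n - 1))) hu isOpen_ball
    (convex_ball (0 : ℂ) (1 / (2 * C))).isPreconnected
    (fun n y _ => ((hasDerivAt_pow n y).const_mul (a n))) hb
    (mem_ball_self (by positivity)) (and_sum a C hC ha 0 (by simp; positivity)).of_norm hz
  have hs : Summable fun n : ℕ => a n * (n * z ^ (n - 1)) :=
    Summable.of_norm_bounded hu fun n => hb n z hz
  have h2 : (∑' n : ℕ, a n * (n * z ^ (n - 1))) = ∑' n : ℕ, a (n + 1) * ((n + 1 : ℂ) * z ^ n) := by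
    rw [hs.tsum_eq_zero_add]
    simp
  rw [h2] at h1
  exact h1

private theorem and_cauchy (a b : ℕ → ℂ) (ha : Summable fun n => ‖a n‖)
    (hb : Summable fun n => ‖b n‖) :
    (Summable fun n => ‖∑ kl ∈ Finset.HasAntidiagonal.antidiagonal n, a kl.1 * b kl.2‖) ∧
    (∑' n, ∑ kl ∈ Finset.HasAntidiagonal.antidiagonal n, a kl.1 * b kl.2) =
      (∑' n, a n) * ∑' n, b n :=
  ⟨summable_norm_sum_mul_antidiagonal_of_summable_norm ha hb,
    (tsum_mul_tsum_eq_tsum_sum_antidiagonal_of_summable_norm ha hb).symm⟩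

private noncomputable def cfn (f : PowerSeries ℂ) (n : ℕ) : ℂ := PowerSeries.coeff n f

private theorem cfn_mul (f g : PowerSeries ℂ) (n : ℕ) : cfn (f * g) n =
    ∑ kl ∈ Finset.HasAntidiagonal.antidiagonal n, cfn f kl.1 * cfn g kl.2 :=
  PowerSeries.coeff_mul n f g

private theorem and_mul (f g : PowerSeries ℂ) (z : ℂ)
    (hf : Summable fun n => ‖cfn f n * z ^ n‖) (hg : Summable fun n => ‖cfn g n * z ^ n‖) :
    (Summable fun n => ‖cfn (f * g) n * z ^ n‖) ∧
    (∑' n, cfn (f * g) n * z ^ n) = (∑' n, cfn f n * z ^ n) * ∑' n, cfn g n * z ^ n := by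
  have e : ∀ n, cfn (f * g) n * z ^ n =
      ∑ kl ∈ Finset.HasAntidiagonal.antidiagonal n,
      (cfn f kl.1 * z ^ kl.1) * (cfn g kl.2 * z ^ kl.2) := by
    intro n
    rw [cfn_mul, Finset.sum_mul]
    refine Finset.sum_congr rfl fun kl hkl => ?_
    rw [← Finset.HasAntidiagonal.mem_antidiagonal.1 hkl, pow_add]
    ring
  have h := and_cauchy (fun n => cfn f n * z ^ n) (fun n => cfn g n * z ^ n) hf hg
  simp only [e]
  exact h

private theorem cfn_one (n : ℕ) : cfn 1 n = if n = 0 then 1 else 0 := PowerSeries.coeff_one n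

private theorem cfn_mk (a : ℕ → ℂ) (n : ℕ) : cfn (PowerSeries.mk a) n = a n :=
  PowerSeries.coeff_mk n a

private theorem cfn_lin (c : ℂ) (n : ℕ) : cfn (1 - PowerSeries.C c * PowerSeries.X) n =
    (if n = 0 then 1 else 0) - c * (if n = 1 then 1 else 0) := by
  unfold cfn
  rw [map_sub, PowerSeries.coeff_one, PowerSeries.coeff_C_mul, PowerSeries.coeff_X]

private theorem and_lin (c z : ℂ) :
    (Summable fun n => ‖cfn (1 - PowerSeries.C c * PowerSeries.X) n * z ^ n‖) ∧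
    (∑' n, cfn (1 - PowerSeries.C c * PowerSeries.X) n * z ^ n) = 1 - c * z := by
  have e : ∀ n, n ∉ Finset.range 2 →
      cfn (1 - PowerSeries.C c * PowerSeries.X) n * z ^ n = 0 := by
    intro n hn
    have hn2 : 2 ≤ n := by
      rw [Finset.mem_range] at hn
      omega
    rw [cfn_lin, if_neg (by omega), if_neg (by omega)]
    simp
  constructor
  · refine summable_of_ne_finset_zero (s := Finset.range 2) fun n hn => ?_
    rw [e n hn, norm_zero]
  · rw [tsum_eq_sum (s := Finset.range 2) e, Finset.sum_range_succ, Finset.sum_range_one, cfn_lin,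
      cfn_lin]
    simp [sub_eq_add_neg]

private theorem wf_zero (c : ℂ) : wf c 0 = 1 := by
  unfold wf
  rw [tsum_eq_single 0]
  · simp [aK, cb]
  · intro b hb
    rw [zero_pow hb, mul_zero]

private theorem wf_one (c : ℂ) (C : ℝ) (hC : 1 ≤ C) (ha : ∀ m, ‖aK c m‖ ≤ C ^ m) (s : ℂ)
    (hs : ‖s‖ ≤ 1 / (2 * C)) : wf c s ^ 2 * ((1 - s) * (1 - c * s)) = 1 := by
  have h0 := and_sum (aK c) C hC ha s hs
  have h0' : Summable fun n => ‖cfn (PowerSeries.mk (aK c)) n * s ^ n‖ := by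
    simp only [cfn_mk]
    exact h0
  obtain ⟨h1, h2⟩ := and_mul _ _ s h0' h0'
  obtain ⟨l1, l2⟩ := and_lin 1 s
  obtain ⟨l3, l4⟩ := and_lin c s
  obtain ⟨h3, h4⟩ := and_mul _ _ s l1 l3
  obtain ⟨-, h5⟩ := and_mul _ _ s h1 h3
  have h6 := w_sq c
  rw [sq] at h6
  rw [map_one, one_mul] at h5 h4 l2
  rw [h6, h2, h4, l2, l4] at h5
  have h7 : (∑' n, cfn (1 : PowerSeries ℂ) n * s ^ n) = 1 := by
    rw [tsum_eq_single 0]
    · simp [cfn_one]
    · intro b hb
      rw [cfn_one, if_neg hb, zero_mul]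
  rw [h7] at h5
  simp only [cfn_mk] at h5
  unfold wf
  rw [sq]
  rw [one_mul] at h5
  exact h5.symm

theorem and1 (c : ℂ) : ∃ r : ℝ, 0 < r ∧ r ≤ 1 ∧ DifferentiableOn ℂ (wf c) (ball 0 r) ∧
    (∀ s ∈ ball (0 : ℂ) r, wf c s ^ 2 * ((1 - s) * (1 - c * s)) = 1) ∧ wf c 0 = 1 := by
  obtain ⟨C, hC, ha⟩ := arca c
  have hC0 : 0 < C := by linarith
  refine ⟨1 / (2 * C), by positivity, ?_, ?_, ?_, wf_zero c⟩
  · rw [div_le_one (by positivity)]
    linarith
  · intro s hs
    exact (and_der (aK c) C hC ha s hs).differentiableAt.differentiableWithinAt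
  · intro s hs
    rw [mem_ball_zero_iff] at hs
    exact wf_one c C hC ha s hs.le

theorem and2 (c A B : ℂ) : ∃ r : ℝ, 0 < r ∧ r ≤ 1 ∧
    (∀ x ∈ ball (0 : ℂ) r, HasDerivAt (Fan c A B) ((A + B * x ^ 2) * wf c (x ^ 2)) x) ∧ Fan c A B 0 = 0 := by
  obtain ⟨C₁, hC₁, ha₁⟩ := arca c
  obtain ⟨C₂, hC₂, ha₂⟩ := arcc c A B
  set C : ℝ := max C₁ C₂ with hCdef
  have hC : 1 ≤ C := hC₁.trans (le_max_left _ _)
  have hC0 : 0 < C := by linarith
  have ha : ∀ m, ‖aK c m‖ ≤ C ^ m := fun m =>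
    (ha₁ m).trans (pow_le_pow_left₀ (by linarith) (le_max_left _ _) m)
  have he : ∀ m, ‖eK c A B m‖ ≤ C ^ m := fun m =>
    (ha₂ m).trans (pow_le_pow_left₀ (by linarith) (le_max_right _ _) m)
  refine ⟨1 / (2 * C), by positivity, ?_, ?_, ?_⟩
  · rw [div_le_one (by positivity)]
    linarith
  · intro x hx
    have h1 := and_der (eK c A B) C hC he x hx
    have hx' := hx
    rw [mem_ball_zero_iff] at hx'
    have hx2 : ‖x ^ 2‖ ≤ 1 / (2 * C) := by
      have h2 : 1 / (2 * C) ≤ 1 := by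
        rw [div_le_one (by positivity)]
        linarith
      rw [norm_pow, sq]
      calc ‖x‖ * ‖x‖ ≤ (1 / (2 * C)) * 1 :=
            mul_le_mul hx'.le (hx'.le.trans h2) (norm_nonneg _) (by positivity)
        _ = 1 / (2 * C) := mul_one _
    have hs := (and_sum (aK c) C hC ha (x ^ 2) hx2).of_norm
    have h3 : (∑' n : ℕ, eK c A B (n + 1) * ((n + 1 : ℂ) * x ^ n)) =
        (A + B * x ^ 2) * wf c (x ^ 2) := by
      have h4 : (∑' n : ℕ, eK c A B (n + 1) * ((n + 1 : ℂ) * x ^ n)) =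
          ∑' n : ℕ, eK c A B (2 * n + 1) * (((2 * n : ℕ) + 1 : ℂ) * x ^ (2 * n)) := by
        refine (Function.Injective.tsum_eq (g := fun n : ℕ => 2 * n)
          (f := fun n : ℕ => eK c A B (n + 1) * ((n + 1 : ℂ) * x ^ n))
          (fun a b hab => by simpa using hab) ?_).symm
        intro n hn
        rw [Function.mem_support] at hn
        by_contra hcon
        apply hn
        have h5 : (n + 1) % 2 ≠ 1 := by
          intro h6
          exact hcon ⟨n / 2, by dsimp only; omega⟩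
        have h7 : eK c A B (n + 1) = 0 := by
          unfold eK
          rw [if_neg h5]
        rw [h7, zero_mul]
      have h5 : ∀ n : ℕ, eK c A B (2 * n + 1) * (((2 * n : ℕ) + 1 : ℂ) * x ^ (2 * n)) =
          bK c A B n * (x ^ 2) ^ n := by
        intro n
        have h6 : eK c A B (2 * n + 1) = bK c A B n / ((2 * n + 1 : ℕ) : ℂ) := by
          unfold eK
          rw [if_pos (by omega), show (2 * n + 1) / 2 = n by omega]
        have h7 : ((2 * n + 1 : ℕ) : ℂ) ≠ 0 := Nat.cast_ne_zero.2 (by omega)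
        rw [h6, ← pow_mul]
        push_cast at h7 ⊢
        field_simp
      rw [h4]
      simp only [h5]
      have h8 : Summable fun n : ℕ => aK c (n + 1) * (x ^ 2) ^ (n + 1) :=
        (summable_nat_add_iff 1).2 hs
      have h9 : Summable fun n : ℕ => bK c A B n * (x ^ 2) ^ n := by
        rw [← summable_nat_add_iff 1]
        have h10 : Summable fun n : ℕ => A * (aK c (n + 1) * (x ^ 2) ^ (n + 1)) +
            (B * x ^ 2) * (aK c n * (x ^ 2) ^ n) := (h8.mul_left _).add (hs.mul_left _)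
        refine h10.congr fun n => ?_
        rw [bK]
        ring
      rw [h9.tsum_eq_zero_add]
      have h11 : ∀ n : ℕ, bK c A B (n + 1) * (x ^ 2) ^ (n + 1) =
          A * (aK c (n + 1) * (x ^ 2) ^ (n + 1)) + (B * x ^ 2) * (aK c n * (x ^ 2) ^ n) := by
        intro n
        rw [bK]
        ring
      simp only [h11]
      rw [(h8.mul_left A).tsum_add (hs.mul_left (B * x ^ 2)), tsum_mul_left, tsum_mul_left]
      have h12 : wf c (x ^ 2) = aK c 0 * (x ^ 2) ^ 0 + ∑' n : ℕ, aK c (n + 1) * (x ^ 2) ^ (n + 1) :=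
        hs.tsum_eq_zero_add
      have h13 : (∑' n : ℕ, aK c n * (x ^ 2) ^ n) = wf c (x ^ 2) := rfl
      rw [h13, bK]
      linear_combination (-A) * h12
    rw [h3] at h1
    exact h1
  · unfold Fan
    rw [tsum_eq_single 0]
    · simp [eK]
    · intro b hb
      rw [zero_pow hb, mul_zero]

end Pool.Agent.H64.LG
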