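import Pool.Agent.H64.LG.Defs

/-!
# LG.Arc : archimedean bounds of the coefficients of `F^j`

PROOF. There are finitely many embeddings `σ : K →+* ℂ`. `|cb i| ≤ 1` (`centralBinom i ≤ 4^i`). With `M ≥ 1` an upper bound of all `‖σ c‖, ‖σ A‖, ‖σ B‖`: `‖σ (aK c m)‖ ≤ (m + 1) M^m ≤ (2 M)^m`, so
`‖σ (eK c A B k)‖ ≤ C0^k` for `k ≥ 1` with `C0 = 8 M²` or similar (`k = 2 n + 1`), and `eK 0 = 0`. `F^j`: with `C1 = 2 C0`, `‖σ (coeff n (F^j))‖ ≤ C1^n` by induction on `j`: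
`∑_{b ≥ 1} C1^(n-b) C0^b = C1^n ∑_{b ≥ 1} 2^(-b) ≤ C1^n`. Finally `X^i * F^j` shifts the index: `C1^(n-i) ≤ C1^n`, and it is `0` for `n < i`.
`arcc` is the special case of one complex number field replaced by `ℂ` (same proof with `σ = id`): state it for `ℂ` for the analytic part.
-/

set_option autoImplicit false

namespace Pool.Agent.H64.LG

open PowerSeries

private lemma cb_map {K L : Type} [Field K] [Field L] (f : K →+* L) (i : ℕ) : f (cb K i) = cb L i := by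
  unfold cb
  rw [map_div₀, map_natCast, map_pow, map_ofNat]

private lemma aK_map {K L : Type} [Field K] [Field L] (f : K →+* L) (c : K) (m : ℕ) :
    f (aK c m) = aK (f c) m := by
  unfold aK
  rw [map_sum]
  refine Finset.sum_congr rfl fun i _ => ?_
  rw [map_mul, map_mul, map_pow, cb_map, cb_map]

private lemma bK_map {K L : Type} [Field K] [Field L] (f : K →+* L) (c A B : K) (n : ℕ) :
    f (bK c A B n) = bK (f c) (f A) (f B) n := by
  cases n with
  | zero =>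
    show f (A * aK c 0) = f A * aK (f c) 0
    rw [map_mul, aK_map]
  | succ n =>
    show f (A * aK c (n + 1) + B * aK c n) = f A * aK (f c) (n + 1) + f B * aK (f c) n
    rw [map_add, map_mul, map_mul, aK_map, aK_map]

theorem eK_map {K L : Type} [Field K] [Field L] (f : K →+* L) (c A B : K) (k : ℕ) :
    f (eK c A B k) = eK (f c) (f A) (f B) k := by
  unfold eK
  split_ifs with h
  · rw [map_div₀, bK_map, map_natCast]
  · exact map_zero f

private lemma norm_cb (i : ℕ) : ‖cb ℂ i‖ ≤ 1 := by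
  unfold cb
  have h1 : (Nat.centralBinom i : ℝ) ≤ 4 ^ i := by
    have h2 : Nat.centralBinom i ≤ 2 ^ (2 * i) := by
      rw [Nat.centralBinom_eq_two_mul_choose]
      exact Nat.choose_le_two_pow _ _
    have h3 : (2 : ℕ) ^ (2 * i) = 4 ^ i := by rw [pow_mul]; norm_num
    rw [h3] at h2
    exact_mod_cast h2
  rw [norm_div, norm_pow, Complex.norm_natCast, Complex.norm_ofNat]
  rw [div_le_one (by positivity)]
  exact h1

private lemma norm_aK (c : ℂ) {M : ℝ} (hM : 1 ≤ M) (hc : ‖c‖ ≤ M) (m : ℕ) : ‖aK c m‖ ≤ (2 * M) ^ m := by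
  have hM0 : 0 ≤ M := by linarith
  have h1 : ∀ i ∈ Finset.range (m + 1), ‖cb ℂ i * cb ℂ (m - i) * c ^ i‖ ≤ M ^ m := by
    intro i hi
    rw [Finset.mem_range] at hi
    rw [norm_mul, norm_mul, norm_pow]
    have h2 : ‖cb ℂ i‖ * ‖cb ℂ (m - i)‖ ≤ 1 := by
      have := mul_le_mul (norm_cb i) (norm_cb (m - i)) (norm_nonneg _) zero_le_one
      simpa using this
    have h3 : ‖c‖ ^ i ≤ M ^ m :=
      (pow_le_pow_left₀ (norm_nonneg _) hc i).trans (pow_le_pow_right₀ hM (by omega))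
    calc ‖cb ℂ i‖ * ‖cb ℂ (m - i)‖ * ‖c‖ ^ i ≤ 1 * M ^ m :=
          mul_le_mul h2 h3 (by positivity) zero_le_one
      _ = M ^ m := one_mul _
  unfold aK
  refine (norm_sum_le _ _).trans ((Finset.sum_le_sum h1).trans ?_)
  rw [Finset.sum_const, Finset.card_range, nsmul_eq_mul, mul_pow]
  refine mul_le_mul_of_nonneg_right ?_ (by positivity)
  have h4 : m + 1 ≤ 2 ^ m := Nat.lt_two_pow_self
  exact_mod_cast h4

theorem arca (c : ℂ) : ∃ C : ℝ, 1 ≤ C ∧ ∀ m, ‖aK c m‖ ≤ C ^ m := by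
  refine ⟨2 * max 1 ‖c‖, ?_, fun m => norm_aK c (le_max_left _ _) (le_max_right _ _) m⟩
  have := le_max_left 1 ‖c‖
  linarith

theorem arcc (c A B : ℂ) : ∃ C : ℝ, 1 ≤ C ∧ ∀ k, ‖eK c A B k‖ ≤ C ^ k := by
  obtain ⟨M, hM, ha⟩ := arca c
  have hM0 : 0 ≤ M := by linarith
  have hA := norm_nonneg A
  have hB := norm_nonneg B
  have hC1 : 1 + ‖A‖ + ‖B‖ ≤ (1 + ‖A‖ + ‖B‖) * M := le_mul_of_one_le_right (by positivity) hM
  have hCM : M ≤ (1 + ‖A‖ + ‖B‖) * M := le_mul_of_one_le_left hM0 (by linarith)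
  have hb : ∀ n, ‖bK c A B n‖ ≤ (‖A‖ + ‖B‖) * M ^ n := by
    intro n
    cases n with
    | zero =>
      show ‖A * aK c 0‖ ≤ _
      rw [norm_mul]
      have h1 := ha 0
      rw [pow_zero] at h1 ⊢
      nlinarith [norm_nonneg (aK c 0)]
    | succ n =>
      show ‖A * aK c (n + 1) + B * aK c n‖ ≤ _
      have h1 := ha (n + 1)
      have h2 : ‖aK c n‖ ≤ M ^ (n + 1) := (ha n).trans (pow_le_pow_right₀ hM (by omega))
      calc ‖A * aK c (n + 1) + B * aK c n‖ ≤ ‖A * aK c (n + 1)‖ + ‖B * aK c n‖ := norm_add_le _ _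
        _ = ‖A‖ * ‖aK c (n + 1)‖ + ‖B‖ * ‖aK c n‖ := by rw [norm_mul, norm_mul]
        _ ≤ ‖A‖ * M ^ (n + 1) + ‖B‖ * M ^ (n + 1) :=
            add_le_add (mul_le_mul_of_nonneg_left h1 hA) (mul_le_mul_of_nonneg_left h2 hB)
        _ = (‖A‖ + ‖B‖) * M ^ (n + 1) := by ring
  refine ⟨(1 + ‖A‖ + ‖B‖) * M, by linarith, fun k => ?_⟩
  set C := (1 + ‖A‖ + ‖B‖) * M with hC
  have hC1' : 1 ≤ C := by linarith
  have hC0 : 0 ≤ C := by linarith
  unfold eK
  split_ifs with h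
  · have hk : 1 ≤ k := by
      by_contra hcon
      have : k = 0 := by omega
      rw [this] at h
      simp at h
    rw [norm_div, Complex.norm_natCast]
    have hk' : (1 : ℝ) ≤ k := by exact_mod_cast hk
    have h1 : ‖bK c A B (k / 2)‖ / k ≤ ‖bK c A B (k / 2)‖ := div_le_self (norm_nonneg _) hk'
    refine h1.trans ((hb _).trans ?_)
    have h2 : M ^ (k / 2) ≤ C ^ (k / 2) := pow_le_pow_left₀ hM0 hCM _
    calc (‖A‖ + ‖B‖) * M ^ (k / 2) ≤ C * C ^ (k / 2) :=
          mul_le_mul (by linarith) h2 (by positivity) hC0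
      _ = C ^ (k / 2 + 1) := by rw [pow_succ]; ring
      _ ≤ C ^ k := pow_le_pow_right₀ hC1' (by omega)
  · rw [norm_zero]
    positivity

private lemma geo (C : ℝ) (n : ℕ) :
    ∑ p ∈ Finset.HasAntidiagonal.antidiagonal n, (2 * C) ^ p.1 * C ^ p.2 = 2 * (2 * C) ^ n - C ^ n := by
  induction n with
  | zero => simp; norm_num
  | succ n ih =>
    rw [Finset.Nat.sum_antidiagonal_succ]
    have h1 : ∑ p ∈ Finset.HasAntidiagonal.antidiagonal n, (2 * C) ^ (p.1 + 1) * C ^ p.2 =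
        (2 * C) * ∑ p ∈ Finset.HasAntidiagonal.antidiagonal n, (2 * C) ^ p.1 * C ^ p.2 := by
      rw [Finset.mul_sum]
      refine Finset.sum_congr rfl fun p _ => ?_
      ring
    rw [h1, ih]
    ring

private lemma pow_bound {K : Type} [Field K] (σ : K →+* ℂ) {F : PowerSeries K} {C : ℝ} (hC : 1 ≤ C)
    (h0 : coeff 0 F = 0) (hF : ∀ n, ‖σ (coeff n F)‖ ≤ C ^ n) (j : ℕ) :
    ∀ n, ‖σ (coeff n (F ^ j))‖ ≤ (2 * C) ^ n := by
  have hC0 : 0 ≤ C := by linarith
  induction j with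
  | zero =>
    intro n
    rw [pow_zero, coeff_one]
    split_ifs with h
    · rw [h]; simp
    · rw [map_zero, norm_zero]; positivity
  | succ j ih =>
    intro n
    rw [pow_succ, coeff_mul, map_sum]
    refine (norm_sum_le _ _).trans ?_
    cases n with
    | zero =>
      have h1 : coeff 0 F = 0 := h0
      simp [h1]
    | succ n =>
      rw [Finset.Nat.sum_antidiagonal_succ']
      have h1 : ‖σ (coeff (n + 1, 0).1 (F ^ j) * coeff (n + 1, 0).2 F)‖ = 0 := by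
        show ‖σ (coeff (n + 1) (F ^ j) * coeff 0 F)‖ = 0
        rw [h0, mul_zero, map_zero, norm_zero]
      rw [h1, zero_add]
      have h2 : ∀ p ∈ Finset.HasAntidiagonal.antidiagonal n,
          ‖σ (coeff (p.1, p.2 + 1).1 (F ^ j) * coeff (p.1, p.2 + 1).2 F)‖ ≤ C * ((2 * C) ^ p.1 * C ^ p.2) := by
        intro p _
        show ‖σ (coeff p.1 (F ^ j) * coeff (p.2 + 1) F)‖ ≤ _
        rw [map_mul, norm_mul]
        calc ‖σ (coeff p.1 (F ^ j))‖ * ‖σ (coeff (p.2 + 1) F)‖ ≤ (2 * C) ^ p.1 * C ^ (p.2 + 1) :=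
              mul_le_mul (ih p.1) (hF _) (norm_nonneg _) (by positivity)
          _ = C * ((2 * C) ^ p.1 * C ^ p.2) := by ring
      refine (Finset.sum_le_sum h2).trans ?_
      rw [← Finset.mul_sum, geo]
      have h3 : 0 ≤ C * C ^ n := by positivity
      calc C * (2 * (2 * C) ^ n - C ^ n) = (2 * C) ^ (n + 1) - C * C ^ n := by ring
        _ ≤ (2 * C) ^ (n + 1) := by linarith

theorem arc (K : Type) [Field K] [NumberField K] (c A B : K) :
    ∃ C : ℝ, 1 ≤ C ∧ ∀ (σ : K →+* ℂ) (i j n : ℕ), ‖σ (coeff n ((X : PowerSeries K) ^ i * FK c A B ^ j))‖ ≤ C ^ n := by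
  classical
  choose f hf1 hf2 using fun σ : K →+* ℂ => arcc (σ c) (σ A) (σ B)
  have hC1 : 1 ≤ 1 + ∑ σ : K →+* ℂ, f σ := by
    have := Finset.sum_nonneg (s := (Finset.univ : Finset (K →+* ℂ))) (f := f)
      fun σ _ => zero_le_one.trans (hf1 σ)
    linarith
  refine ⟨2 * (1 + ∑ σ : K →+* ℂ, f σ), by linarith, fun σ i j n => ?_⟩
  set C := 1 + ∑ σ : K →+* ℂ, f σ with hC
  have hσ : f σ ≤ C := by
    have := Finset.single_le_sum (s := (Finset.univ : Finset (K →+* ℂ))) (f := f)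
      (fun τ _ => zero_le_one.trans (hf1 τ)) (Finset.mem_univ σ)
    linarith
  have h0 : coeff 0 (FK c A B) = 0 := by
    unfold FK
    rw [coeff_mk]
    unfold eK
    simp
  have hF : ∀ n, ‖σ (coeff n (FK c A B))‖ ≤ C ^ n := by
    intro n
    unfold FK
    rw [coeff_mk, eK_map]
    exact (hf2 σ n).trans (pow_le_pow_left₀ (zero_le_one.trans (hf1 σ)) hσ n)
  have hp := pow_bound σ hC1 h0 hF j
  rw [coeff_X_pow_mul']
  split_ifs with h
  · exact (hp (n - i)).trans (pow_le_pow_right₀ (by linarith) (by omega))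
  · rw [map_zero, norm_zero]
    positivity

end Pool.Agent.H64.LG
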