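import Pool.Agent.H64.LG.Defs

/-!
# LG.Dlt : the denominators `Dl D n`

PROOFS. `Dl_mul`: `a / q + b / q ≤ (a + b) / q` and the product over the larger range. `Dl_dvd`: `D ^ k ∣ D ^ n` and the products (`k / q ≤ n / q`), or from `Dl_mul`.
`pow_dvd`: the factor `m + 1 = p` (`p ≤ n` if `n / p² ≥ 1`). `Dl_le`: `(m + 1)^(n / (m + 1)²) ≤ exp (n log (m + 1) / (m + 1)²)`, `log x ≤ 2 √x` (or
`Real.log_le_rpow_div`), so the product is `≤ exp (2 n ∑ (m + 1)^(-3/2))` (`Real.summable_nat_rpow_inv`), hence `Dl D n ≤ C^n` with `C = D exp (2 ∑ ..)`.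
-/

set_option autoImplicit false

namespace Pool.Agent.H64.LG

private lemma prod_ext (n N : ℕ) (h : n ≤ N) :
    ∏ m ∈ Finset.range n, (m + 1) ^ (n / (m + 1) ^ 2) =
      ∏ m ∈ Finset.range N, (m + 1) ^ (n / (m + 1) ^ 2) := by
  apply Finset.prod_subset (Finset.range_subset_range.2 h)
  intro m _ hm
  rw [Finset.mem_range, not_lt] at hm
  have h1 : n < (m + 1) ^ 2 := by nlinarith
  rw [Nat.div_eq_of_lt h1, pow_zero]

theorem Dl_mul (D a b : ℕ) : Dl D a * Dl D b ∣ Dl D (a + b) := by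
  unfold Dl
  rw [prod_ext a (a + b) (Nat.le_add_right a b), prod_ext b (a + b) (Nat.le_add_left b a)]
  have h1 : D ^ a * (∏ m ∈ Finset.range (a + b), (m + 1) ^ (a / (m + 1) ^ 2)) *
      (D ^ b * ∏ m ∈ Finset.range (a + b), (m + 1) ^ (b / (m + 1) ^ 2)) =
      D ^ (a + b) * ∏ m ∈ Finset.range (a + b),
        (m + 1) ^ (a / (m + 1) ^ 2 + b / (m + 1) ^ 2) := by
    simp_rw [pow_add]
    rw [Finset.prod_mul_distrib]
    ring
  rw [h1]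
  apply Nat.mul_dvd_mul_left
  apply Finset.prod_dvd_prod_of_dvd
  intro m _
  exact Nat.pow_dvd_pow _ Nat.div_add_div_le_add_div

theorem Dl_dvd (D : ℕ) {k n : ℕ} (h : k ≤ n) : Dl D k ∣ Dl D n := by
  obtain ⟨j, rfl⟩ := Nat.exists_eq_add_of_le h
  exact (Dvd.intro _ rfl).trans (Dl_mul D k j)

theorem pow_dvd (D p n : ℕ) (hp : 1 ≤ p) : p ^ (n / p ^ 2) ∣ Dl D n := by
  rcases Nat.eq_zero_or_pos (n / p ^ 2) with h0 | h0
  · rw [h0, pow_zero]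
    exact one_dvd _
  · have h1 : p ^ 2 ≤ n := (Nat.div_pos_iff.1 h0).2
    have h2 : p ≤ n := le_trans (by nlinarith) h1
    obtain ⟨m, rfl⟩ := Nat.exists_eq_add_of_le' hp
    unfold Dl
    apply Dvd.dvd.mul_left
    exact Finset.dvd_prod_of_mem (fun m => (m + 1) ^ (n / (m + 1) ^ 2))
      (Finset.mem_range.2 (by omega))

theorem Dl_pos (D n : ℕ) (hD : 1 ≤ D) : 1 ≤ Dl D n := by
  unfold Dl
  apply Nat.mul_pos (pow_pos (by omega) n)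
  apply Finset.prod_pos
  intro m _
  positivity

private lemma term_le (n m : ℕ) :
    ((((m + 1) ^ (n / (m + 1) ^ 2) : ℕ)) : ℝ) ≤
      Real.exp (n * (2 * (((m + 1 : ℕ) : ℝ) ^ (3 / 2 : ℝ))⁻¹)) := by
  have hx : (0 : ℝ) < ((m + 1 : ℕ) : ℝ) := by positivity
  set x : ℝ := ((m + 1 : ℕ) : ℝ) with hxd
  have hx1 : 1 ≤ x := by rw [hxd]; exact_mod_cast Nat.le_add_left 1 m
  have h1 : ((((m + 1) ^ (n / (m + 1) ^ 2) : ℕ)) : ℝ) =
      Real.exp (((n / (m + 1) ^ 2 : ℕ) : ℝ) * Real.log x) := by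
    rw [Nat.cast_pow, ← hxd, mul_comm, Real.exp_mul, Real.exp_log hx, Real.rpow_natCast]
  rw [h1]
  apply Real.exp_le_exp.2
  have h2 : ((n / (m + 1) ^ 2 : ℕ) : ℝ) ≤ n / x ^ 2 := by
    have h := @Nat.cast_div_le ℝ _ _ _ n ((m + 1) ^ 2)
    rw [Nat.cast_pow] at h
    exact h
  have h3 : Real.log x ≤ 2 * x ^ (1 / 2 : ℝ) := by
    have h4 : Real.log x = 2 * Real.log (x ^ (1 / 2 : ℝ)) := by
      rw [Real.log_rpow hx]; ring
    rw [h4]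
    have h5 := Real.log_le_sub_one_of_pos (Real.rpow_pos_of_pos hx (1 / 2 : ℝ))
    linarith
  have h6 : 0 ≤ Real.log x := Real.log_nonneg hx1
  have h7 : (x ^ (3 / 2 : ℝ))⁻¹ = x ^ (1 / 2 : ℝ) / x ^ 2 := by
    rw [← Real.rpow_neg hx.le, ← Real.rpow_natCast x 2, ← Real.rpow_sub hx]
    norm_num
  rw [h7]
  calc ((n / (m + 1) ^ 2 : ℕ) : ℝ) * Real.log x ≤ (n / x ^ 2) * (2 * x ^ (1 / 2 : ℝ)) :=
        mul_le_mul h2 h3 h6 (by positivity)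
    _ = n * (2 * (x ^ (1 / 2 : ℝ) / x ^ 2)) := by ring

theorem Dl_le (D : ℕ) (hD : 1 ≤ D) : ∃ C : ℝ, 1 ≤ C ∧ ∀ n : ℕ, (Dl D n : ℝ) ≤ C ^ n := by
  have hs : Summable fun m : ℕ => 2 * (((m + 1 : ℕ) : ℝ) ^ (3 / 2 : ℝ))⁻¹ := by
    apply Summable.mul_left
    exact (summable_nat_add_iff (f := fun m : ℕ => ((m : ℝ) ^ (3 / 2 : ℝ))⁻¹) 1).2
      (Real.summable_nat_rpow_inv.2 (by norm_num))
  have hpos : ∀ m : ℕ, 0 ≤ 2 * (((m + 1 : ℕ) : ℝ) ^ (3 / 2 : ℝ))⁻¹ := fun m => by positivity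
  set S : ℝ := ∑' m : ℕ, 2 * (((m + 1 : ℕ) : ℝ) ^ (3 / 2 : ℝ))⁻¹ with hS
  have hS0 : 0 ≤ S := tsum_nonneg hpos
  have hD1 : (1 : ℝ) ≤ D := by exact_mod_cast hD
  refine ⟨D * Real.exp S, ?_, fun n => ?_⟩
  · have h1 : (1 : ℝ) ≤ Real.exp S := Real.one_le_exp hS0
    nlinarith
  · unfold Dl
    rw [Nat.cast_mul, Nat.cast_prod, Nat.cast_pow, mul_pow]
    apply mul_le_mul_of_nonneg_left _ (by positivity)
    calc ∏ m ∈ Finset.range n, ((((m + 1) ^ (n / (m + 1) ^ 2) : ℕ)) : ℝ)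
        ≤ ∏ m ∈ Finset.range n, Real.exp (n * (2 * (((m + 1 : ℕ) : ℝ) ^ (3 / 2 : ℝ))⁻¹)) :=
          Finset.prod_le_prod (fun m _ => by positivity) (fun m _ => term_le n m)
      _ = Real.exp (n * ∑ m ∈ Finset.range n, 2 * (((m + 1 : ℕ) : ℝ) ^ (3 / 2 : ℝ))⁻¹) := by
          rw [← Real.exp_sum, Finset.mul_sum]
      _ ≤ Real.exp (n * S) := by
          apply Real.exp_le_exp.2
          apply mul_le_mul_of_nonneg_left _ (Nat.cast_nonneg n)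
          exact hs.sum_le_tsum _ (fun m _ => hpos m)
      _ = Real.exp S ^ n := by rw [← Real.exp_nat_mul]

end Pool.Agent.H64.LG
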