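import Pool.Agent.H64.LG.Sig
import Pool.Agent.H64.LG.Arc
import Pool.Agent.H64.LG.Dlt

/-!
# LG.AuxP : the auxiliary polynomial

PROOF. `int`: the power series `f` with all `Dl D n * coeff n f` integral over `ℤ` form a subring (`Dl_mul`, `Dl_dvd`; products: `coeff n (f g) = ∑ coeff a f coeff b g` and `Dl D a * Dl D b ∣ Dl D n`); it contains `X` and `FK` (`ht`).
`aux`: `T = E L`, `α = Fin T`, `β = Fin L × Fin (2 E)`, `M n (i, j) = Dl D T * coeff n (X^i F^j)` in `𝓞 K` (integral, as `Dl D n ∣ Dl D T`), `house ≤ C2^T C1^T` (`Dl_le`, `arc`; `house x` is the maximum of the `‖σ x‖`: `house_eq_sup'`).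
`siegel` gives `ξ` with `house (ξ) ≤ C0 (C0 (2 T) (C1 C2)^T) ≤ C^(T+1)` for a suitable `C` (`2 T ≤ 4^T`). `Dl D T ≠ 0`, so the coefficients below `T` vanish.
-/

set_option autoImplicit false

namespace Pool.Agent.H64.LG

open PowerSeries NumberField

/-- the auxiliary function -/
noncomputable def Gs {K : Type} [Field K] (c A B : K) (L M : ℕ) (ξ : Fin L → Fin M → K) : PowerSeries K :=
  ∑ i : Fin L, ∑ j : Fin M, C (ξ i j) * ((X : PowerSeries K) ^ (i : ℕ) * FK c A B ^ (j : ℕ))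

private lemma auxp_eq {K : Type} [Field K] {x y : K} (h : IsIntegral ℤ x)
    (e : x = y) : IsIntegral ℤ y := e ▸ h

private lemma auxp_nat {K : Type} [Field K] [NumberField K] (n : ℕ) : IsIntegral ℤ (n : K) := by
  have := isIntegral_algebraMap (R := ℤ) (A := K) (x := (n : ℤ))
  simpa using this

private lemma auxp_dvd {K : Type} [Field K] [NumberField K] {a b : ℕ} (h : a ∣ b) {x : K}
    (hx : IsIntegral ℤ ((a : K) * x)) : IsIntegral ℤ ((b : K) * x) := by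
  obtain ⟨k, rfl⟩ := h
  have := (auxp_nat (K := K) k).mul hx
  refine auxp_eq this ?_
  push_cast
  ring

private lemma auxp_mul {K : Type} [Field K] [NumberField K] {D : ℕ} {f g : PowerSeries K}
    (hf : ∀ n, IsIntegral ℤ ((Dl D n : K) * coeff n f))
    (hg : ∀ n, IsIntegral ℤ ((Dl D n : K) * coeff n g)) (n : ℕ) :
    IsIntegral ℤ ((Dl D n : K) * coeff n (f * g)) := by
  rw [coeff_mul, Finset.mul_sum]
  refine IsIntegral.sum _ fun p hp => ?_
  rw [Finset.HasAntidiagonal.mem_antidiagonal] at hp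
  have h1 : Dl D p.1 * Dl D p.2 ∣ Dl D n := hp ▸ Dl_mul D p.1 p.2
  refine auxp_dvd h1 ?_
  have h2 := (hf p.1).mul (hg p.2)
  refine auxp_eq h2 ?_
  push_cast
  ring

theorem int (K : Type) [Field K] [NumberField K] (c A B : K) (D : ℕ) (hD : 1 ≤ D)
    (ht : ∀ k, IsIntegral ℤ ((Dl D k : K) * eK c A B k)) (i j n : ℕ) :
    IsIntegral ℤ ((Dl D n : K) * coeff n ((X : PowerSeries K) ^ i * FK c A B ^ j)) := by
  have h1 : ∀ n, IsIntegral ℤ ((Dl D n : K) * coeff n (1 : PowerSeries K)) := by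
    intro n
    rw [coeff_one]
    split_ifs
    · simpa using auxp_nat (K := K) (Dl D n)
    · rw [mul_zero]
      exact isIntegral_zero
  have hX : ∀ n, IsIntegral ℤ ((Dl D n : K) * coeff n (X : PowerSeries K)) := by
    intro n
    rw [coeff_X]
    split_ifs
    · simpa using auxp_nat (K := K) (Dl D n)
    · rw [mul_zero]
      exact isIntegral_zero
  have hF : ∀ n, IsIntegral ℤ ((Dl D n : K) * coeff n (FK c A B)) := by
    intro n
    unfold FK
    rw [coeff_mk]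
    exact ht n
  have hp : ∀ (f : PowerSeries K), (∀ n, IsIntegral ℤ ((Dl D n : K) * coeff n f)) → ∀ k n,
      IsIntegral ℤ ((Dl D n : K) * coeff n (f ^ k)) := by
    intro f hf k
    induction k with
    | zero => simpa using h1
    | succ k ih => rw [pow_succ]; exact auxp_mul ih hf
  exact auxp_mul (hp X hX i) (hp _ hF j) n

private lemma auxp_house {K : Type} [Field K] [NumberField K] {x : K} {A : ℝ} (hA : 0 ≤ A)
    (h : ∀ σ : K →+* ℂ, ‖σ x‖ ≤ A) : house x ≤ A := by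
  unfold house
  rw [pi_norm_le_iff_of_nonneg hA]
  intro σ
  rw [canonicalEmbedding.apply_at]
  exact h σ

theorem aux (K : Type) [Field K] [NumberField K] (c A B : K) (D : ℕ) (hD : 1 ≤ D)
    (ht : ∀ k, IsIntegral ℤ ((Dl D k : K) * eK c A B k)) :
    ∃ C : ℝ, 1 ≤ C ∧ ∀ E L : ℕ, 1 ≤ E → 1 ≤ L → ∃ ξ : Fin L → Fin (2 * E) → 𝓞 K, ξ ≠ 0 ∧
      (∀ n, n < E * L → coeff n (Gs c A B L (2 * E) fun i j => ((ξ i j : 𝓞 K) : K)) = 0) ∧
      ∀ (σ : K →+* ℂ) i j, ‖σ ((ξ i j : 𝓞 K) : K)‖ ≤ C ^ (E * L + 1) := by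
  obtain ⟨C0, hC0, hS⟩ := siegel K
  obtain ⟨C1, hC1, hA1⟩ := arc K c A B
  obtain ⟨C2, hC2, hD2⟩ := Dl_le D hD
  have hC12 : 1 ≤ C1 * C2 := one_le_mul_of_one_le_of_one_le hC1 hC2
  have hC00 : 1 ≤ C0 ^ 2 := one_le_pow₀ hC0
  refine ⟨4 * C0 ^ 2 * (C1 * C2), ?_, fun E L hE hL => ?_⟩
  · have h1 : 1 ≤ 4 * C0 ^ 2 := by linarith
    exact one_le_mul_of_one_le_of_one_le h1 hC12
  set T : ℕ := E * L with hT
  have hT1 : 1 ≤ T := Nat.mul_pos hE hL
  have hi : ∀ (n : Fin T) (q : Fin L × Fin (2 * E)),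
      IsIntegral ℤ ((Dl D T : K) * coeff (n : ℕ) ((X : PowerSeries K) ^ (q.1 : ℕ) *
        FK c A B ^ (q.2 : ℕ))) := fun n q =>
    auxp_dvd (Dl_dvd D n.2.le) (int K c A B D hD ht _ _ _)
  let M : Matrix (Fin T) (Fin L × Fin (2 * E)) (𝓞 K) := fun n q =>
    ⟨(Dl D T : K) * coeff (n : ℕ) ((X : PowerSeries K) ^ (q.1 : ℕ) * FK c A B ^ (q.2 : ℕ)), hi n q⟩
  have hM : ∀ n q, ((M n q : 𝓞 K) : K) =
      (Dl D T : K) * coeff (n : ℕ) ((X : PowerSeries K) ^ (q.1 : ℕ) * FK c A B ^ (q.2 : ℕ)) :=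
    fun n q => rfl
  have hA0 : 1 ≤ (C1 * C2) ^ T := one_le_pow₀ hC12
  have hMh : ∀ n q, house ((algebraMap (𝓞 K) K) (M n q)) ≤ (C1 * C2) ^ T := by
    intro n q
    refine auxp_house (by linarith) fun σ => ?_
    have e : (algebraMap (𝓞 K) K) (M n q) = (Dl D T : K) *
      coeff (n : ℕ) ((X : PowerSeries K) ^ (q.1 : ℕ) * FK c A B ^ (q.2 : ℕ)) := rfl
    rw [e, map_mul, norm_mul, map_natCast, Complex.norm_natCast, mul_pow, mul_comm (C1 ^ T)]
    refine mul_le_mul (hD2 T) ?_ (norm_nonneg _) (by positivity)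
    exact (hA1 σ _ _ _).trans (pow_le_pow_right₀ hC1 n.2.le)
  obtain ⟨ξ, hξ, hMξ, hb⟩ := hS (Fin T) (Fin L × Fin (2 * E)) T hT1 (Fintype.card_fin T)
    (by rw [Fintype.card_prod, Fintype.card_fin, Fintype.card_fin, hT]; ring) M ((C1 * C2) ^ T)
    hA0 hMh
  refine ⟨fun i j => ξ (i, j), ?_, ?_, ?_⟩
  · intro h
    refine hξ (funext fun q => ?_)
    exact congrFun (congrFun h q.1) q.2
  · intro n hn
    have h1 := congrFun hMξ ⟨n, hn⟩
    have h2 := congrArg (algebraMap (𝓞 K) K) h1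
    simp only [Matrix.mulVec, dotProduct, map_sum, map_mul, Pi.zero_apply, map_zero] at h2
    have h3 : (Dl D T : K) * ∑ q : Fin L × Fin (2 * E),
        ((ξ q : 𝓞 K) : K) * coeff n ((X : PowerSeries K) ^ (q.1 : ℕ) * FK c A B ^ (q.2 : ℕ)) = 0 := by
      rw [Finset.mul_sum, ← h2]
      refine Finset.sum_congr rfl fun q _ => ?_
      have e : (algebraMap (𝓞 K) K) (M ⟨n, hn⟩ q) = (Dl D T : K) *
        coeff n ((X : PowerSeries K) ^ (q.1 : ℕ) * FK c A B ^ (q.2 : ℕ)) := rfl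
      rw [e]
      ring
    have h4 : (Dl D T : K) ≠ 0 := by
      have := Dl_pos D T hD
      exact_mod_cast (by omega : Dl D T ≠ 0)
    have h5 := (mul_eq_zero.1 h3).resolve_left h4
    unfold Gs
    rw [map_sum, ← h5, Fintype.sum_prod_type]
    refine Finset.sum_congr rfl fun i _ => ?_
    rw [map_sum]
    refine Finset.sum_congr rfl fun j _ => ?_
    rw [coeff_C_mul]
  · intro σ i j
    have h1 := (norm_embedding_le_house ((ξ (i, j) : 𝓞 K) : K) σ).trans (hb (i, j))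
    refine h1.trans ?_
    have h2 : (2 * T : ℝ) ≤ 4 ^ (T + 1) := by
      have h3 : (T : ℝ) < 2 ^ T := by exact_mod_cast Nat.lt_two_pow_self
      have h4 : (2 : ℝ) ^ T ≤ 4 ^ T := pow_le_pow_left₀ (by norm_num) (by norm_num) T
      rw [pow_succ]
      linarith
    have h3 : C0 ^ 2 ≤ (C0 ^ 2) ^ (T + 1) := by
      calc C0 ^ 2 = (C0 ^ 2) ^ 1 := (pow_one _).symm
        _ ≤ _ := pow_le_pow_right₀ hC00 (by omega)
    have h4 : (C1 * C2) ^ T ≤ (C1 * C2) ^ (T + 1) := pow_le_pow_right₀ hC12 (by omega)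
    have h5 : (0 : ℝ) ≤ 2 * T := by positivity
    calc C0 * (C0 * (2 * T) * (C1 * C2) ^ T) = (2 * T) * C0 ^ 2 * (C1 * C2) ^ T := by ring
      _ ≤ 4 ^ (T + 1) * (C0 ^ 2) ^ (T + 1) * (C1 * C2) ^ (T + 1) := by gcongr
      _ = (4 * C0 ^ 2 * (C1 * C2)) ^ (T + 1) := by
        rw [mul_pow (4 * C0 ^ 2), mul_pow 4]

end Pool.Agent.H64.LG
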