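import Pool.Agent.H64.LG.Defs

/-!
# LG.Cap : the Capelli identity for two vectors

PROOF. `DN N P = ∑_{i,l,j} N i l X(l,j) ∂_{ij} P` (`mkDerivation` and `pderiv`: both sides are derivations, compare on the variables), first for all `N`. Then write
`D_E = ∑_j X(1,j) ∂_{0j}`, `D_F = ∑_j X(0,j) ∂_{1j}`, `D_H = ∑_j (X(0,j) ∂_{0j} - X(1,j) ∂_{1j})`, expand by Leibniz
(`Derivation.leibniz`, `pderiv_X`), use that the `pderiv` commute, and `ring` in the four first and ten second derivatives of `P`.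
`[D_E, D_F]`-type terms are covered by the expansion; the identity is the Casimir element of `sl₂` on the left, and the Casimir element of the
commuting `gl₂` minus `4 det Ω` on the right (check: `P = X(0,0)^n`: both sides `n (n + 2)`; `P = det`: `0 = 8 - 8`).
-/

set_option autoImplicit false

namespace Pool.Agent.H64.LG

open MvPolynomial

/-- the Euler operator -/
noncomputable def Eu {R : Type} [CommRing R] (P : MvPolynomial (Fin 2 × Fin 2) R) : MvPolynomial (Fin 2 × Fin 2) R :=
  ∑ ij : Fin 2 × Fin 2, X ij * pderiv ij P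

/-- Cayley's operator -/
noncomputable def Om {R : Type} [CommRing R] (P : MvPolynomial (Fin 2 × Fin 2) R) : MvPolynomial (Fin 2 × Fin 2) R :=
  pderiv (0, 0) (pderiv (1, 1) P) - pderiv (1, 0) (pderiv (0, 1) P)

private theorem pd_comm {R : Type} [CommRing R] (i j : Fin 2 × Fin 2) (P : MvPolynomial (Fin 2 × Fin 2) R) :
    pderiv i (pderiv j P) = pderiv j (pderiv i P) := by
  have h : ⁅(pderiv i : Derivation R (MvPolynomial (Fin 2 × Fin 2) R) (MvPolynomial (Fin 2 × Fin 2) R)),
      (pderiv j : Derivation R (MvPolynomial (Fin 2 × Fin 2) R) (MvPolynomial (Fin 2 × Fin 2) R))⁆ = 0 := by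
    refine MvPolynomial.derivation_ext fun k => ?_
    rw [Derivation.commutator_apply, Derivation.zero_apply, pderiv_X, pderiv_X]
    rcases eq_or_ne i k with h1 | h1 <;> rcases eq_or_ne j k with h2 | h2 <;>
      simp [h1, h2]
  have h2 := congrArg (fun D : Derivation R (MvPolynomial (Fin 2 × Fin 2) R)
    (MvPolynomial (Fin 2 × Fin 2) R) => D P) h
  simp only [Derivation.commutator_apply, Derivation.zero_apply] at h2
  exact sub_eq_zero.1 h2

private theorem dn_eq {R : Type} [CommRing R] (N : Fin 2 → Fin 2 → R) (P : MvPolynomial (Fin 2 × Fin 2) R) :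
    DN N P = ∑ ij : Fin 2 × Fin 2, (∑ l : Fin 2, C (N ij.1 l) * X (l, ij.2)) * pderiv ij P := by
  have h : DN N =
      (∑ l : Fin 2, C (N 0 l) * X (l, 0) : MvPolynomial (Fin 2 × Fin 2) R) •
        (pderiv (0, 0) : Derivation R (MvPolynomial (Fin 2 × Fin 2) R) (MvPolynomial (Fin 2 × Fin 2) R)) +
      (∑ l : Fin 2, C (N 0 l) * X (l, 1) : MvPolynomial (Fin 2 × Fin 2) R) •
        (pderiv (0, 1) : Derivation R (MvPolynomial (Fin 2 × Fin 2) R) (MvPolynomial (Fin 2 × Fin 2) R)) +
      (∑ l : Fin 2, C (N 1 l) * X (l, 0) : MvPolynomial (Fin 2 × Fin 2) R) •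
        (pderiv (1, 0) : Derivation R (MvPolynomial (Fin 2 × Fin 2) R) (MvPolynomial (Fin 2 × Fin 2) R)) +
      (∑ l : Fin 2, C (N 1 l) * X (l, 1) : MvPolynomial (Fin 2 × Fin 2) R) •
        (pderiv (1, 1) : Derivation R (MvPolynomial (Fin 2 × Fin 2) R) (MvPolynomial (Fin 2 × Fin 2) R)) := by
    refine MvPolynomial.derivation_ext fun k => ?_
    unfold DN
    rw [mkDerivation_X]
    simp only [Derivation.add_apply, Derivation.smul_apply, pderiv_X, smul_eq_mul]
    obtain ⟨i, j⟩ := k
    fin_cases i <;> fin_cases j <;> simp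
  rw [h]
  simp only [Derivation.add_apply, Derivation.smul_apply, smul_eq_mul, Fintype.sum_prod_type,
    Fin.sum_univ_two]
  ring

theorem capelli {R : Type} [CommRing R] (P : MvPolynomial (Fin 2 × Fin 2) R) :
    2 * (DN (fun i l => if i = 0 ∧ l = 1 then 1 else 0) (DN (fun i l => if i = 1 ∧ l = 0 then 1 else 0) P) +
      DN (fun i l => if i = 1 ∧ l = 0 then 1 else 0) (DN (fun i l => if i = 0 ∧ l = 1 then 1 else 0) P)) +
      DN (fun i l => if i = 0 ∧ l = 0 then 1 else if i = 1 ∧ l = 1 then -1 else 0)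
        (DN (fun i l => if i = 0 ∧ l = 0 then 1 else if i = 1 ∧ l = 1 then -1 else 0) P) =
    Eu (Eu P) + 2 * Eu P - 4 * ((X (0, 0) * X (1, 1) - X (1, 0) * X (0, 1)) * Om P) := by
  simp only [dn_eq, Eu, Om, Fintype.sum_prod_type, Fin.sum_univ_two, Derivation.leibniz, map_add,
    smul_eq_mul, pderiv_X, pderiv_C, Pi.single_apply, Prod.mk.injEq]
  simp only [Fin.isValue, zero_ne_one, one_ne_zero, and_true, and_false, and_self,
    if_true, if_false, map_one, map_zero, map_neg]
  have c1 := pd_comm (0, 0) (0, 1) P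
  have c2 := pd_comm (0, 0) (1, 0) P
  have c3 := pd_comm (0, 0) (1, 1) P
  have c4 := pd_comm (0, 1) (1, 0) P
  have c5 := pd_comm (0, 1) (1, 1) P
  have c6 := pd_comm (1, 0) (1, 1) P
  simp only [c1, c2, c3, c4, c5, c6]
  ring

end Pool.Agent.H64.LG
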