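import Pool.Agent.H64.LG.Defs

/-!
# LG.Rec : power series solutions of Legendre's equation at `c + t`

PROOFS. `gs_rec`: unfold `gc`. `leg_iff`: the coefficient of `t^n` of the left side of `Leg` is
`c (1 - c) (n + 2)(n + 1) y_{n+2} + (1 - 2 c)(n + 1)² y_{n+1} - (n + 1/2)² y_n`, because
`(c + t)(1 - c - t) = c (1 - c) + (1 - 2 c) t - t²` (write it like this first; `coeff_succ_X_mul`, `coeff_X_pow_mul'`,
`PowerSeries.coeff_derivative`; the cases `n = 0`, `n = 1` separately). `leg_basis`: both sides satisfy the recursion and have the same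
first two coefficients; strong induction. `wron`: `W = g_0 g_1' - g_1 g_0'`, `(k (1 - k) W)' = 0` from the two equations
(`k (1 - k) W' = - (1 - 2 k) W`), constant coefficient `c (1 - c)`; a power series with derivative `0` is constant.
-/

set_option autoImplicit false

namespace Pool.Agent.H64.LG

open Pool.H61.QF PowerSeries

private theorem gs_c0 (c : Kbar) (i : Fin 2) (n : ℕ) :
    coeff n (gs c i) = (gc c (if i = 0 then 1 else 0) (if i = 0 then 0 else 1) n).1 := by
  unfold gs
  rw [PowerSeries.coeff_mk]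

theorem gs_rec (c : Kbar) (hc0 : c ≠ 0) (hc1 : c ≠ 1) (i : Fin 2) (n : ℕ) :
    c * (1 - c) * ((n : Kbar) + 2) * ((n : Kbar) + 1) * coeff (n + 2) (gs c i) =
      ((n : Kbar) + 1 / 2) ^ 2 * coeff n (gs c i) - (1 - 2 * c) * ((n : Kbar) + 1) ^ 2 * coeff (n + 1) (gs c i) := by
  have h1 : (n : Kbar) + 2 ≠ 0 := by exact_mod_cast Nat.succ_ne_zero (n + 1)
  have h2 : (n : Kbar) + 1 ≠ 0 := by exact_mod_cast Nat.succ_ne_zero n
  have h3 : 1 - c ≠ 0 := sub_ne_zero.2 (Ne.symm hc1)
  have h4 : c * (1 - c) * ((n : Kbar) + 2) * ((n : Kbar) + 1) ≠ 0 :=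
    mul_ne_zero (mul_ne_zero (mul_ne_zero hc0 h3) h1) h2
  rw [gs_c0, gs_c0, gs_c0]
  simp only [gc]
  rw [mul_div_cancel₀ _ h4]

theorem gs_init (c : Kbar) : coeff 0 (gs c 0) = 1 ∧ coeff 1 (gs c 0) = 0 ∧ coeff 0 (gs c 1) = 0 ∧
    coeff 1 (gs c 1) = 1 := by
  refine ⟨?_, ?_, ?_, ?_⟩ <;> rw [gs_c0] <;> simp [gc]

private theorem cX (f : PowerSeries Kbar) (n : ℕ) :
    coeff n (X * derivative Kbar f) = (n : Kbar) * coeff n f := by
  cases n with
  | zero => simp
  | succ n =>
    rw [coeff_succ_X_mul, coeff_derivative]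
    push_cast
    ring

private theorem cXX (f : PowerSeries Kbar) (n : ℕ) :
    coeff n (X * (X * derivative Kbar (derivative Kbar f))) = (n : Kbar) * ((n : Kbar) - 1) * coeff n f := by
  cases n with
  | zero => simp
  | succ n =>
    rw [coeff_succ_X_mul]
    cases n with
    | zero => simp
    | succ n =>
      rw [coeff_succ_X_mul, coeff_derivative, coeff_derivative]
      push_cast
      ring

private theorem leg_coeff (c : Kbar) (y : PowerSeries Kbar) (n : ℕ) :
    coeff n ((C c + X) * (1 - (C c + X)) * derivative Kbar (derivative Kbar y) +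
      (1 - 2 * (C c + X)) * derivative Kbar y - C (1 / 4) * y) =
    c * (1 - c) * ((n : Kbar) + 2) * ((n : Kbar) + 1) * coeff (n + 2) y -
      (((n : Kbar) + 1 / 2) ^ 2 * coeff n y - (1 - 2 * c) * ((n : Kbar) + 1) ^ 2 * coeff (n + 1) y) := by
  have e : (C c + X) * (1 - (C c + X)) * derivative Kbar (derivative Kbar y) +
      (1 - 2 * (C c + X)) * derivative Kbar y - C (1 / 4) * y =
      C (c * (1 - c)) * derivative Kbar (derivative Kbar y) +
        C (1 - 2 * c) * (X * derivative Kbar (derivative Kbar y)) -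
        X * (X * derivative Kbar (derivative Kbar y)) + C (1 - 2 * c) * derivative Kbar y -
        C 2 * (X * derivative Kbar y) - C (1 / 4) * y := by
    simp only [map_mul, map_sub, map_one, map_ofNat]
    ring
  rw [e]
  generalize 1 - 2 * c = α
  generalize c * (1 - c) = β
  simp only [map_sub, map_add, coeff_C_mul]
  rw [cXX, cX, cX]
  simp only [coeff_derivative]
  push_cast
  ring

theorem leg_iff (c : Kbar) (y : PowerSeries Kbar) : Leg c y ↔ ∀ n : ℕ,
    c * (1 - c) * ((n : Kbar) + 2) * ((n : Kbar) + 1) * coeff (n + 2) y =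
      ((n : Kbar) + 1 / 2) ^ 2 * coeff n y - (1 - 2 * c) * ((n : Kbar) + 1) ^ 2 * coeff (n + 1) y := by
  unfold Leg
  constructor
  · intro h n
    have h1 := leg_coeff c y n
    rw [h, map_zero] at h1
    exact (sub_eq_zero.1 h1.symm)
  · intro h
    ext n
    rw [leg_coeff, h n, sub_self, map_zero]

theorem leg_basis (c : Kbar) (hc0 : c ≠ 0) (hc1 : c ≠ 1) (y : PowerSeries Kbar) (hy : Leg c y) :
    y = C (coeff 0 y) * gs c 0 + C (coeff 1 y) * gs c 1 := by
  have h3 : 1 - c ≠ 0 := sub_ne_zero.2 (Ne.symm hc1)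
  have hr := (leg_iff c y).1 hy
  obtain ⟨i1, i2, i3, i4⟩ := gs_init c
  have key : ∀ n : ℕ, coeff n y = coeff 0 y * coeff n (gs c 0) + coeff 1 y * coeff n (gs c 1) ∧
      coeff (n + 1) y = coeff 0 y * coeff (n + 1) (gs c 0) + coeff 1 y * coeff (n + 1) (gs c 1) := by
    intro n
    induction n with
    | zero =>
      rw [zero_add, i1, i2, i3, i4]
      constructor <;> ring
    | succ n ih =>
      refine ⟨ih.2, ?_⟩
      have h1 : (n : Kbar) + 2 ≠ 0 := by exact_mod_cast Nat.succ_ne_zero (n + 1)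
      have h2 : (n : Kbar) + 1 ≠ 0 := by exact_mod_cast Nat.succ_ne_zero n
      have h4 : c * (1 - c) * ((n : Kbar) + 2) * ((n : Kbar) + 1) ≠ 0 :=
        mul_ne_zero (mul_ne_zero (mul_ne_zero hc0 h3) h1) h2
      apply mul_left_cancel₀ h4
      have a0 := gs_rec c hc0 hc1 0 n
      have a1 := gs_rec c hc0 hc1 1 n
      have a2 := hr n
      rw [show n + 1 + 1 = n + 2 from rfl]
      rw [a2, ih.1, ih.2]
      linear_combination (-(coeff 0 y)) * a0 - (coeff 1 y) * a1
  ext n
  rw [map_add, coeff_C_mul, coeff_C_mul]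
  exact (key n).1

theorem wron (c : Kbar) (hc0 : c ≠ 0) (hc1 : c ≠ 1) :
    (C c + X) * (1 - (C c + X)) * (dg c (0, 0) * dg c (1, 1) - dg c (1, 0) * dg c (0, 1)) = C (c * (1 - c)) := by
  have e1 : dg c (0, 0) = gs c 0 := by simp [dg]
  have e2 : dg c (1, 0) = gs c 1 := by simp [dg]
  have e3 : dg c (0, 1) = derivative Kbar (gs c 0) := by simp [dg]
  have e4 : dg c (1, 1) = derivative Kbar (gs c 1) := by simp [dg]
  rw [e1, e2, e3, e4]
  have l0 : Leg c (gs c 0) := (leg_iff c _).2 fun n => gs_rec c hc0 hc1 0 n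
  have l1 : Leg c (gs c 1) := (leg_iff c _).2 fun n => gs_rec c hc0 hc1 1 n
  unfold Leg at l0 l1
  obtain ⟨i1, i2, i3, i4⟩ := gs_init c
  apply PowerSeries.derivative.ext
  · rw [derivative_C]
    have hk : derivative Kbar (C c + X) = 1 := by
      rw [map_add, derivative_C, derivative_X, zero_add]
    have hk1 : derivative Kbar (1 - (C c + X)) = -1 := by
      rw [map_sub, hk]
      have : derivative Kbar (1 : PowerSeries Kbar) = 0 := by simp
      rw [this]
      ring
    simp only [Derivation.leibniz, map_sub, smul_eq_mul, hk, hk1] at *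
    linear_combination (gs c 0) * l1 - (gs c 1) * l0
  · simp only [map_mul, map_add, map_sub, constantCoeff_C, constantCoeff_X, map_one]
    have j0 : constantCoeff (gs c 0) = 1 := by
      rw [← coeff_zero_eq_constantCoeff_apply]; exact i1
    have j1 : constantCoeff (gs c 1) = 0 := by
      rw [← coeff_zero_eq_constantCoeff_apply]; exact i3
    have j2 : constantCoeff (derivative Kbar (gs c 1)) = 1 := by
      rw [← coeff_zero_eq_constantCoeff_apply, coeff_derivative, zero_add, i4]
      simp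
    rw [j0, j1, j2]
    ring

end Pool.Agent.H64.LG
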