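import Pool.Agent.H64.LG.Cap
import Pool.Agent.H64.LG.Alg
import Pool.Agent.H64.LG.Rec

/-!
# LG.Cas : the globally bounded elements killed by `sl₂` are algebraic

PROOF. Induction on the total degree `d` of `Q`. `d = 0`: `Q = C a`, `ev Q = a ∈ A0`. `d ≥ 1`: let `f = ev Q`. By `hk` and `gb_zero`, `ev` of the Casimir
element applied to `Q` is `0` (apply `hk` twice: `DK N Q` evaluates to `0`, so it is again covered by `hk`; the three matrices have trace `0`;
`DK N = DN (cst N)`). So by `capelli`: `0 = ev (Eu (Eu Q) + 2 Eu Q) - 4 ev det * ev (Om Q)`. `ev det = w` with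
`κ (1 - κ) w = c (1 - c)`, `κ = C c + τ` (`wron` and `subst τ`), so `w ∈ A0` (`alg_of_mul`), write `w` for the element of `A0`; then
`d (d + 2) f = ev (Q')`, `Q' = d (d + 2) Q - Eu (Eu Q) - 2 Eu Q + 4 C w * Om Q`, of total degree `≤ d - 1`: on a monomial of degree `e`, `Eu` is multiplication by `e`, so
`d (d + 2) Q - Eu (Eu Q) - 2 Eu Q` has no monomials of degree `d`; `Om` lowers the degree by `2`. `ev Q' = d (d + 2) f` is globally bounded (`gb_mul` with a
constant, `gb_of_mem`, `cst_mem`), so it is in `A0` by induction, and `f ∈ A0` (`alg_of_mul` or multiply by the constant `(d (d + 2))⁻¹`).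
-/

set_option autoImplicit false

namespace Pool.Agent.H64.LG

open Pool.H61.QF PowerSeries

private lemma coeff_xp {R : Type} [CommRing R] (P : MvPolynomial (Fin 2 × Fin 2) R) (i : Fin 2 × Fin 2)
    (s : (Fin 2 × Fin 2) →₀ ℕ) :
    MvPolynomial.coeff s (MvPolynomial.X i * MvPolynomial.pderiv i P) = (s i : R) * MvPolynomial.coeff s P := by
  classical
  rw [MvPolynomial.coeff_X_mul']
  by_cases h : i ∈ s.support
  · have h0 : s i ≠ 0 := Finsupp.mem_support_iff.1 h
    have h1 : s - Finsupp.single i 1 + Finsupp.single i 1 = s := by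
      ext j
      by_cases hj : j = i
      · subst hj
        simp
        omega
      · simp [Ne.symm hj]
    rw [if_pos h, MvPolynomial.coeff_pderiv, h1]
    have h2 : ((s - (Finsupp.single i 1 : (Fin 2 × Fin 2) →₀ ℕ)) i : ℕ) + 1 = s i := by
      simp
      omega
    have h3 : (((s - (Finsupp.single i 1 : (Fin 2 × Fin 2) →₀ ℕ)) i : ℕ) : R) + 1 = (s i : R) := by
      rw [← h2]
      push_cast
      rfl
    rw [h3, mul_comm]
  · have h0 : s i = 0 := Finsupp.notMem_support_iff.1 h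
    rw [if_neg h, h0]
    simp

private lemma coeff_Eu {R : Type} [CommRing R] (P : MvPolynomial (Fin 2 × Fin 2) R)
    (s : (Fin 2 × Fin 2) →₀ ℕ) :
    MvPolynomial.coeff s (Eu P) = ((∑ i, s i : ℕ) : R) * MvPolynomial.coeff s P := by
  unfold Eu
  rw [MvPolynomial.coeff_sum, Nat.cast_sum, Finset.sum_mul]
  exact Finset.sum_congr rfl fun i _ => coeff_xp P i s

private lemma sum_supp (s : (Fin 2 × Fin 2) →₀ ℕ) : ∑ i ∈ s.support, s i = ∑ i, s i :=
  Finset.sum_subset (Finset.subset_univ _) fun _ _ hi => Finsupp.notMem_support_iff.1 hi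

private lemma co_zero {R : Type} [CommRing R] {P : MvPolynomial (Fin 2 × Fin 2) R} {d : ℕ}
    (h : P.totalDegree ≤ d) {s : (Fin 2 × Fin 2) →₀ ℕ} (hs : d < ∑ i, s i) : MvPolynomial.coeff s P = 0 := by
  refine MvPolynomial.coeff_eq_zero_of_totalDegree_lt ?_
  rw [sum_supp]
  omega

private lemma td_le {R : Type} [CommRing R] {P : MvPolynomial (Fin 2 × Fin 2) R} {d : ℕ}
    (h : ∀ s : (Fin 2 × Fin 2) →₀ ℕ, d < ∑ i, s i → MvPolynomial.coeff s P = 0) : P.totalDegree ≤ d := by
  unfold MvPolynomial.totalDegree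
  refine Finset.sup_le fun s hs => ?_
  by_contra hc
  push Not at hc
  have h1 : (s.sum fun _ e => e) = ∑ i, s i := Finsupp.sum_fintype _ _ fun _ => rfl
  rw [h1] at hc
  exact (MvPolynomial.mem_support_iff.1 hs) (h s hc)

private lemma co_Om {R : Type} [CommRing R] {P : MvPolynomial (Fin 2 × Fin 2) R} {d : ℕ}
    (h : P.totalDegree ≤ d + 1) {s : (Fin 2 × Fin 2) →₀ ℕ} (hs : d < ∑ i, s i) :
    MvPolynomial.coeff s (Om P) = 0 := by
  unfold Om
  have key : ∀ a b : Fin 2 × Fin 2,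
      MvPolynomial.coeff (s + Finsupp.single a 1 + Finsupp.single b 1) P = 0 := by
    intro a b
    refine co_zero h ?_
    have h1 : ∑ i, (s + (Finsupp.single a 1 : (Fin 2 × Fin 2) →₀ ℕ) + (Finsupp.single b 1 : (Fin 2 × Fin 2) →₀ ℕ)) i =
        (∑ i, s i) + (∑ i, (Finsupp.single a 1 : (Fin 2 × Fin 2) →₀ ℕ) i) +
          ∑ i, (Finsupp.single b 1 : (Fin 2 × Fin 2) →₀ ℕ) i := by
      rw [← Finset.sum_add_distrib, ← Finset.sum_add_distrib]
      rfl
    have h2 : ∀ c : Fin 2 × Fin 2, (∑ i, (Finsupp.single c 1 : (Fin 2 × Fin 2) →₀ ℕ) i) = 1 := by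
      intro c
      rw [Finset.sum_eq_single c]
      · simp
      · intro j _ hj
        simp [Ne.symm hj]
      · intro hc
        exact absurd (Finset.mem_univ c) hc
    rw [h1, h2, h2]
    omega
  rw [MvPolynomial.coeff_sub, MvPolynomial.coeff_pderiv, MvPolynomial.coeff_pderiv,
    MvPolynomial.coeff_pderiv, MvPolynomial.coeff_pderiv, key, key]
  simp

private lemma ev_C (c : Kbar) (τ : PowerSeries Kbar) (a : A0) : ev c τ (MvPolynomial.C a) = (a : PowerSeries Kbar) := by
  unfold ev evG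
  rw [MvPolynomial.coe_eval₂Hom, MvPolynomial.eval₂_C]
  rfl

private lemma ev_X (c : Kbar) (τ : PowerSeries Kbar) (i : Fin 2 × Fin 2) :
    ev c τ (MvPolynomial.X i) = (dg c i).subst τ := by
  unfold ev evG
  rw [MvPolynomial.coe_eval₂Hom, MvPolynomial.eval₂_X]

private lemma DN_DK (N : Fin 2 → Fin 2 → Kbar) (N' : Fin 2 → Fin 2 → A0) (h : ∀ i l, N' i l = cst (N i l)) :
    DN N' = DK N := by
  unfold DK
  congr 1
  funext i l
  exact h i l

private lemma det_mem (c : Kbar) (hc0 : c ≠ 0) (hc1 : c ≠ 1) (τ : PowerSeries Kbar) (hτ : τ ∈ A0)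
    (hτ0 : coeff 0 τ = 0) :
    ev c τ (MvPolynomial.X (0, 0) * MvPolynomial.X (1, 1) - MvPolynomial.X (1, 0) * MvPolynomial.X (0, 1)) ∈ A0 := by
  have hs : HasSubst τ := by
    refine HasSubst.of_constantCoeff_zero' ?_
    rw [← coeff_zero_eq_constantCoeff_apply]
    exact hτ0
  have h1 := congrArg (fun f => substAlgHom (R := Kbar) hs f) (wron c hc0 hc1)
  simp only [map_mul, map_sub, map_add, map_one] at h1
  have hX : substAlgHom (R := Kbar) hs (X : PowerSeries Kbar) = τ := substAlgHom_X hs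
  have hC : ∀ x : Kbar, (C x : PowerSeries Kbar).subst τ = (C x : PowerSeries Kbar) := by
    intro x
    rw [← coe_substAlgHom hs]
    exact (substAlgHom (R := Kbar) hs).commutes x
  rw [hX] at h1
  simp only [coe_substAlgHom, hC] at h1
  have h2 : ev c τ (MvPolynomial.X (0, 0) * MvPolynomial.X (1, 1) -
      MvPolynomial.X (1, 0) * MvPolynomial.X (0, 1)) =
      (dg c (0, 0)).subst τ * (dg c (1, 1)).subst τ - (dg c (1, 0)).subst τ * (dg c (0, 1)).subst τ := by
    rw [map_sub, map_mul, map_mul, ev_X, ev_X, ev_X, ev_X]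
  rw [h2]
  have hc : c * (1 - c) ≠ 0 := mul_ne_zero hc0 (sub_ne_zero.2 (Ne.symm hc1))
  have hCne : (C (c * (1 - c)) : PowerSeries Kbar) ≠ 0 := by
    intro h
    apply hc
    have h3 := congrArg (fun f => coeff 0 f) h
    simpa using h3
  have hq : (C c + τ) * (1 - (C c + τ)) ∈ A0 :=
    A0.mul_mem (A0.add_mem (cst_mem c) hτ) (A0.sub_mem A0.one_mem (A0.add_mem (cst_mem c) hτ))
  refine alg_of_mul hq ?_ ?_
  · intro h0
    rw [h0, zero_mul] at h1
    apply hCne
    rw [map_mul, map_sub, map_one]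
    exact h1.symm
  · rw [h1]
    exact A0.mul_mem (cst_mem _) (A0.sub_mem A0.one_mem (cst_mem _))

theorem cas (c : Kbar) (hc0 : c ≠ 0) (hc1 : c ≠ 1) (τ : PowerSeries Kbar) (hτ : τ ∈ A0)
    (hτ0 : coeff 0 τ = 0)
    (hk : ∀ Q : MvPolynomial (Fin 2 × Fin 2) A0, GloballyBounded (ev c τ Q) →
      ∀ N : Fin 2 → Fin 2 → Kbar, N 0 0 + N 1 1 = 0 → ev c τ (DK N Q) = 0)
    (Q : MvPolynomial (Fin 2 × Fin 2) A0) (hQ : GloballyBounded (ev c τ Q)) : ev c τ Q ∈ A0 := by
  obtain ⟨w, hw⟩ : ∃ w : A0, (w : PowerSeries Kbar) =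
      ev c τ (MvPolynomial.X (0, 0) * MvPolynomial.X (1, 1) - MvPolynomial.X (1, 0) * MvPolynomial.X (0, 1)) :=
    ⟨⟨_, det_mem c hc0 hc1 τ hτ hτ0⟩, rfl⟩
  have hk2 : ∀ Q : MvPolynomial (Fin 2 × Fin 2) A0, GloballyBounded (ev c τ Q) →
      ∀ M N : Fin 2 → Fin 2 → Kbar, M 0 0 + M 1 1 = 0 → N 0 0 + N 1 1 = 0 →
      ev c τ (DK M (DK N Q)) = 0 := by
    intro Q hQ M N hM hN
    refine hk _ ?_ M hM
    rw [hk Q hQ N hN]
    exact gb_zero
  have hcas : ∀ Q : MvPolynomial (Fin 2 × Fin 2) A0, GloballyBounded (ev c τ Q) →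
      ev c τ (Eu (Eu Q)) + 2 * ev c τ (Eu Q) - 4 * ((w : PowerSeries Kbar) * ev c τ (Om Q)) = 0 := by
    intro Q hQ
    have e1 := congrArg (fun P => ev c τ P) (capelli Q)
    have hE : (DN fun i l : Fin 2 => if i = 0 ∧ l = 1 then (1 : A0) else 0) =
        DK fun i l => if i = 0 ∧ l = 1 then (1 : Kbar) else 0 :=
      DN_DK _ _ fun i l => by split_ifs <;> simp
    have hF : (DN fun i l : Fin 2 => if i = 1 ∧ l = 0 then (1 : A0) else 0) =
        DK fun i l => if i = 1 ∧ l = 0 then (1 : Kbar) else 0 :=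
      DN_DK _ _ fun i l => by split_ifs <;> simp
    have hH : (DN fun i l : Fin 2 => if i = 0 ∧ l = 0 then (1 : A0) else if i = 1 ∧ l = 1 then -1 else 0) =
        DK fun i l => if i = 0 ∧ l = 0 then (1 : Kbar) else if i = 1 ∧ l = 1 then -1 else 0 :=
      DN_DK _ _ fun i l => by split_ifs <;> simp
    simp only [hE, hF, hH] at e1
    simp only [map_add, map_sub, map_mul, map_ofNat] at e1
    rw [hk2 Q hQ _ _ (by simp) (by simp), hk2 Q hQ _ _ (by simp) (by simp),
      hk2 Q hQ _ _ (by simp) (by simp)] at e1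
    rw [hw, map_sub, map_mul, map_mul]
    rw [← e1]
    ring
  have key : ∀ d : ℕ, ∀ Q : MvPolynomial (Fin 2 × Fin 2) A0, Q.totalDegree ≤ d →
      GloballyBounded (ev c τ Q) → ev c τ Q ∈ A0 := by
    intro d
    induction d with
    | zero =>
      intro Q hd _
      rw [MvPolynomial.totalDegree_eq_zero_iff_eq_C.1 (Nat.le_zero.1 hd), ev_C]
      exact Subtype.property _
    | succ d ih =>
      intro Q hd hQ
      set n : ℕ := (d + 1) * (d + 3) with hn
      have hQ' : ((MvPolynomial.C ((n : ℕ) : A0) * Q - Eu (Eu Q) - MvPolynomial.C 2 * Eu Q +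
          MvPolynomial.C (4 * w) * Om Q).totalDegree) ≤ d := by
        refine td_le fun s hs => ?_
        rw [MvPolynomial.coeff_add, MvPolynomial.coeff_sub, MvPolynomial.coeff_sub,
          MvPolynomial.coeff_C_mul, MvPolynomial.coeff_C_mul, MvPolynomial.coeff_C_mul, coeff_Eu, coeff_Eu,
          co_Om hd hs]
        rcases Nat.lt_or_ge (d + 1) (∑ i, s i) with h1 | h1
        · rw [co_zero hd h1]
          simp
        · have h2 : ∑ i, s i = d + 1 := by omega
          rw [h2, hn]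
          push_cast
          ring
      have e2 : ev c τ (MvPolynomial.C ((n : ℕ) : A0) * Q - Eu (Eu Q) - MvPolynomial.C 2 * Eu Q +
          MvPolynomial.C (4 * w) * Om Q) = ((n : ℕ) : PowerSeries Kbar) * ev c τ Q := by
        have h3 := hcas Q hQ
        simp only [map_add, map_sub, map_mul, ev_C, map_natCast, map_ofNat]
        linear_combination (-1 : PowerSeries Kbar) * h3
      have hnA : ((n : ℕ) : PowerSeries Kbar) ∈ A0 := natCast_mem A0 n
      have hn0 : ((n : ℕ) : PowerSeries Kbar) ≠ 0 := by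
        intro h
        have h4 := congrArg (fun f => coeff 0 f) h
        have h5 : ((n : ℕ) : PowerSeries Kbar) = C ((n : ℕ) : Kbar) := (map_natCast (C (R := Kbar)) n).symm
        simp only [h5, coeff_zero_C, map_zero] at h4
        have h6 : n = 0 := by exact_mod_cast h4
        rw [hn] at h6
        simp at h6
      refine alg_of_mul hnA hn0 ?_
      rw [← e2]
      refine ih _ hQ' ?_
      rw [e2]
      exact gb_mul (gb_of_mem hnA) hQ
  exact key _ Q le_rfl hQ

end Pool.Agent.H64.LG
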