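import Mathlib

/-!
# LG.Cau : Schwarz lemma

PROOF. Let `h u = H u / u^n` for `u ≠ 0`, `h 0 = γ`. It is differentiable on the ball of radius `R'` minus `0` and continuous at `0`, so differentiable on the ball (removable singularity:
`Complex.differentiableOn_compl_singleton_and_continuousAt_iff`). On the circle of radius `R`, `‖h‖ ≤ M / R^n`; maximum modulus: `Complex.norm_le_of_forall_mem_frontier_norm_le` on `ball 0 R`.
-/

set_option autoImplicit false

namespace Pool.Agent.H64.LG

open Filter Topology Metric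

theorem cau (H : ℂ → ℂ) (R R' : ℝ) (hR : 0 < R) (hRR : R < R') (hH : DifferentiableOn ℂ H (ball 0 R'))
    (n : ℕ) (γ : ℂ) (hγ : Tendsto (fun u => H u / u ^ n) (𝓝[≠] 0) (𝓝 γ)) (M : ℝ)
    (hM : ∀ u : ℂ, ‖u‖ = R → ‖H u‖ ≤ M) : ‖γ‖ ≤ M / R ^ n := by
  classical
  set h : ℂ → ℂ := Function.update (fun u => H u / u ^ n) 0 γ with hdef
  have h0 : h 0 = γ := by simp [hdef]
  have hne : ∀ u : ℂ, u ≠ 0 → h u = H u / u ^ n := fun u hu => by
    simp [hdef, Function.update_of_ne hu]
  have hR' : 0 < R' := hR.trans hRR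
  have hcont : ContinuousAt h 0 := by
    rw [hdef, continuousAt_update_same]
    exact hγ
  have hd1 : DifferentiableOn ℂ h (ball 0 R' \ {0}) := by
    have h1 : DifferentiableOn ℂ (fun u => H u / u ^ n) (ball 0 R' \ {0}) := by
      refine DifferentiableOn.div (hH.mono Set.sdiff_subset) (differentiableOn_id.pow n) ?_
      intro u hu
      exact pow_ne_zero n (by simpa using hu.2)
    exact h1.congr fun u hu => hne u (by simpa using hu.2)
  have hd : DifferentiableOn ℂ h (ball 0 R') :=
    (Complex.differentiableOn_compl_singleton_and_continuousAt_iff (ball_mem_nhds 0 hR')).1 ⟨hd1, hcont⟩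
  have hcl : closure (ball (0 : ℂ) R) ⊆ ball 0 R' := by
    rw [closure_ball 0 hR.ne']
    exact closedBall_subset_ball hRR
  have hdc : DiffContOnCl ℂ h (ball 0 R) := (hd.mono hcl).diffContOnCl
  have hfr : ∀ z ∈ frontier (ball (0 : ℂ) R), ‖h z‖ ≤ M / R ^ n := by
    intro z hz
    rw [frontier_ball 0 hR.ne'] at hz
    have hz1 : ‖z‖ = R := by simpa using hz
    have hz0 : z ≠ 0 := by
      intro h2
      rw [h2, norm_zero] at hz1
      exact hR.ne hz1
    rw [hne z hz0, norm_div, norm_pow, hz1]
    exact div_le_div_of_nonneg_right (hM z hz1) (pow_pos hR n).le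
  have h3 := Complex.norm_le_of_forall_mem_frontier_norm_le isBounded_ball hdc hfr
    (subset_closure (mem_ball_self hR))
  rwa [h0] at h3

end Pool.Agent.H64.LG
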