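import Pool.Agent.H64.LG.Led
import Pool.Agent.H64.LG.Cau

/-!
# LG.CokB : upper bound for the leading coefficient

PROOF. `H u = ∑ σ(ξ i j) N^i Ψ^j D^(L + L' - i - j)` is differentiable on the ball of radius `R + 1`. Near `0`: `H u = D u ^ (L + L') * ∑ σ(ξ i j) (S u)^i (Fan (S u))^j`. `S u → 0` and `S u ≠ 0` for `u ≠ 0` near `0` (derivative `1`), so by `lead` composed with `S`, and `(S u / u)^T → 1`, `D u → 1` (continuous at `0`):
`H u / u^T → σ (coeff T G)`. On `‖u‖ = R`: `‖H u‖ ≤ L L' X0 M^(L + L')`. `cau` with `R' = R + 1`.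
-/

set_option autoImplicit false

namespace Pool.Agent.H64.LG

open Filter Topology Metric PowerSeries

private lemma cokB_term (x N' Ψ' D' F' : ℂ) (a : ℂ) (hN : N' = D' * x) (hΨ : Ψ' = D' * F')
    (L L' i j : ℕ) (hi : i < L) (hj : j < L') :
    a * (N' ^ i * Ψ' ^ j * D' ^ (L + L' - i - j)) = D' ^ (L + L') * (a * (x ^ i * F' ^ j)) := by
  have h1 : D' ^ (L + L') = D' ^ i * D' ^ j * D' ^ (L + L' - i - j) := by
    rw [← pow_add, ← pow_add]
    congr 1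
    omega
  rw [hN, hΨ, mul_pow, mul_pow, h1]
  ring

theorem cokB (K : Type) [Field K] [NumberField K] (c A B : K) (σ : K →+* ℂ) (R : ℝ) (hR : 0 < R)
    (S N Ψ D : ℂ → ℂ) (hS0 : S 0 = 0) (hS1 : HasDerivAt S 1 0)
    (hN : DifferentiableOn ℂ N (ball 0 (R + 1))) (hΨ : DifferentiableOn ℂ Ψ (ball 0 (R + 1)))
    (hD : DifferentiableOn ℂ D (ball 0 (R + 1))) (hD0 : D 0 = 1)
    (hev : ∀ᶠ u in 𝓝 (0 : ℂ), N u = D u * S u ∧ Ψ u = D u * Fan (σ c) (σ A) (σ B) (S u))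
    (M : ℝ) (hM : 1 ≤ M) (hb : ∀ u : ℂ, ‖u‖ = R → ‖N u‖ ≤ M ∧ ‖Ψ u‖ ≤ M ∧ ‖D u‖ ≤ M)
    (L L' : ℕ) (ξ : Fin L → Fin L' → K) (X0 : ℝ) (hX : ∀ i j, ‖σ (ξ i j)‖ ≤ X0)
    (T : ℕ) (hT : ∀ n, n < T → coeff n (Gs c A B L L' ξ) = 0) :
    ‖σ (coeff T (Gs c A B L L' ξ))‖ ≤ (L * L') * X0 * M ^ (L + L') / R ^ T := by
  obtain ⟨H, hH⟩ : ∃ H : ℂ → ℂ, H = fun u => ∑ i : Fin L, ∑ j : Fin L',
      σ (ξ i j) * (N u ^ (i : ℕ) * Ψ u ^ (j : ℕ) * D u ^ (L + L' - (i : ℕ) - (j : ℕ))) := ⟨_, rfl⟩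
  have hM0 : 0 ≤ M := by linarith
  -- differentiability
  have hHd : DifferentiableOn ℂ H (ball 0 (R + 1)) := by
    rw [hH]
    refine DifferentiableOn.fun_sum fun i _ => DifferentiableOn.fun_sum fun j _ => ?_
    exact (((hN.fun_pow _).fun_mul (hΨ.fun_pow _)).fun_mul (hD.fun_pow _)).const_mul _
  -- bound on the circle
  have hHb : ∀ u : ℂ, ‖u‖ = R → ‖H u‖ ≤ (L * L') * X0 * M ^ (L + L') := by
    intro u hu
    obtain ⟨b1, b2, b3⟩ := hb u hu
    have ht : ∀ (i : Fin L) (j : Fin L'),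
        ‖σ (ξ i j) * (N u ^ (i : ℕ) * Ψ u ^ (j : ℕ) * D u ^ (L + L' - (i : ℕ) - (j : ℕ)))‖ ≤
          X0 * M ^ (L + L') := by
      intro i j
      have hX0 : 0 ≤ X0 := (norm_nonneg _).trans (hX i j)
      have e : M ^ (L + L') = M ^ (i : ℕ) * M ^ (j : ℕ) * M ^ (L + L' - (i : ℕ) - (j : ℕ)) := by
        rw [← pow_add, ← pow_add]
        congr 1
        have := i.2
        have := j.2
        omega
      rw [norm_mul, norm_mul, norm_mul, norm_pow, norm_pow, norm_pow, e]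
      refine mul_le_mul (hX i j) ?_ (by positivity) hX0
      refine mul_le_mul (mul_le_mul (pow_le_pow_left₀ (norm_nonneg _) b1 _)
        (pow_le_pow_left₀ (norm_nonneg _) b2 _) (by positivity) (by positivity))
        (pow_le_pow_left₀ (norm_nonneg _) b3 _) (by positivity) (by positivity)
    have h1 : ‖H u‖ ≤ ∑ _i : Fin L, ∑ _j : Fin L', X0 * M ^ (L + L') := by
      rw [hH]
      refine (norm_sum_le _ _).trans (Finset.sum_le_sum fun i _ => ?_)
      exact (norm_sum_le _ _).trans (Finset.sum_le_sum fun j _ => ht i j)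
    refine h1.trans (le_of_eq ?_)
    rw [Finset.sum_const, Finset.sum_const, Finset.card_univ, Finset.card_univ, Fintype.card_fin,
      Fintype.card_fin, nsmul_eq_mul, nsmul_eq_mul]
    ring
  -- the limit
  have hSt : Tendsto S (𝓝[≠] 0) (𝓝[≠] 0) := by
    have := hS1.tendsto_nhdsNE one_ne_zero
    rwa [hS0] at this
  have hSl : Tendsto (fun u => S u / u) (𝓝[≠] 0) (𝓝 1) := by
    have h1 := hasDerivAt_iff_tendsto_slope.1 hS1
    refine h1.congr fun u => ?_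
    rw [slope_def_field, hS0, sub_zero, sub_zero]
  have hDt : Tendsto D (𝓝[≠] 0) (𝓝 1) := by
    have h1 : ContinuousAt D 0 :=
      (hD.differentiableAt (ball_mem_nhds 0 (by linarith))).continuousAt
    have h2 := h1.tendsto
    rw [hD0] at h2
    exact h2.mono_left nhdsWithin_le_nhds
  have hl := (lead K c A B σ L L' ξ T hT).comp hSt
  have hlim : Tendsto (fun u => H u / u ^ T) (𝓝[≠] 0) (𝓝 (σ (coeff T (Gs c A B L L' ξ)))) := by
    have h1 := ((hDt.pow (L + L')).mul hl).mul (hSl.pow T)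
    rw [one_pow, one_mul, one_pow, mul_one] at h1
    refine h1.congr' ?_
    have hne : ∀ᶠ u in 𝓝[≠] (0 : ℂ), S u ≠ 0 := hSt.eventually self_mem_nhdsWithin
    filter_upwards [hne, self_mem_nhdsWithin, hev.filter_mono nhdsWithin_le_nhds] with u h2 h3 h4
    have h3' : u ≠ 0 := h3
    have e : H u = D u ^ (L + L') * ∑ i : Fin L, ∑ j : Fin L',
        σ (ξ i j) * (S u ^ (i : ℕ) * Fan (σ c) (σ A) (σ B) (S u) ^ (j : ℕ)) := by
      rw [hH, Finset.mul_sum]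
      refine Finset.sum_congr rfl fun i _ => ?_
      rw [Finset.mul_sum]
      exact Finset.sum_congr rfl fun j _ =>
        cokB_term (S u) (N u) (Ψ u) (D u) _ _ h4.1 h4.2 L L' i j i.2 j.2
    rw [e]
    show D u ^ (L + L') * ((∑ i : Fin L, ∑ j : Fin L',
        σ (ξ i j) * (S u ^ (i : ℕ) * Fan (σ c) (σ A) (σ B) (S u) ^ (j : ℕ))) / S u ^ T) *
        (S u / u) ^ T = _
    rw [div_pow]
    field_simp
  exact cau H R (R + 1) hR (by linarith) hHd T _ hlim _ hHb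

end Pool.Agent.H64.LG
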