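import Pool.Agent.H64.LG.Gen

/-!
# LG.TrA : the square root of `Q = (1 - x²)(1 - c x²)` and the derivative of `F`

PROOF. `tra`: `w = (mk (aK c)).subst (X^2)` (or `mk fun k => if k even then aK c (k/2) else 0`; `evalNegHom`-free), `w² Q = 1` (`w_sq` with `s = x²`), `y = Q w`. `F' = (A + B x²) w`: coefficient of `x^k` of `F'` is `(k + 1) eK (k + 1)`, which is `bK (k / 2)` for even `k` and `0` for odd `k`.
`trb`: `P² = R² Q`; if `R ≠ 0` the multiplicity of the root `1` (`Polynomial.rootMultiplicity`) is even on the left and odd on the right, because `1` is a simple root of `Q` (`c ≠ 1`, `2 ≠ 0`). So `R = 0`, `P = 0` (`Polynomial.coe` is injective).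
-/

set_option autoImplicit false

namespace Pool.Agent.H64.LG

/-- `(1 - x²)(1 - c x²)` -/
noncomputable def Qp {K : Type} [Field K] (c : K) : Polynomial K :=
  (1 - Polynomial.X ^ 2) * (1 - Polynomial.C c * Polynomial.X ^ 2)

private theorem coe_Qp {K : Type} [Field K] (c : K) : ((Qp c : Polynomial K) : PowerSeries K) =
    PowerSeries.expand 2 two_ne_zero ((1 - PowerSeries.X) * (1 - PowerSeries.C c * PowerSeries.X)) := by
  unfold Qp
  rw [map_mul, map_sub, map_sub, map_mul, map_one, PowerSeries.expand_X, PowerSeries.expand_C]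
  simp

private theorem fk_der {K : Type} [Field K] [CharZero K] (c A B : K) :
    PowerSeries.derivative K (FK c A B) = PowerSeries.expand 2 two_ne_zero
      ((PowerSeries.C A + PowerSeries.C B * PowerSeries.X) * PowerSeries.mk (aK c)) := by
  ext k
  rw [PowerSeries.coeff_expand, PowerSeries.coeff_derivative]
  unfold FK
  rw [PowerSeries.coeff_mk]
  unfold eK
  by_cases hk : 2 ∣ k
  · obtain ⟨m, rfl⟩ := hk
    rw [if_pos (by omega), if_pos (Dvd.intro m rfl)]
    have h1 : (2 * m + 1) / 2 = m := by omega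
    have h2 : 2 * m / 2 = m := by omega
    have h3 : ((2 * m : ℕ) : K) + 1 ≠ 0 := by exact_mod_cast Nat.succ_ne_zero (2 * m)
    rw [h1, h2]
    push_cast
    push_cast at h3
    rw [div_mul_cancel₀ _ h3, add_mul, map_add]
    rcases m with _ | m
    · simp [bK, mul_assoc]
    · rw [mul_assoc, PowerSeries.coeff_C_mul, PowerSeries.coeff_C_mul, PowerSeries.coeff_succ_X_mul,
        PowerSeries.coeff_mk, PowerSeries.coeff_mk]
      rfl
  · rw [if_neg (by omega), if_neg hk, zero_mul]

theorem tra {K : Type} [Field K] [CharZero K] (c A B : K) :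
    ∃ y : PowerSeries K, y ^ 2 = ((Qp c : Polynomial K) : PowerSeries K) ∧
      ((Qp c : Polynomial K) : PowerSeries K) * PowerSeries.derivative K (FK c A B) =
        ((Polynomial.C A + Polynomial.C B * Polynomial.X ^ 2 : Polynomial K) : PowerSeries K) * y := by
  have h1 := congrArg (PowerSeries.expand 2 two_ne_zero) (w_sq c)
  rw [map_mul, map_pow, map_one, ← coe_Qp] at h1
  refine ⟨(Qp c : PowerSeries K) * PowerSeries.expand 2 two_ne_zero (PowerSeries.mk (aK c)), ?_, ?_⟩
  · have e : ((Qp c : PowerSeries K) * PowerSeries.expand 2 two_ne_zero (PowerSeries.mk (aK c))) ^ 2 =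
        (Qp c : PowerSeries K) * ((PowerSeries.expand 2 two_ne_zero (PowerSeries.mk (aK c))) ^ 2 * (Qp c : PowerSeries K)) := by
      ring
    rw [e, h1, mul_one]
  · rw [fk_der, map_mul, map_add, map_mul, PowerSeries.expand_X, PowerSeries.expand_C, PowerSeries.expand_C]
    have e : ((Polynomial.C A + Polynomial.C B * Polynomial.X ^ 2 : Polynomial K) : PowerSeries K) =
        PowerSeries.C A + PowerSeries.C B * PowerSeries.X ^ 2 := by simp
    rw [e]
    ring

theorem trb {K : Type} [Field K] [CharZero K] (c : K) (hc1 : c ≠ 1) (y : PowerSeries K)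
    (hy : y ^ 2 = ((Qp c : Polynomial K) : PowerSeries K)) (P R : Polynomial K)
    (h : (P : PowerSeries K) + (R : PowerSeries K) * y = 0) : P = 0 ∧ R = 0 := by
  have h1 : P ^ 2 = R ^ 2 * Qp c := by
    apply Polynomial.coe_injective K
    rw [Polynomial.coe_pow, Polynomial.coe_mul, Polynomial.coe_pow, ← hy]
    have h2 : (P : PowerSeries K) = - ((R : PowerSeries K) * y) := eq_neg_of_add_eq_zero_left h
    rw [h2]
    ring
  have hR : R = 0 := by
    by_contra hR
    have hQ : Qp c = (Polynomial.X - Polynomial.C 1) * (-(1 + Polynomial.X) * (1 - Polynomial.C c * Polynomial.X ^ 2)) := by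
      unfold Qp
      rw [Polynomial.C_1]
      ring
    have hroot : (-(1 + Polynomial.X) * (1 - Polynomial.C c * Polynomial.X ^ 2) : Polynomial K).eval 1 ≠ 0 := by
      simp only [Polynomial.eval_mul, Polynomial.eval_neg, Polynomial.eval_add, Polynomial.eval_one,
        Polynomial.eval_X, Polynomial.eval_sub, Polynomial.eval_C, Polynomial.eval_pow]
      have h2 : (1 : K) - c ≠ 0 := sub_ne_zero.2 (Ne.symm hc1)
      have h3 : (1 : K) + 1 ≠ 0 := by norm_num
      rw [one_pow, mul_one]
      exact mul_ne_zero (neg_ne_zero.2 h3) h2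
    have hne : (-(1 + Polynomial.X) * (1 - Polynomial.C c * Polynomial.X ^ 2) : Polynomial K) ≠ 0 := by
      intro h0
      rw [h0, Polynomial.eval_zero] at hroot
      exact hroot rfl
    have hX : (Polynomial.X - Polynomial.C 1 : Polynomial K) ≠ 0 := Polynomial.X_sub_C_ne_zero 1
    have hQ0 : Qp c ≠ 0 := by
      rw [hQ]
      exact mul_ne_zero hX hne
    have hm : Polynomial.rootMultiplicity 1 (Qp c) = 1 := by
      rw [hQ, Polynomial.rootMultiplicity_mul (mul_ne_zero hX hne), Polynomial.rootMultiplicity_X_sub_C_self,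
        Polynomial.rootMultiplicity_eq_zero hroot]
    have h2 : Polynomial.rootMultiplicity 1 (R ^ 2 * Qp c) = 2 * Polynomial.rootMultiplicity 1 R + 1 := by
      rw [Polynomial.rootMultiplicity_mul (mul_ne_zero (pow_ne_zero 2 hR) hQ0), hm, pow_two,
        Polynomial.rootMultiplicity_mul (mul_ne_zero hR hR)]
      ring
    have hP : P ≠ 0 := by
      rintro rfl
      rw [zero_pow two_ne_zero] at h1
      exact mul_ne_zero (pow_ne_zero 2 hR) hQ0 h1.symm
    have h3 : Polynomial.rootMultiplicity 1 (P ^ 2) = 2 * Polynomial.rootMultiplicity 1 P := by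
      rw [pow_two, Polynomial.rootMultiplicity_mul (mul_ne_zero hP hP)]
      ring
    rw [h1, h2] at h3
    omega
  subst hR
  rw [zero_pow two_ne_zero, zero_mul] at h1
  exact ⟨pow_eq_zero_iff two_ne_zero |>.1 h1, rfl⟩

end Pool.Agent.H64.LG
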