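import Pool.Agent.H64.LG.TrP
import Pool.Agent.H64.LG.TrA

/-!
# LG.Trs : `F` is transcendental over `K(x)`

PROOF. `y` from `tra`, `δ = Q d/dx` is a derivation of `K⟦x⟧` with `δ y = Q' y / 2` (from `y² = Q`: `2 y y' = Q'`, multiply by `y`: `2 Q y' = Q' y`), `δ F = (A + B x²) y`. `𝓡 = {P + R y : P, R ∈ K[x]}` is a subring stable under `δ`. Suppose a nontrivial relation `∑_{j ≤ n} r_j F^j = 0` with `r_j ∈ 𝓡`, `r_n ≠ 0`, and `n` minimal;
`n ≥ 1`. (From `h`: the polynomials `∑_i ξ_{ij} x^i` are not all zero if `ξ ≠ 0`.) Multiplying by the conjugate of `r_n = P + R y` (`(P - R y)(P + R y) = P² - R² Q ≠ 0`, `trb`) we may assume `r_n = D ∈ K[x]`, `D ≠ 0`. `D δ(rel) - δ(D) rel` is a relation of degree `≤ n - 1` with coefficients in `𝓡`; by minimality all its coefficients vanish,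
at `F^(n-1)`: `D δ r_{n-1} - δ(D) r_{n-1} + n D² δF = 0`. With `r_{n-1} = P + R y` the `y`-part (`trb`) is `D (Q R' + R Q' / 2) - R Q D' + n D² (A + B x²) = 0`; twice this contradicts `trp`.
-/

set_option autoImplicit false

namespace Pool.Agent.H64.LG

open PowerSeries

private theorem trs_y {K : Type} [Field K] (c : K) (y : PowerSeries K)
    (hy : y ^ 2 = ((Qp c : Polynomial K) : PowerSeries K)) :
    2 * ((Qp c : Polynomial K) : PowerSeries K) * PowerSeries.derivative K y =
      ((Polynomial.derivative (Qp c) : Polynomial K) : PowerSeries K) * y := by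
  have h1 := congrArg (PowerSeries.derivative K) hy
  rw [PowerSeries.derivative_coe, PowerSeries.derivative_pow] at h1
  rw [← h1, ← hy]
  simp only [Nat.cast_ofNat, show 2 - 1 = 1 from rfl, pow_one]
  ring

/-- the top coefficient may be assumed to be a polynomial -/
private theorem trs_step {K : Type} [Field K] [CharZero K] (c A B : K) (hc0 : c ≠ 0) (hc1 : c ≠ 1)
    (hAB : ¬ (A = 0 ∧ B = 0)) (F y : PowerSeries K)
    (hy : y ^ 2 = ((Qp c : Polynomial K) : PowerSeries K))
    (hF : ((Qp c : Polynomial K) : PowerSeries K) * PowerSeries.derivative K F =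
        ((Polynomial.C A + Polynomial.C B * Polynomial.X ^ 2 : Polynomial K) : PowerSeries K) * y)
    (n : ℕ)
    (ih : ∀ P R : ℕ → Polynomial K,
      ∑ j ∈ Finset.range (n + 1), (((P j : Polynomial K) : PowerSeries K) + ((R j : Polynomial K) : PowerSeries K) * y) * F ^ j = 0 →
      ∀ j < n + 1, P j = 0 ∧ R j = 0)
    (D : Polynomial K) (hD : D ≠ 0) (P R : ℕ → Polynomial K)
    (h : ∑ j ∈ Finset.range (n + 1), (((P j : Polynomial K) : PowerSeries K) + ((R j : Polynomial K) : PowerSeries K) * y) * F ^ j
      + (D : PowerSeries K) * F ^ (n + 1) = 0) : False := by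
  classical
  have hyd := trs_y c y hy
  set Q : Polynomial K := Qp c with hQ
  set a : Polynomial K := Polynomial.C A + Polynomial.C B * Polynomial.X ^ 2 with ha
  -- extended sequences
  let P1 : ℕ → Polynomial K := fun j => if j < n + 1 then P j else D
  let R1 : ℕ → Polynomial K := fun j => if j < n + 1 then R j else 0
  have hP1 : ∀ j < n + 1, P1 j = P j := fun j hj => if_pos hj
  have hR1 : ∀ j < n + 1, R1 j = R j := fun j hj => if_pos hj
  have hP1n : P1 (n + 1) = D := if_neg (lt_irrefl _)
  have hR1n : R1 (n + 1) = 0 := if_neg (lt_irrefl _)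
  have hG : ∑ j ∈ Finset.range (n + 2), (((P1 j : Polynomial K) : PowerSeries K) + ((R1 j : Polynomial K) : PowerSeries K) * y) * F ^ j = 0 := by
    rw [Finset.sum_range_succ, hP1n, hR1n]
    rw [← h]
    congr 1
    · apply Finset.sum_congr rfl
      intro j hj
      rw [hP1 j (Finset.mem_range.1 hj), hR1 j (Finset.mem_range.1 hj)]
    · rw [Polynomial.coe_zero, zero_mul, add_zero]
  have hdG := congrArg (PowerSeries.derivative K) hG
  rw [map_sum, map_zero] at hdG
  -- the two sums
  have hterm : ∀ j, 2 * (Q : PowerSeries K) * PowerSeries.derivative K ((((P1 j : Polynomial K) : PowerSeries K) + ((R1 j : Polynomial K) : PowerSeries K) * y) * F ^ j) =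
      (2 * (Q : PowerSeries K) * ((Polynomial.derivative (P1 j) : Polynomial K) : PowerSeries K) +
        (2 * (Q : PowerSeries K) * ((Polynomial.derivative (R1 j) : Polynomial K) : PowerSeries K) +
          ((R1 j : Polynomial K) : PowerSeries K) * ((Polynomial.derivative Q : Polynomial K) : PowerSeries K)) * y) * F ^ j +
      (((P1 j : Polynomial K) : PowerSeries K) + ((R1 j : Polynomial K) : PowerSeries K) * y) * ((j : PowerSeries K) * F ^ (j - 1) * (2 * (a : PowerSeries K) * y)) := by
    intro j
    rw [Derivation.leibniz, PowerSeries.derivative_pow, map_add, Derivation.leibniz, PowerSeries.derivative_coe, PowerSeries.derivative_coe]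
    simp only [smul_eq_mul]
    linear_combination (((P1 j : Polynomial K) : PowerSeries K) + ((R1 j : Polynomial K) : PowerSeries K) * y) * ((j : PowerSeries K) * F ^ (j - 1)) * 2 * hF +
      F ^ j * ((R1 j : Polynomial K) : PowerSeries K) * hyd
  have hE : ∑ j ∈ Finset.range (n + 2), ((2 * (Q : PowerSeries K) * ((Polynomial.derivative (P1 j) : Polynomial K) : PowerSeries K) +
        (2 * (Q : PowerSeries K) * ((Polynomial.derivative (R1 j) : Polynomial K) : PowerSeries K) +
          ((R1 j : Polynomial K) : PowerSeries K) * ((Polynomial.derivative Q : Polynomial K) : PowerSeries K)) * y) * F ^ j) +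
      ∑ j ∈ Finset.range (n + 1), (((P1 (j + 1) : Polynomial K) : PowerSeries K) + ((R1 (j + 1) : Polynomial K) : PowerSeries K) * y) * (((j : PowerSeries K) + 1) * F ^ j * (2 * (a : PowerSeries K) * y)) = 0 := by
    have e1 : ∑ j ∈ Finset.range (n + 2), (((P1 j : Polynomial K) : PowerSeries K) + ((R1 j : Polynomial K) : PowerSeries K) * y) * ((j : PowerSeries K) * F ^ (j - 1) * (2 * (a : PowerSeries K) * y)) =
        ∑ j ∈ Finset.range (n + 1), (((P1 (j + 1) : Polynomial K) : PowerSeries K) + ((R1 (j + 1) : Polynomial K) : PowerSeries K) * y) * (((j : PowerSeries K) + 1) * F ^ j * (2 * (a : PowerSeries K) * y)) := by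
      rw [Finset.sum_range_succ']
      simp only [Nat.cast_add, Nat.cast_one, Nat.add_sub_cancel, Nat.cast_zero, zero_mul, mul_zero, add_zero]
    rw [← e1, ← Finset.sum_add_distrib, ← Finset.sum_congr rfl (fun j _ => hterm j), ← Finset.mul_sum, hdG, mul_zero]
  -- the new relation
  let P2 : ℕ → Polynomial K := fun j => 2 * Q * (D * Polynomial.derivative (P1 j) - P1 j * Polynomial.derivative D) +
    2 * ((j : Polynomial K) + 1) * D * a * R1 (j + 1) * Q
  let R2 : ℕ → Polynomial K := fun j => 2 * Q * (D * Polynomial.derivative (R1 j) - R1 j * Polynomial.derivative D) +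
    D * R1 j * Polynomial.derivative Q + 2 * ((j : Polynomial K) + 1) * D * a * P1 (j + 1)
  have hnew : ∑ j ∈ Finset.range (n + 1), (((P2 j : Polynomial K) : PowerSeries K) + ((R2 j : Polynomial K) : PowerSeries K) * y) * F ^ j = 0 := by
    have e2 : ∑ j ∈ Finset.range (n + 1), (((P2 j : Polynomial K) : PowerSeries K) + ((R2 j : Polynomial K) : PowerSeries K) * y) * F ^ j =
        (D : PowerSeries K) * (∑ j ∈ Finset.range (n + 2), ((2 * (Q : PowerSeries K) * ((Polynomial.derivative (P1 j) : Polynomial K) : PowerSeries K) +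
        (2 * (Q : PowerSeries K) * ((Polynomial.derivative (R1 j) : Polynomial K) : PowerSeries K) +
          ((R1 j : Polynomial K) : PowerSeries K) * ((Polynomial.derivative Q : Polynomial K) : PowerSeries K)) * y) * F ^ j) +
      ∑ j ∈ Finset.range (n + 1), (((P1 (j + 1) : Polynomial K) : PowerSeries K) + ((R1 (j + 1) : Polynomial K) : PowerSeries K) * y) * (((j : PowerSeries K) + 1) * F ^ j * (2 * (a : PowerSeries K) * y))) -
      (2 * (Q : PowerSeries K) * ((Polynomial.derivative D : Polynomial K) : PowerSeries K)) * ∑ j ∈ Finset.range (n + 2), (((P1 j : Polynomial K) : PowerSeries K) + ((R1 j : Polynomial K) : PowerSeries K) * y) * F ^ j := by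
      rw [Finset.sum_range_succ _ (n + 1), Finset.sum_range_succ (fun j => (((P1 j : Polynomial K) : PowerSeries K) + ((R1 j : Polynomial K) : PowerSeries K) * y) * F ^ j) (n + 1)]
      rw [hP1n, hR1n]
      have e3 : ∀ j, (((P2 j : Polynomial K) : PowerSeries K) + ((R2 j : Polynomial K) : PowerSeries K) * y) * F ^ j =
          (D : PowerSeries K) * ((2 * (Q : PowerSeries K) * ((Polynomial.derivative (P1 j) : Polynomial K) : PowerSeries K) +
        (2 * (Q : PowerSeries K) * ((Polynomial.derivative (R1 j) : Polynomial K) : PowerSeries K) +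
          ((R1 j : Polynomial K) : PowerSeries K) * ((Polynomial.derivative Q : Polynomial K) : PowerSeries K)) * y) * F ^ j) +
          (D : PowerSeries K) * ((((P1 (j + 1) : Polynomial K) : PowerSeries K) + ((R1 (j + 1) : Polynomial K) : PowerSeries K) * y) * (((j : PowerSeries K) + 1) * F ^ j * (2 * (a : PowerSeries K) * y))) -
          (2 * (Q : PowerSeries K) * ((Polynomial.derivative D : Polynomial K) : PowerSeries K)) * ((((P1 j : Polynomial K) : PowerSeries K) + ((R1 j : Polynomial K) : PowerSeries K) * y) * F ^ j) := by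
        intro j
        have c2 : ((2 : Polynomial K) : PowerSeries K) = 2 := by
          have := map_ofNat (Polynomial.coeToPowerSeries.ringHom (R := K)) 2
          rwa [Polynomial.coeToPowerSeries.ringHom_apply] at this
        have cj : (((j : Polynomial K)) : PowerSeries K) = (j : PowerSeries K) := by
          have := map_natCast (Polynomial.coeToPowerSeries.ringHom (R := K)) j
          rwa [Polynomial.coeToPowerSeries.ringHom_apply] at this
        simp only [P2, R2, Polynomial.coe_add, Polynomial.coe_mul, Polynomial.coe_sub, Polynomial.coe_one, c2, cj]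
        linear_combination (-2 * ((j : PowerSeries K) + 1) * (D : PowerSeries K) * (a : PowerSeries K) * ((R1 (j + 1) : Polynomial K) : PowerSeries K) * F ^ j) * hy
      rw [Finset.sum_congr rfl (fun j _ => e3 j), Finset.sum_sub_distrib, Finset.sum_add_distrib, ← Finset.mul_sum, ← Finset.mul_sum, ← Finset.mul_sum]
      simp only [Polynomial.derivative_zero, Polynomial.coe_zero]
      ring
    rw [e2, hE, hG, mul_zero, mul_zero, sub_zero]
  have hR2 := (ih P2 R2 hnew n (Nat.lt_succ_self n)).2
  have hfin : 2 * ((1 - Polynomial.X ^ 2) * (1 - Polynomial.C c * Polynomial.X ^ 2)) * (D * Polynomial.derivative (R n) - R n * Polynomial.derivative D) +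
      D * R n * Polynomial.derivative ((1 - Polynomial.X ^ 2) * (1 - Polynomial.C c * Polynomial.X ^ 2)) + 2 * ((n + 1 : ℕ) : Polynomial K) * D ^ 2 * (Polynomial.C A + Polynomial.C B * Polynomial.X ^ 2) = 0 := by
    have e4 : R2 n = 2 * Q * (D * Polynomial.derivative (R n) - R n * Polynomial.derivative D) +
      D * R n * Polynomial.derivative Q + 2 * ((n : Polynomial K) + 1) * D * a * D := by
      simp only [R2]
      rw [hP1n, hR1 n (Nat.lt_succ_self n)]
    rw [e4] at hR2
    rw [← hR2, hQ, ha]
    unfold Qp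
    push_cast
    ring
  exact trp c A B hc0 hc1 hAB (n + 1) (Nat.succ_le_succ (Nat.zero_le n)) D (R n) hD hfin

private theorem trs_rel {K : Type} [Field K] [CharZero K] (c A B : K) (hc0 : c ≠ 0) (hc1 : c ≠ 1)
    (hAB : ¬ (A = 0 ∧ B = 0)) (F y : PowerSeries K)
    (hy : y ^ 2 = ((Qp c : Polynomial K) : PowerSeries K))
    (hF : ((Qp c : Polynomial K) : PowerSeries K) * PowerSeries.derivative K F =
        ((Polynomial.C A + Polynomial.C B * Polynomial.X ^ 2 : Polynomial K) : PowerSeries K) * y) :
    ∀ (n : ℕ) (P R : ℕ → Polynomial K),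
      ∑ j ∈ Finset.range (n + 1), (((P j : Polynomial K) : PowerSeries K) + ((R j : Polynomial K) : PowerSeries K) * y) * F ^ j = 0 →
      ∀ j < n + 1, P j = 0 ∧ R j = 0 := by
  intro n
  induction n with
  | zero =>
    intro P R h j hj
    rw [Finset.sum_range_one, pow_zero, mul_one] at h
    have hj0 : j = 0 := by omega
    rw [hj0]
    exact trb c hc1 y hy _ _ h
  | succ n ih =>
    intro P R h j hj
    rw [Finset.sum_range_succ] at h
    by_cases hz : P (n + 1) = 0 ∧ R (n + 1) = 0
    · rw [hz.1, hz.2, Polynomial.coe_zero, zero_mul, add_zero, zero_mul, add_zero] at h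
      rcases Nat.lt_or_ge j (n + 1) with h1 | h1
      · exact ih P R h j h1
      · have : j = n + 1 := by omega
        rw [this]
        exact hz
    · exfalso
      have hD : P (n + 1) ^ 2 - R (n + 1) ^ 2 * Qp c ≠ 0 := by
        intro h0
        have h1 : (((P (n + 1) : Polynomial K) : PowerSeries K) + ((R (n + 1) : Polynomial K) : PowerSeries K) * y) *
            (((P (n + 1) : Polynomial K) : PowerSeries K) + ((-R (n + 1) : Polynomial K) : PowerSeries K) * y) = 0 := by
          have h2 := congrArg (fun p : Polynomial K => (p : PowerSeries K)) h0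
          simp only [Polynomial.coe_sub, Polynomial.coe_mul, Polynomial.coe_pow, Polynomial.coe_zero] at h2
          rw [Polynomial.coe_neg]
          linear_combination h2 - ((R (n + 1) : Polynomial K) : PowerSeries K) ^ 2 * hy
        rcases mul_eq_zero.1 h1 with h2 | h2
        · exact hz (trb c hc1 y hy _ _ h2)
        · have h3 := trb c hc1 y hy _ _ h2
          exact hz ⟨h3.1, neg_eq_zero.1 h3.2⟩
      refine trs_step c A B hc0 hc1 hAB F y hy hF n ih _ hD
        (fun j => P j * P (n + 1) - R j * R (n + 1) * Qp c) (fun j => R j * P (n + 1) - P j * R (n + 1)) ?_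
      have h3 : (((P (n + 1) : Polynomial K) : PowerSeries K) - ((R (n + 1) : Polynomial K) : PowerSeries K) * y) *
          (∑ j ∈ Finset.range (n + 1), (((P j : Polynomial K) : PowerSeries K) + ((R j : Polynomial K) : PowerSeries K) * y) * F ^ j +
            (((P (n + 1) : Polynomial K) : PowerSeries K) + ((R (n + 1) : Polynomial K) : PowerSeries K) * y) * F ^ (n + 1)) = 0 := by
        rw [h, mul_zero]
      rw [← h3, mul_add, Finset.mul_sum]
      congr 1
      · apply Finset.sum_congr rfl
        intro j _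
        simp only [Polynomial.coe_sub, Polynomial.coe_mul]
        linear_combination (((R j : Polynomial K) : PowerSeries K) * ((R (n + 1) : Polynomial K) : PowerSeries K) * F ^ j) * hy
      · simp only [Polynomial.coe_sub, Polynomial.coe_mul, Polynomial.coe_pow]
        linear_combination (((R (n + 1) : Polynomial K) : PowerSeries K) ^ 2 * F ^ (n + 1)) * hy

theorem trs {K : Type} [Field K] [CharZero K] (c A B : K) (hc0 : c ≠ 0) (hc1 : c ≠ 1) (hAB : ¬ (A = 0 ∧ B = 0))
    (L M : ℕ) (ξ : Fin L → Fin M → K)
    (h : ∑ i : Fin L, ∑ j : Fin M, C (ξ i j) * ((X : PowerSeries K) ^ (i : ℕ) * FK c A B ^ (j : ℕ)) = 0) :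
    ξ = 0 := by
  classical
  obtain ⟨y, hy, hF⟩ := tra c A B
  rcases Nat.eq_zero_or_pos M with hM | hM
  · subst hM
    funext i j
    exact j.elim0
  let P : ℕ → Polynomial K := fun j => if hj : j < M then ∑ i : Fin L, Polynomial.C (ξ i ⟨j, hj⟩) * Polynomial.X ^ (i : ℕ) else 0
  have hP : ∀ j : Fin M, P (j : ℕ) = ∑ i : Fin L, Polynomial.C (ξ i j) * Polynomial.X ^ (i : ℕ) := by
    intro j
    simp only [P]
    rw [dif_pos j.2]
  have hrel : ∑ j ∈ Finset.range (M - 1 + 1), (((P j : Polynomial K) : PowerSeries K) + (((fun _ => 0 : ℕ → Polynomial K) j : Polynomial K) : PowerSeries K) * y) * FK c A B ^ j = 0 := by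
    rw [Nat.sub_add_cancel hM, ← h, Finset.sum_comm, ← Fin.sum_univ_eq_sum_range (fun j => (((P j : Polynomial K) : PowerSeries K) + (((fun _ => 0 : ℕ → Polynomial K) j : Polynomial K) : PowerSeries K) * y) * FK c A B ^ j) M]
    apply Finset.sum_congr rfl
    intro j _
    simp only [Polynomial.coe_zero, zero_mul, add_zero]
    rw [hP j]
    have e5 : ((∑ i : Fin L, Polynomial.C (ξ i j) * Polynomial.X ^ (i : ℕ) : Polynomial K) : PowerSeries K) =
        ∑ i : Fin L, C (ξ i j) * (X : PowerSeries K) ^ (i : ℕ) := by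
      rw [← Polynomial.coeToPowerSeries.ringHom_apply, map_sum]
      apply Finset.sum_congr rfl
      intro i _
      rw [Polynomial.coeToPowerSeries.ringHom_apply, Polynomial.coe_mul, Polynomial.coe_C, Polynomial.coe_pow, Polynomial.coe_X]
    rw [e5, Finset.sum_mul]
    apply Finset.sum_congr rfl
    intro i _
    ring
  have hz := trs_rel c A B hc0 hc1 hAB (FK c A B) y hy hF (M - 1) P (fun _ => 0) hrel
  funext i j
  have h1 := (hz (j : ℕ) (by have := j.2; omega)).1
  rw [hP j] at h1
  have h2 := congrArg (fun p : Polynomial K => p.coeff (i : ℕ)) h1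
  simp only [Polynomial.finsetSum_coeff, Polynomial.coeff_C_mul, Polynomial.coeff_X_pow, Polynomial.coeff_zero] at h2
  rw [Finset.sum_eq_single i] at h2
  · simpa using h2
  · intro b _ hb
    rw [if_neg (fun e => hb (Fin.ext e.symm)), mul_zero]
  · intro hi
    exact absurd (Finset.mem_univ i) hi

end Pool.Agent.H64.LG
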