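import Pool.Agent.H64.LG.CokA
import Pool.Agent.H64.LG.CokB
import Pool.Agent.H64.LG.Trs

/-!
# LG.Cok : contradiction over a number field

PROOF. `C` from `aux`, `C2` from `Dl_le` (for `D`), `R = 8 C C2`, `M` from `cokA` for `R`. Choose `E ≥ 1` with `M² ≤ 2^E`, and `L ≥ 2 E` with `2 T C < 4^T` for all `T ≥ L`. `ξ` from `aux`; `G = Gs c A B L (2 E) ξ` is not zero (`trs`, `ξ ≠ 0`, `𝓞 K → K` injective); `T` = its order (least `T` with `coeff T G ≠ 0`), `T ≥ E L`. `Dl D T * coeff T G`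
is an algebraic integer (`int`, `ξ i j` integral, finite sum), not zero, so there is an embedding `σ` with `1 ≤ ‖σ (Dl D T * coeff T G)‖ = Dl D T * ‖σ (coeff T G)‖` (`NumberField.exists_conjugate_one_le_norm`). `cokB` with `X0 = C^(E L + 1)`, `L' = 2 E`:
`1 ≤ C2^T * (2 E L) C^(E L + 1) M^(L + 2 E) / R^T ≤ 2 T C M^(L + 2 E) / 8^T`, as `E L ≤ T`. `M^(2 (L + 2 E)) ≤ 2^(E (L + 2 E)) ≤ 2^(2 E L) ≤ 2^(2 T)`, so `M^(L + 2 E) ≤ 2^T`, and `4^T ≤ 2 T C`, a contradiction (`T ≥ E L ≥ L`).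
-/

set_option autoImplicit false

namespace Pool.Agent.H64.LG

open NumberField

theorem coreK (K : Type) [Field K] [NumberField K] (c A B : K) (hc0 : c ≠ 0) (hc1 : c ≠ 1)
    (hAB : ¬ (A = 0 ∧ B = 0)) (D : ℕ) (hD : 1 ≤ D)
    (ht : ∀ k, IsIntegral ℤ ((Dl D k : K) * eK c A B k)) : False := by
  classical
  obtain ⟨C, hC1, haux⟩ := aux K c A B D hD ht
  obtain ⟨C2, hC2, hDl⟩ := Dl_le D hD
  have hC0 : 0 < C := lt_of_lt_of_le one_pos hC1
  have hC20 : 0 < C2 := lt_of_lt_of_le one_pos hC2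
  have hR : 0 < 8 * C * C2 := by positivity
  obtain ⟨M, hM1, hσ⟩ := cokA K c A B (8 * C * C2) hR
  have hM0 : 0 < M := lt_of_lt_of_le one_pos hM1
  obtain ⟨E0, hE0⟩ := pow_unbounded_of_one_lt (M ^ 2) (one_lt_two : (1 : ℝ) < 2)
  obtain ⟨L0, hL0⟩ := pow_unbounded_of_one_lt (2 * C) (one_lt_two : (1 : ℝ) < 2)
  obtain ⟨E, hE⟩ : ∃ E, E = E0 + 1 := ⟨_, rfl⟩
  obtain ⟨L, hL⟩ : ∃ L, L = 2 * E + L0 := ⟨_, rfl⟩
  have hE1 : 1 ≤ E := by omega
  have hL1 : 1 ≤ L := by omega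
  obtain ⟨ξ, hξ0, hξ1, hξ2⟩ := haux E L hE1 hL1
  obtain ⟨G, hG⟩ : ∃ G, G = Gs c A B L (2 * E) fun i j => ((ξ i j : 𝓞 K) : K) := ⟨_, rfl⟩
  rw [← hG] at hξ1
  have hG0 : G ≠ 0 := by
    intro h0
    have h1 := trs c A B hc0 hc1 hAB L (2 * E) (fun i j => ((ξ i j : 𝓞 K) : K)) (by rw [← h0, hG]; rfl)
    apply hξ0
    funext i j
    have h2 := congrFun (congrFun h1 i) j
    exact RingOfIntegers.ext h2
  have hex : ∃ T, PowerSeries.coeff T G ≠ 0 := by
    by_contra hno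
    push Not at hno
    exact hG0 (PowerSeries.ext fun n => by rw [hno n, map_zero])
  obtain ⟨T, hTd⟩ : ∃ T, T = Nat.find hex := ⟨_, rfl⟩
  have hT : PowerSeries.coeff T G ≠ 0 := by rw [hTd]; exact Nat.find_spec hex
  have hTlt : ∀ n, n < T → PowerSeries.coeff n G = 0 := by
    intro n hn
    rw [hTd] at hn
    exact not_not.1 (Nat.find_min hex hn)
  have hTE : E * L ≤ T := by
    by_contra hlt
    exact hT (hξ1 T (by omega))
  -- integrality
  have hint : IsIntegral ℤ ((Dl D T : K) * PowerSeries.coeff T G) := by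
    rw [hG, Gs, map_sum, Finset.mul_sum]
    refine IsIntegral.sum _ fun i _ => ?_
    rw [map_sum, Finset.mul_sum]
    refine IsIntegral.sum _ fun j _ => ?_
    rw [PowerSeries.coeff_C_mul, mul_left_comm]
    exact (RingOfIntegers.isIntegral_coe (ξ i j)).mul (int K c A B D hD ht i j T)
  have hDl0 : (Dl D T : K) ≠ 0 := by
    have := Dl_pos D T hD
    exact_mod_cast (by omega : Dl D T ≠ 0)
  obtain ⟨σ, hσ1⟩ := exists_conjugate_one_le_norm (K := K)
    (α := (⟨(Dl D T : K) * PowerSeries.coeff T G, hint⟩ : 𝓞 K)) (by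
      intro h0
      have h1 := congrArg (fun z : 𝓞 K => (z : K)) h0
      exact mul_ne_zero hDl0 hT (by simpa using h1))
  have hσ2 : 1 ≤ (Dl D T : ℝ) * ‖σ (PowerSeries.coeff T G)‖ := by
    have h1 : ‖σ ((Dl D T : K) * PowerSeries.coeff T G)‖ = (Dl D T : ℝ) * ‖σ (PowerSeries.coeff T G)‖ := by
      rw [map_mul, norm_mul, map_natCast, Complex.norm_natCast]
    rw [← h1]
    exact hσ1
  obtain ⟨S, N, Ψ, D', hS0, hS1, hN, hΨ, hD', hD0, hev, hb⟩ := hσ σ
  have hB := cokB K c A B σ (8 * C * C2) hR S N Ψ D' hS0 hS1 hN hΨ hD' hD0 hev M hM1 hb L (2 * E)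
    (fun i j => ((ξ i j : 𝓞 K) : K)) (C ^ (E * L + 1)) (fun i j => hξ2 σ i j) T (by rw [← hG]; exact hTlt)
  rw [← hG] at hB
  have hMT : M ^ (L + 2 * E) ≤ 2 ^ T := by
    have h1 : (M ^ (L + 2 * E)) ^ 2 ≤ ((2 : ℝ) ^ T) ^ 2 := by
      calc (M ^ (L + 2 * E)) ^ 2 = (M ^ 2) ^ (L + 2 * E) := by rw [← pow_mul, ← pow_mul, mul_comm]
        _ ≤ ((2 : ℝ) ^ E) ^ (L + 2 * E) := by
            refine pow_le_pow_left₀ (by positivity) (hE0.le.trans ?_) _
            exact pow_le_pow_right₀ one_le_two (by omega)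
        _ = (2 : ℝ) ^ (E * (L + 2 * E)) := by rw [← pow_mul]
        _ ≤ (2 : ℝ) ^ (T * 2) := by
            refine pow_le_pow_right₀ one_le_two ?_
            have h2 : E * (L + 2 * E) ≤ E * (L + L) := Nat.mul_le_mul_left _ (by omega)
            have h3 : E * (L + L) = (E * L) * 2 := by ring
            omega
        _ = ((2 : ℝ) ^ T) ^ 2 := by rw [← pow_mul]
    exact le_of_sq_le_sq h1 (by positivity)
  have hR0 : (8 * C * C2) ^ T = 8 ^ T * C ^ T * C2 ^ T := by rw [mul_pow, mul_pow]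
  have hLE : ((L : ℝ) * ((2 * E : ℕ) : ℝ)) ≤ 2 * T := by
    have h1 : L * (2 * E) ≤ 2 * T := by
      have : L * (2 * E) = 2 * (E * L) := by ring
      omega
    exact_mod_cast h1
  have hCT : C ^ (E * L + 1) ≤ C ^ (T + 1) := pow_le_pow_right₀ hC1 (by omega)
  have hfin : 1 ≤ C2 ^ T * ((2 * T) * C ^ (T + 1) * 2 ^ T / (8 * C * C2) ^ T) := by
    refine hσ2.trans ?_
    refine mul_le_mul (hDl T) (hB.trans ?_) (norm_nonneg _) (by positivity)
    refine div_le_div_of_nonneg_right ?_ (by positivity)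
    have h1 : (0 : ℝ) ≤ (L : ℝ) * ((2 * E : ℕ) : ℝ) := by positivity
    refine mul_le_mul (mul_le_mul hLE hCT (by positivity) (by positivity)) hMT (by positivity) (by positivity)
  have hfin2 : C2 ^ T * ((2 * T) * C ^ (T + 1) * 2 ^ T / (8 * C * C2) ^ T) = (2 * T) * C * 2 ^ T / 8 ^ T := by
    rw [hR0]
    have h1 : C ^ T ≠ 0 := by positivity
    have h2 : C2 ^ T ≠ 0 := by positivity
    field_simp
    ring
  rw [hfin2, le_div_iff₀ (by positivity), one_mul] at hfin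
  -- contradiction
  have h8 : (8 : ℝ) ^ T = 2 ^ T * (2 ^ T * 2 ^ T) := by
    rw [← mul_pow, ← mul_pow]; norm_num
  have hT2 : (T : ℝ) < 2 ^ T := by exact_mod_cast Nat.lt_two_pow_self
  have h2C : 2 * C ≤ 2 ^ T := by
    refine hL0.le.trans (pow_le_pow_right₀ one_le_two ?_)
    have h1 : L ≤ E * L := Nat.le_mul_of_pos_left L (by omega)
    omega
  have h3 : (2 * T) * C * 2 ^ T < (8 : ℝ) ^ T := by
    rw [h8]
    have h4 : (2 * T) * C < (2 : ℝ) ^ T * 2 ^ T := by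
      calc (2 * T) * C = (2 * C) * T := by ring
        _ < (2 * C) * 2 ^ T := by
            refine mul_lt_mul_of_pos_left hT2 (by positivity)
        _ ≤ 2 ^ T * 2 ^ T := mul_le_mul_of_nonneg_right h2C (by positivity)
    have h5 : (0 : ℝ) < 2 ^ T := by positivity
    nlinarith
  linarith

end Pool.Agent.H64.LG
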