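import Pool.Agent.H64.LG.Mer

/-!
# LG.CokA : uniform bounds for all embeddings

PROOF. For each of the finitely many `σ : K →+* ℂ` take `S` and `N, Ψ, D` from `mer (σ c) (σ A) (σ B)` with radius `R + 1`; they are continuous on the compact sphere `‖u‖ = R` (in the open ball), hence bounded; `M` = maximum of all bounds and `1`.
-/

set_option autoImplicit false

namespace Pool.Agent.H64.LG

open Filter Topology Metric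

private theorem cokA_bdd (f : ℂ → ℂ) (R : ℝ) (hf : DifferentiableOn ℂ f (ball 0 (R + 1))) :
    ∃ M : ℝ, ∀ u : ℂ, ‖u‖ = R → ‖f u‖ ≤ M := by
  have hs : sphere (0 : ℂ) R ⊆ ball 0 (R + 1) := by
    intro u hu
    rw [mem_sphere_zero_iff_norm] at hu
    rw [mem_ball_zero_iff, hu]
    linarith
  have hc : ContinuousOn f (sphere (0 : ℂ) R) := hf.continuousOn.mono hs
  obtain ⟨M, hM⟩ := (isCompact_sphere (0 : ℂ) R).exists_bound_of_continuousOn hc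
  exact ⟨M, fun u hu => hM u (mem_sphere_zero_iff_norm.2 hu)⟩

theorem cokA (K : Type) [Field K] [NumberField K] (c A B : K) (R : ℝ) (hR : 0 < R) :
    ∃ M : ℝ, 1 ≤ M ∧ ∀ σ : K →+* ℂ, ∃ S N Ψ D : ℂ → ℂ, S 0 = 0 ∧ HasDerivAt S 1 0 ∧
      DifferentiableOn ℂ N (ball 0 (R + 1)) ∧ DifferentiableOn ℂ Ψ (ball 0 (R + 1)) ∧
      DifferentiableOn ℂ D (ball 0 (R + 1)) ∧ D 0 = 1 ∧
      (∀ᶠ u in 𝓝 (0 : ℂ), N u = D u * S u ∧ Ψ u = D u * Fan (σ c) (σ A) (σ B) (S u)) ∧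
      ∀ u : ℂ, ‖u‖ = R → ‖N u‖ ≤ M ∧ ‖Ψ u‖ ≤ M ∧ ‖D u‖ ≤ M := by
  have key : ∀ σ : K →+* ℂ, ∃ M : ℝ, ∃ S N Ψ D : ℂ → ℂ, S 0 = 0 ∧ HasDerivAt S 1 0 ∧
      DifferentiableOn ℂ N (ball 0 (R + 1)) ∧ DifferentiableOn ℂ Ψ (ball 0 (R + 1)) ∧
      DifferentiableOn ℂ D (ball 0 (R + 1)) ∧ D 0 = 1 ∧
      (∀ᶠ u in 𝓝 (0 : ℂ), N u = D u * S u ∧ Ψ u = D u * Fan (σ c) (σ A) (σ B) (S u)) ∧
      ∀ u : ℂ, ‖u‖ = R → ‖N u‖ ≤ M ∧ ‖Ψ u‖ ≤ M ∧ ‖D u‖ ≤ M := by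
    intro σ
    obtain ⟨S, hS0, hS1, hS⟩ := mer (σ c) (σ A) (σ B)
    obtain ⟨N, Ψ, D, h1, h2, h3, h4, h5⟩ := hS (R + 1) (by linarith)
    obtain ⟨M1, hM1⟩ := cokA_bdd N R h1
    obtain ⟨M2, hM2⟩ := cokA_bdd Ψ R h2
    obtain ⟨M3, hM3⟩ := cokA_bdd D R h3
    refine ⟨max M1 (max M2 M3), S, N, Ψ, D, hS0, hS1, h1, h2, h3, h4, h5, fun u hu => ⟨?_, ?_, ?_⟩⟩
    · exact (hM1 u hu).trans (le_max_left _ _)
    · exact (hM2 u hu).trans ((le_max_left _ _).trans (le_max_right _ _))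
    · exact (hM3 u hu).trans ((le_max_right _ _).trans (le_max_right _ _))
  choose Mf hMf using key
  obtain ⟨M, hM⟩ := (Set.finite_range Mf).bddAbove
  refine ⟨max 1 M, le_max_left _ _, fun σ => ?_⟩
  obtain ⟨S, N, Ψ, D, hS0, hS1, h1, h2, h3, h4, h5, h6⟩ := hMf σ
  have hle : Mf σ ≤ max 1 M := (hM ⟨σ, rfl⟩).trans (le_max_right _ _)
  exact ⟨S, N, Ψ, D, hS0, hS1, h1, h2, h3, h4, h5, fun u hu =>
    ⟨(h6 u hu).1.trans hle, (h6 u hu).2.1.trans hle, (h6 u hu).2.2.trans hle⟩⟩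

end Pool.Agent.H64.LG
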