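import Pool.Agent.H64.LG.Defs

/-!
# LG.Pls : elementary facts on places

PROOFS. `pl` is `comap Place.p atTop`: `∀ᶠ v in pl, Pr v` follows from `∃ M, ∀ v, M < v.p → Pr v` (`Filter.eventually_comap`,
`Filter.eventually_gt_atTop`). `ev_mem`: `Pool.H61.QF.eventually_mem` (QF/Pl). `ev_ne`: `x` and `x⁻¹` in `LocInt`, `rho_ne_zero` (QF/Rd1).
`ev_gb`: `GloballyBounded` and `locInt_of_pow` (QF/Pl) for `p > N`. `ev_alg`: `eisenstein` (QF/Ei) and `ev_gb`; an element of `A0`
satisfies `IsAlgebraic (Polynomial Kbar) f`, i.e. `aeval f P = 0` for a nonzero polynomial `P` with polynomial coefficients, and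
`AlgSeries f` is the same with the coefficients `Q i = P.coeff i`. `red_p`: `rho_natCast` and `CharP.cast_eq_zero`.
`ev_Q`: `Q` has finitely many nonzero coefficients.
-/

set_option autoImplicit false

namespace Pool.Agent.H64.LG

open Pool.H61.QF

theorem ev_gt (M : ℕ) : ∀ᶠ v in pl, M < Place.p v := by
  unfold pl
  rw [Filter.eventually_comap]
  filter_upwards [Filter.eventually_gt_atTop M] with n hn v hv
  rw [hv]
  exact hn

theorem ev_mem (x : Kbar) : ∀ᶠ v in pl, x ∈ LocInt (Place.p v) := by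
  obtain ⟨P0, hP0⟩ := eventually_mem x
  filter_upwards [ev_gt P0] with v hv
  exact hP0 v.p hv.le

theorem ev_ne (x : Kbar) (hx : x ≠ 0) : ∀ᶠ v in pl, Place.red v x ≠ 0 := by
  filter_upwards [ev_mem x, ev_mem x⁻¹] with v h1 h2
  exact rho_ne_zero v.φ h1 h2 hx

theorem ev_gb (f : PowerSeries Kbar) (hf : GloballyBounded f) :
    ∀ᶠ v in pl, ∀ n, PowerSeries.coeff n f ∈ LocInt (Place.p v) := by
  obtain ⟨N, hN, h⟩ := hf
  filter_upwards [ev_gt N] with v hv n
  obtain ⟨e, he⟩ := h n
  refine locInt_of_pow v.p N (fun hd => ?_) e _ he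
  have := Nat.le_of_dvd (by omega) hd
  omega

private lemma algMap_eq (q : Polynomial Kbar) :
    algebraMap (Polynomial Kbar) (PowerSeries Kbar) q = (q : PowerSeries Kbar) := rfl

theorem algSeries_of_mem {f : PowerSeries Kbar} (hf : f ∈ A0) : AlgSeries f := by
  have h1 : IsAlgebraic (Polynomial Kbar) f := hf
  obtain ⟨P, hP0, hP⟩ := h1
  refine ⟨P.natDegree, fun i => P.coeff i, ⟨P.natDegree, by simp, ?_⟩, ?_⟩
  · exact Polynomial.leadingCoeff_ne_zero.2 hP0
  · rw [Polynomial.aeval_eq_sum_range] at hP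
    rw [← hP]
    apply Finset.sum_congr rfl
    intro i _
    rw [Algebra.smul_def, algMap_eq]

theorem mem_of_algSeries {f : PowerSeries Kbar} (hf : AlgSeries f) : f ∈ A0 := by
  obtain ⟨d, Q, ⟨i, hi, hQ⟩, hsum⟩ := hf
  show IsAlgebraic (Polynomial Kbar) f
  refine ⟨∑ j ∈ Finset.range (d + 1), Polynomial.monomial j (Q j), ?_, ?_⟩
  · intro h
    apply hQ
    have h1 := congrArg (fun P => Polynomial.coeff P i) h
    simp only [Polynomial.finsetSum_coeff, Polynomial.coeff_monomial, Polynomial.coeff_zero,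
      Finset.sum_ite_eq', hi, if_true] at h1
    exact h1
  · rw [map_sum, ← hsum]
    apply Finset.sum_congr rfl
    intro j _
    rw [Polynomial.aeval_monomial, algMap_eq]

theorem ev_alg (f : PowerSeries Kbar) (hf : f ∈ A0) :
    ∀ᶠ v in pl, ∀ n, PowerSeries.coeff n f ∈ LocInt (Place.p v) :=
  ev_gb f (eisenstein f (algSeries_of_mem hf))

theorem ev_Q (Q : MvPolynomial (Fin 2 × Fin 2) A0) :
    ∀ᶠ v in pl, ∀ m n, PowerSeries.coeff n ((Q.coeff m : A0) : PowerSeries Kbar) ∈ LocInt (Place.p v) := by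
  have h1 : ∀ᶠ v in pl, ∀ m ∈ Q.support, ∀ n,
      PowerSeries.coeff n ((Q.coeff m : A0) : PowerSeries Kbar) ∈ LocInt (Place.p v) := by
    rw [Filter.eventually_all_finset]
    intro m _
    exact ev_alg _ (Q.coeff m).2
  filter_upwards [h1] with v hv m n
  by_cases hm : m ∈ Q.support
  · exact hv m hm n
  · rw [MvPolynomial.notMem_support_iff.1 hm]
    have : PowerSeries.coeff n (((0 : A0)) : PowerSeries Kbar) = 0 := by simp
    rw [this]
    exact (LocInt v.p).zero_mem

theorem red_p (v : Place) : v.red (v.p : Kbar) = 0 := by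
  unfold Place.red
  rw [rho_natCast]
  exact CharP.cast_eq_zero v.k v.p

end Pool.Agent.H64.LG
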