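import Pool.Agent.H64.LG.Gen
import Pool.Agent.H64.LG.Pls

/-!
# LG.Exa : vanishing of one coefficient implies exactness modulo `p`

PROOF. For large `p`, `c, A, B` are in `LocInt p`, `p ≥ 5`; all `aK c n`, `bK c A B n` are in `LocInt p` (`4` is a unit). In `v.k⟦s⟧`: `w = redS (mk (aK c))` satisfies
`w² Q = 1`, `Q = (1 - s)(1 - c̄ s)` (`w_sq`, `redS_mul`), and `b = redS (mk (bK c A B)) = (Ā + B̄ s) w`. With `m = (p - 1)/2`: `w = w^p w^(1-p) = w^p Q^m` (multiply by `w^(p-1) Q^m = 1`), so
`b = w^p * P`, `P = (Ā + B̄ s) Q^m` a polynomial of degree `≤ 1 + 2 m = p`. `w^p = ∑ (coeff j w)^p s^(j p)` (characteristic `p`: for instance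
`PowerSeries` Frobenius, `w^p = map (frobenius) w` evaluated at `s^p`; or `expand`-type lemma, or truncate and use the polynomial case). For `2 n + 1 = p (2 l + 1)`: `n = l p + m`, and the
coefficient of `s^n` in `w^p P` is `∑_j (coeff j w)^p P_{n - j p}`; `n - j p = m + (l - j) p ∈ [0, p]` only for `j = l` (`m ≥ 1`), so it is
`(coeff l w)^p P_m`; for `l = 0` it is `P_m = b_m = 0`. If `p ∣ 2 n + 1` then `2 n + 1 = p (2 l + 1)` for some `l`.
-/

set_option autoImplicit false

namespace Pool.Agent.H64.LG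

open Pool.H61.QF PowerSeries

section aux

variable {k : Type} [Field k] {p : ℕ} [hp : Fact p.Prime] [CharP k p]

private lemma exa_coeff_pow (w : PowerSeries k) (n : ℕ) :
    coeff n (w ^ p) = if p ∣ n then (coeff (n / p) w) ^ p else 0 := by
  have hp0 : p ≠ 0 := hp.out.ne_zero
  have : ExpChar k p := ExpChar.prime hp.out
  have h : w ^ p = PowerSeries.map (frobenius k p) (PowerSeries.expand p hp0 w) :=
    (MvPowerSeries.map_frobenius_expand p hp0).symm
  rw [h, PowerSeries.coeff_map, PowerSeries.coeff_expand]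
  split_ifs with hd
  · rfl
  · exact map_zero _

private lemma exa_coeff_key (w P : PowerSeries k) (m : ℕ) (hm : 1 ≤ m) (hmp : m < p)
    (hP : ∀ j, p < j → coeff j P = 0) (l : ℕ) :
    coeff (l * p + m) (w ^ p * P) = (coeff l w) ^ p * coeff m P := by
  rw [PowerSeries.coeff_mul, Finset.sum_eq_single (l * p, m)]
  · simp only
    rw [exa_coeff_pow, if_pos (Dvd.intro_left _ rfl), Nat.mul_div_cancel _ hp.out.pos]
  · rintro ⟨i, j⟩ hij hne
    rw [Finset.HasAntidiagonal.mem_antidiagonal] at hij
    simp only at hij ⊢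
    rw [exa_coeff_pow]
    split_ifs with hd
    · obtain ⟨q, rfl⟩ := hd
      have hj : p < j := by
        rcases lt_trichotomy q l with h | h | h
        · have h3 : p * (q + 1) ≤ p * l := Nat.mul_le_mul_left _ h
          have h4 : p * (q + 1) = p * q + p := by ring
          have h5 : l * p = p * l := Nat.mul_comm _ _
          omega
        · exfalso
          subst h
          apply hne
          have h5 : q * p = p * q := Nat.mul_comm _ _
          have h6 : j = m := by omega
          rw [h6, h5]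
        · exfalso
          have h3 : p * (l + 1) ≤ p * q := Nat.mul_le_mul_left _ h
          have h4 : p * (l + 1) = p * l + p := by ring
          have h5 : l * p = p * l := Nat.mul_comm _ _
          omega
      rw [hP j hj, mul_zero]
    · rw [zero_mul]
  · intro h
    exact absurd (Finset.HasAntidiagonal.mem_antidiagonal.2 (rfl : l * p + m = l * p + m)) h

private lemma exa_deg (a b c : k) (m j : ℕ) (hj : 2 * m + 1 < j) :
    coeff j ((C a + C b * X) * ((1 - X) * (1 - C c * X)) ^ m : PowerSeries k) = 0 := by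
  have e : ((C a + C b * X) * ((1 - X) * (1 - C c * X)) ^ m : PowerSeries k) =
      (((Polynomial.C a + Polynomial.C b * Polynomial.X) *
        ((1 - Polynomial.X) * (1 - Polynomial.C c * Polynomial.X)) ^ m : Polynomial k) :
          PowerSeries k) := by
    have e1 : ((1 - Polynomial.X : Polynomial k) : PowerSeries k) = 1 - X := by
      rw [Polynomial.coe_sub, Polynomial.coe_one, Polynomial.coe_X]
    have e2 : ((1 - Polynomial.C c * Polynomial.X : Polynomial k) : PowerSeries k) = 1 - C c * X := by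
      rw [Polynomial.coe_sub, Polynomial.coe_one, Polynomial.coe_mul, Polynomial.coe_C,
        Polynomial.coe_X]
    rw [Polynomial.coe_mul, Polynomial.coe_add, Polynomial.coe_mul, Polynomial.coe_C,
      Polynomial.coe_C, Polynomial.coe_X, Polynomial.coe_pow, Polynomial.coe_mul, e1, e2]
  rw [e, Polynomial.coeff_coe]
  apply Polynomial.coeff_eq_zero_of_natDegree_lt
  have d1 : (Polynomial.C a + Polynomial.C b * Polynomial.X : Polynomial k).natDegree ≤ 1 := by
    rw [add_comm]
    exact Polynomial.natDegree_linear_le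
  have d2 : (1 - Polynomial.X : Polynomial k).natDegree ≤ 1 := by
    refine (Polynomial.natDegree_sub_le _ _).trans ?_
    rw [Polynomial.natDegree_one]
    exact max_le (Nat.zero_le _) Polynomial.natDegree_X_le
  have d3 : (1 - Polynomial.C c * Polynomial.X : Polynomial k).natDegree ≤ 1 := by
    refine (Polynomial.natDegree_sub_le _ _).trans ?_
    rw [Polynomial.natDegree_one]
    exact max_le (Nat.zero_le _) ((Polynomial.natDegree_C_mul_le _ _).trans Polynomial.natDegree_X_le)
  have d4 : (((1 - Polynomial.X) * (1 - Polynomial.C c * Polynomial.X)) ^ m :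
      Polynomial k).natDegree ≤ m * 2 := by
    refine Polynomial.natDegree_pow_le.trans (Nat.mul_le_mul_left _ ?_)
    exact Polynomial.natDegree_mul_le.trans (by omega)
  have d5 := Polynomial.natDegree_mul_le (p := (Polynomial.C a + Polynomial.C b * Polynomial.X :
    Polynomial k)) (q := ((1 - Polynomial.X) * (1 - Polynomial.C c * Polynomial.X)) ^ m)
  omega

private lemma exa_field (a b c : k) (w : PowerSeries k) (m : ℕ) (hm : 1 ≤ m) (hpm : p = 2 * m + 1)
    (hw : w ^ 2 * ((1 - X) * (1 - C c * X)) = 1)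
    (h0 : coeff m ((C a + C b * X) * w) = 0) (l : ℕ) :
    coeff (l * p + m) ((C a + C b * X) * w) = 0 := by
  have e : (C a + C b * X) * w =
      w ^ p * ((C a + C b * X) * ((1 - X) * (1 - C c * X)) ^ m) := by
    have e1 : w ^ p = w * (w ^ 2) ^ m := by
      rw [hpm, pow_succ, pow_mul]
      ring
    rw [e1]
    calc (C a + C b * X) * w = (C a + C b * X) * w * 1 ^ m := by rw [one_pow, mul_one]
      _ = (C a + C b * X) * w * (w ^ 2 * ((1 - X) * (1 - C c * X))) ^ m := by rw [hw]
      _ = _ := by rw [mul_pow]; ring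
  have hP : ∀ j, p < j → coeff j ((C a + C b * X) * ((1 - X) * (1 - C c * X)) ^ m : PowerSeries k) = 0 := by
    intro j hj
    exact exa_deg a b c m j (by omega)
  rw [e] at h0 ⊢
  rw [exa_coeff_key w _ m hm (by omega) hP l]
  have h1 := exa_coeff_key w _ m hm (by omega) hP 0
  rw [zero_mul, zero_add, h0] at h1
  have hw0 : coeff 0 w ≠ 0 := by
    intro hc
    have h2 := congrArg (coeff 0) hw
    rw [PowerSeries.coeff_zero_eq_constantCoeff_apply, map_mul, map_pow,
      ← PowerSeries.coeff_zero_eq_constantCoeff_apply, hc] at h2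
    simp at h2
  have h3 : coeff m ((C a + C b * X) * ((1 - X) * (1 - C c * X)) ^ m : PowerSeries k) = 0 := by
    rcases mul_eq_zero.1 h1.symm with h4 | h4
    · exact absurd (pow_eq_zero_iff (hp.out.ne_zero) |>.1 h4) hw0
    · exact h4
  rw [h3, mul_zero]

end aux

private lemma exa_cb_mem {p : ℕ} [hp : Fact p.Prime] (h4 : 4 < p) (i : ℕ) :
    cb Kbar i ∈ LocInt p := by
  refine ⟨4 ^ i, ?_, ?_⟩
  · intro hd
    have := Nat.le_of_dvd (by norm_num) (hp.out.dvd_of_dvd_pow hd)
    omega
  · unfold cb
    have h40 : ((4 ^ i : ℕ) : Kbar) ≠ 0 := by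
      exact_mod_cast (pow_pos (by norm_num : (0 : ℕ) < 4) i).ne'
    have e : ((4 ^ i : ℕ) : Kbar) * ((Nat.centralBinom i : Kbar) / 4 ^ i) =
        ((Nat.centralBinom i : ℕ) : Kbar) := by
      push_cast at h40 ⊢
      field_simp
    rw [e]
    exact isIntegral_nat _

private lemma exa_aK_mem {p : ℕ} [hp : Fact p.Prime] (h4 : 4 < p) {c : Kbar} (hc : c ∈ LocInt p)
    (n : ℕ) : aK c n ∈ LocInt p := by
  unfold aK
  refine (LocInt p).sum_mem fun i _ => ?_
  exact (LocInt p).mul_mem ((LocInt p).mul_mem (exa_cb_mem h4 _) (exa_cb_mem h4 _))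
    ((LocInt p).pow_mem hc _)

theorem exa (c A B : Kbar) (h : ∀ᶠ v in pl, Place.red v (bK c A B ((Place.p v - 1) / 2)) = 0) :
    ∀ᶠ v in pl, ∀ n, Place.p v ∣ 2 * n + 1 → Place.red v (bK c A B n) = 0 := by
  filter_upwards [h, ev_gt 4, ev_mem c, ev_mem A, ev_mem B] with v hv hp hc hA hB n hn
  have hpp : (Place.p v).Prime := v.hp.out
  obtain ⟨m, hm⟩ : ∃ m, Place.p v = 2 * m + 1 := by
    rcases hpp.eq_two_or_odd with h2 | h2
    · omega
    · exact ⟨Place.p v / 2, by omega⟩
  have hm2 : (Place.p v - 1) / 2 = m := by omega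
  rw [hm2] at hv
  have haL : ∀ n, aK c n ∈ LocInt (Place.p v) := exa_aK_mem hp hc
  let a' : PowerSeries (LocInt (Place.p v)) := PowerSeries.mk fun n => ⟨aK c n, haL n⟩
  have h1 : a' ^ 2 * ((1 - X) * (1 - C (⟨c, hc⟩ : LocInt (Place.p v)) * X)) = 1 := by
    apply PowerSeries.map_injective (LocInt (Place.p v)).subtype Subtype.val_injective
    have e : PowerSeries.map (LocInt (Place.p v)).subtype a' = PowerSeries.mk (aK c) := by
      ext n
      rw [PowerSeries.coeff_map, PowerSeries.coeff_mk, PowerSeries.coeff_mk]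
      rfl
    simp only [map_mul, map_pow, map_sub, map_one, PowerSeries.map_X, PowerSeries.map_C]
    rw [e]
    exact w_sq c
  have h2 : (PowerSeries.map v.φ a') ^ 2 *
      ((1 - X) * (1 - C (v.φ (⟨c, hc⟩ : LocInt (Place.p v))) * X)) = 1 := by
    have h3 := congrArg (PowerSeries.map v.φ) h1
    simpa only [map_mul, map_pow, map_sub, map_one, PowerSeries.map_X, PowerSeries.map_C] using h3
  have hb : ∀ n, Place.red v (bK c A B n) =
      coeff n ((C (v.φ (⟨A, hA⟩ : LocInt (Place.p v))) + C (v.φ (⟨B, hB⟩ : LocInt (Place.p v))) * X) *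
        PowerSeries.map v.φ a') := by
    intro n
    have hw : ∀ n, coeff n (PowerSeries.map v.φ a') = Place.red v (aK c n) := by
      intro n
      rw [PowerSeries.coeff_map, PowerSeries.coeff_mk]
      exact (rho_eq v.φ (haL n)).symm
    have hA' : v.φ (⟨A, hA⟩ : LocInt (Place.p v)) = Place.red v A := (rho_eq v.φ hA).symm
    have hB' : v.φ (⟨B, hB⟩ : LocInt (Place.p v)) = Place.red v B := (rho_eq v.φ hB).symm
    rw [hA', hB', add_mul, map_add, PowerSeries.coeff_C_mul, hw, mul_assoc, PowerSeries.coeff_C_mul]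
    cases n with
    | zero =>
      rw [PowerSeries.coeff_zero_X_mul, mul_zero, add_zero]
      exact rho_mul v.φ hA (haL 0)
    | succ n =>
      rw [PowerSeries.coeff_succ_X_mul, hw]
      show rho v.φ (A * aK c (n + 1) + B * aK c n) = _
      rw [rho_add v.φ ((LocInt _).mul_mem hA (haL _)) ((LocInt _).mul_mem hB (haL _)),
        rho_mul v.φ hA (haL _), rho_mul v.φ hB (haL _)]
      rfl
  obtain ⟨q, hq⟩ := hn
  have hqo : q % 2 = 1 := by
    rcases Nat.even_or_odd q with h3 | h3
    · exfalso
      obtain ⟨r, hr⟩ := h3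
      have h4 : Place.p v * q = 2 * (Place.p v * r) := by rw [hr]; ring
      omega
    · exact Nat.odd_iff.1 h3
  obtain ⟨l, hl⟩ : ∃ l, q = 2 * l + 1 := ⟨q / 2, by omega⟩
  have hn' : n = l * Place.p v + m := by
    have h4 : Place.p v * q = 2 * (l * Place.p v) + Place.p v := by rw [hl]; ring
    omega
  rw [hb, hn']
  exact exa_field (p := Place.p v) _ _ _ _ m (by omega) hm h2 (by rw [← hb]; exact hv) l

end Pool.Agent.H64.LG
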