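import Pool.Agent.H64.LG.Rad
import Pool.Agent.H64.LG.Dlt
import Pool.Agent.H64.LG.Pls

/-!
# LG.Tam : exactness modulo almost all primes gives small denominators

PROOF. `K = ℚ(c, A, B)` (`IntermediateField.adjoin`, finite), `δ` from `rad`. Let `P0` be such that the hypothesis holds for all places with `p > P0`, and `P0 > δ` . Let `N ≥ 1` with `c, A, B ∈ RN N` (QF/Ei `exists_RN_finset`) and
more precisely `N c, N A, N B` integral; `D = 4 N * P0!` (or a power). For odd `k = 2 n + 1`: `bK c A B n` is `4^(-n) N^(-n-1)` times an integral number (degree `≤ n` in `c`, `4^n cb i cb (n - i)` is an integer), so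
`D^k bK` is integral. To show that `Dl D k * bK / k` is integral it is enough to show for every prime `p` that it is in `LocInt p` (`int_of_loc`: the integers `s` with `s x` integral form an ideal of `ℤ` which is
not contained in any `p ℤ`). (a) `p ≤ P0`: `p ∣ D`; `p^k / k` is in `LocInt p` (`v_p(k) ≤ k`), so `D^k / k`... take `D = (4 N P0!)²`: `D^k bK / k = ((4 N P0!)^k bK)((4 N P0!)^k / k)`. (b) `p > P0`: `bK` is in `LocInt p`; if `p ∤ k` then `bK / k` is;
if `p ∣ k`: all `φ` kill `bK` (hypothesis, for the place built from `φ`), so `bK / p` is in `LocInt p` by `rad`, and `Dl D k / (k / p)` is in `LocInt p`: with `a = v_p(k) ≥ 1`, `p^(a-1) ∣ p^(k / p²) ∣ Dl D k` (`pow_dvd`)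
as `k / p² ≥ p^(a-2) ≥ a - 1` for `a ≥ 2`.
-/

set_option autoImplicit false

namespace Pool.Agent.H64.LG

open Pool.H61.QF

theorem int_of_loc (x : Kbar) (h : ∀ (p : ℕ) [Fact p.Prime], x ∈ LocInt p) : IsIntegral ℤ x := by
  classical
  have hex : ∃ s : ℕ, 0 < s ∧ IsIntegral ℤ ((s : Kbar) * x) := by
    obtain ⟨s, hs, hx⟩ := @h 2 ⟨Nat.prime_two⟩
    refine ⟨s, Nat.pos_of_ne_zero fun h0 => hs (h0 ▸ dvd_zero 2), hx⟩
  obtain ⟨hs0, hsx⟩ := Nat.find_spec hex
  have hmin : ∀ t : ℕ, 0 < t → IsIntegral ℤ ((t : Kbar) * x) → Nat.find hex ≤ t :=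
    fun t h0 h1 => Nat.find_min' hex ⟨h0, h1⟩
  generalize Nat.find hex = s at hs0 hsx hmin
  by_cases h1 : s = 1
  · rw [h1, Nat.cast_one, one_mul] at hsx
    exact hsx
  exfalso
  have hp : s.minFac.Prime := Nat.minFac_prime h1
  obtain ⟨t, ht, htx⟩ := @h s.minFac ⟨hp⟩
  have hg0 : 0 < Nat.gcd s t := Nat.gcd_pos_of_pos_left t hs0
  have hgx : IsIntegral ℤ (((Nat.gcd s t : ℕ) : Kbar) * x) := by
    have hb := Nat.gcd_eq_gcd_ab s t
    have e : ((Nat.gcd s t : ℕ) : Kbar) = (s : Kbar) * ((Nat.gcdA s t : ℤ) : Kbar) +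
        (t : Kbar) * ((Nat.gcdB s t : ℤ) : Kbar) := by exact_mod_cast congrArg (Int.cast (R := Kbar)) hb
    have e2 : ((Nat.gcd s t : ℕ) : Kbar) * x = ((Nat.gcdA s t : ℤ) : Kbar) * ((s : Kbar) * x) +
        ((Nat.gcdB s t : ℤ) : Kbar) * ((t : Kbar) * x) := by
      rw [e]; ring
    rw [e2]
    have hz : ∀ z : ℤ, IsIntegral ℤ ((z : ℤ) : Kbar) := fun z => by
      simpa using isIntegral_algebraMap (R := ℤ) (A := Kbar) (x := z)
    exact ((hz _).mul hsx).add ((hz _).mul htx)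
  have h2 := hmin _ hg0 hgx
  have h3 : Nat.gcd s t ≤ s := Nat.gcd_le_left t hs0
  have h4 : Nat.gcd s t = s := le_antisymm h3 h2
  have h5 : s ∣ t := by
    rw [← h4]; exact Nat.gcd_dvd_right s t
  exact ht ((Nat.minFac_dvd s).trans h5)

private lemma tam_div (p : ℕ) [hp : Fact p.Prime] (k W a u : ℕ) (hu : ¬ p ∣ u)
    (hk : k = p ^ a * u) (hW : p ^ a ∣ W) : (W : Kbar) / (k : Kbar) ∈ LocInt p := by
  obtain ⟨w, rfl⟩ := hW
  subst hk
  refine ⟨u, hu, ?_⟩
  have hp0 : (p : Kbar) ≠ 0 := by exact_mod_cast hp.out.ne_zero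
  have hu0 : (u : Kbar) ≠ 0 := by
    have : u ≠ 0 := fun h0 => hu (h0 ▸ dvd_zero p)
    exact_mod_cast this
  have e : (u : Kbar) * (((p ^ a * w : ℕ) : Kbar) / ((p ^ a * u : ℕ) : Kbar)) = (w : Kbar) := by
    push_cast
    field_simp
  rw [e]
  exact isIntegral_nat w

private lemma tam_nat (x : Kbar) : ∃ N : ℕ, 1 ≤ N ∧ IsIntegral ℤ ((N : Kbar) * x) := by
  obtain ⟨N, hN, e, he⟩ := exists_RN x
  refine ⟨N ^ e, Nat.one_le_pow _ _ hN, ?_⟩
  rw [Nat.cast_pow]
  exact he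

private lemma tam_dvd {N M : ℕ} (h : N ∣ M) {x : Kbar} (hx : IsIntegral ℤ ((N : Kbar) * x)) :
    IsIntegral ℤ ((M : Kbar) * x) := by
  obtain ⟨t, rfl⟩ := h
  have e : ((N * t : ℕ) : Kbar) * x = (t : Kbar) * ((N : Kbar) * x) := by
    push_cast; ring
  rw [e]
  exact (isIntegral_nat t).mul hx

private lemma tam_aK (c : Kbar) (N : ℕ) (hc : IsIntegral ℤ ((N : Kbar) * c)) (m : ℕ) :
    IsIntegral ℤ (((4 * N : ℕ) : Kbar) ^ m * aK c m) := by
  unfold aK
  rw [Finset.mul_sum]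
  refine IsIntegral.sum _ fun i hi => ?_
  rw [Finset.mem_range] at hi
  obtain ⟨j, rfl⟩ := Nat.exists_eq_add_of_le (Nat.lt_succ_iff.1 hi)
  have e : ((4 * N : ℕ) : Kbar) ^ (i + j) * (cb Kbar i * cb Kbar (i + j - i) * c ^ i) =
      (((Nat.centralBinom i * Nat.centralBinom j * N ^ j : ℕ)) : Kbar) * ((N : Kbar) * c) ^ i := by
    rw [Nat.add_sub_cancel_left]
    unfold cb
    have h4 : (4 : Kbar) ≠ 0 := by norm_num
    push_cast
    rw [pow_add, mul_pow, mul_pow, mul_pow]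
    field_simp
  rw [e]
  exact (isIntegral_nat _).mul (hc.pow i)

private lemma tam_bK (c A B : Kbar) (N : ℕ) (hc : IsIntegral ℤ ((N : Kbar) * c))
    (hA : IsIntegral ℤ ((N : Kbar) * A)) (hB : IsIntegral ℤ ((N : Kbar) * B)) (n : ℕ) :
    IsIntegral ℤ (((4 * N : ℕ) : Kbar) ^ (n + 1) * bK c A B n) := by
  have h4 : ∀ y : Kbar, IsIntegral ℤ ((N : Kbar) * y) → IsIntegral ℤ (((4 * N : ℕ) : Kbar) * y) :=
    fun y hy => tam_dvd (Dvd.intro_left 4 rfl) hy
  cases n with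
  | zero =>
    have e : ((4 * N : ℕ) : Kbar) ^ (0 + 1) * bK c A B 0 =
        (((4 * N : ℕ) : Kbar) * A) * (((4 * N : ℕ) : Kbar) ^ 0 * aK c 0) := by
      show _ * (A * aK c 0) = _
      ring
    rw [e]
    exact (h4 A hA).mul (tam_aK c N hc 0)
  | succ n =>
    have e : ((4 * N : ℕ) : Kbar) ^ (n + 1 + 1) * bK c A B (n + 1) =
        (((4 * N : ℕ) : Kbar) * A) * (((4 * N : ℕ) : Kbar) ^ (n + 1) * aK c (n + 1)) +
        ((4 * N : ℕ) : Kbar) * ((((4 * N : ℕ) : Kbar) * B) * (((4 * N : ℕ) : Kbar) ^ n * aK c n)) := by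
      show _ * (A * aK c (n + 1) + B * aK c n) = _
      ring
    rw [e]
    exact ((h4 A hA).mul (tam_aK c N hc (n + 1))).add
      ((isIntegral_nat _).mul ((h4 B hB).mul (tam_aK c N hc n)))

private lemma tam_mem (K : IntermediateField ℚ Kbar) (c A B : Kbar) (hc : c ∈ K) (hA : A ∈ K)
    (hB : B ∈ K) (n : ℕ) : bK c A B n ∈ K := by
  have hcb : ∀ i, cb Kbar i ∈ K := fun i => by
    unfold cb
    have h4 : (4 : Kbar) ∈ K := by
      have h := natCast_mem K 4
      rwa [Nat.cast_ofNat] at h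
    exact K.div_mem (natCast_mem K _) (pow_mem h4 _)
  have ha : ∀ m, aK c m ∈ K := fun m => by
    unfold aK
    exact sum_mem fun i _ => mul_mem (mul_mem (hcb _) (hcb _)) (pow_mem hc _)
  cases n with
  | zero => exact mul_mem hA (ha 0)
  | succ n => exact add_mem (mul_mem hA (ha (n + 1))) (mul_mem hB (ha n))

private lemma tam_le (p a u : ℕ) (hp : 2 ≤ p) (hu : 1 ≤ u) : a ≤ p ^ (a + 1) * u / p ^ 2 := by
  cases a with
  | zero => exact Nat.zero_le _
  | succ a =>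
    have e : p ^ (a + 1 + 1) * u = p ^ a * u * p ^ 2 := by ring
    rw [e, Nat.mul_div_cancel _ (by positivity)]
    have h1 : a + 1 ≤ p ^ a := Nat.lt_pow_self hp
    calc a + 1 ≤ p ^ a := h1
      _ ≤ p ^ a * u := Nat.le_mul_of_pos_right _ hu

theorem tame (c A B : Kbar)
    (h : ∀ᶠ v in pl, ∀ n, Place.p v ∣ 2 * n + 1 → Place.red v (bK c A B n) = 0) :
    ∃ D : ℕ, 1 ≤ D ∧ ∀ k, IsIntegral ℤ ((Dl D k : Kbar) * eK c A B k) := by
  -- the number field
  set K : IntermediateField ℚ Kbar := IntermediateField.adjoin ℚ ({c, A, B} : Set Kbar) with hK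
  have hfin : FiniteDimensional ℚ K := by
    apply IntermediateField.finiteDimensional_adjoin
    intro x _
    exact (AlgebraicClosure.isAlgebraic ℚ).isAlgebraic x |>.isIntegral
  have hcK : c ∈ K := IntermediateField.subset_adjoin ℚ _ (by simp)
  have hAK : A ∈ K := IntermediateField.subset_adjoin ℚ _ (by simp)
  have hBK : B ∈ K := IntermediateField.subset_adjoin ℚ _ (by simp)
  obtain ⟨δ, hδ1, hδ⟩ := rad K
  -- the bound
  obtain ⟨M, hM⟩ : ∃ M : ℕ, ∀ v : Place, M ≤ v.p → ∀ n, v.p ∣ 2 * n + 1 → v.red (bK c A B n) = 0 := by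
    unfold pl at h
    rw [Filter.eventually_comap, Filter.eventually_atTop] at h
    obtain ⟨M, hM⟩ := h
    exact ⟨M, fun v hv => hM v.p hv v rfl⟩
  -- the denominators
  obtain ⟨N1, hN1, h1⟩ := tam_nat c
  obtain ⟨N2, hN2, h2⟩ := tam_nat A
  obtain ⟨N3, hN3, h3⟩ := tam_nat B
  set N : ℕ := N1 * N2 * N3 with hN
  have hNpos : 1 ≤ N := Nat.mul_pos (Nat.mul_pos hN1 hN2) hN3
  have hc : IsIntegral ℤ ((N : Kbar) * c) := tam_dvd ⟨N2 * N3, by rw [hN]; ring⟩ h1
  have hA : IsIntegral ℤ ((N : Kbar) * A) := tam_dvd ⟨N1 * N3, by rw [hN]; ring⟩ h2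
  have hB : IsIntegral ℤ ((N : Kbar) * B) := tam_dvd ⟨N1 * N2, by rw [hN]; ring⟩ h3
  set E : ℕ := 4 * N with hE
  have hEpos : 1 ≤ E := by omega
  set P0 : ℕ := max M (max δ E) with hP0
  have hPM : M ≤ P0 := le_max_left _ _
  have hPδ : δ ≤ P0 := (le_max_left _ _).trans (le_max_right _ _)
  have hPE : E ≤ P0 := (le_max_right _ _).trans (le_max_right _ _)
  set G : ℕ := E * P0.factorial with hG
  have hGpos : 1 ≤ G := Nat.mul_pos hEpos (Nat.factorial_pos _)
  refine ⟨G ^ 2, Nat.one_le_pow _ _ hGpos, fun k => ?_⟩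
  unfold eK
  by_cases hodd : k % 2 = 1
  swap
  · rw [if_neg hodd, mul_zero]
    exact isIntegral_zero
  rw [if_pos hodd]
  obtain ⟨n, rfl⟩ : ∃ n, k = 2 * n + 1 := ⟨k / 2, by omega⟩
  have hn : (2 * n + 1) / 2 = n := by omega
  rw [hn]
  have hbint := tam_bK c A B N hc hA hB n
  rw [← hE] at hbint
  have hbint' : IsIntegral ℤ (((E : ℕ) : Kbar) ^ (2 * n + 1) * bK c A B n) := by
    have e : ((E : ℕ) : Kbar) ^ (2 * n + 1) * bK c A B n =
        ((E : ℕ) : Kbar) ^ n * (((E : ℕ) : Kbar) ^ (n + 1) * bK c A B n) := by ring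
    rw [e]
    exact ((isIntegral_nat E).pow n).mul hbint
  apply int_of_loc
  intro p hpF
  have hp : p.Prime := hpF.out
  obtain ⟨a, u, hu, hku⟩ := Nat.exists_eq_pow_mul_and_not_dvd (n := 2 * n + 1) (by omega) p hp.ne_one
  have hu1 : 1 ≤ u := Nat.pos_of_ne_zero fun h0 => hu (h0 ▸ dvd_zero p)
  have hint : ∀ y : Kbar, IsIntegral ℤ y → y ∈ LocInt p := fun y hy =>
    ⟨1, fun h1 => hp.one_lt.ne' (Nat.dvd_one.1 h1), by rw [Nat.cast_one, one_mul]; exact hy⟩
  have hnat : ∀ m : ℕ, ((m : ℕ) : Kbar) ∈ LocInt p := fun m => natCast_mem _ m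
  rcases le_or_gt p P0 with hpP | hpP
  · -- small primes
    have hpG : p ∣ G := Dvd.dvd.mul_left ((Nat.dvd_factorial hp.pos hpP)) _
    have hak : a ≤ 2 * n + 1 := by
      have h5 : a < p ^ a := Nat.lt_pow_self hp.one_lt
      have h6 : p ^ a ≤ 2 * n + 1 := by
        rw [hku]; exact Nat.le_mul_of_pos_right _ hu1
      omega
    have hd : p ^ a ∣ G ^ (2 * n + 1) := (pow_dvd_pow p hak).trans (pow_dvd_pow_of_dvd hpG _)
    have hx1 := tam_div p (2 * n + 1) (G ^ (2 * n + 1)) a u hu hku hd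
    have hx2 : ((G : ℕ) : Kbar) ^ (2 * n + 1) * bK c A B n ∈ LocInt p := by
      apply hint
      rw [hG, Nat.cast_mul, mul_pow]
      have e : ((E : ℕ) : Kbar) ^ (2 * n + 1) * ((P0.factorial : ℕ) : Kbar) ^ (2 * n + 1) * bK c A B n =
          ((P0.factorial : ℕ) : Kbar) ^ (2 * n + 1) * (((E : ℕ) : Kbar) ^ (2 * n + 1) * bK c A B n) := by
        ring
      rw [e]
      exact ((isIntegral_nat _).pow _).mul hbint'
    have e : ((Dl (G ^ 2) (2 * n + 1) : ℕ) : Kbar) * (bK c A B n / ((2 * n + 1 : ℕ) : Kbar)) =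
        ((∏ m ∈ Finset.range (2 * n + 1), (m + 1) ^ ((2 * n + 1) / (m + 1) ^ 2) : ℕ) : Kbar) *
        ((((G : ℕ) : Kbar) ^ (2 * n + 1) * bK c A B n) *
          (((G ^ (2 * n + 1) : ℕ) : Kbar) / ((2 * n + 1 : ℕ) : Kbar))) := by
      unfold Dl
      rw [Nat.cast_mul, Nat.cast_pow, Nat.cast_pow, Nat.cast_pow, ← pow_mul]
      ring
    rw [e]
    exact (LocInt p).mul_mem (hnat _) ((LocInt p).mul_mem hx2 hx1)
  · -- large primes
    have hpE : ¬ p ∣ E := fun hd => by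
      have := Nat.le_of_dvd (by omega) hd
      omega
    have hpδ : ¬ p ∣ δ := fun hd => by
      have := Nat.le_of_dvd (by omega) hd
      omega
    have hb : bK c A B n ∈ LocInt p := by
      refine ⟨E ^ (n + 1), fun hd => hpE (hp.dvd_of_dvd_pow hd), ?_⟩
      rw [Nat.cast_pow]
      exact hbint
    cases a with
    | zero =>
      have hx1 := tam_div p (2 * n + 1) 1 0 u hu hku (by rw [pow_zero])
      have e : ((Dl (G ^ 2) (2 * n + 1) : ℕ) : Kbar) * (bK c A B n / ((2 * n + 1 : ℕ) : Kbar)) =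
          ((Dl (G ^ 2) (2 * n + 1) : ℕ) : Kbar) *
            (bK c A B n * (((1 : ℕ) : Kbar) / ((2 * n + 1 : ℕ) : Kbar))) := by
        rw [Nat.cast_one]; ring
      rw [e]
      exact (LocInt p).mul_mem (hnat _) ((LocInt p).mul_mem hb hx1)
    | succ a =>
      have hpk : p ∣ 2 * n + 1 := by
        rw [hku, pow_succ]
        exact ⟨p ^ a * u, by ring⟩
      have hbp : bK c A B n / (p : Kbar) ∈ LocInt p := by
        refine hδ p hpδ _ (tam_mem K c A B hcK hAK hBK n) hb fun k _ _ φ => ?_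
        exact hM ⟨p, hpF, k, inferInstance, inferInstance, φ⟩ (by
          show M ≤ p
          omega) n hpk
      have hd : p ^ a ∣ Dl (G ^ 2) (2 * n + 1) := by
        refine (pow_dvd_pow p ?_).trans (pow_dvd (G ^ 2) p (2 * n + 1) hp.one_lt.le)
        rw [hku]
        exact tam_le p a u hp.two_le hu1
      have hx1 := tam_div p (p ^ a * u) (Dl (G ^ 2) (2 * n + 1)) a u hu rfl hd
      have hp0 : (p : Kbar) ≠ 0 := by exact_mod_cast hp.ne_zero
      have e : ((Dl (G ^ 2) (2 * n + 1) : ℕ) : Kbar) * (bK c A B n / ((2 * n + 1 : ℕ) : Kbar)) =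
          (bK c A B n / (p : Kbar)) *
            (((Dl (G ^ 2) (2 * n + 1) : ℕ) : Kbar) / ((p ^ a * u : ℕ) : Kbar)) := by
        have hk2 : ((2 * n + 1 : ℕ) : Kbar) = (p : Kbar) * ((p ^ a * u : ℕ) : Kbar) := by
          rw [hku]; push_cast; ring
        rw [hk2, div_mul_div_comm, mul_div_assoc', mul_comm]
      rw [e]
      exact (LocInt p).mul_mem hbp hx1

end Pool.Agent.H64.LG
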