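import Pool.Agent.H64.LG.Cok
import Pool.Agent.H64.LG.Tam
import Pool.Agent.H64.LG.Exa

/-!
# LG.Cor : the line of the `p`-curvature is not constant

PROOF. `core`: `tame` gives `D` with `Dl D k * eK c A B k` integral; `K = IntermediateField.adjoin ℚ {c, A, B}` is a number field (finite: algebraic generators), `c, A, B` come from `K`, `eK_map` for `K → Kbar`, and `IsIntegral ℤ` descends along the injection
(`isIntegral_algebraMap_iff`); `coreK`. `lin`: suppose `ū α + w̄ β = 0` for almost all places. Put `B = - w / (2 (1 - c))`, `A = u - B`, not both zero. For large `p`, `m = (p - 1)/2 ≥ 1`, `m = -1/2` in `v.k`, and `dK_rel` reduced gives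
`2 (1 - c̄) β = α - ā`, `ā = red (aK c (m - 1))`, so `red (bK c A B m) = Ā α + B̄ ā = (Ā + B̄) α - 2 (1 - c̄) B̄ β = ū α + w̄ β = 0`. So `exa` and `core` give a contradiction.
-/

set_option autoImplicit false

namespace Pool.Agent.H64.LG

open Pool.H61.QF

private lemma cor_cb_mem {p : ℕ} [hp : Fact p.Prime] (h4 : 4 < p) (i : ℕ) :
    cb Kbar i ∈ LocInt p := by
  refine ⟨4 ^ i, ?_, ?_⟩
  · intro hd
    have := Nat.le_of_dvd (by norm_num) (hp.out.dvd_of_dvd_pow hd)
    omega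
  · unfold cb
    have h40 : ((4 ^ i : ℕ) : Kbar) ≠ 0 := by
      exact_mod_cast (pow_pos (by norm_num : (0 : ℕ) < 4) i).ne'
    have e : ((4 ^ i : ℕ) : Kbar) * ((Nat.centralBinom i : Kbar) / 4 ^ i) =
        ((Nat.centralBinom i : ℕ) : Kbar) := by
      push_cast at h40 ⊢
      field_simp
    rw [e]
    exact isIntegral_nat _

private lemma cor_aK_mem {p : ℕ} [hp : Fact p.Prime] (h4 : 4 < p) {c : Kbar} (hc : c ∈ LocInt p)
    (n : ℕ) : aK c n ∈ LocInt p := by
  unfold aK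
  refine (LocInt p).sum_mem fun i _ => ?_
  exact (LocInt p).mul_mem ((LocInt p).mul_mem (cor_cb_mem h4 _) (cor_cb_mem h4 _))
    ((LocInt p).pow_mem hc _)

private lemma cor_dK_mem {p : ℕ} [hp : Fact p.Prime] (h4 : 4 < p) {c : Kbar} (hc : c ∈ LocInt p)
    (n : ℕ) : dK c n ∈ LocInt p := by
  unfold dK
  refine (LocInt p).sum_mem fun i _ => ?_
  refine (LocInt p).mul_mem ((LocInt p).mul_mem ?_
    ((LocInt p).mul_mem (cor_cb_mem h4 _) (cor_cb_mem h4 _))) ((LocInt p).pow_mem hc _)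
  exact (LocInt p).add_mem (natCast_mem (LocInt p) i) (LocInt p).one_mem

theorem core (c A B : Kbar) (hc0 : c ≠ 0) (hc1 : c ≠ 1) (hAB : ¬ (A = 0 ∧ B = 0)) :
    ¬ ∀ᶠ v in pl, ∀ n, Place.p v ∣ 2 * n + 1 → Place.red v (bK c A B n) = 0 := by
  intro h
  obtain ⟨D, hD, ht⟩ := tame c A B h
  have hfd : FiniteDimensional ℚ (IntermediateField.adjoin ℚ ({c, A, B} : Set Kbar)) :=
    IntermediateField.finiteDimensional_adjoin fun x _ =>
      ((AlgebraicClosure.isAlgebraic ℚ).isAlgebraic x).isIntegral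
  have hnf : NumberField (IntermediateField.adjoin ℚ ({c, A, B} : Set Kbar)) := ⟨⟩
  have hc : c ∈ IntermediateField.adjoin ℚ ({c, A, B} : Set Kbar) :=
    IntermediateField.subset_adjoin _ _ (by simp)
  have hA : A ∈ IntermediateField.adjoin ℚ ({c, A, B} : Set Kbar) :=
    IntermediateField.subset_adjoin _ _ (by simp)
  have hB : B ∈ IntermediateField.adjoin ℚ ({c, A, B} : Set Kbar) :=
    IntermediateField.subset_adjoin _ _ (by simp)
  refine coreK (IntermediateField.adjoin ℚ ({c, A, B} : Set Kbar)) ⟨c, hc⟩ ⟨A, hA⟩ ⟨B, hB⟩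
    ?_ ?_ ?_ D hD ?_
  · intro h0
    exact hc0 (congrArg Subtype.val h0)
  · intro h0
    exact hc1 (congrArg Subtype.val h0)
  · rintro ⟨h1, h2⟩
    exact hAB ⟨congrArg Subtype.val h1, congrArg Subtype.val h2⟩
  · intro k
    have hinj : Function.Injective
        (algebraMap (IntermediateField.adjoin ℚ ({c, A, B} : Set Kbar)) Kbar) :=
      (algebraMap (IntermediateField.adjoin ℚ ({c, A, B} : Set Kbar)) Kbar).injective
    refine (isIntegral_algebraMap_iff hinj).1 ?_
    rw [map_mul, map_natCast, eK_map]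
    exact ht k

theorem lin (c : Kbar) (hc0 : c ≠ 0) (hc1 : c ≠ 1) (u w : Kbar) (h : ¬ (u = 0 ∧ w = 0)) :
    ¬ ∀ᶠ v in pl, Place.red v u * al v c + Place.red v w * be v c = 0 := by
  intro hev
  have h1c : (1 - c) ≠ 0 := sub_ne_zero.2 (Ne.symm hc1)
  obtain ⟨B, hB⟩ : ∃ B : Kbar, B = -w / (2 * (1 - c)) := ⟨_, rfl⟩
  obtain ⟨A, hA⟩ : ∃ A : Kbar, A = u - B := ⟨_, rfl⟩
  have hBw : -(2 * (1 - c)) * B = w := by
    rw [hB]
    field_simp
  have hAB : ¬ (A = 0 ∧ B = 0) := by
    rintro ⟨h1, h2⟩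
    apply h
    constructor
    · rw [hA, h2, sub_zero] at h1
      exact h1
    · rw [← hBw, h2, mul_zero]
  refine core c A B hc0 hc1 hAB (exa c A B ?_)
  filter_upwards [hev, ev_gt 4, ev_mem c, ev_mem B, ev_mem u, ev_mem w] with v hv hp hc hB' hu hw
  have hpp : (Place.p v).Prime := v.hp.out
  obtain ⟨n, hn⟩ : ∃ n, Place.p v = 2 * (n + 1) + 1 := by
    rcases hpp.eq_two_or_odd with h2 | h2
    · omega
    · exact ⟨Place.p v / 2 - 1, by omega⟩
  have hm : (Place.p v - 1) / 2 = n + 1 := by omega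
  unfold al be at hv
  rw [hm] at hv ⊢
  have ha1 : aK c (n + 1) ∈ LocInt (Place.p v) := cor_aK_mem hp hc _
  have ha0 : aK c n ∈ LocInt (Place.p v) := cor_aK_mem hp hc _
  have hd : dK c (n + 1) ∈ LocInt (Place.p v) := cor_dK_mem hp hc _
  have key : bK c A B (n + 1) = u * aK c (n + 1) + w * dK c (n + 1) +
      (Place.p v : Kbar) * (B * (aK c n - aK c (n + 1))) := by
    have e := dK_rel c (n + 1) (by omega)
    rw [Nat.add_sub_cancel] at e
    show A * aK c (n + 1) + B * aK c n = _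
    rw [hn]
    push_cast at e ⊢
    linear_combination (aK c (n + 1)) * hA + (dK c (n + 1)) * hBw + 2 * B * e
  show rho v.φ (bK c A B (n + 1)) = 0
  have hp0 : ((Place.p v : ℕ) : v.k) = 0 := CharP.cast_eq_zero v.k v.p
  rw [key, rho_add v.φ ((LocInt _).add_mem ((LocInt _).mul_mem hu ha1) ((LocInt _).mul_mem hw hd))
      ((LocInt _).mul_mem (natCast_mem (LocInt _) _)
        ((LocInt _).mul_mem hB' ((LocInt _).sub_mem ha0 ha1))),
    rho_add v.φ ((LocInt _).mul_mem hu ha1) ((LocInt _).mul_mem hw hd),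
    rho_mul v.φ hu ha1, rho_mul v.φ hw hd,
    rho_mul v.φ (natCast_mem (LocInt _) _)
      ((LocInt _).mul_mem hB' ((LocInt _).sub_mem ha0 ha1)), rho_natCast, hp0, zero_mul, add_zero]
  exact hv

end Pool.Agent.H64.LG
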