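import Pool.Agent.H64.LG.Dec
import Pool.Agent.H64.LG.Pls

/-!
# LG.Cur : the `p`-curvature in terms of the coefficients at `p - 1` and `p - 2`

PROOF. `np0`: `gs_rec` at `n = p - 2`: `c (1 - c) p (p - 1) g_p = (p - 3/2)² g_{p-2} - (1 - 2c)(p - 1)² g_{p-1}`; reduce (`red_p`).
`np1`: `gs_rec` at `n = p - 1`: `c (1 - c)(p + 1) p g_{p+1} = (p - 1/2)² g_{p-1} - (1 - 2c) p (p g_p)`; reduce (`p g_p = Np c p i 0` is
integral, `np_mem`).
-/

set_option autoImplicit false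

namespace Pool.Agent.H64.LG

open Pool.H61.QF PowerSeries

theorem np0 (v : Place) (c : Kbar) (hc : c ∈ LocInt v.p) (hci : (c * (1 - c))⁻¹ ∈ LocInt v.p)
    (hc0 : c ≠ 0) (hc1 : c ≠ 1) (h5 : 5 ≤ v.p) (i : Fin 2) :
    4 * (v.red c * (1 - v.red c)) * v.red (Np c v.p i 0) =
      4 * (1 - 2 * v.red c) * v.red (coeff (v.p - 1) (gs c i)) - 9 * v.red (coeff (v.p - 2) (gs c i)) := by
  have hN := np_mem v.p c hc hci hc0 hc1 h5 i 0
  have h1 := gs_mem v.p c hc hci hc0 hc1 h5 i (v.p - 1) (by omega)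
  have h2 := gs_mem v.p c hc hci hc0 hc1 h5 i (v.p - 2) (by omega)
  have hr := gs_rec c hc0 hc1 i (v.p - 2)
  have e1 : v.p - 2 + 2 = v.p := by omega
  have e2 : v.p - 2 + 1 = v.p - 1 := by omega
  rw [e1, e2, Nat.cast_sub (by omega : 2 ≤ v.p)] at hr
  have hNd : Np c v.p i 0 = (v.p : Kbar) * coeff v.p (gs c i) := by simp [Np]
  have key : (4 * ((⟨c, hc⟩ : LocInt v.p) * (1 - ⟨c, hc⟩)) * ((v.p : LocInt v.p) - 1) * ⟨Np c v.p i 0, hN⟩ :
      LocInt v.p) = (2 * (v.p : LocInt v.p) - 3) ^ 2 * ⟨_, h2⟩ -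
        4 * (1 - 2 * ⟨c, hc⟩) * ((v.p : LocInt v.p) - 1) ^ 2 * ⟨_, h1⟩ := by
    apply Subtype.ext
    have c4 : ((4 : LocInt v.p) : Kbar) = 4 := rfl
    have c2 : ((2 : LocInt v.p) : Kbar) = 2 := rfl
    have c3 : ((3 : LocInt v.p) : Kbar) = 3 := rfl
    push_cast
    rw [c4, c2]
    try rw [c3]
    rw [hNd]
    push_cast at hr
    linear_combination 4 * hr
  have key2 := congrArg v.φ key
  simp only [map_mul, map_sub, map_pow, map_natCast, map_one, map_ofNat, CharP.cast_eq_zero] at key2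
  unfold Place.red
  rw [rho_eq v.φ hc, rho_eq v.φ hN, rho_eq v.φ h1, rho_eq v.φ h2]
  linear_combination -key2

theorem np1 (v : Place) (c : Kbar) (hc : c ∈ LocInt v.p) (hci : (c * (1 - c))⁻¹ ∈ LocInt v.p)
    (hc0 : c ≠ 0) (hc1 : c ≠ 1) (h5 : 5 ≤ v.p) (i : Fin 2) :
    4 * (v.red c * (1 - v.red c)) * v.red (Np c v.p i 1) = v.red (coeff (v.p - 1) (gs c i)) := by
  have hN := np_mem v.p c hc hci hc0 hc1 h5 i 0
  have hN1 := np_mem v.p c hc hci hc0 hc1 h5 i 1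
  have h1 := gs_mem v.p c hc hci hc0 hc1 h5 i (v.p - 1) (by omega)
  have hr := gs_rec c hc0 hc1 i (v.p - 1)
  have e1 : v.p - 1 + 2 = v.p + 1 := by omega
  have e2 : v.p - 1 + 1 = v.p := by omega
  rw [e1, e2, Nat.cast_sub (by omega : 1 ≤ v.p)] at hr
  have hNd : Np c v.p i 0 = (v.p : Kbar) * coeff v.p (gs c i) := by simp [Np]
  have hNd1 : Np c v.p i 1 = (v.p : Kbar) * coeff (v.p + 1) (gs c i) := by simp [Np]
  have key : (4 * ((⟨c, hc⟩ : LocInt v.p) * (1 - ⟨c, hc⟩)) * ((v.p : LocInt v.p) + 1) * ⟨Np c v.p i 1, hN1⟩ :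
      LocInt v.p) = (2 * (v.p : LocInt v.p) - 1) ^ 2 * ⟨_, h1⟩ -
        4 * (1 - 2 * ⟨c, hc⟩) * (v.p : LocInt v.p) * ⟨Np c v.p i 0, hN⟩ := by
    apply Subtype.ext
    have c4 : ((4 : LocInt v.p) : Kbar) = 4 := rfl
    have c2 : ((2 : LocInt v.p) : Kbar) = 2 := rfl
    have c3 : ((3 : LocInt v.p) : Kbar) = 3 := rfl
    push_cast
    rw [c4, c2]
    try rw [c3]
    rw [hNd, hNd1]
    push_cast at hr
    linear_combination 4 * hr
  have key2 := congrArg v.φ key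
  simp only [map_mul, map_sub, map_add, map_pow, map_natCast, map_one, map_ofNat, CharP.cast_eq_zero] at key2
  unfold Place.red
  rw [rho_eq v.φ hc, rho_eq v.φ hN1, rho_eq v.φ h1]
  linear_combination key2

end Pool.Agent.H64.LG
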