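import Pool.Agent.H64.LG.Int

/-!
# LG.Dec : the polar part of the solutions below `t^(2p)`

PROOF. Let `A_i` = the part of `g_i` of degree `< p`, `z_{i,m}` from `gs_cmp`, `E_i = ∑_{m<p} z_{i,m} t^m`, `N_{il} = Np c p i l`
(in `LocInt p` by `gs_mem2`). Then `g_i = A_i + p⁻¹ t^p ∑_l N_{il} A_l + t^p E_i + t^(2p) (..)`. Take `a_{i0} = A_i + t^p E_i` and
`a_{i1} = (A_i + t^p E_i)' + t^(p-1) ∑_l N_{il} A_l`. For `j = 0`: replacing `A_l` by `a_{l0}` in the polar part changes it by
`p⁻¹ t^(2p) (..)`. For `j = 1`: `(p⁻¹ t^p ∑ N A_l)' = t^(p-1) ∑ N A_l + p⁻¹ t^p ∑ N A_l'`, and `a_{l1} - A_l'` is divisible by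
`t^(p-1)`; the derivative of `t^(2p) (..)` is divisible by `t^(2p-1)`.
-/

set_option autoImplicit false

namespace Pool.Agent.H64.LG

open Pool.H61.QF PowerSeries

theorem np_mem (p : ℕ) [Fact p.Prime] (c : Kbar) (hc : c ∈ LocInt p) (hci : (c * (1 - c))⁻¹ ∈ LocInt p)
    (hc0 : c ≠ 0) (hc1 : c ≠ 1) (h5 : 5 ≤ p) (i l : Fin 2) : Np c p i l ∈ LocInt p := by
  unfold Np
  apply gs_mem2 p c hc hci hc0 hc1 h5
  have := l.2
  omega

private def Pm (p : ℕ) [Fact p.Prime] (f : Polynomial Kbar) : Prop := ∀ n, f.coeff n ∈ LocInt p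

private lemma Pm.add {p : ℕ} [Fact p.Prime] {f g : Polynomial Kbar} (hf : Pm p f) (hg : Pm p g) : Pm p (f + g) := by
  intro n
  rw [Polynomial.coeff_add]
  exact (LocInt p).add_mem (hf n) (hg n)

private lemma Pm.mul {p : ℕ} [Fact p.Prime] {f g : Polynomial Kbar} (hf : Pm p f) (hg : Pm p g) : Pm p (f * g) := by
  intro n
  rw [Polynomial.coeff_mul]
  exact (LocInt p).sum_mem fun x _ => (LocInt p).mul_mem (hf _) (hg _)

private lemma Pm.sum {p : ℕ} [Fact p.Prime] {f : Fin 2 → Polynomial Kbar} (hf : ∀ i, Pm p (f i)) :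
    Pm p (∑ i, f i) := by
  intro n
  rw [Polynomial.finsetSum_coeff]
  exact (LocInt p).sum_mem fun x _ => hf x n

private lemma Pm.C {p : ℕ} [Fact p.Prime] {x : Kbar} (hx : x ∈ LocInt p) : Pm p (Polynomial.C x) := by
  intro n
  rw [Polynomial.coeff_C]
  split_ifs
  · exact hx
  · exact (LocInt p).zero_mem

private lemma Pm.Xpow {p : ℕ} [Fact p.Prime] (k : ℕ) : Pm p (Polynomial.X ^ k) := by
  intro n
  rw [Polynomial.coeff_X_pow]
  split_ifs
  · exact (LocInt p).one_mem
  · exact (LocInt p).zero_mem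

private lemma Pm.der {p : ℕ} [Fact p.Prime] {f : Polynomial Kbar} (hf : Pm p f) : Pm p (Polynomial.derivative f) := by
  intro n
  rw [Polynomial.coeff_derivative]
  exact (LocInt p).mul_mem (hf _) ((LocInt p).add_mem (natCast_mem _ n) (LocInt p).one_mem)

theorem dec (p : ℕ) [Fact p.Prime] (c : Kbar) (hc : c ∈ LocInt p) (hci : (c * (1 - c))⁻¹ ∈ LocInt p)
    (hc0 : c ≠ 0) (hc1 : c ≠ 1) (h5 : 5 ≤ p) :
    ∃ (a : Fin 2 × Fin 2 → Polynomial Kbar) (r : Fin 2 × Fin 2 → PowerSeries Kbar),
      (∀ ij n, (a ij).coeff n ∈ LocInt p) ∧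
      ∀ ij, dg c ij = (a ij : PowerSeries Kbar) +
        C ((p : Kbar)⁻¹) * X ^ p * ∑ l : Fin 2, C (Np c p ij.1 l) * (a (l, ij.2) : PowerSeries Kbar) +
        X ^ (2 * p - 1) * r ij := by
  have hp0 : (p : Kbar) ≠ 0 := by
    have : p ≠ 0 := by omega
    exact_mod_cast this
  have hz : ∀ (i : Fin 2) (m : ℕ), ∃ z ∈ LocInt p, m < p → (p : Kbar) * coeff (p + m) (gs c i) =
      Np c p i 0 * coeff m (gs c 0) + Np c p i 1 * coeff m (gs c 1) + (p : Kbar) * z := by
    intro i m
    by_cases hm : m < p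
    · obtain ⟨z, h1, h2⟩ := gs_cmp p c hc hci hc0 hc1 h5 i m hm
      exact ⟨z, h1, fun _ => h2⟩
    · exact ⟨0, (LocInt p).zero_mem, fun h => absurd h hm⟩
  choose z hz1 hz2 using hz
  obtain ⟨A, hA⟩ : ∃ A : Fin 2 → Polynomial Kbar, ∀ i, A i = trunc p (gs c i) := ⟨_, fun _ => rfl⟩
  obtain ⟨E, hE⟩ : ∃ E : Fin 2 → Polynomial Kbar, ∀ i, E i =
      ∑ m ∈ Finset.range p, Polynomial.monomial m (z i m) := ⟨_, fun _ => rfl⟩
  have hAc : ∀ i n, (A i).coeff n = if n < p then coeff n (gs c i) else 0 := by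
    intro i n
    rw [hA, coeff_trunc]
  have hEc : ∀ i n, (E i).coeff n = if n < p then z i n else 0 := by
    intro i n
    rw [hE, Polynomial.finsetSum_coeff]
    simp only [Polynomial.coeff_monomial]
    rw [Finset.sum_ite_eq']
    simp only [Finset.mem_range]
  have hAP : ∀ i, Pm p (A i) := by
    intro i n
    rw [hAc]
    split_ifs with h
    · exact gs_mem p c hc hci hc0 hc1 h5 i n h
    · exact (LocInt p).zero_mem
  have hEP : ∀ i, Pm p (E i) := by
    intro i n
    rw [hEc]
    split_ifs with h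
    · exact hz1 i n
    · exact (LocInt p).zero_mem
  -- the decomposition of `g`
  have hg : ∀ i, ∃ H : PowerSeries Kbar, gs c i = (A i : PowerSeries Kbar) + X ^ p * (E i : PowerSeries Kbar) +
      C ((p : Kbar)⁻¹) * X ^ p * ∑ l : Fin 2, C (Np c p i l) * (A l : PowerSeries Kbar) + X ^ (2 * p) * H := by
    intro i
    have hd : (X : PowerSeries Kbar) ^ (2 * p) ∣ gs c i - ((A i : PowerSeries Kbar) + X ^ p * (E i : PowerSeries Kbar) +
      C ((p : Kbar)⁻¹) * X ^ p * ∑ l : Fin 2, C (Np c p i l) * (A l : PowerSeries Kbar)) := by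
      rw [X_pow_dvd_iff]
      intro n hn
      rw [Fin.sum_univ_two, map_sub, map_add, map_add, mul_assoc, coeff_C_mul]
      simp only [coeff_X_pow_mul', map_add, coeff_C_mul, Polynomial.coeff_coe]
      by_cases hnp : n < p
      · rw [hAc, if_pos hnp, if_neg (by omega), if_neg (by omega)]
        ring
      · obtain ⟨m, rfl⟩ := Nat.exists_eq_add_of_le (not_lt.1 hnp)
        have hm : m < p := by omega
        rw [if_pos (Nat.le_add_right p m), if_pos (Nat.le_add_right p m), Nat.add_sub_cancel_left, hAc, if_neg hnp,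
          hAc, hAc, if_pos hm, if_pos hm, hEc, if_pos hm]
        have h1 := hz2 i m hm
        field_simp
        linear_combination h1
    obtain ⟨H, hH⟩ := hd
    exact ⟨H, by rw [← hH]; ring⟩
  choose H hH using hg
  obtain ⟨a, ha⟩ : ∃ a : Fin 2 × Fin 2 → Polynomial Kbar, ∀ ij, a ij = if ij.2 = 0 then
      A ij.1 + Polynomial.X ^ p * E ij.1 else Polynomial.derivative (A ij.1 + Polynomial.X ^ p * E ij.1) +
      Polynomial.X ^ (p - 1) * ∑ l : Fin 2, Polynomial.C (Np c p ij.1 l) * A l := ⟨_, fun _ => rfl⟩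
  have hdiv : ∀ ij : Fin 2 × Fin 2, ∃ r : PowerSeries Kbar, dg c ij = (a ij : PowerSeries Kbar) +
        C ((p : Kbar)⁻¹) * X ^ p * ∑ l : Fin 2, C (Np c p ij.1 l) * (a (l, ij.2) : PowerSeries Kbar) +
        X ^ (2 * p - 1) * r := by
    rintro ⟨i, j⟩
    have hX2 : (X : PowerSeries Kbar) ^ (2 * p) = X ^ (2 * p - 1) * X := by
      rw [← pow_succ]
      congr 1
      omega
    have hXX : (X : PowerSeries Kbar) ^ p * X ^ p = X ^ (2 * p - 1) * X := by
      rw [← hX2, ← pow_add]
      congr 1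
      omega
    have hXp : (X : PowerSeries Kbar) ^ p * X ^ (p - 1) = X ^ (2 * p - 1) := by
      rw [← pow_add]
      congr 1
      omega
    have hXp1 : (X : PowerSeries Kbar) ^ p = X ^ (p - 1) * X := by
      rw [← pow_succ]
      congr 1
      omega
    by_cases hj : j = 0
    · subst hj
      refine ⟨X * H i - C ((p : Kbar)⁻¹) * X * ∑ l : Fin 2, C (Np c p i l) * (E l : PowerSeries Kbar), ?_⟩
      have h1 : dg c (i, 0) = gs c i := by simp [dg]
      rw [h1, hH i]
      simp only [ha, if_true, Fin.sum_univ_two, Polynomial.coe_add, Polynomial.coe_mul, Polynomial.coe_pow, Polynomial.coe_X]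
      rw [hX2]
      linear_combination (-(C ((p : Kbar)⁻¹)) * (C (Np c p i 0) * (E 0 : PowerSeries Kbar) + C (Np c p i 1) * (E 1 : PowerSeries Kbar))) * hXX
    · have hj1 : j = 1 := by omega
      subst hj1
      have h1 : dg c (i, 1) = PowerSeries.derivative Kbar (gs c i) := by simp [dg]
      have hCp : (C ((p : Kbar)⁻¹) : PowerSeries Kbar) * (p : PowerSeries Kbar) = 1 := by
        have : (p : PowerSeries Kbar) = C (p : Kbar) := by
          rw [map_natCast]
        rw [this, ← map_mul, inv_mul_cancel₀ hp0, map_one]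
      have ha1 : ∀ i : Fin 2, (a (i, 1) : PowerSeries Kbar) = ((Polynomial.derivative (A i) : Polynomial Kbar) : PowerSeries Kbar) +
          X ^ (p - 1) * ((p : PowerSeries Kbar) * (E i : PowerSeries Kbar) +
            X * ((Polynomial.derivative (E i) : Polynomial Kbar) : PowerSeries Kbar) +
            (C (Np c p i 0) * (A 0 : PowerSeries Kbar) + C (Np c p i 1) * (A 1 : PowerSeries Kbar))) := by
        intro i
        rw [ha]
        simp only [if_neg (show ¬ ((1 : Fin 2) = 0) by decide), Polynomial.derivative_add, Polynomial.derivative_mul,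
          Polynomial.derivative_X_pow, Fin.sum_univ_two, Polynomial.coe_add, Polynomial.coe_mul, Polynomial.coe_pow,
          Polynomial.coe_X, Polynomial.coe_C, map_natCast]
        have hpc : ((p : Polynomial Kbar) : PowerSeries Kbar) = (p : PowerSeries Kbar) :=
          map_natCast (Polynomial.coeToPowerSeries.ringHom (R := Kbar)) p
        rw [hXp1, hpc]
        ring
      have hD : PowerSeries.derivative Kbar (gs c i) = ((Polynomial.derivative (A i) : Polynomial Kbar) : PowerSeries Kbar) +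
          X ^ (p - 1) * ((p : PowerSeries Kbar) * (E i : PowerSeries Kbar) +
            X * ((Polynomial.derivative (E i) : Polynomial Kbar) : PowerSeries Kbar)) +
          C ((p : Kbar)⁻¹) * ((p : PowerSeries Kbar) * X ^ (p - 1) *
            (C (Np c p i 0) * (A 0 : PowerSeries Kbar) + C (Np c p i 1) * (A 1 : PowerSeries Kbar)) +
            X ^ p * (C (Np c p i 0) * ((Polynomial.derivative (A 0) : Polynomial Kbar) : PowerSeries Kbar) +
              C (Np c p i 1) * ((Polynomial.derivative (A 1) : Polynomial Kbar) : PowerSeries Kbar))) +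
          X ^ (2 * p - 1) * (2 * (p : PowerSeries Kbar) * H i + X * PowerSeries.derivative Kbar (H i)) := by
        rw [hH i]
        simp only [map_add, Derivation.leibniz, Derivation.leibniz_pow, smul_eq_mul, PowerSeries.derivative_coe,
          PowerSeries.derivative_C, PowerSeries.derivative_X, Fin.sum_univ_two, nsmul_eq_mul, Nat.cast_mul, Nat.cast_ofNat]
        rw [hX2, hXp1]
        ring
      refine ⟨2 * (p : PowerSeries Kbar) * H i + X * PowerSeries.derivative Kbar (H i) -
        C ((p : Kbar)⁻¹) * ∑ l : Fin 2, C (Np c p i l) * ((p : PowerSeries Kbar) * (E l : PowerSeries Kbar) +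
            X * ((Polynomial.derivative (E l) : Polynomial Kbar) : PowerSeries Kbar) +
            (C (Np c p l 0) * (A 0 : PowerSeries Kbar) + C (Np c p l 1) * (A 1 : PowerSeries Kbar))), ?_⟩
      rw [h1, hD]
      simp only [Fin.sum_univ_two, ha1]
      rw [← hXp]
      linear_combination (X ^ (p - 1) * (C (Np c p i 0) * (A 0 : PowerSeries Kbar) + C (Np c p i 1) * (A 1 : PowerSeries Kbar))) * hCp
  choose r hr using hdiv
  refine ⟨a, r, ?_, hr⟩
  intro ij
  have : Pm p (a ij) := by
    rw [ha]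
    have h0 : Pm p (A ij.1 + Polynomial.X ^ p * E ij.1) := (hAP _).add ((Pm.Xpow p).mul (hEP _))
    split_ifs with h
    · exact h0
    · exact h0.der.add ((Pm.Xpow _).mul (Pm.sum fun l => (Pm.C (np_mem p c hc hci hc0 hc1 h5 _ _)).mul (hAP l)))
  exact this

end Pool.Agent.H64.LG
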