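import Pool.Agent.H61.QF.Ei
import Pool.Agent.H61.QF.Rd1

/-!
# LG.Defs : globally bounded power series in the Picard-Vessiot ring of Legendre's equation (MP_40f29e)

THEOREM (`Fin`). Let `κ(t)` be an algebraic power series over `Qbar`, `κ(0) ≠ 0, 1`, and `f` a power series which is a polynomial
in `y₁(κ), y₂(κ), y₁'(κ), y₂'(κ)` with algebraic coefficients, `y₁, y₂` the solutions of Legendre's equation
`k (1 - k) y'' + (1 - 2 k) y' - y / 4 = 0` at `k = κ(0)`. If `f` has coefficients in `Zbar[1/N]` then `f` is algebraic.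

STRUCTURE.
* places: `Place`, `pl` (the filter of places whose residue characteristic tends to infinity), `Place.red`.
* Legendre's equation at `c + t`: `Leg`, `gs c i` the two solutions, `dg c i j` the `j`-th derivative (`j = 0, 1`).
* `σ` : the variables `X (i, j)`, `A0` : algebraic power series, `ev c τ` : evaluation at `dg c i j (τ)`.
* `DN N` : the derivation of the polynomial ring with `X (i, j) ↦ ∑ l, N i l X (l, j)`.
* `Np c p i l = p * coeff (p + l) (gs c i)` : the `p`-curvature; mod `p` it is `ν ((α β, β²), (-α², -α β))`, `ν ≠ 0`,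
  `α = aK c m`, `β = dK c m`, `m = (p - 1) / 2`.
* core: `F = ∑ eK k x^k = ∫ (A + B x²) / √((1 - x²)(1 - c x²)) dx`, `eK (2 n + 1) = bK n / (2 n + 1)`.
-/

set_option autoImplicit false

namespace Pool.Agent.H64.LG

open Pool.H61.QF

/-- a place of `Qbar`: a prime `p` and a homomorphism from the `p`-integral numbers to a field of characteristic `p` -/
structure Place where
  /-- the prime -/
  p : ℕ
  hp : Fact p.Prime
  /-- the residue field -/
  k : Type
  fk : Field k
  ck : CharP k p
  /-- the reduction -/
  φ : LocInt p →+* k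

attribute [instance] Place.hp Place.fk Place.ck

/-- reduction of an algebraic number (zero if it is not integral) -/
noncomputable def Place.red (v : Place) (x : Kbar) : v.k := rho v.φ x

/-- the places with large residue characteristic -/
def pl : Filter Place := Filter.comap Place.p Filter.atTop

/-! ### the coefficients of `((1 - s)(1 - c s))^(-1/2)` -/

/-- `(1/2)_i / i!` -/
noncomputable def cb (K : Type) [Field K] (i : ℕ) : K := (Nat.centralBinom i : K) / 4 ^ i

/-- coefficient of `s^m` in `((1 - s)(1 - c s))^(-1/2)` -/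
noncomputable def aK {K : Type} [Field K] (c : K) (m : ℕ) : K :=
  ∑ i ∈ Finset.range (m + 1), cb K i * cb K (m - i) * c ^ i

/-- its derivative with respect to `c` -/
noncomputable def dK {K : Type} [Field K] (c : K) (m : ℕ) : K :=
  ∑ i ∈ Finset.range m, ((i : K) + 1) * (cb K (i + 1) * cb K (m - (i + 1))) * c ^ i

/-- coefficient of `s^n` in `(A + B s) ((1 - s)(1 - c s))^(-1/2)` -/
noncomputable def bK {K : Type} [Field K] (c A B : K) : ℕ → K
  | 0 => A * aK c 0
  | n + 1 => A * aK c (n + 1) + B * aK c n

/-- coefficient of `x^k` in `F = ∫ (A + B x²) ((1 - x²)(1 - c x²))^(-1/2) dx` -/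
noncomputable def eK {K : Type} [Field K] (c A B : K) (k : ℕ) : K :=
  if k % 2 = 1 then bK c A B (k / 2) / k else 0

/-- the power series `F` -/
noncomputable def FK {K : Type} [Field K] (c A B : K) : PowerSeries K := PowerSeries.mk (eK c A B)

/-- the denominators of `F` -/
def Dl (D n : ℕ) : ℕ := D ^ n * ∏ m ∈ Finset.range n, (m + 1) ^ (n / (m + 1) ^ 2)

/-- `α` and `β` at a place -/
noncomputable def al (v : Place) (c : Kbar) : v.k := v.red (aK c ((v.p - 1) / 2))

/-- `β` -/
noncomputable def be (v : Place) (c : Kbar) : v.k := v.red (dK c ((v.p - 1) / 2))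

/-! ### Legendre's equation -/

/-- Legendre's equation at `k = c + t` -/
def Leg (c : Kbar) (y : PowerSeries Kbar) : Prop :=
  (PowerSeries.C c + PowerSeries.X) * (1 - (PowerSeries.C c + PowerSeries.X)) *
      PowerSeries.derivative Kbar (PowerSeries.derivative Kbar y) +
    (1 - 2 * (PowerSeries.C c + PowerSeries.X)) * PowerSeries.derivative Kbar y -
    PowerSeries.C (1 / 4) * y = 0

/-- coefficients of the solution with initial values `(a, b)`: the pair of the `n`-th and the `(n+1)`-st -/
noncomputable def gc (c a b : Kbar) : ℕ → Kbar × Kbar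
  | 0 => (a, b)
  | n + 1 => ((gc c a b n).2, (((n : Kbar) + 1 / 2) ^ 2 * (gc c a b n).1 -
      (1 - 2 * c) * ((n : Kbar) + 1) ^ 2 * (gc c a b n).2) / (c * (1 - c) * ((n : Kbar) + 2) * ((n : Kbar) + 1)))

/-- the two solutions, `g_0 = 1 + O(t²)`, `g_1 = t + O(t²)` -/
noncomputable def gs (c : Kbar) (i : Fin 2) : PowerSeries Kbar :=
  PowerSeries.mk fun n => (gc c (if i = 0 then 1 else 0) (if i = 0 then 0 else 1) n).1

/-- the solutions and their derivatives -/
noncomputable def dg (c : Kbar) (ij : Fin 2 × Fin 2) : PowerSeries Kbar :=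
  if ij.2 = 0 then gs c ij.1 else PowerSeries.derivative Kbar (gs c ij.1)

/-- the `p`-curvature (before reduction) -/
noncomputable def Np (c : Kbar) (p : ℕ) (i l : Fin 2) : Kbar :=
  (p : Kbar) * PowerSeries.coeff (p + (l : ℕ)) (gs c i)

/-! ### polynomials in the solutions -/

/-- the algebraic power series -/
noncomputable def A0 : Subring (PowerSeries Kbar) :=
  (Subalgebra.algebraicClosure (Polynomial Kbar) (PowerSeries Kbar)).toSubring

/-- evaluation of a polynomial with algebraic coefficients at four power series -/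
noncomputable def evG (G : Fin 2 × Fin 2 → PowerSeries Kbar) :
    MvPolynomial (Fin 2 × Fin 2) A0 →+* PowerSeries Kbar :=
  MvPolynomial.eval₂Hom A0.subtype G

/-- evaluation at the solutions at `c + τ` -/
noncomputable def ev (c : Kbar) (τ : PowerSeries Kbar) :
    MvPolynomial (Fin 2 × Fin 2) A0 →+* PowerSeries Kbar :=
  evG fun ij => (dg c ij).subst τ

/-- the derivation `X (i, j) ↦ ∑ l, N i l X (l, j)` -/
noncomputable def DN {R : Type} [CommRing R] (N : Fin 2 → Fin 2 → R) :
    Derivation R (MvPolynomial (Fin 2 × Fin 2) R) (MvPolynomial (Fin 2 × Fin 2) R) :=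
  MvPolynomial.mkDerivation R fun ij =>
    ∑ l : Fin 2, MvPolynomial.C (N ij.1 l) * MvPolynomial.X (l, ij.2)

theorem cst_mem (x : Kbar) : (PowerSeries.C x : PowerSeries Kbar) ∈ A0 := by
  have h : IsAlgebraic (Polynomial Kbar) (algebraMap (Polynomial Kbar) (PowerSeries Kbar) (Polynomial.C x)) :=
    isAlgebraic_algebraMap _
  have e : algebraMap (Polynomial Kbar) (PowerSeries Kbar) (Polynomial.C x) = PowerSeries.C x := by
    show ((Polynomial.C x : Polynomial Kbar) : PowerSeries Kbar) = _
    exact Polynomial.coe_C x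
  rw [e] at h
  exact h

/-- the constants in `A0` -/
noncomputable def cst : Kbar →+* A0 where
  toFun x := ⟨PowerSeries.C x, cst_mem x⟩
  map_one' := Subtype.ext (map_one _)
  map_mul' x y := Subtype.ext (map_mul _ x y)
  map_zero' := Subtype.ext (map_zero _)
  map_add' x y := Subtype.ext (map_add _ x y)

/-- the derivation with constant matrix -/
noncomputable def DK (N : Fin 2 → Fin 2 → Kbar) :
    Derivation A0 (MvPolynomial (Fin 2 × Fin 2) A0) (MvPolynomial (Fin 2 × Fin 2) A0) :=
  DN fun i l => cst (N i l)

/-- the elementary matrix -/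
noncomputable def Em (i l : Fin 2) : Fin 2 → Fin 2 → Kbar := fun i' l' => if i' = i ∧ l' = l then 1 else 0

/-- the functional `N ↦ coeff n (D_N Q)` on the elementary matrices -/
noncomputable def fl (c : Kbar) (τ : PowerSeries Kbar) (Q : MvPolynomial (Fin 2 × Fin 2) A0) (n : ℕ)
    (i l : Fin 2) : Kbar := PowerSeries.coeff n (ev c τ (DK (Em i l) Q))

end Pool.Agent.H64.LG
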