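import Pool.Agent.H64.LG.Defs

/-!
# LG.Dk : the derivations `DK N`

PROOFS. Both sides are derivations, compare them on the variables (`MvPolynomial.derivation_ext` or `Derivation` extensionality, the
commutator of derivations is `⁅D₁, D₂⁆`), or `MvPolynomial.induction_on`. `DK M (DK N X_i) = ∑ N_{ij} M_{jl} X_l`. `ev_DK`: apply `ev`
to `DK_lin`; `ev` of `C (cst x)` is `PowerSeries.C x`.
-/

set_option autoImplicit false

namespace Pool.Agent.H64.LG

open Pool.H61.QF

private lemma DK_X (N : Fin 2 → Fin 2 → Kbar) (a : Fin 2 × Fin 2) :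
    DK N (MvPolynomial.X a) = MvPolynomial.C (cst (N a.1 0)) * MvPolynomial.X (0, a.2) +
      MvPolynomial.C (cst (N a.1 1)) * MvPolynomial.X (1, a.2) := by
  unfold DK DN
  rw [MvPolynomial.mkDerivation_X, Fin.sum_univ_two]

private lemma DK_C (N : Fin 2 → Fin 2 → Kbar) (x : A0) :
    DK N (MvPolynomial.C x) = 0 := MvPolynomial.derivation_C (DK N) x

private lemma DK_CX (N : Fin 2 → Fin 2 → Kbar) (x : A0) (a : Fin 2 × Fin 2) :
    DK N (MvPolynomial.C x * MvPolynomial.X a) = MvPolynomial.C x *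
      (MvPolynomial.C (cst (N a.1 0)) * MvPolynomial.X (0, a.2) +
      MvPolynomial.C (cst (N a.1 1)) * MvPolynomial.X (1, a.2)) := by
  rw [Derivation.leibniz, DK_C, DK_X, smul_zero, add_zero, smul_eq_mul]

theorem DK_lin (N : Fin 2 → Fin 2 → Kbar) (Q : MvPolynomial (Fin 2 × Fin 2) A0) :
    DK N Q = ∑ i : Fin 2, ∑ l : Fin 2, MvPolynomial.C (cst (N i l)) * DK (Em i l) Q := by
  have h : DK N = ((MvPolynomial.C (cst (N 0 0)) : MvPolynomial (Fin 2 × Fin 2) A0) • DK (Em 0 0) +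
      (MvPolynomial.C (cst (N 0 1)) : MvPolynomial (Fin 2 × Fin 2) A0) • DK (Em 0 1)) +
      ((MvPolynomial.C (cst (N 1 0)) : MvPolynomial (Fin 2 × Fin 2) A0) • DK (Em 1 0) +
      (MvPolynomial.C (cst (N 1 1)) : MvPolynomial (Fin 2 × Fin 2) A0) • DK (Em 1 1)) := by
    apply MvPolynomial.derivation_ext
    rintro ⟨a, b⟩
    rw [Derivation.add_apply, Derivation.add_apply, Derivation.add_apply, Derivation.smul_apply,
      Derivation.smul_apply, Derivation.smul_apply, Derivation.smul_apply, DK_X, DK_X, DK_X, DK_X, DK_X]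
    fin_cases a <;> simp [Em]
  rw [Fin.sum_univ_two, Fin.sum_univ_two, Fin.sum_univ_two, h]
  rfl

theorem DK_comm (M N : Fin 2 → Fin 2 → Kbar) (Q : MvPolynomial (Fin 2 × Fin 2) A0) :
    DK M (DK N Q) - DK N (DK M Q) =
      DK (fun i l => ∑ j : Fin 2, (N i j * M j l - M i j * N j l)) Q := by
  have h : ⁅DK M, DK N⁆ = DK (fun i l => ∑ j : Fin 2, (N i j * M j l - M i j * N j l)) := by
    apply MvPolynomial.derivation_ext
    rintro ⟨a, b⟩
    rw [Derivation.commutator_apply, DK_X, DK_X, DK_X, map_add, map_add, DK_CX, DK_CX, DK_CX, DK_CX]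
    simp only [Fin.sum_univ_two, map_add, map_sub, map_mul]
    ring
  rw [← Derivation.commutator_apply, h]

theorem ev_DK (c : Kbar) (τ : PowerSeries Kbar) (N : Fin 2 → Fin 2 → Kbar)
    (Q : MvPolynomial (Fin 2 × Fin 2) A0) (n : ℕ) :
    PowerSeries.coeff n (ev c τ (DK N Q)) = ∑ i : Fin 2, ∑ l : Fin 2, N i l * fl c τ Q n i l := by
  have hC : ∀ x : Kbar, ev c τ (MvPolynomial.C (cst x)) = PowerSeries.C x := by
    intro x
    unfold ev evG
    rw [MvPolynomial.coe_eval₂Hom, MvPolynomial.eval₂_C]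
    rfl
  rw [DK_lin, map_sum, map_sum]
  refine Finset.sum_congr rfl fun i _ => ?_
  rw [map_sum, map_sum]
  refine Finset.sum_congr rfl fun l _ => ?_
  rw [map_mul, hC, PowerSeries.coeff_C_mul]
  rfl

end Pool.Agent.H64.LG
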