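import Pool.Agent.H64.LG.Inv

/-!
# LG.Dup : duplication formulas near `0`

Let `v(x) = 1 / wf(x²)`, `v² = Q(x) = (1 - x²)(1 - c x²)`, `v(0) = 1`, `d = 1 - c x⁴`, `y(x) = 2 x v(x) / d`, `z(x) = Zp(x) / d²` with
`Zp = (1 - 2 (1 + c) x² + 3 c x⁴) d + 4 c x⁴ Q`.

PROOF. (1) `v' = Q'/(2 v)` (derivative of `wf (x²)`: differentiate `wf² .. = 1`, or `v² = Q`, `v ≠ 0`, `v` differentiable). `y' v = 2 z` near `0`: `y' = 2 ((v + x v') d + 4 c x⁴ v) / d²`, `v v' = Q'/2`, `Q + x Q'/2 = 1 - 2 (1 + c) x² + 3 c x⁴`. (2) `z² = Q(y)`: the polynomial identity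
`Zp² = (d² - 4 x² Q)(d² - 4 c x² Q)` (`ring`) and `y² = 4 x² Q / d²`. So `z(x)² = v(y(x))²`, both are continuous and equal `1` at `0`, so `z = v ∘ y` near `0` (`z + v∘y ≠ 0` near `0`). (3) `U (y(x)) - 2 U(x)` has derivative `wf(y²) y' - 2 wf(x²) = y'/z - 2/v = 0` near `0`, so
`U (y(x)) = 2 U(x)` near `0`, `U = Fan c 1 0` (`and2`; a function with zero derivative on a ball is constant); substitute `x = S u`: `U (y (S u)) = 2 u`, apply `S`: `S (2 u) = y (S u)`. `v (S (2 u)) = v (y (S u)) = z (S u)`.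
(4) `Fan c A B (y(x)) - 2 Fan c A B x - B x² y(x)` has derivative `0` near `0`: `(A + B y²) y' / z - 2 (A + B x²) / v - B (2 x y + x² y')`, multiply by `v` and use `y' v = 2 z`: need `2 (y² - x²) = 2 x y v + 2 x² z`, i.e. `4 Q - d² = 2 Q d + Zp` over `d²/x²`, which holds because
`4 Q - 4 c x⁴ Q = 4 Q d` and `Q - d = x Q'/2 = -(1 + c) x² + 2 c x⁴`. Substitute `x = S u`.
-/

set_option autoImplicit false

namespace Pool.Agent.H64.LG

open Filter Topology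

/-- numerator of the duplication formula of `cn dn` -/
def Zp (c x : ℂ) : ℂ :=
  (1 - 2 * (1 + c) * x ^ 2 + 3 * c * x ^ 4) * (1 - c * x ^ 4) + 4 * c * x ^ 4 * ((1 - x ^ 2) * (1 - c * x ^ 2))

private theorem const_near {G : ℂ → ℂ} (h : ∀ᶠ x in 𝓝 (0 : ℂ), HasDerivAt G 0 x) (h0 : G 0 = 0) :
    ∀ᶠ x in 𝓝 (0 : ℂ), G x = 0 := by
  obtain ⟨ε, hε, hb⟩ := Metric.eventually_nhds_iff_ball.1 h
  filter_upwards [Metric.ball_mem_nhds (0 : ℂ) hε] with x hx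
  rw [← h0]
  exact Metric.isOpen_ball.is_const_of_deriv_eq_zero (convex_ball 0 ε).isPreconnected
    (fun y hy => (hb y hy).differentiableAt.differentiableWithinAt)
    (fun y hy => (hb y hy).deriv) hx (Metric.mem_ball_self hε)

private theorem v_props (c : ℂ) : ∃ v' : ℂ → ℂ, ∀ᶠ x in 𝓝 (0 : ℂ), wf c (x ^ 2) ≠ 0 ∧
    (wf c (x ^ 2))⁻¹ ^ 2 = (1 - x ^ 2) * (1 - c * x ^ 2) ∧
    HasDerivAt (fun x => (wf c (x ^ 2))⁻¹) (v' x) x ∧
    2 * (wf c (x ^ 2))⁻¹ * v' x = -2 * (1 + c) * x + 4 * c * x ^ 3 := by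
  obtain ⟨r, hr, hr1, hd, hw, _⟩ := and1 c
  refine ⟨fun x => deriv (fun x => (wf c (x ^ 2))⁻¹) x, ?_⟩
  have hsq : ∀ x ∈ Metric.ball (0 : ℂ) r, x ^ 2 ∈ Metric.ball (0 : ℂ) r := by
    intro x hx
    rw [mem_ball_zero_iff] at hx ⊢
    rw [norm_pow]
    nlinarith [norm_nonneg x]
  have hne : ∀ x ∈ Metric.ball (0 : ℂ) r, wf c (x ^ 2) ≠ 0 := by
    intro x hx h0
    have h1 := hw _ (hsq x hx)
    rw [h0] at h1
    simp at h1
  have hv : ∀ x ∈ Metric.ball (0 : ℂ) r, (wf c (x ^ 2))⁻¹ ^ 2 = (1 - x ^ 2) * (1 - c * x ^ 2) := by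
    intro x hx
    have h1 := hw _ (hsq x hx)
    have h2 := hne x hx
    field_simp
    linear_combination -h1
  have hdiff : ∀ x ∈ Metric.ball (0 : ℂ) r, DifferentiableAt ℂ (fun x => (wf c (x ^ 2))⁻¹) x := by
    intro x hx
    have h1 : DifferentiableAt ℂ (wf c) (x ^ 2) :=
      (hd _ (hsq x hx)).differentiableAt (Metric.isOpen_ball.mem_nhds (hsq x hx))
    have h3 : DifferentiableAt ℂ (fun x : ℂ => x ^ 2) x := by fun_prop
    have h2 : DifferentiableAt ℂ (fun x => wf c (x ^ 2)) x := DifferentiableAt.fun_comp' x h1 h3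
    exact h2.fun_inv (hne x hx)
  filter_upwards [Metric.ball_mem_nhds (0 : ℂ) hr] with x hx
  refine ⟨hne x hx, hv x hx, (hdiff x hx).hasDerivAt, ?_⟩
  have h1 := ((hdiff x hx).hasDerivAt).fun_pow 2
  have h2 : HasDerivAt (fun x : ℂ => (1 - x ^ 2) * (1 - c * x ^ 2))
      (-2 * (1 + c) * x + 4 * c * x ^ 3) x := by
    have h3 : HasDerivAt (fun x : ℂ => x ^ 2) (2 * x) x := by simpa using hasDerivAt_pow 2 x
    have h4 := (h3.const_sub 1).fun_mul ((h3.const_mul c).const_sub 1)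
    refine h4.congr_deriv ?_
    ring
  have h5 : (fun x => (wf c (x ^ 2))⁻¹ ^ 2) =ᶠ[𝓝 x] fun x : ℂ => (1 - x ^ 2) * (1 - c * x ^ 2) := by
    filter_upwards [Metric.isOpen_ball.mem_nhds hx] with y hy using hv y hy
  have h6 := h2.congr_of_eventuallyEq h5
  have h7 := h1.unique h6
  rw [← h7]
  simp

theorem dup (c A B : ℂ) (S : ℂ → ℂ) (hS0 : S 0 = 0)
    (hS : ∀ᶠ u in 𝓝 (0 : ℂ), HasDerivAt S (wf c (S u ^ 2))⁻¹ u)
    (hU : ∀ᶠ u in 𝓝 (0 : ℂ), Fan c 1 0 (S u) = u) (hV : ∀ᶠ x in 𝓝 (0 : ℂ), S (Fan c 1 0 x) = x) :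
    ∀ᶠ u in 𝓝 (0 : ℂ), S (2 * u) = 2 * S u * (wf c (S u ^ 2))⁻¹ / (1 - c * S u ^ 4) ∧
      (wf c (S (2 * u) ^ 2))⁻¹ = Zp c (S u) / (1 - c * S u ^ 4) ^ 2 ∧
      Fan c A B (S (2 * u)) = 2 * Fan c A B (S u) + B * S u ^ 2 * S (2 * u) := by
  obtain ⟨_, _, _, _, _, hw0⟩ := and1 c
  obtain ⟨v', hv'⟩ := v_props c
  obtain ⟨rU, hrU, _, hdU, hU0⟩ := and2 c 1 0
  obtain ⟨rF, hrF, _, hdF, hF0⟩ := and2 c A B
  set v : ℂ → ℂ := fun x => (wf c (x ^ 2))⁻¹ with hvdef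
  set y : ℂ → ℂ := fun x => 2 * x * v x / (1 - c * x ^ 4) with hydef
  set z : ℂ → ℂ := fun x => Zp c x / (1 - c * x ^ 4) ^ 2 with hzdef
  have hv0 : v 0 = 1 := by simp [hvdef, hw0]
  have hy0 : y 0 = 0 := by simp [hydef]
  have hz0 : z 0 = 1 := by simp [hzdef, Zp]
  have hdc : ContinuousAt (fun x : ℂ => 1 - c * x ^ 4) 0 := by fun_prop
  have hd0 : ∀ᶠ x in 𝓝 (0 : ℂ), 1 - c * x ^ 4 ≠ 0 := hdc.eventually_ne (by simp)
  have hvc : ContinuousAt v 0 := (hv'.self_of_nhds.2.2.1).continuousAt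
  have hyc : ContinuousAt y 0 := by
    apply ContinuousAt.div _ hdc (by simp)
    exact (continuousAt_const.mul continuousAt_id).mul hvc
  have hzc : ContinuousAt z 0 := by
    apply ContinuousAt.div _ (hdc.pow 2) (by simp)
    unfold Zp
    fun_prop
  have hyt : Tendsto y (𝓝 0) (𝓝 0) := by
    have := hyc.tendsto
    rwa [hy0] at this
  have hSt : Tendsto S (𝓝 0) (𝓝 0) := by
    have := (hS.self_of_nhds).continuousAt.tendsto
    rwa [hS0] at this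
  -- the derivative of `y`
  have hyd : ∀ᶠ x in 𝓝 (0 : ℂ), ∃ y', HasDerivAt y y' x ∧ y' * v x = 2 * z x := by
    filter_upwards [hv', hd0] with x hx hdx
    obtain ⟨h1, h2, h3, h4⟩ := hx
    have h5 : HasDerivAt (fun x : ℂ => 1 - c * x ^ 4) (-(c * (4 * x ^ 3))) x := by
      have := ((hasDerivAt_pow 4 x).const_mul c).const_sub 1
      simpa using this
    have h6 : HasDerivAt (fun x : ℂ => 2 * x) 2 x := by
      simpa using (hasDerivAt_id x).const_mul (2 : ℂ)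
    have h7 := (h6.fun_mul h3).fun_div h5 hdx
    refine ⟨_, h7, ?_⟩
    simp only [hzdef, Zp]
    change v x ^ 2 = _ at h2
    change 2 * v x * v' x = _ at h4
    change ((2 * v x + 2 * x * v' x) * (1 - c * x ^ 4) - 2 * x * v x * -(c * (4 * x ^ 3)))
      / (1 - c * x ^ 4) ^ 2 * v x = _
    rw [div_mul_eq_mul_div, ← mul_div_assoc]
    congr 1
    linear_combination (2 * (1 - c * x ^ 4) + 8 * c * x ^ 4) * h2 + (x * (1 - c * x ^ 4)) * h4
  -- `v ∘ y = z`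
  have hvyc : ContinuousAt (fun x => z x + v (y x)) 0 := by
    have h1 : ContinuousAt (v ∘ y) 0 := ContinuousAt.comp (by rw [hy0]; exact hvc) hyc
    exact hzc.add h1
  have hsum : ∀ᶠ x in 𝓝 (0 : ℂ), z x + v (y x) ≠ 0 := by
    apply hvyc.eventually_ne
    rw [hy0, hz0, hv0]
    norm_num
  have hvy : ∀ᶠ x in 𝓝 (0 : ℂ), v (y x) = z x := by
    filter_upwards [hv', hd0, hsum, hyt.eventually hv'] with x hx hdx hs hyx
    have h2 : v x ^ 2 = (1 - x ^ 2) * (1 - c * x ^ 2) := hx.2.1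
    have h3 : v (y x) ^ 2 = (1 - y x ^ 2) * (1 - c * y x ^ 2) := hyx.2.1
    have h4 : y x ^ 2 * (1 - c * x ^ 4) ^ 2 = 4 * x ^ 2 * ((1 - x ^ 2) * (1 - c * x ^ 2)) := by
      have e0 : y x * (1 - c * x ^ 4) = 2 * x * v x := div_mul_cancel₀ _ hdx
      rw [← mul_pow, e0, ← h2]
      ring
    have h5 : z x * (1 - c * x ^ 4) ^ 2 = Zp c x := div_mul_cancel₀ _ (pow_ne_zero 2 hdx)
    have h6 : (z x ^ 2 - v (y x) ^ 2) * ((1 - c * x ^ 4) ^ 2) ^ 2 = 0 := by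
      rw [h3]
      have e1 : (z x ^ 2 - (1 - y x ^ 2) * (1 - c * y x ^ 2)) * ((1 - c * x ^ 4) ^ 2) ^ 2
          = (z x * (1 - c * x ^ 4) ^ 2) ^ 2 - ((1 - c * x ^ 4) ^ 2 - y x ^ 2 * (1 - c * x ^ 4) ^ 2)
            * ((1 - c * x ^ 4) ^ 2 - c * (y x ^ 2 * (1 - c * x ^ 4) ^ 2)) := by ring
      rw [e1, h4, h5, Zp]
      ring
    have h7 : z x ^ 2 - v (y x) ^ 2 = 0 :=
      (mul_eq_zero.1 h6).resolve_right (pow_ne_zero 2 (pow_ne_zero 2 hdx))
    have h8 : (z x - v (y x)) * (z x + v (y x)) = 0 := by linear_combination h7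
    exact (sub_eq_zero.1 ((mul_eq_zero.1 h8).resolve_right hs)).symm
  have hvne : ∀ᶠ x in 𝓝 (0 : ℂ), v x ≠ 0 := by
    filter_upwards [hv'] with x hx using inv_ne_zero hx.1
  have hzne : ∀ᶠ x in 𝓝 (0 : ℂ), z x ≠ 0 := hzc.eventually_ne (by rw [hz0]; exact one_ne_zero)
  -- general derivative computation
  have hgen : ∀ a b : ℂ, ∀ r : ℝ, 0 < r →
      (∀ x ∈ Metric.ball (0 : ℂ) r, HasDerivAt (Fan c a b) ((a + b * x ^ 2) * wf c (x ^ 2)) x) →
      Fan c a b 0 = 0 →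
      ∀ᶠ x in 𝓝 (0 : ℂ), Fan c a b (y x) - 2 * Fan c a b x - b * (x ^ 2 * y x) = 0 := by
    intro a b r hr hder h0
    apply const_near _ (by rw [hy0, h0]; ring)
    filter_upwards [hv', hd0, hyd, hvy, hvne, hzne, Metric.ball_mem_nhds (0 : ℂ) hr,
      hyt.eventually (Metric.ball_mem_nhds (0 : ℂ) hr)] with x hx hdx hyx hvyx hvx hzx hxb hyb
    obtain ⟨y', hy1, hy2⟩ := hyx
    have h1 := (hder (y x) hyb).comp x hy1
    have h2 := (hder x hxb).const_mul 2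
    have h3 : HasDerivAt (fun x : ℂ => x ^ 2) (2 * x) x := by simpa using hasDerivAt_pow 2 x
    have h4 := (h3.fun_mul hy1).const_mul b
    have h5 := (h1.fun_sub h2).fun_sub h4
    refine h5.congr_deriv ?_
    have e1 : wf c (x ^ 2) = (v x)⁻¹ := by simp [hvdef]
    have e2 : wf c (y x ^ 2) = (z x)⁻¹ := by
      rw [← hvyx]
      simp [hvdef]
    have e3 : y' = 2 * z x / v x := by
      rw [eq_div_iff hvx, hy2]
    have hQ : v x ^ 2 = (1 - x ^ 2) * (1 - c * x ^ 2) := hx.2.1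
    have e4 : y x ^ 2 - x ^ 2 - x * y x * v x - x ^ 2 * z x = 0 := by
      have h6 : (y x ^ 2 - x ^ 2 - x * y x * v x - x ^ 2 * z x) * (1 - c * x ^ 4) ^ 2 = 0 := by
        have e5 : y x * (1 - c * x ^ 4) = 2 * x * v x := div_mul_cancel₀ _ hdx
        have e6 : z x * (1 - c * x ^ 4) ^ 2 = Zp c x := div_mul_cancel₀ _ (pow_ne_zero 2 hdx)
        have e7 : (y x ^ 2 - x ^ 2 - x * y x * v x - x ^ 2 * z x) * (1 - c * x ^ 4) ^ 2
            = (y x * (1 - c * x ^ 4)) ^ 2 - x ^ 2 * (1 - c * x ^ 4) ^ 2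
              - x * (y x * (1 - c * x ^ 4)) * v x * (1 - c * x ^ 4)
              - x ^ 2 * (z x * (1 - c * x ^ 4) ^ 2) := by ring
        rw [e7, e5, e6, Zp]
        linear_combination (4 * x ^ 2 - 2 * x ^ 2 * (1 - c * x ^ 4)) * hQ
      exact (mul_eq_zero.1 h6).resolve_right (pow_ne_zero 2 hdx)
    rw [e1, e2, e3]
    field_simp
    linear_combination (2 * b) * e4
  have hUU := hgen 1 0 rU hrU hdU hU0
  have hFF := hgen A B rF hrF hdF hF0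
  have h2u : Tendsto (fun u : ℂ => y (S u)) (𝓝 0) (𝓝 0) := hyt.comp hSt
  filter_upwards [hSt.eventually hUU, hSt.eventually hFF, hU, h2u.eventually hV,
    hSt.eventually hvy] with u h1 h2 h3 h4 h5
  have e1 : Fan c 1 0 (y (S u)) = 2 * u := by
    rw [h3] at h1
    linear_combination h1
  rw [e1] at h4
  refine ⟨h4, ?_, ?_⟩
  · rw [h4]
    exact h5
  · rw [h4]
    linear_combination h2

end Pool.Agent.H64.LG
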