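import Pool.Agent.H64.LG.Pls

/-!
# LG.Quf : a set of functionals vanishing on the `p`-curvatures whose annihilator is a Lie algebra

PROOF. For `l` put `q_l(X, Y) = - l10 X² + (l00 - l11) X Y + l01 Y²` (binary quadratic form over the algebraically closed field `Kbar`). Suppose
`q_l ≠ 0` for some `l ∈ 𝓛`; `q_l = ℓ₁ ℓ₂`, `ℓ_j = u_j X + w_j Y ≠ 0` (factor a binary quadratic form: root of a quadratic polynomial,
`IsAlgClosed`). By `h1`, for almost all `v`, `ℓ̄₁(α, β) = 0` or `ℓ̄₂(α, β) = 0`. Let `r_j = (w_j, - u_j)` be the root of `ℓ_j`.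
(1) `ℓ₂ ∝ ℓ₁` (`u₁ w₂ = u₂ w₁`): then `ℓ̄₁(α, β) = 0` for almost all `v`, against `hlin`.
(2) `ℓ₁, ℓ₂` independent and some `l' ∈ 𝓛` has `q_{l'}(r₁) ≠ 0`: for almost all `v`, `ℓ̄₁(α, β) = 0` would give `(α, β) ∝ r̄₁` (`hab`) and
`q̄_{l'}(r̄₁) = 0`, but `red (q_{l'}(r₁)) ≠ 0` (`ev_ne`); so `ℓ̄₂(α, β) = 0` for almost all `v`, against `hlin`. The same with `r₂`.
(3) `q_{l'}(r₁) = q_{l'}(r₂) = 0` for all `l' ∈ 𝓛`. Let `M_r = ((X Y, Y²), (-X², -X Y))` at `r = (X, Y)`; `∑ M_r i j * l' i j = q_{l'}(r) = 0`, so `h2` applies to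
`M_{r₁}, M_{r₂}`. The commutator is trace zero and `∑ [..] i j * l i j = ± det(r₁, r₂) (ℓ₁(r₂) ℓ₂(r₁))` (up to a nonzero factor: the polar form of `q_l`), which is
not zero. Contradiction. (Check the last identity with `ring`: it is a polynomial identity in `u_j, w_j`.)
-/

set_option autoImplicit false

namespace Pool.Agent.H64.LG

open Pool.H61.QF

private lemma fac (a b c : Kbar) : ∃ u₁ w₁ u₂ w₂ : Kbar,
    a = u₁ * u₂ ∧ b = u₁ * w₂ + u₂ * w₁ ∧ c = w₁ * w₂ := by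
  by_cases ha : a = 0
  · exact ⟨0, 1, b, c, by rw [ha]; ring, by ring, by ring⟩
  · obtain ⟨s, hs⟩ := IsAlgClosed.exists_pow_nat_eq (b ^ 2 - 4 * a * c) (n := 2) (by norm_num)
    refine ⟨1, -((-b + s) / (2 * a)), a, b + a * ((-b + s) / (2 * a)), by ring, by ring, ?_⟩
    field_simp
    linear_combination hs

private lemma red_mul (v : Place) {x y : Kbar} (hx : x ∈ LocInt v.p) (hy : y ∈ LocInt v.p) :
    v.red (x * y) = v.red x * v.red y := rho_mul v.φ hx hy

private lemma red_add (v : Place) {x y : Kbar} (hx : x ∈ LocInt v.p) (hy : y ∈ LocInt v.p) :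
    v.red (x + y) = v.red x + v.red y := rho_add v.φ hx hy

private lemma red_sub (v : Place) {x y : Kbar} (hx : x ∈ LocInt v.p) (hy : y ∈ LocInt v.p) :
    v.red (x - y) = v.red x - v.red y := rho_sub v.φ hx hy

/-- the quadratic form -/
private noncomputable def qf (l : Fin 2 → Fin 2 → Kbar) (X Y : Kbar) : Kbar :=
  (l 0 0 - l 1 1) * (X * Y) + l 0 1 * (Y * Y) - l 1 0 * (X * X)

private lemma red_qf (v : Place) (l : Fin 2 → Fin 2 → Kbar) (X Y : Kbar) (h00 : l 0 0 ∈ LocInt v.p)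
    (h01 : l 0 1 ∈ LocInt v.p) (h10 : l 1 0 ∈ LocInt v.p) (h11 : l 1 1 ∈ LocInt v.p)
    (hX : X ∈ LocInt v.p) (hY : Y ∈ LocInt v.p) :
    v.red (qf l X Y) = (v.red (l 0 0) - v.red (l 1 1)) * (v.red X * v.red Y) +
      v.red (l 0 1) * (v.red Y * v.red Y) - v.red (l 1 0) * (v.red X * v.red X) := by
  have hXY := (LocInt v.p).mul_mem hX hY
  have hYY := (LocInt v.p).mul_mem hY hY
  have hXX := (LocInt v.p).mul_mem hX hX
  have hs := (LocInt v.p).sub_mem h00 h11
  have h1 := (LocInt v.p).mul_mem hs hXY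
  have h2 := (LocInt v.p).mul_mem h01 hYY
  have h3 := (LocInt v.p).mul_mem h10 hXX
  unfold qf
  rw [red_sub v ((LocInt v.p).add_mem h1 h2) h3, red_add v h1 h2, red_mul v hs hXY,
    red_mul v h01 hYY, red_mul v h10 hXX, red_mul v hX hY, red_mul v hY hY, red_mul v hX hX,
    red_sub v h00 h11]

theorem quf (c : Kbar)
    (hlin : ∀ u w : Kbar, ¬ (u = 0 ∧ w = 0) →
      ¬ ∀ᶠ v in pl, Place.red v u * al v c + Place.red v w * be v c = 0)
    (hab : ∀ᶠ v in pl, al v c ≠ 0 ∨ be v c ≠ 0)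
    (𝓛 : Set (Fin 2 → Fin 2 → Kbar))
    (h1 : ∀ l ∈ 𝓛, ∀ᶠ v in pl, -(Place.red v (l 1 0) * al v c ^ 2) +
      (Place.red v (l 0 0) - Place.red v (l 1 1)) * (al v c * be v c) + Place.red v (l 0 1) * be v c ^ 2 = 0)
    (h2 : ∀ M N : Fin 2 → Fin 2 → Kbar,
      (∀ l ∈ 𝓛, ∑ i : Fin 2, ∑ j : Fin 2, M i j * l i j = 0) →
      (∀ l ∈ 𝓛, ∑ i : Fin 2, ∑ j : Fin 2, N i j * l i j = 0) →
      ∀ l ∈ 𝓛, ∑ i : Fin 2, ∑ j : Fin 2, (∑ k : Fin 2, (N i k * M k j - M i k * N k j)) * l i j = 0) :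
    ∀ l ∈ 𝓛, l 0 1 = 0 ∧ l 1 0 = 0 ∧ l 0 0 = l 1 1 := by
  classical
  -- a line `u X + w Y` whose root is not a root of all the forms
  have key : ∀ u w : Kbar, (∃ l ∈ 𝓛, qf l w (-u) ≠ 0) →
      ∀ᶠ v in pl, Place.red v u * al v c + Place.red v w * be v c ≠ 0 := by
    rintro u w ⟨l, hl, hq⟩
    filter_upwards [h1 l hl, hab, ev_ne _ hq, ev_mem u, ev_mem w, ev_mem (-u), ev_mem (l 0 0),
      ev_mem (l 0 1), ev_mem (l 1 0), ev_mem (l 1 1)] with v e1 e2 e3 mu mw mu' m00 m01 m10 m11 h0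
    apply e3
    rw [red_qf v l w (-u) m00 m01 m10 m11 mw mu']
    have hneg : v.red (-u) = -v.red u := by
      have h2 := red_add v mu mu'
      rw [add_neg_cancel] at h2
      have h3 : v.red 0 = 0 := rho_zero v.φ
      rw [h3] at h2
      linear_combination -h2
    rw [hneg]
    set U := v.red u with hU
    set T := v.red w with hT
    set A := al v c with hA
    set B := be v c with hB
    rcases e2 with hne | hne
    · have h4 : A ^ 2 * ((v.red (l 0 0) - v.red (l 1 1)) * (T * -U) +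
          v.red (l 0 1) * (-U * -U) - v.red (l 1 0) * (T * T)) = 0 := by
        have h5 : U * A = -(T * B) := by linear_combination h0
        have h6 : A ^ 2 * ((v.red (l 0 0) - v.red (l 1 1)) * (T * -U) +
            v.red (l 0 1) * (-U * -U) - v.red (l 1 0) * (T * T)) =
            -(v.red (l 0 0) - v.red (l 1 1)) * (T * A) * (U * A) + v.red (l 0 1) * (U * A) * (U * A) -
            v.red (l 1 0) * (T * A) * (T * A) := by ring
        rw [h6, h5]
        linear_combination T ^ 2 * e1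
      exact (mul_eq_zero.1 h4).resolve_left (pow_ne_zero 2 hne)
    · have h4 : B ^ 2 * ((v.red (l 0 0) - v.red (l 1 1)) * (T * -U) +
          v.red (l 0 1) * (-U * -U) - v.red (l 1 0) * (T * T)) = 0 := by
        have h5 : T * B = -(U * A) := by linear_combination h0
        have h6 : B ^ 2 * ((v.red (l 0 0) - v.red (l 1 1)) * (T * -U) +
            v.red (l 0 1) * (-U * -U) - v.red (l 1 0) * (T * T)) =
            -(v.red (l 0 0) - v.red (l 1 1)) * (T * B) * (U * B) + v.red (l 0 1) * (U * B) * (U * B) -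
            v.red (l 1 0) * (T * B) * (T * B) := by ring
        rw [h6, h5]
        linear_combination U ^ 2 * e1
      exact (mul_eq_zero.1 h4).resolve_left (pow_ne_zero 2 hne)
  intro l hl
  by_contra hcon
  obtain ⟨u₁, w₁, u₂, w₂, ha, hb, hc⟩ := fac (-(l 1 0)) (l 0 0 - l 1 1) (l 0 1)
  have hn1 : ¬ (u₁ = 0 ∧ w₁ = 0) := by
    rintro ⟨rfl, rfl⟩
    apply hcon
    refine ⟨by rw [hc]; ring, ?_, ?_⟩
    · linear_combination -ha
    · linear_combination hb
  have hn2 : ¬ (u₂ = 0 ∧ w₂ = 0) := by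
    rintro ⟨rfl, rfl⟩
    apply hcon
    refine ⟨by rw [hc]; ring, ?_, ?_⟩
    · linear_combination -ha
    · linear_combination hb
  have hprod : ∀ᶠ v in pl, Place.red v u₁ * al v c + Place.red v w₁ * be v c = 0 ∨
      Place.red v u₂ * al v c + Place.red v w₂ * be v c = 0 := by
    filter_upwards [h1 l hl, ev_mem u₁, ev_mem w₁, ev_mem u₂, ev_mem w₂, ev_mem (l 0 0),
      ev_mem (l 1 0), ev_mem (l 1 1)] with v e1 m1 n1 m2 n2 m00 m10 m11
    have r1 : -(v.red (l 1 0)) = v.red u₁ * v.red u₂ := by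
      rw [← red_mul v m1 m2, ← ha]
      have h2 := red_add v m10 ((LocInt v.p).neg_mem m10)
      rw [add_neg_cancel] at h2
      have h3 : v.red 0 = 0 := rho_zero v.φ
      rw [h3] at h2
      linear_combination h2
    have r2 : v.red (l 0 0) - v.red (l 1 1) = v.red u₁ * v.red w₂ + v.red u₂ * v.red w₁ := by
      rw [← red_sub v m00 m11, hb, red_add v ((LocInt v.p).mul_mem m1 n2) ((LocInt v.p).mul_mem m2 n1),
        red_mul v m1 n2, red_mul v m2 n1]
    have r3 : v.red (l 0 1) = v.red w₁ * v.red w₂ := by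
      rw [hc, red_mul v n1 n2]
    rw [← mul_eq_zero]
    linear_combination e1 - al v c ^ 2 * r1 - al v c * be v c * r2 - be v c ^ 2 * r3
  have hz1 : ∀ l' ∈ 𝓛, qf l' w₁ (-u₁) = 0 := by
    by_contra hne
    push Not at hne
    obtain ⟨l', hl', hq⟩ := hne
    refine hlin u₂ w₂ hn2 ?_
    filter_upwards [hprod, key u₁ w₁ ⟨l', hl', hq⟩] with v e1 e2
    exact e1.resolve_left e2
  have hz2 : ∀ l' ∈ 𝓛, qf l' w₂ (-u₂) = 0 := by
    by_contra hne
    push Not at hne
    obtain ⟨l', hl', hq⟩ := hne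
    refine hlin u₁ w₁ hn1 ?_
    filter_upwards [hprod, key u₂ w₂ ⟨l', hl', hq⟩] with v e1 e2
    exact e1.resolve_right e2
  by_cases hD : u₁ * w₂ - u₂ * w₁ = 0
  · obtain ⟨s, hs0, hs1, hs2⟩ : ∃ s : Kbar, s ≠ 0 ∧ u₂ = s * u₁ ∧ w₂ = s * w₁ := by
      by_cases hu : u₁ = 0
      · have hw : w₁ ≠ 0 := fun h => hn1 ⟨hu, h⟩
        have hu2 : u₂ = 0 := by
          rw [hu, zero_mul, zero_sub, neg_eq_zero, mul_eq_zero] at hD
          exact hD.resolve_right hw
        refine ⟨w₂ / w₁, div_ne_zero (fun h => hn2 ⟨hu2, h⟩) hw, by rw [hu, hu2, mul_zero], ?_⟩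
        rw [div_mul_cancel₀ _ hw]
      · refine ⟨u₂ / u₁, ?_, by rw [div_mul_cancel₀ _ hu], ?_⟩
        · intro h
          rw [div_eq_zero_iff] at h
          have hu2 := h.resolve_right hu
          apply hn2
          refine ⟨hu2, ?_⟩
          rw [hu2, zero_mul, sub_zero, mul_eq_zero] at hD
          exact hD.resolve_left hu
        · field_simp
          linear_combination hD
    refine hlin u₁ w₁ hn1 ?_
    filter_upwards [hprod, ev_ne s hs0, ev_mem s, ev_mem u₁, ev_mem w₁] with v e1 e2 ms m1 n1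
    rcases e1 with e1 | e1
    · exact e1
    · rw [hs1, hs2, red_mul v ms m1, red_mul v ms n1, mul_assoc, mul_assoc, ← mul_add] at e1
      exact (mul_eq_zero.1 e1).resolve_left e2
  · let Mr : Kbar → Kbar → Fin 2 → Fin 2 → Kbar := fun X Y =>
      ![![X * Y, Y * Y], ![-(X * X), -(X * Y)]]
    have hM : ∀ (l' : Fin 2 → Fin 2 → Kbar) (X Y : Kbar),
        ∑ i : Fin 2, ∑ j : Fin 2, Mr X Y i j * l' i j = qf l' X Y := by
      intro l' X Y
      simp only [Fin.sum_univ_two, Mr, qf, Matrix.cons_val_zero, Matrix.cons_val_one]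
      ring
    have h3 := h2 (Mr w₁ (-u₁)) (Mr w₂ (-u₂)) (fun l' hl' => by rw [hM]; exact hz1 l' hl')
      (fun l' hl' => by rw [hM]; exact hz2 l' hl') l hl
    simp only [Fin.sum_univ_two, Mr, Matrix.cons_val_zero, Matrix.cons_val_one] at h3
    apply hD
    have h4 : (u₁ * w₂ - u₂ * w₁) ^ 3 = 0 := by
      have e10 : l 1 0 = -(u₁ * u₂) := by linear_combination -ha
      have e00 : l 0 0 = l 1 1 + (u₁ * w₂ + u₂ * w₁) := by linear_combination hb
      rw [e10, e00, hc] at h3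
      linear_combination h3
    exact pow_eq_zero_iff (n := 3) (by norm_num) |>.1 h4

end Pool.Agent.H64.LG
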