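import Pool.Agent.H64.LG.Qud
import Pool.Agent.H64.LG.Quf
import Pool.Agent.H64.LG.Alg

/-!
# LG.Lie : `sl₂` kills the globally bounded elements

PROOF. `quf` with `𝓛 = {fl c τ Q n | Q with ev Q globally bounded, n}`; `h1` is `quad`, `hab` is `al_be` for almost all places. `h2`: `∑ M i j * fl Q n i j = coeff n (ev (DK M Q))` (`ev_DK`), so the
hypotheses say `ev (DK M Q) = 0`, `ev (DK N Q) = 0` for all `Q` with `ev Q` globally bounded; `0` is globally bounded (`gb_zero`), so also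
`ev (DK M (DK N Q)) = 0` and `ev (DK N (DK M Q)) = 0`; `DK_comm`. Conclusion of `quf`: `ev (DK N Q) = 0` coefficient by coefficient, `ev_DK`.
-/

set_option autoImplicit false

namespace Pool.Agent.H64.LG

open Pool.H61.QF PowerSeries

theorem kill (c : Kbar) (hc0 : c ≠ 0) (hc1 : c ≠ 1)
    (hlin : ∀ u w : Kbar, ¬ (u = 0 ∧ w = 0) →
      ¬ ∀ᶠ v in pl, Place.red v u * al v c + Place.red v w * be v c = 0)
    (τ : PowerSeries Kbar) (hτ : τ ∈ A0) (hτ0 : coeff 0 τ = 0) (hτn : τ ≠ 0)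
    (Q : MvPolynomial (Fin 2 × Fin 2) A0) (hQ : GloballyBounded (ev c τ Q))
    (N : Fin 2 → Fin 2 → Kbar) (hN : N 0 0 + N 1 1 = 0) : ev c τ (DK N Q) = 0 := by
  have hab : ∀ᶠ v in pl, al v c ≠ 0 ∨ be v c ≠ 0 := by
    filter_upwards [ev_mem c, ev_mem (c * (1 - c))⁻¹, ev_gt 4] with v h1 h2 h3
    exact al_be v c h1 h2 hc0 hc1 h3
  set 𝓛 : Set (Fin 2 → Fin 2 → Kbar) := {l | ∃ (Q : MvPolynomial (Fin 2 × Fin 2) A0) (n : ℕ),
    GloballyBounded (ev c τ Q) ∧ l = fl c τ Q n} with h𝓛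
  have hz : ∀ M : Fin 2 → Fin 2 → Kbar, (∀ l ∈ 𝓛, ∑ i : Fin 2, ∑ j : Fin 2, M i j * l i j = 0) →
      ∀ Q : MvPolynomial (Fin 2 × Fin 2) A0, GloballyBounded (ev c τ Q) → ev c τ (DK M Q) = 0 := by
    intro M hM Q hQ
    ext n
    rw [ev_DK, map_zero]
    exact hM _ ⟨Q, n, hQ, rfl⟩
  have hq := quf c hlin hab 𝓛 (by
    rintro l ⟨Q, n, hQ, rfl⟩
    exact quad c hc0 hc1 τ hτ hτ0 hτn Q hQ n) (by
    rintro M N hM hN l ⟨Q, n, hQ, rfl⟩
    have e1 : ev c τ (DK N Q) = 0 := hz N hN Q hQ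
    have e2 : ev c τ (DK M (DK N Q)) = 0 := hz M hM _ (by rw [e1]; exact gb_zero)
    have e3 : ev c τ (DK M Q) = 0 := hz M hM Q hQ
    have e4 : ev c τ (DK N (DK M Q)) = 0 := hz N hN _ (by rw [e3]; exact gb_zero)
    have e5 := DK_comm M N Q
    have e6 : ev c τ (DK (fun i l => ∑ j : Fin 2, (N i j * M j l - M i j * N j l)) Q) = 0 := by
      rw [← e5, map_sub, e2, e4, sub_zero]
    have e7 := ev_DK c τ (fun i l => ∑ j : Fin 2, (N i j * M j l - M i j * N j l)) Q n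
    rw [e6, map_zero] at e7
    exact e7.symm)
  ext n
  rw [ev_DK, map_zero]
  obtain ⟨a1, a2, a3⟩ := hq (fl c τ Q n) ⟨Q, n, hQ, rfl⟩
  simp only [Fin.sum_univ_two]
  linear_combination (fl c τ Q n 1 1) * hN + N 0 1 * a1 + N 1 0 * a2 + N 0 0 * a3

end Pool.Agent.H64.LG
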