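import Pool.Agent.H64.LG.Cor
import Pool.Agent.H64.LG.Cas
import Pool.Agent.H64.LG.Lie

/-!
# LG.Fin : the theorem
-/

set_option autoImplicit false

namespace Pool.Agent.H64.LG

open Pool.H61.QF PowerSeries

theorem main1 (c : Kbar) (hc0 : c ≠ 0) (hc1 : c ≠ 1) (τ : PowerSeries Kbar) (hτ : τ ∈ A0)
    (hτ0 : coeff 0 τ = 0) (hτn : τ ≠ 0) (Q : MvPolynomial (Fin 2 × Fin 2) A0)
    (hQ : GloballyBounded (ev c τ Q)) : ev c τ Q ∈ A0 :=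
  cas c hc0 hc1 τ hτ hτ0
    (fun Q hQ N hN => kill c hc0 hc1 (fun u w h => lin c hc0 hc1 u w h) τ hτ hτ0 hτn Q hQ N hN) Q hQ

end Pool.Agent.H64.LG
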