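import Pool.Agent.H64.LG.Gen
import Pool.Agent.H64.LG.Pls

/-!
# LG.HasA : the Hasse polynomial modulo `p`

PROOF. `m = (p - 1) / 2`, `q_i = red (cb i * cb (m - i))` (`cb` is in `LocInt p`, `p` odd), `h = ∑_{i ≤ m} q_i k^i` in `v.k[k]`, `H = h.comp (X + C c̄)`. Since `(i + 1) cb (i + 1) = (i + 1/2) cb i` (`cb_rec`) and `m = -1/2` in `v.k`: `(i + 1)² q_{i+1} = (i + 1/2)² q_i` for all `i`
(for `i < m`: `(m - i) cb (m - i) = (m - i - 1/2) cb (m - i - 1)`, i.e. `-(i + 1/2) cb (m - i) = -(i + 1) cb (m - i - 1)` in `v.k`; for `i = m`, `m + 1/2 = 0` and `q_{m+1} = 0`; for `i > m` both sides `0`), so `k (1 - k) h'' + (1 - 2 k) h' - h / 4 = 0` (compare coefficients),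
so the same for `H` with `k = c̄ + X` (`derivative_comp`), and the coefficient of `X^n` is the recursion. `H_0 = h(c̄) = al`, `H_1 = h'(c̄) = be` (definitions of `aK`, `dK`, `rho_sum`). `h ≠ 0`: `q_0 = red (cb m) ≠ 0` because `centralBinom m = (2m)! / m!²` is prime to `p` for `2 m < p`.
-/

set_option autoImplicit false

namespace Pool.Agent.H64.LG

open Pool.H61.QF

private theorem cbF_rec {F : Type} [Field F] (h4 : (4 : F) ≠ 0) (i : ℕ) :
    ((i : F) + 1) * cb F (i + 1) = ((i : F) + 1 / 2) * cb F i := by
  have h2 : (2 : F) ≠ 0 := by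
    intro h
    apply h4
    have : (4 : F) = 2 * 2 := by norm_num
    rw [this, h, mul_zero]
  have h := Nat.succ_mul_centralBinom_succ i
  have h' : ((i : F) + 1) * (Nat.centralBinom (i + 1) : F) = 2 * (2 * (i : F) + 1) * (Nat.centralBinom i : F) := by
    have := congrArg (fun n : ℕ => (n : F)) h
    push_cast at this
    exact this
  unfold cb
  have e4 : (4 : F) ^ i ≠ 0 := pow_ne_zero _ h4
  rw [pow_succ]
  have e1 : ((i : F) + 1) * ((Nat.centralBinom (i + 1) : F) / (4 ^ i * 4)) =
      (((i : F) + 1) * (Nat.centralBinom (i + 1) : F)) / (4 ^ i * 4) := by ring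
  rw [e1, h']
  field_simp
  ring

private theorem inv4_mem (p : ℕ) [hp : Fact p.Prime] (h5 : 5 ≤ p) (i : ℕ) :
    (((4 : Kbar) ^ i)⁻¹) ∈ LocInt p := by
  apply locInt_of_pow p 4 _ i
  · have h4 : ((4 : ℕ) : Kbar) ^ i * ((4 : Kbar) ^ i)⁻¹ = 1 := by
      have : ((4 : ℕ) : Kbar) = 4 := by norm_num
      rw [this]
      exact mul_inv_cancel₀ (pow_ne_zero _ (by norm_num))
    rw [h4]
    exact isIntegral_one
  · intro hd
    have := Nat.le_of_dvd (by norm_num) hd
    omega

private theorem cb_mem (p : ℕ) [hp : Fact p.Prime] (h5 : 5 ≤ p) (i : ℕ) : cb Kbar i ∈ LocInt p := by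
  unfold cb
  rw [div_eq_mul_inv]
  exact (LocInt p).mul_mem (natCast_mem _ _) (inv4_mem p h5 i)

private theorem red_cb (v : Place) (h5 : 5 ≤ v.p) (i : ℕ) : v.red (cb Kbar i) = cb v.k i := by
  unfold Place.red cb
  rw [div_eq_mul_inv, rho_mul v.φ (natCast_mem _ _) (inv4_mem v.p h5 i), rho_natCast]
  have h4m : ((4 : Kbar) ^ i) ∈ LocInt v.p := by
    have : ((4 : ℕ) : Kbar) ∈ LocInt v.p := natCast_mem _ 4
    have h := (LocInt v.p).pow_mem this i
    have e : ((4 : ℕ) : Kbar) = 4 := by norm_num
    rwa [e] at h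
  have h40 : ((4 : Kbar) ^ i) ≠ 0 := pow_ne_zero _ (by norm_num)
  rw [rho_inv v.φ h4m (inv4_mem v.p h5 i) h40]
  have h4m' : (4 : Kbar) ∈ LocInt v.p := by
    have : ((4 : ℕ) : Kbar) ∈ LocInt v.p := natCast_mem _ 4
    have e : ((4 : ℕ) : Kbar) = 4 := by norm_num
    rwa [e] at this
  rw [rho_pow v.φ h4m']
  have e4 : rho v.φ (4 : Kbar) = (4 : v.k) := by
    have h := rho_natCast (p := v.p) v.φ 4
    have e : ((4 : ℕ) : Kbar) = 4 := by norm_num
    rw [e] at h
    rw [h]
    norm_num
  rw [e4, div_eq_mul_inv]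

private theorem ode_coeff {F : Type} [Field F] (h2 : (2 : F) ≠ 0) (q : ℕ → F) (h : Polynomial F)
    (hq : ∀ i, h.coeff i = q i)
    (hrec : ∀ i : ℕ, ((i : F) + 1) ^ 2 * q (i + 1) = ((i : F) + 1 / 2) ^ 2 * q i) :
    Polynomial.X * (1 - Polynomial.X) * Polynomial.derivative (Polynomial.derivative h) +
      (1 - 2 * Polynomial.X) * Polynomial.derivative h - Polynomial.C (1 / 4) * h = 0 := by
  ext n
  have key := hrec n
  have h4 : (4 : F) ≠ 0 := by
    have : (4 : F) = 2 * 2 := by norm_num
    rw [this]
    exact mul_ne_zero h2 h2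
  have expd : Polynomial.X * (1 - Polynomial.X) * Polynomial.derivative (Polynomial.derivative h) +
      (1 - 2 * Polynomial.X) * Polynomial.derivative h - Polynomial.C (1 / 4) * h =
      Polynomial.X * Polynomial.derivative (Polynomial.derivative h) -
      Polynomial.X * (Polynomial.X * Polynomial.derivative (Polynomial.derivative h)) +
      Polynomial.derivative h - Polynomial.C 2 * (Polynomial.X * Polynomial.derivative h) -
      Polynomial.C (1 / 4) * h := by
    have : (Polynomial.C (2 : F)) = 2 := map_ofNat Polynomial.C 2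
    rw [this]
    ring
  rw [expd]
  have hE : (1 / 2 : F) * 2 = 1 := by field_simp
  have q4 : ((1 : F) / 2) ^ 2 = 1 / 4 := by
    field_simp
    norm_num
  simp only [Polynomial.coeff_sub, Polynomial.coeff_add, Polynomial.coeff_C_mul, Polynomial.coeff_zero]
  rcases n with _ | n
  · simp only [Polynomial.mul_coeff_zero, Polynomial.coeff_X_zero, zero_mul, Polynomial.coeff_derivative, hq]
    push_cast at key ⊢
    linear_combination key + q 0 * q4
  · rw [Polynomial.coeff_X_mul, Polynomial.coeff_X_mul, Polynomial.coeff_X_mul]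
    rcases n with _ | n
    · simp only [Polynomial.mul_coeff_zero, Polynomial.coeff_X_zero, zero_mul, Polynomial.coeff_derivative, hq]
      push_cast at key ⊢
      linear_combination key + q 1 * q4 + q 1 * hE
    · rw [Polynomial.coeff_X_mul]
      simp only [Polynomial.coeff_derivative, hq]
      push_cast at key ⊢
      linear_combination key + q (n + 1 + 1) * q4 + ((n : F) + 2) * q (n + 1 + 1) * hE

private theorem rec_of_ode {F : Type} [Field F] (c : F) (H : Polynomial F)
    (hode : (Polynomial.X + Polynomial.C c) * (1 - (Polynomial.X + Polynomial.C c)) *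
        Polynomial.derivative (Polynomial.derivative H) +
      (1 - 2 * (Polynomial.X + Polynomial.C c)) * Polynomial.derivative H - Polynomial.C (1 / 4) * H = 0)
    (h2 : (2 : F) ≠ 0) (n : ℕ) :
    c * (1 - c) * ((n : F) + 2) * ((n : F) + 1) * H.coeff (n + 2) =
        ((n : F) + 1 / 2) ^ 2 * H.coeff n - (1 - 2 * c) * ((n : F) + 1) ^ 2 * H.coeff (n + 1) := by
  have expd : (Polynomial.X + Polynomial.C c) * (1 - (Polynomial.X + Polynomial.C c)) *
        Polynomial.derivative (Polynomial.derivative H) +
      (1 - 2 * (Polynomial.X + Polynomial.C c)) * Polynomial.derivative H - Polynomial.C (1 / 4) * H =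
      Polynomial.C (c * (1 - c)) * Polynomial.derivative (Polynomial.derivative H) +
      Polynomial.C (1 - 2 * c) * (Polynomial.X * Polynomial.derivative (Polynomial.derivative H)) -
      Polynomial.X * (Polynomial.X * Polynomial.derivative (Polynomial.derivative H)) +
      Polynomial.C (1 - 2 * c) * Polynomial.derivative H -
      Polynomial.C 2 * (Polynomial.X * Polynomial.derivative H) - Polynomial.C (1 / 4) * H := by
    have e2 : (Polynomial.C (2 : F)) = 2 := map_ofNat Polynomial.C 2
    have e3 : (Polynomial.C (1 - 2 * c)) = 1 - 2 * Polynomial.C c := by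
      rw [Polynomial.C_sub, Polynomial.C_mul, e2, Polynomial.C_1]
    have e4 : (Polynomial.C (c * (1 - c))) = Polynomial.C c * (1 - Polynomial.C c) := by
      rw [Polynomial.C_mul, Polynomial.C_sub, Polynomial.C_1]
    rw [e2, e3, e4]
    ring
  rw [expd] at hode
  have h4 : (4 : F) ≠ 0 := by
    have : (4 : F) = 2 * 2 := by norm_num
    rw [this]
    exact mul_ne_zero h2 h2
  have hn := congrArg (fun P : Polynomial F => P.coeff n) hode
  simp only [Polynomial.coeff_sub, Polynomial.coeff_add, Polynomial.coeff_C_mul, Polynomial.coeff_zero] at hn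
  have q4 : ((1 : F) / 2) ^ 2 = 1 / 4 := by
    field_simp
    norm_num
  have hE : (1 / 2 : F) * 2 = 1 := by field_simp
  rcases n with _ | n
  · simp only [Polynomial.mul_coeff_zero, Polynomial.coeff_X_zero, zero_mul, Polynomial.coeff_derivative] at hn
    push_cast at hn ⊢
    linear_combination hn - H.coeff 0 * q4
  · rw [Polynomial.coeff_X_mul, Polynomial.coeff_X_mul, Polynomial.coeff_X_mul] at hn
    rcases n with _ | n
    · simp only [Polynomial.mul_coeff_zero, Polynomial.coeff_X_zero, zero_mul, Polynomial.coeff_derivative] at hn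
      push_cast at hn ⊢
      linear_combination hn - H.coeff 1 * q4 - H.coeff 1 * hE
    · rw [Polynomial.coeff_X_mul] at hn
      simp only [Polynomial.coeff_derivative] at hn
      push_cast at hn ⊢
      linear_combination hn - H.coeff (n + 1 + 1) * q4 - ((n : F) + 2) * H.coeff (n + 1 + 1) * hE

theorem hasA (v : Place) (c : Kbar) (hc : c ∈ LocInt v.p) (h5 : 5 ≤ v.p) :
    ∃ H : Polynomial v.k, H.natDegree ≤ (v.p - 1) / 2 ∧ H.coeff 0 = al v c ∧ H.coeff 1 = be v c ∧ H ≠ 0 ∧
      ∀ n : ℕ, v.red c * (1 - v.red c) * ((n : v.k) + 2) * ((n : v.k) + 1) * H.coeff (n + 2) =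
        ((n : v.k) + 1 / 2) ^ 2 * H.coeff n - (1 - 2 * v.red c) * ((n : v.k) + 1) ^ 2 * H.coeff (n + 1) := by
  have := v.ck
  set m : ℕ := (v.p - 1) / 2 with hm
  have hodd : v.p % 2 = 1 := by
    rcases v.hp.out.eq_two_or_odd with h | h
    · omega
    · exact h
  have h2m : 2 * m + 1 = v.p := by omega
  have h2 : (2 : v.k) ≠ 0 := by
    have h := CharP.cast_eq_zero_iff v.k v.p 2
    intro h0
    have h3 : ((2 : ℕ) : v.k) = 0 := by exact_mod_cast h0
    have := Nat.le_of_dvd (by norm_num) (h.1 h3)
    omega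
  have h4 : (4 : v.k) ≠ 0 := by
    have : (4 : v.k) = 2 * 2 := by norm_num
    rw [this]
    exact mul_ne_zero h2 h2
  have hmk : (m : v.k) = - (1 / 2) := by
    have h := CharP.cast_eq_zero v.k v.p
    rw [← h2m] at h
    push_cast at h
    field_simp
    linear_combination h
  set q : ℕ → v.k := fun i => if i ≤ m then cb v.k i * cb v.k (m - i) else 0 with hqd
  have hrec : ∀ i : ℕ, ((i : v.k) + 1) ^ 2 * q (i + 1) = ((i : v.k) + 1 / 2) ^ 2 * q i := by
    intro i
    rcases lt_trichotomy i m with hi | hi | hi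
    · have e1 : q (i + 1) = cb v.k (i + 1) * cb v.k (m - (i + 1)) := by
        simp only [hqd]
        rw [if_pos (by omega)]
      have e2 : q i = cb v.k i * cb v.k (m - i) := by
        simp only [hqd]
        rw [if_pos (by omega)]
      obtain ⟨j, hj⟩ : ∃ j, m = i + 1 + j := ⟨m - (i + 1), by omega⟩
      have e3 : m - (i + 1) = j := by omega
      have e4 : m - i = j + 1 := by omega
      rw [e1, e2, e3, e4]
      have r1 := cbF_rec h4 i
      have r2 := cbF_rec h4 j
      have ej : (j : v.k) = - (1 / 2) - i - 1 := by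
        rw [← hmk, hj]
        push_cast
        ring
      rw [ej] at r2
      have r3 : ((i : v.k) + 1 / 2) * cb v.k (j + 1) = ((i : v.k) + 1) * cb v.k j := by
        linear_combination (-1 : v.k) * r2
      linear_combination ((i : v.k) + 1) * cb v.k j * r1 - ((i : v.k) + 1 / 2) * cb v.k i * r3
    · have e1 : q (i + 1) = 0 := by
        simp only [hqd]
        rw [if_neg (by omega)]
      rw [e1, hi, hmk]
      ring
    · have e1 : q (i + 1) = 0 := by
        simp only [hqd]
        rw [if_neg (by omega)]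
      have e2 : q i = 0 := by
        simp only [hqd]
        rw [if_neg (by omega)]
      rw [e1, e2]
      ring
  set h : Polynomial v.k := ∑ i ∈ Finset.range (m + 1), Polynomial.monomial i (q i) with hh
  have hcoef : ∀ i, h.coeff i = q i := by
    intro i
    rw [hh, Polynomial.finsetSum_coeff]
    simp only [Polynomial.coeff_monomial]
    rw [Finset.sum_ite_eq' (Finset.range (m + 1)) i (fun b => q b)]
    split_ifs with hi
    · rfl
    · have : ¬ i ≤ m := by
        intro h'
        exact hi (Finset.mem_range.2 (by omega))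
      simp only [hqd]
      rw [if_neg this]
  have hdeg : h.natDegree ≤ m := by
    rw [Polynomial.natDegree_le_iff_coeff_eq_zero]
    intro N hN
    rw [hcoef]
    simp only [hqd]
    rw [if_neg (by omega)]
  have hode := ode_coeff h2 q h hcoef hrec
  set c' : v.k := v.red c with hc'
  have hcbm := cb_mem v.p h5
  have hterm : ∀ i j l : ℕ, cb Kbar i * cb Kbar j * c ^ l ∈ LocInt v.p := fun i j l =>
    (LocInt v.p).mul_mem ((LocInt v.p).mul_mem (hcbm i) (hcbm j)) ((LocInt v.p).pow_mem hc l)
  have hredt : ∀ i j l : ℕ, rho v.φ (cb Kbar i * cb Kbar j * c ^ l) = cb v.k i * cb v.k j * c' ^ l := by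
    intro i j l
    rw [rho_mul v.φ ((LocInt v.p).mul_mem (hcbm i) (hcbm j)) ((LocInt v.p).pow_mem hc l),
      rho_mul v.φ (hcbm i) (hcbm j), rho_pow v.φ hc]
    have e1 := red_cb v h5 i
    have e2 := red_cb v h5 j
    unfold Place.red at e1 e2
    rw [e1, e2, hc']
    rfl
  refine ⟨Polynomial.taylor c' h, ?_, ?_, ?_, ?_, ?_⟩
  · rw [Polynomial.natDegree_taylor]
    exact hdeg
  · rw [Polynomial.taylor_coeff_zero, hh, Polynomial.eval_finsetSum]
    unfold al aK Place.red
    rw [rho_sum v.φ _ _ (fun i _ => hterm _ _ _)]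
    apply Finset.sum_congr rfl
    intro i hi
    rw [Finset.mem_range] at hi
    rw [Polynomial.eval_monomial, hredt]
    simp only [hqd]
    rw [if_pos (by omega)]
  · rw [Polynomial.taylor_coeff_one, hh, Polynomial.derivative_sum, Polynomial.eval_finsetSum,
      Finset.sum_range_succ']
    unfold be dK Place.red
    rw [rho_sum v.φ]
    · have e0 : Polynomial.eval c' (Polynomial.derivative (Polynomial.monomial 0 (q 0))) = 0 := by
        rw [Polynomial.derivative_monomial]
        simp
      rw [e0, add_zero]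
      apply Finset.sum_congr rfl
      intro i hi
      rw [Finset.mem_range] at hi
      rw [Polynomial.derivative_monomial, Polynomial.eval_monomial]
      have hcast : ((i : Kbar) + 1) ∈ LocInt v.p := by
        have : (((i + 1 : ℕ)) : Kbar) ∈ LocInt v.p := natCast_mem _ _
        push_cast at this
        exact this
      have hcr : rho v.φ ((i : Kbar) + 1) = (i : v.k) + 1 := by
        have h := rho_natCast (p := v.p) v.φ (i + 1)
        push_cast at h
        exact h
      have e1 : ((i : Kbar) + 1) * (cb Kbar (i + 1) * cb Kbar (m - (i + 1))) * c ^ i =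
          ((i : Kbar) + 1) * (cb Kbar (i + 1) * cb Kbar (m - (i + 1)) * c ^ i) := by ring
      rw [e1, rho_mul v.φ hcast (hterm _ _ _), hredt, hcr]
      simp only [hqd]
      rw [if_pos (by omega), Nat.add_sub_cancel]
      push_cast
      ring
    · intro i _
      have hcast : ((i : Kbar) + 1) ∈ LocInt v.p := by
        have : (((i + 1 : ℕ)) : Kbar) ∈ LocInt v.p := natCast_mem _ _
        push_cast at this
        exact this
      exact (LocInt v.p).mul_mem ((LocInt v.p).mul_mem hcast ((LocInt v.p).mul_mem (hcbm _) (hcbm _)))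
        ((LocInt v.p).pow_mem hc _)
  · intro h0
    have h1 : h = 0 := by
      apply Polynomial.taylor_injective c'
      rw [h0, map_zero]
    have h3 := hcoef 0
    rw [h1, Polynomial.coeff_zero] at h3
    simp only [hqd] at h3
    rw [if_pos (by omega), Nat.sub_zero] at h3
    unfold cb at h3
    rw [Nat.centralBinom_zero, pow_zero] at h3
    have h6 : ((Nat.centralBinom m : ℕ) : v.k) ≠ 0 := by
      intro h7
      have h8 := (CharP.cast_eq_zero_iff v.k v.p _).1 h7
      have h9 : v.p ∣ (2 * m).factorial := by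
        have e := Nat.choose_mul_factorial_mul_factorial (n := 2 * m) (k := m) (by omega)
        rw [← e]
        exact Dvd.dvd.mul_right (Dvd.dvd.mul_right h8 _) _
      have h10 := (Nat.Prime.dvd_factorial v.hp.out).1 h9
      omega
    have h7 : ((Nat.centralBinom m : ℕ) : v.k) / 4 ^ m ≠ 0 := div_ne_zero h6 (pow_ne_zero _ h4)
    apply h7
    have h8 : ((1 : ℕ) : v.k) / 1 * (((Nat.centralBinom m : ℕ) : v.k) / 4 ^ m) = 0 := h3.symm
    rw [Nat.cast_one, div_one, one_mul] at h8
    exact h8
  · apply rec_of_ode c' _ _ h2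
    have hT := congrArg (Polynomial.taylor c') hode
    rw [map_zero] at hT
    rw [← hT]
    have hd : ∀ P : Polynomial v.k, Polynomial.derivative (Polynomial.taylor c' P) =
        Polynomial.taylor c' (Polynomial.derivative P) := by
      intro P
      rw [Polynomial.taylor_apply, Polynomial.derivative_comp, Polynomial.taylor_apply]
      simp
    rw [hd, hd]
    rw [map_sub, map_add, Polynomial.taylor_mul, Polynomial.taylor_mul, Polynomial.taylor_mul,
      Polynomial.taylor_mul, map_sub, map_sub, Polynomial.taylor_mul, Polynomial.taylor_X, Polynomial.taylor_C,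
      Polynomial.taylor_one]
    have e2 : Polynomial.taylor c' (2 : Polynomial v.k) = 2 := by
      have : (2 : Polynomial v.k) = Polynomial.C 2 := (map_ofNat Polynomial.C 2).symm
      rw [this, Polynomial.taylor_C]
    rw [e2, Polynomial.C_1]

end Pool.Agent.H64.LG
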