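import Pool.Agent.H64.LG.Rec

/-!
# LG.Int : `p`-integrality of the solutions below `t^(2p)`

PROOFS. `c (1 - c)` is a unit of `LocInt p`, and so are `1/2` and the integers prime to `p` (`⟨s, ..⟩` in the definition of `LocInt`).
`gs_mem`: strong induction with `gs_rec` (`(n + 2)(n + 1)` is prime to `p` for `n + 2 < p`). `gs_mem2`: strong induction; for
`n + 2 < 2p` at most one of `n + 1`, `n + 2` is `p`; the claim for `n < p` is `gs_mem`; at `n + 2 = p` the recursion is
`c (1 - c) p (p - 1) g_p = (integral)`; at `n + 1 = p` it is `c (1 - c) (p + 1) p g_{p+1} = (..)² g_{p-1} - (1 - 2c) p (p g_p)`; for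
`n ≥ p` multiply by `p`. `gs_cmp`: `E_m = p g_{p+m} - N_0 g_{0,m} - N_1 g_{1,m}` satisfies `E_0 = E_1 = 0` and
`c (1 - c)(m + 2)(m + 1) E_{m+2} = (m + 1/2)² E_m - (1 - 2c)(m + 1)² E_{m+1} + p * (integral)`, because
`(p + m + 2)(p + m + 1) = (m + 2)(m + 1) + p (..)` etc. and `p g_{p+m}` is integral; so all `E_m`, `m < p`, are in `p LocInt`.
-/

set_option autoImplicit false

namespace Pool.Agent.H64.LG

open Pool.H61.QF PowerSeries

private theorem inv_nat_mem (p : ℕ) [Fact p.Prime] (n : ℕ) (hn : ¬ p ∣ n) :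
    ((n : Kbar))⁻¹ ∈ LocInt p := by
  refine ⟨n, hn, ?_⟩
  have h0 : (n : Kbar) ≠ 0 := by
    intro h
    have : n = 0 := by exact_mod_cast h
    exact hn (this ▸ dvd_zero p)
  rw [mul_inv_cancel₀ h0]
  exact isIntegral_one

private theorem half_mem (p : ℕ) [Fact p.Prime] (h5 : 5 ≤ p) : ((1 : Kbar) / 2) ∈ LocInt p := by
  have h := inv_nat_mem p 2 (fun h => by
    have := Nat.le_of_dvd (by norm_num) h
    omega)
  rw [one_div]
  exact_mod_cast h

private theorem two_mem (p : ℕ) [Fact p.Prime] : (2 : Kbar) ∈ LocInt p := by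
  have h := natCast_mem (LocInt p) 2
  exact_mod_cast h

private theorem solve_mem (p : ℕ) [Fact p.Prime] (k a b g r : Kbar) (hk : k ≠ 0) (ha0 : a ≠ 0)
    (hb0 : b ≠ 0) (hki : k⁻¹ ∈ LocInt p) (ha : a⁻¹ ∈ LocInt p) (hb : b⁻¹ ∈ LocInt p)
    (hr : r ∈ LocInt p) (h : k * a * b * g = r) : g ∈ LocInt p := by
  have e : g = k⁻¹ * a⁻¹ * b⁻¹ * r := by
    rw [← h]
    field_simp
  rw [e]
  exact (LocInt p).mul_mem ((LocInt p).mul_mem ((LocInt p).mul_mem hki ha) hb) hr

private theorem init_mem (p : ℕ) [Fact p.Prime] (c : Kbar) (i : Fin 2) :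
    coeff 0 (gs c i) ∈ LocInt p ∧ coeff 1 (gs c i) ∈ LocInt p := by
  obtain ⟨i1, i2, i3, i4⟩ := gs_init c
  have h0 : (0 : Kbar) ∈ LocInt p := (LocInt p).zero_mem
  have h1 : (1 : Kbar) ∈ LocInt p := (LocInt p).one_mem
  fin_cases i
  · exact ⟨by simpa using (i1.symm ▸ h1 : coeff 0 (gs c 0) ∈ LocInt p),
      by simpa using (i2.symm ▸ h0 : coeff 1 (gs c 0) ∈ LocInt p)⟩
  · exact ⟨by simpa using (i3.symm ▸ h0 : coeff 0 (gs c 1) ∈ LocInt p),
      by simpa using (i4.symm ▸ h1 : coeff 1 (gs c 1) ∈ LocInt p)⟩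

private theorem rhs_mem (p : ℕ) [Fact p.Prime] (c : Kbar) (hc : c ∈ LocInt p) (h5 : 5 ≤ p) (n : ℕ)
    (x y : Kbar) (hx : x ∈ LocInt p) (hy : y ∈ LocInt p) :
    ((n : Kbar) + 1 / 2) ^ 2 * x - (1 - 2 * c) * ((n : Kbar) + 1) ^ 2 * y ∈ LocInt p := by
  have hn : (n : Kbar) ∈ LocInt p := natCast_mem _ _
  have h1 : (1 : Kbar) ∈ LocInt p := (LocInt p).one_mem
  have hh := half_mem p h5
  have h2 := two_mem p
  exact (LocInt p).sub_mem ((LocInt p).mul_mem ((LocInt p).pow_mem ((LocInt p).add_mem hn hh) 2) hx)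
    ((LocInt p).mul_mem ((LocInt p).mul_mem ((LocInt p).sub_mem h1 ((LocInt p).mul_mem h2 hc))
      ((LocInt p).pow_mem ((LocInt p).add_mem hn h1) 2)) hy)

private theorem ne_dvd (p n : ℕ) (h0 : 0 < n) (h1 : n < p) : ¬ p ∣ n :=
  fun h => absurd (Nat.le_of_dvd h0 h) (by omega)

private theorem ne_dvd2 (p n : ℕ) (h0 : p < n) (h1 : n < 2 * p) : ¬ p ∣ n := by
  rintro ⟨k, hk⟩
  have h2 : 1 < k := by
    by_contra h
    have : k ≤ 1 := by omega
    have : p * k ≤ p * 1 := Nat.mul_le_mul_left p this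
    omega
  have h3 : p * 2 ≤ p * k := Nat.mul_le_mul_left p h2
  omega

theorem gs_mem (p : ℕ) [Fact p.Prime] (c : Kbar) (hc : c ∈ LocInt p) (hci : (c * (1 - c))⁻¹ ∈ LocInt p)
    (hc0 : c ≠ 0) (hc1 : c ≠ 1) (h5 : 5 ≤ p) (i : Fin 2) (n : ℕ) (hn : n < p) :
    coeff n (gs c i) ∈ LocInt p := by
  have h3 : 1 - c ≠ 0 := sub_ne_zero.2 (Ne.symm hc1)
  have hk : c * (1 - c) ≠ 0 := mul_ne_zero hc0 h3
  induction n using Nat.strong_induction_on with
  | _ n ih =>
    match n, ih, hn with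
    | 0, _, _ => exact (init_mem p c i).1
    | 1, _, _ => exact (init_mem p c i).2
    | n + 2, ih, hn =>
      have g0 := ih n (by omega) (by omega)
      have g1 := ih (n + 1) (by omega) (by omega)
      have hr := gs_rec c hc0 hc1 i n
      have a0 : (n : Kbar) + 2 ≠ 0 := by exact_mod_cast Nat.succ_ne_zero (n + 1)
      have b0 : (n : Kbar) + 1 ≠ 0 := by exact_mod_cast Nat.succ_ne_zero n
      have ai : ((n : Kbar) + 2)⁻¹ ∈ LocInt p := by
        have := inv_nat_mem p (n + 2) (ne_dvd p (n + 2) (by omega) hn)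
        exact_mod_cast this
      have bi : ((n : Kbar) + 1)⁻¹ ∈ LocInt p := by
        have := inv_nat_mem p (n + 1) (ne_dvd p (n + 1) (by omega) (by omega))
        exact_mod_cast this
      exact solve_mem p _ _ _ _ _ hk a0 b0 hci ai bi (rhs_mem p c hc h5 n _ _ g0 g1) hr

theorem gs_mem2 (p : ℕ) [Fact p.Prime] (c : Kbar) (hc : c ∈ LocInt p) (hci : (c * (1 - c))⁻¹ ∈ LocInt p)
    (hc0 : c ≠ 0) (hc1 : c ≠ 1) (h5 : 5 ≤ p) (i : Fin 2) (n : ℕ) (hn : n < 2 * p) :
    (p : Kbar) * coeff n (gs c i) ∈ LocInt p := by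
  have h3 : 1 - c ≠ 0 := sub_ne_zero.2 (Ne.symm hc1)
  have hk : c * (1 - c) ≠ 0 := mul_ne_zero hc0 h3
  have hpm : (p : Kbar) ∈ LocInt p := natCast_mem _ _
  have h1m : (1 : Kbar) ∈ LocInt p := (LocInt p).one_mem
  induction n using Nat.strong_induction_on with
  | _ n ih =>
    by_cases hnp : n < p
    · exact (LocInt p).mul_mem hpm (gs_mem p c hc hci hc0 hc1 h5 i n hnp)
    match n, ih, hn, hnp with
    | 0, _, _, hnp => omega
    | 1, _, _, hnp => omega
    | n + 2, ih, hn, hnp =>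
      have g0 := ih n (by omega) (by omega)
      have g1 := ih (n + 1) (by omega) (by omega)
      have hr := gs_rec c hc0 hc1 i n
      have a0 : (n : Kbar) + 2 ≠ 0 := by exact_mod_cast Nat.succ_ne_zero (n + 1)
      have b0 : (n : Kbar) + 1 ≠ 0 := by exact_mod_cast Nat.succ_ne_zero n
      rcases Nat.lt_or_ge (n + 2) (p + 1) with hA | hA
      · -- n + 2 = p
        have e : p = n + 2 := by omega
        have bi : ((n : Kbar) + 1)⁻¹ ∈ LocInt p := by
          have := inv_nat_mem p (n + 1) (ne_dvd p (n + 1) (by omega) (by omega))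
          exact_mod_cast this
        have ep : (p : Kbar) = (n : Kbar) + 2 := by
          have : (p : Kbar) = ((n + 2 : ℕ) : Kbar) := congrArg _ e
          rw [this]; push_cast; ring
        have k0 := gs_mem p c hc hci hc0 hc1 h5 i n (by omega)
        have k1 := gs_mem p c hc hci hc0 hc1 h5 i (n + 1) (by omega)
        refine solve_mem p (c * (1 - c)) 1 ((n : Kbar) + 1) _ _ hk one_ne_zero b0 hci
          (by rw [inv_one]; exact h1m) bi (rhs_mem p c hc h5 n _ _ k0 k1) ?_
        rw [← hr, ep]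
        ring
      · rcases Nat.lt_or_ge (n + 2) (p + 2) with hB | hB
        · -- n + 1 = p
          have e : p = n + 1 := by omega
          have ai : ((n : Kbar) + 2)⁻¹ ∈ LocInt p := by
            have := inv_nat_mem p (n + 2) (ne_dvd2 p (n + 2) (by omega) hn)
            exact_mod_cast this
          have ep : (p : Kbar) = (n : Kbar) + 1 := by
            have : (p : Kbar) = ((n + 1 : ℕ) : Kbar) := congrArg _ e
            rw [this]; push_cast; ring
          have k0 := gs_mem p c hc hci hc0 hc1 h5 i n (by omega)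
          have hn' : (n : Kbar) ∈ LocInt p := natCast_mem _ _
          have hh := half_mem p h5
          have h2 := two_mem p
          have hm : ((n : Kbar) + 1 / 2) ^ 2 * coeff n (gs c i) -
              (1 - 2 * c) * ((n : Kbar) + 1) * ((p : Kbar) * coeff (n + 1) (gs c i)) ∈ LocInt p :=
            (LocInt p).sub_mem ((LocInt p).mul_mem ((LocInt p).pow_mem ((LocInt p).add_mem hn' hh) 2) k0)
              ((LocInt p).mul_mem ((LocInt p).mul_mem ((LocInt p).sub_mem h1m ((LocInt p).mul_mem h2 hc))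
                ((LocInt p).add_mem hn' h1m)) g1)
          refine solve_mem p (c * (1 - c)) ((n : Kbar) + 2) 1 _ _ hk a0 one_ne_zero hci ai
            (by rw [inv_one]; exact h1m) hm ?_
          rw [ep]
          linear_combination hr
        · -- p ≤ n
          have ai : ((n : Kbar) + 2)⁻¹ ∈ LocInt p := by
            have := inv_nat_mem p (n + 2) (ne_dvd2 p (n + 2) (by omega) hn)
            exact_mod_cast this
          have bi : ((n : Kbar) + 1)⁻¹ ∈ LocInt p := by
            have := inv_nat_mem p (n + 1) (ne_dvd2 p (n + 1) (by omega) (by omega))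
            exact_mod_cast this
          refine solve_mem p _ _ _ _ _ hk a0 b0 hci ai bi (rhs_mem p c hc h5 n _ _ g0 g1) ?_
          linear_combination (p : Kbar) * hr

theorem gs_cmp (p : ℕ) [Fact p.Prime] (c : Kbar) (hc : c ∈ LocInt p) (hci : (c * (1 - c))⁻¹ ∈ LocInt p)
    (hc0 : c ≠ 0) (hc1 : c ≠ 1) (h5 : 5 ≤ p) (i : Fin 2) (m : ℕ) (hm : m < p) :
    ∃ z ∈ LocInt p, (p : Kbar) * coeff (p + m) (gs c i) =
      Np c p i 0 * coeff m (gs c 0) + Np c p i 1 * coeff m (gs c 1) + (p : Kbar) * z := by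
  have h3 : 1 - c ≠ 0 := sub_ne_zero.2 (Ne.symm hc1)
  have hk : c * (1 - c) ≠ 0 := mul_ne_zero hc0 h3
  have hpm : (p : Kbar) ∈ LocInt p := natCast_mem _ _
  have h1m : (1 : Kbar) ∈ LocInt p := (LocInt p).one_mem
  have h2m := two_mem p
  have hhm := half_mem p h5
  have h3m : (3 : Kbar) ∈ LocInt p := by
    have h := natCast_mem (LocInt p) 3
    exact_mod_cast h
  obtain ⟨i1, i2, i3, i4⟩ := gs_init c
  induction m using Nat.strong_induction_on with
  | _ m ih =>
    match m, ih, hm with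
    | 0, _, _ =>
      refine ⟨0, (LocInt p).zero_mem, ?_⟩
      rw [i1, i3]
      unfold Np
      simp
    | 1, _, _ =>
      refine ⟨0, (LocInt p).zero_mem, ?_⟩
      rw [i2, i4]
      unfold Np
      simp
    | m + 2, ih, hm =>
      obtain ⟨z0, hz0, e0⟩ := ih m (by omega) (by omega)
      obtain ⟨z1, hz1, e1⟩ := ih (m + 1) (by omega) (by omega)
      have hr := gs_rec c hc0 hc1 i (p + m)
      have r0 := gs_rec c hc0 hc1 0 m
      have r1 := gs_rec c hc0 hc1 1 m
      have G0 := gs_mem2 p c hc hci hc0 hc1 h5 i (p + m) (by omega)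
      have G1 := gs_mem2 p c hc hci hc0 hc1 h5 i (p + (m + 1)) (by omega)
      have G2 := gs_mem2 p c hc hci hc0 hc1 h5 i (p + (m + 2)) (by omega)
      have hmm : (m : Kbar) ∈ LocInt p := natCast_mem _ _
      have a0 : (m : Kbar) + 2 ≠ 0 := by exact_mod_cast Nat.succ_ne_zero (m + 1)
      have b0 : (m : Kbar) + 1 ≠ 0 := by exact_mod_cast Nat.succ_ne_zero m
      have ai : ((m : Kbar) + 2)⁻¹ ∈ LocInt p := by
        have := inv_nat_mem p (m + 2) (ne_dvd p (m + 2) (by omega) hm)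
        exact_mod_cast this
      have bi : ((m : Kbar) + 1)⁻¹ ∈ LocInt p := by
        have := inv_nat_mem p (m + 1) (ne_dvd p (m + 1) (by omega) (by omega))
        exact_mod_cast this
      rw [show p + m + 2 = p + (m + 2) from rfl, show p + m + 1 = p + (m + 1) from rfl] at hr
      push_cast at hr
      set A0 := coeff m (gs c 0)
      set A1 := coeff (m + 1) (gs c 0)
      set A2 := coeff (m + 2) (gs c 0)
      set B0 := coeff m (gs c 1)
      set B1 := coeff (m + 1) (gs c 1)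
      set B2 := coeff (m + 2) (gs c 1)
      set g0 := coeff (p + m) (gs c i)
      set g1 := coeff (p + (m + 1)) (gs c i)
      set g2 := coeff (p + (m + 2)) (gs c i)
      set N0 := Np c p i 0
      set N1 := Np c p i 1
      set P : Kbar := (p : Kbar)
      set M : Kbar := (m : Kbar)
      set R : Kbar := (M + 1 / 2) ^ 2 * z0 - (1 - 2 * c) * (M + 1) ^ 2 * z1 +
        ((P + 2 * M + 1) * (P * g0) - (1 - 2 * c) * (P + 2 * M + 2) * (P * g1) -
          c * (1 - c) * (P + 2 * M + 3) * (P * g2)) with hR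
      have hRm : R ∈ LocInt p := by
        have q1 : M + 1 / 2 ∈ LocInt p := (LocInt p).add_mem hmm hhm
        have q2 : 1 - 2 * c ∈ LocInt p := (LocInt p).sub_mem h1m ((LocInt p).mul_mem h2m hc)
        have q3 : M + 1 ∈ LocInt p := (LocInt p).add_mem hmm h1m
        have q4 : P + 2 * M ∈ LocInt p := (LocInt p).add_mem hpm ((LocInt p).mul_mem h2m hmm)
        have q5 : P + 2 * M + 1 ∈ LocInt p := (LocInt p).add_mem q4 h1m
        have q6 : P + 2 * M + 2 ∈ LocInt p := (LocInt p).add_mem q4 h2m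
        have q7 : P + 2 * M + 3 ∈ LocInt p := (LocInt p).add_mem q4 h3m
        have q8 : 1 - c ∈ LocInt p := (LocInt p).sub_mem h1m hc
        rw [hR]
        refine (LocInt p).add_mem ((LocInt p).sub_mem ((LocInt p).mul_mem ((LocInt p).pow_mem q1 2) hz0)
          ((LocInt p).mul_mem ((LocInt p).mul_mem q2 ((LocInt p).pow_mem q3 2)) hz1)) ?_
        refine (LocInt p).sub_mem ((LocInt p).sub_mem ((LocInt p).mul_mem q5 G0)
          ((LocInt p).mul_mem ((LocInt p).mul_mem q2 q6) G1)) ?_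
        exact (LocInt p).mul_mem ((LocInt p).mul_mem ((LocInt p).mul_mem hc q8) q7) G2
      refine ⟨(c * (1 - c))⁻¹ * (M + 2)⁻¹ * (M + 1)⁻¹ * R,
        (LocInt p).mul_mem ((LocInt p).mul_mem ((LocInt p).mul_mem hci ai) bi) hRm, ?_⟩
      have hK : c * (1 - c) * (M + 2) * (M + 1) ≠ 0 := mul_ne_zero (mul_ne_zero hk a0) b0
      apply mul_left_cancel₀ hK
      have hz : c * (1 - c) * (M + 2) * (M + 1) * ((c * (1 - c))⁻¹ * (M + 2)⁻¹ * (M + 1)⁻¹ * R) = R := by
        field_simp
      have hgoal : c * (1 - c) * (M + 2) * (M + 1) * (P * g2) =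
          c * (1 - c) * (M + 2) * (M + 1) * (N0 * A2 + N1 * B2) + P * R := by
        rw [hR]
        linear_combination P * hr - N0 * r0 - N1 * r1 + (M + 1 / 2) ^ 2 * e0 -
          (1 - 2 * c) * (M + 1) ^ 2 * e1
      rw [hgoal]
      generalize (c * (1 - c))⁻¹ * (M + 2)⁻¹ * (M + 1)⁻¹ * R = w at hz
      linear_combination (-P) * hz

end Pool.Agent.H64.LG
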