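import Pool.Agent.H64.LG.HasA
import Pool.Agent.H64.LG.Int

/-!
# LG.HasB : the Hasse polynomial in terms of the solutions

PROOF. `gs_red`: reduce `gs_rec` (all coefficients of index `< p` are in `LocInt p`, `gs_mem`). `H` from `hasA`; both `H_n` and `al * ḡ_{0,n} + be * ḡ_{1,n}` satisfy the recursion with the same initial values (`gs_init`), and `c̄ (1 - c̄)(n + 2)(n + 1) ≠ 0` for `n + 2 < p`, so they agree for
`n < p`. For `n > (p - 1)/2`, `H_n = 0` (degree): `has`. If `al = be = 0` then `H_n = 0` for `n < p`, so `H = 0`: `al_be`.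
-/

set_option autoImplicit false

namespace Pool.Agent.H64.LG

open Pool.H61.QF PowerSeries

private theorem half_mem (p : ℕ) [Fact p.Prime] (h5 : 5 ≤ p) : (1 / 2 : Kbar) ∈ LocInt p := by
  refine ⟨2, fun h => ?_, ?_⟩
  · have := Nat.le_of_dvd (by norm_num) h
    omega
  · have e : ((2 : ℕ) : Kbar) * (1 / 2) = 1 := by
      push_cast
      norm_num
    rw [e]
    exact isIntegral_one

private theorem cast_ne (v : Place) (n : ℕ) (h0 : 0 < n) (hn : n < v.p) : (n : v.k) ≠ 0 := by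
  intro h
  rw [CharP.cast_eq_zero_iff v.k v.p n] at h
  have := Nat.le_of_dvd h0 h
  omega

private theorem red_half (v : Place) (h5 : 5 ≤ v.p) : v.φ ⟨1 / 2, half_mem v.p h5⟩ = 1 / 2 := by
  have h2 : ((2 : ℕ) : v.k) ≠ 0 := cast_ne v 2 (by norm_num) (by omega)
  push_cast at h2
  rw [eq_div_iff h2]
  have e : (⟨1 / 2, half_mem v.p h5⟩ : LocInt v.p) * 2 = 1 := by
    apply Subtype.ext
    show (1 / 2 : Kbar) * 2 = 1
    norm_num
  have h := congrArg v.φ e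
  rwa [map_mul, map_ofNat, map_one] at h

theorem gs_red (v : Place) (c : Kbar) (hc : c ∈ LocInt v.p) (hci : (c * (1 - c))⁻¹ ∈ LocInt v.p)
    (hc0 : c ≠ 0) (hc1 : c ≠ 1) (h5 : 5 ≤ v.p) (i : Fin 2) (n : ℕ) (hn : n + 2 < v.p) :
    v.red c * (1 - v.red c) * ((n : v.k) + 2) * ((n : v.k) + 1) * v.red (coeff (n + 2) (gs c i)) =
      ((n : v.k) + 1 / 2) ^ 2 * v.red (coeff n (gs c i)) -
        (1 - 2 * v.red c) * ((n : v.k) + 1) ^ 2 * v.red (coeff (n + 1) (gs c i)) := by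
  have m0 := gs_mem v.p c hc hci hc0 hc1 h5 i n (by omega)
  have m1 := gs_mem v.p c hc hci hc0 hc1 h5 i (n + 1) (by omega)
  have m2 := gs_mem v.p c hc hci hc0 hc1 h5 i (n + 2) hn
  have e0 : v.red (coeff n (gs c i)) = v.φ ⟨_, m0⟩ := rho_eq v.φ m0
  have e1 : v.red (coeff (n + 1) (gs c i)) = v.φ ⟨_, m1⟩ := rho_eq v.φ m1
  have e2 : v.red (coeff (n + 2) (gs c i)) = v.φ ⟨_, m2⟩ := rho_eq v.φ m2
  have ec : v.red c = v.φ ⟨c, hc⟩ := rho_eq v.φ hc
  rw [e0, e1, e2, ec, ← red_half v h5]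
  have h : (⟨c, hc⟩ : LocInt v.p) * (1 - ⟨c, hc⟩) * ((n : LocInt v.p) + 2) * ((n : LocInt v.p) + 1) * ⟨_, m2⟩ =
      ((n : LocInt v.p) + ⟨1 / 2, half_mem v.p h5⟩) ^ 2 * ⟨_, m0⟩ -
        (1 - 2 * ⟨c, hc⟩) * ((n : LocInt v.p) + 1) ^ 2 * ⟨_, m1⟩ := by
    apply Subtype.ext
    have := gs_rec c hc0 hc1 i n
    have f2 : ((2 : LocInt v.p) : Kbar) = 2 := rfl
    simpa [f2] using this
  have h2 := congrArg v.φ h
  have f2 : v.φ 2 = 2 := map_ofNat v.φ 2
  simpa [f2] using h2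

theorem red_c (v : Place) (c : Kbar) (hc : c ∈ LocInt v.p) (hci : (c * (1 - c))⁻¹ ∈ LocInt v.p)
    (hc0 : c ≠ 0) (hc1 : c ≠ 1) : v.red c ≠ 0 ∧ 1 - v.red c ≠ 0 := by
  have h1c : 1 - c ∈ LocInt v.p := (LocInt v.p).sub_mem (LocInt v.p).one_mem hc
  have hc1' : 1 - c ≠ 0 := sub_ne_zero.2 (Ne.symm hc1)
  constructor
  · refine rho_ne_zero v.φ hc ?_ hc0
    have e : c⁻¹ = (1 - c) * (c * (1 - c))⁻¹ := by
      field_simp
    rw [e]
    exact (LocInt v.p).mul_mem h1c hci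
  · have h : v.red (1 - c) ≠ 0 := by
      refine rho_ne_zero v.φ h1c ?_ hc1'
      have e : (1 - c)⁻¹ = c * (c * (1 - c))⁻¹ := by
        field_simp
      rw [e]
      exact (LocInt v.p).mul_mem hc hci
    have e : v.red (1 - c) = 1 - v.red c := by
      show rho v.φ (1 - c) = 1 - rho v.φ c
      rw [rho_sub v.φ (LocInt v.p).one_mem hc, rho_one]
    rwa [e] at h

private theorem has_key (v : Place) (c : Kbar) (hc : c ∈ LocInt v.p) (hci : (c * (1 - c))⁻¹ ∈ LocInt v.p)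
    (hc0 : c ≠ 0) (hc1 : c ≠ 1) (h5 : 5 ≤ v.p) (H : Polynomial v.k) (h0 : H.coeff 0 = al v c)
    (h1 : H.coeff 1 = be v c) (hr : ∀ n : ℕ,
      v.red c * (1 - v.red c) * ((n : v.k) + 2) * ((n : v.k) + 1) * H.coeff (n + 2) =
        ((n : v.k) + 1 / 2) ^ 2 * H.coeff n - (1 - 2 * v.red c) * ((n : v.k) + 1) ^ 2 * H.coeff (n + 1))
    (n : ℕ) (hn : n + 1 < v.p) :
    H.coeff n = al v c * v.red (coeff n (gs c 0)) + be v c * v.red (coeff n (gs c 1)) ∧
      H.coeff (n + 1) = al v c * v.red (coeff (n + 1) (gs c 0)) + be v c * v.red (coeff (n + 1) (gs c 1)) := by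
  obtain ⟨i1, i2, i3, i4⟩ := gs_init c
  have r0 : v.red (0 : Kbar) = 0 := rho_zero v.φ
  have r1 : v.red (1 : Kbar) = 1 := rho_one v.φ
  induction n with
  | zero =>
    rw [zero_add, i1, i2, i3, i4, r0, r1, h0, h1]
    constructor <;> ring
  | succ n ih =>
    have ih' := ih (by omega)
    refine ⟨ih'.2, ?_⟩
    obtain ⟨c1, c2⟩ := red_c v c hc hci hc0 hc1
    have a1 : ((n : v.k) + 2) ≠ 0 := by
      have := cast_ne v (n + 2) (by omega) (by omega)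
      push_cast at this
      exact this
    have a2 : ((n : v.k) + 1) ≠ 0 := by
      have := cast_ne v (n + 1) (by omega) (by omega)
      push_cast at this
      exact this
    have h4 : v.red c * (1 - v.red c) * ((n : v.k) + 2) * ((n : v.k) + 1) ≠ 0 :=
      mul_ne_zero (mul_ne_zero (mul_ne_zero c1 c2) a1) a2
    apply mul_left_cancel₀ h4
    have b0 := gs_red v c hc hci hc0 hc1 h5 0 n (by omega)
    have b1 := gs_red v c hc hci hc0 hc1 h5 1 n (by omega)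
    rw [show n + 1 + 1 = n + 2 from rfl, hr n, ih'.1, ih'.2]
    linear_combination (-(al v c)) * b0 - (be v c) * b1

private theorem has_all (v : Place) (c : Kbar) (hc : c ∈ LocInt v.p) (hci : (c * (1 - c))⁻¹ ∈ LocInt v.p)
    (hc0 : c ≠ 0) (hc1 : c ≠ 1) (h5 : 5 ≤ v.p) (H : Polynomial v.k) (h0 : H.coeff 0 = al v c)
    (h1 : H.coeff 1 = be v c) (hr : ∀ n : ℕ,
      v.red c * (1 - v.red c) * ((n : v.k) + 2) * ((n : v.k) + 1) * H.coeff (n + 2) =
        ((n : v.k) + 1 / 2) ^ 2 * H.coeff n - (1 - 2 * v.red c) * ((n : v.k) + 1) ^ 2 * H.coeff (n + 1))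
    (n : ℕ) (hn : n < v.p) :
    H.coeff n = al v c * v.red (coeff n (gs c 0)) + be v c * v.red (coeff n (gs c 1)) := by
  rcases n with _ | n
  · exact (has_key v c hc hci hc0 hc1 h5 H h0 h1 hr 0 (by omega)).1
  · exact (has_key v c hc hci hc0 hc1 h5 H h0 h1 hr n hn).2

theorem has (v : Place) (c : Kbar) (hc : c ∈ LocInt v.p) (hci : (c * (1 - c))⁻¹ ∈ LocInt v.p)
    (hc0 : c ≠ 0) (hc1 : c ≠ 1) (h5 : 5 ≤ v.p) (n : ℕ) (hn : (v.p - 1) / 2 < n) (hn2 : n < v.p) :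
    al v c * v.red (coeff n (gs c 0)) + be v c * v.red (coeff n (gs c 1)) = 0 := by
  obtain ⟨H, hd, h0, h1, -, hr⟩ := hasA v c hc h5
  rw [← has_all v c hc hci hc0 hc1 h5 H h0 h1 hr n hn2]
  exact Polynomial.coeff_eq_zero_of_natDegree_lt (lt_of_le_of_lt hd hn)

theorem al_be (v : Place) (c : Kbar) (hc : c ∈ LocInt v.p) (hci : (c * (1 - c))⁻¹ ∈ LocInt v.p)
    (hc0 : c ≠ 0) (hc1 : c ≠ 1) (h5 : 5 ≤ v.p) : al v c ≠ 0 ∨ be v c ≠ 0 := by
  obtain ⟨H, hd, h0, h1, hH, hr⟩ := hasA v c hc h5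
  by_contra hcon
  push Not at hcon
  apply hH
  ext n
  rw [Polynomial.coeff_zero]
  rcases lt_or_ge n v.p with hn | hn
  · rw [has_all v c hc hci hc0 hc1 h5 H h0 h1 hr n hn, hcon.1, hcon.2]
    ring
  · refine Polynomial.coeff_eq_zero_of_natDegree_lt (lt_of_le_of_lt hd ?_)
    omega

end Pool.Agent.H64.LG
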