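import Pool.Agent.H64.LG.AnD

/-!
# LG.Inv : the local inverse `S = sn`

PROOF. `U = Fan c 1 0` has derivative `wf c (x²)` near `0`, `U 0 = 0`, `U' (0) = 1`. The complex inverse function theorem: `HasStrictDerivAt.localInverse` (`U` is analytic at `0`, hence strictly differentiable; `and2` with `A = 1`, `B = 0` on a ball gives
analyticity by `DifferentiableOn.analyticAt`). `S` = local inverse: `U (S u) = u` near `0`, `S 0 = 0`, continuous at `0`; `S (U x) = x` near `0`. For `u` near `0`, `S` has derivative `(U' (S u))⁻¹ = (wf c (S u ^ 2))⁻¹` at `u` (`HasDerivAt.of_local_left_inverse` or apply the theorem at all near points; `U' ≠ 0`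
near `0`, `wf² (..) = 1`).
-/

set_option autoImplicit false

namespace Pool.Agent.H64.LG

open Filter Topology Metric

theorem inv (c : ℂ) : ∃ S : ℂ → ℂ, S 0 = 0 ∧ (∀ᶠ u in 𝓝 (0 : ℂ), HasDerivAt S (wf c (S u ^ 2))⁻¹ u) ∧
    (∀ᶠ u in 𝓝 (0 : ℂ), Fan c 1 0 (S u) = u) ∧ ∀ᶠ x in 𝓝 (0 : ℂ), S (Fan c 1 0 x) = x := by
  obtain ⟨r1, hr1, hr11, -, hw, hw0⟩ := and1 c
  obtain ⟨r2, hr2, hr21, hU, hU0⟩ := and2 c 1 0
  have hU' : ∀ x ∈ ball (0 : ℂ) r2, HasDerivAt (Fan c 1 0) (wf c (x ^ 2)) x := by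
    intro x hx
    have h := hU x hx
    have e : (1 + 0 * x ^ 2) * wf c (x ^ 2) = wf c (x ^ 2) := by ring
    rwa [e] at h
  have hdiff : DifferentiableOn ℂ (Fan c 1 0) (ball (0 : ℂ) r2) := fun x hx =>
    (hU' x hx).differentiableAt.differentiableWithinAt
  have han : AnalyticAt ℂ (Fan c 1 0) 0 := hdiff.analyticAt (ball_mem_nhds _ hr2)
  have hcd : ContDiffAt ℂ 1 (Fan c 1 0) 0 := han.contDiffAt
  have hd0 : HasDerivAt (Fan c 1 0) 1 0 := by
    have h := hU' 0 (mem_ball_self hr2)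
    have e : wf c ((0 : ℂ) ^ 2) = 1 := by
      rw [show (0 : ℂ) ^ 2 = 0 by ring]
      exact hw0
    rwa [e] at h
  have hs : HasStrictDerivAt (Fan c 1 0) 1 0 := hcd.hasStrictDerivAt' hd0 one_ne_zero
  have hsf := hs.hasStrictFDerivAt_equiv one_ne_zero
  let R : OpenPartialHomeomorph ℂ ℂ := hsf.toOpenPartialHomeomorph (Fan c 1 0)
  have hR : ∀ x, R x = Fan c 1 0 x := fun x => rfl
  have h0s : (0 : ℂ) ∈ R.source := hsf.mem_toOpenPartialHomeomorph_source
  have h0t : (0 : ℂ) ∈ R.target := by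
    have h := R.map_source h0s
    rw [hR, hU0] at h
    exact h
  have hS0 : R.symm 0 = 0 := by
    have h := R.left_inv h0s
    rw [hR, hU0] at h
    exact h
  have hright : ∀ᶠ u in 𝓝 (0 : ℂ), Fan c 1 0 (R.symm u) = u := by
    filter_upwards [R.open_target.mem_nhds h0t] with u hu
    exact R.right_inv hu
  have hleft : ∀ᶠ x in 𝓝 (0 : ℂ), R.symm (Fan c 1 0 x) = x := by
    filter_upwards [R.open_source.mem_nhds h0s] with x hx
    exact R.left_inv hx
  refine ⟨R.symm, hS0, ?_, hright, hleft⟩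
  have hcont : ContinuousAt R.symm 0 := R.symm.continuousAt h0t
  have hb : ∀ᶠ u in 𝓝 (0 : ℂ), R.symm u ∈ ball (0 : ℂ) (min r1 r2) := by
    have h : Tendsto R.symm (𝓝 0) (𝓝 0) := by
      have h1 : Tendsto R.symm (𝓝 0) (𝓝 (R.symm 0)) := hcont
      rwa [hS0] at h1
    exact h (ball_mem_nhds _ (lt_min hr1 hr2))
  filter_upwards [hb, R.open_target.mem_nhds h0t] with u hu hut
  have hu1 : R.symm u ∈ ball (0 : ℂ) r2 := ball_subset_ball (min_le_right _ _) hu
  have hu2 : R.symm u ^ 2 ∈ ball (0 : ℂ) r1 := by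
    have h1 : ‖R.symm u‖ < min r1 r2 := by
      rwa [mem_ball_zero_iff] at hu
    have h2 : ‖R.symm u‖ < r1 := h1.trans_le (min_le_left _ _)
    have h3 : ‖R.symm u‖ < 1 := h2.trans_le hr11
    rw [mem_ball_zero_iff, norm_pow]
    nlinarith [norm_nonneg (R.symm u)]
  have hne : wf c (R.symm u ^ 2) ≠ 0 := by
    intro h
    have h1 := hw _ hu2
    rw [h] at h1
    simp at h1
  exact HasDerivAt.of_local_left_inverse (R.symm.continuousAt hut) (hU' _ hu1) hne
    (by
      filter_upwards [R.open_target.mem_nhds hut] with v hv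
      exact R.right_inv hv)

end Pool.Agent.H64.LG
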