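import Pool.Agent.H64.LG.AnD
import Pool.Agent.H64.LG.AuxP

/-!
# LG.Led : the leading coefficient of the auxiliary function at `0`

PROOF. For `|x|` small (`< 1 / C` with `C` from `arc`-type bounds for `ℂ`, `σ ∘ eK = eK ∘ σ`: `eK_map`) the series `Fan x^j` has the coefficients of `F^j` (Cauchy products, absolutely convergent), so
`∑ σ(ξ i j) x^i Fan(x)^j = ∑_n σ(coeff n G) x^n` with `‖σ (coeff n G)‖ ≤ C'^(n+1)`. If the coefficients below `T` vanish, this is `x^T (σ(coeff T G) + O(x))`.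
-/

set_option autoImplicit false

namespace Pool.Agent.H64.LG

open Filter Topology PowerSeries

private def LedCv (x : ℂ) (f : PowerSeries ℂ) : Prop := Summable fun n => ‖coeff n f * x ^ n‖

private noncomputable def LedEv (x : ℂ) (f : PowerSeries ℂ) : ℂ := ∑' n, coeff n f * x ^ n

private theorem led_coeff_mul (x : ℂ) (f g : PowerSeries ℂ) (n : ℕ) :
    coeff n (f * g) * x ^ n = ∑ kl ∈ Finset.HasAntidiagonal.antidiagonal n, (coeff kl.1 f * x ^ kl.1) * (coeff kl.2 g * x ^ kl.2) := by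
  rw [coeff_mul, Finset.sum_mul]
  refine Finset.sum_congr rfl fun kl hkl => ?_
  rw [← Finset.HasAntidiagonal.mem_antidiagonal.1 hkl, pow_add]
  ring

private theorem led_cv_mul {x : ℂ} {f g : PowerSeries ℂ} (hf : LedCv x f) (hg : LedCv x g) : LedCv x (f * g) := by
  have h := summable_norm_sum_mul_antidiagonal_of_summable_norm hf hg
  unfold LedCv
  simp_rw [led_coeff_mul]
  exact h

private theorem led_ev_mul {x : ℂ} {f g : PowerSeries ℂ} (hf : LedCv x f) (hg : LedCv x g) :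
    LedEv x (f * g) = LedEv x f * LedEv x g := by
  have h := tsum_mul_tsum_eq_tsum_sum_antidiagonal_of_summable_norm hf hg
  unfold LedEv
  simp_rw [led_coeff_mul]
  exact h.symm

private theorem led_cv_single {x : ℂ} {f : PowerSeries ℂ} (m : ℕ) (h : ∀ n, n ≠ m → coeff n f = 0) : LedCv x f := by
  apply summable_of_ne_finset_zero (s := {m})
  intro n hn
  rw [h n (by simpa using hn), zero_mul, norm_zero]

private theorem led_ev_single {x : ℂ} {f : PowerSeries ℂ} (m : ℕ) (h : ∀ n, n ≠ m → coeff n f = 0) :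
    LedEv x f = coeff m f * x ^ m := by
  apply tsum_eq_single m
  intro n hn
  rw [h n hn, zero_mul]

private theorem led_C (x a : ℂ) : LedCv x (C a) ∧ LedEv x (C a) = a := by
  have h : ∀ n, n ≠ 0 → coeff n (C a) = 0 := fun n hn => by rw [coeff_C, if_neg hn]
  refine ⟨led_cv_single 0 h, ?_⟩
  rw [led_ev_single 0 h, coeff_C, if_pos rfl, pow_zero, mul_one]

private theorem led_X (x : ℂ) : LedCv x X ∧ LedEv x X = x := by
  have h : ∀ n, n ≠ 1 → coeff n (X : PowerSeries ℂ) = 0 := fun n hn => by rw [coeff_X, if_neg hn]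
  refine ⟨led_cv_single 1 h, ?_⟩
  rw [led_ev_single 1 h, coeff_X, if_pos rfl, pow_one, one_mul]

private theorem led_pow {x : ℂ} {f : PowerSeries ℂ} (hf : LedCv x f) (j : ℕ) :
    LedCv x (f ^ j) ∧ LedEv x (f ^ j) = LedEv x f ^ j := by
  induction j with
  | zero =>
    have h := led_C x 1
    rw [map_one] at h
    rw [pow_zero, pow_zero]
    exact h
  | succ j ih =>
    rw [pow_succ, pow_succ, ← ih.2]
    exact ⟨led_cv_mul ih.1 hf, led_ev_mul ih.1 hf⟩

private theorem led_sum {x : ℂ} {ι : Type} (s : Finset ι) (f : ι → PowerSeries ℂ) (hf : ∀ i ∈ s, LedCv x (f i)) :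
    LedCv x (∑ i ∈ s, f i) ∧ LedEv x (∑ i ∈ s, f i) = ∑ i ∈ s, LedEv x (f i) := by
  classical
  induction s using Finset.induction_on with
  | empty =>
    have h : ∀ n, n ≠ 0 → coeff n (0 : PowerSeries ℂ) = 0 := fun n _ => map_zero _
    rw [Finset.sum_empty, Finset.sum_empty]
    refine ⟨led_cv_single 0 h, ?_⟩
    rw [led_ev_single 0 h, map_zero, zero_mul]
  | insert a s ha ih =>
    obtain ⟨h1, h2⟩ := ih fun i hi => hf i (Finset.mem_insert_of_mem hi)
    have h3 := hf a (Finset.mem_insert_self a s)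
    rw [Finset.sum_insert ha, Finset.sum_insert ha, ← h2]
    constructor
    · unfold LedCv at h1 h3 ⊢
      refine Summable.of_nonneg_of_le (fun n => norm_nonneg _) (fun n => ?_) (h3.add h1)
      rw [map_add, add_mul]
      exact norm_add_le _ _
    · unfold LedEv
      simp_rw [map_add, add_mul]
      exact Summable.tsum_add h3.of_norm h1.of_norm

private theorem led_map (K : Type) [Field K] (c A B : K) (σ : K →+* ℂ) (L M : ℕ) (ξ : Fin L → Fin M → K) :
    PowerSeries.map σ (Gs c A B L M ξ) = ∑ i : Fin L, ∑ j : Fin M,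
      C (σ (ξ i j)) * ((X : PowerSeries ℂ) ^ (i : ℕ) * PowerSeries.mk (eK (σ c) (σ A) (σ B)) ^ (j : ℕ)) := by
  have h1 : PowerSeries.map σ (FK c A B) = PowerSeries.mk (eK (σ c) (σ A) (σ B)) := by
    ext n
    rw [coeff_map, FK, coeff_mk, coeff_mk, eK_map]
  unfold Gs
  rw [map_sum]
  refine Finset.sum_congr rfl fun i _ => ?_
  rw [map_sum]
  refine Finset.sum_congr rfl fun j _ => ?_
  rw [map_mul, map_mul, map_pow, map_pow, h1, map_C, map_X]

theorem lead (K : Type) [Field K] [NumberField K] (c A B : K) (σ : K →+* ℂ) (L M : ℕ)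
    (ξ : Fin L → Fin M → K) (T : ℕ) (hT : ∀ n, n < T → coeff n (Gs c A B L M ξ) = 0) :
    Tendsto (fun x : ℂ => (∑ i : Fin L, ∑ j : Fin M,
      σ (ξ i j) * (x ^ (i : ℕ) * Fan (σ c) (σ A) (σ B) x ^ (j : ℕ))) / x ^ T) (𝓝[≠] 0)
      (𝓝 (σ (coeff T (Gs c A B L M ξ)))) := by
  obtain ⟨C0, hC0, hb⟩ := arcc (σ c) (σ A) (σ B)
  have hC1 : 0 < C0 := by linarith
  set r : ℝ := 1 / (2 * C0) with hr
  have hr0 : 0 < r := by positivity
  have hrC : C0 * r = 1 / 2 := by
    rw [hr]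
    field_simp
  -- convergence in the disc of radius r
  have hcvF : ∀ x : ℂ, ‖x‖ ≤ r → LedCv x (PowerSeries.mk (eK (σ c) (σ A) (σ B))) := by
    intro x hx
    unfold LedCv
    refine Summable.of_nonneg_of_le (fun n => norm_nonneg _) (fun n => ?_)
      (summable_geometric_of_lt_one (r := (1 / 2 : ℝ)) (by norm_num) (by norm_num))
    rw [coeff_mk, norm_mul, norm_pow, ← hrC, mul_pow]
    exact mul_le_mul (hb n) (pow_le_pow_left₀ (norm_nonneg _) hx n) (by positivity) (by positivity)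
  set P := PowerSeries.map σ (Gs c A B L M ξ) with hP
  have hterm : ∀ x : ℂ, ‖x‖ ≤ r → ∀ (i : Fin L) (j : Fin M),
      LedCv x (C (σ (ξ i j)) * ((X : PowerSeries ℂ) ^ (i : ℕ) *
        PowerSeries.mk (eK (σ c) (σ A) (σ B)) ^ (j : ℕ))) ∧
      LedEv x (C (σ (ξ i j)) * ((X : PowerSeries ℂ) ^ (i : ℕ) *
        PowerSeries.mk (eK (σ c) (σ A) (σ B)) ^ (j : ℕ))) =
        σ (ξ i j) * (x ^ (i : ℕ) * Fan (σ c) (σ A) (σ B) x ^ (j : ℕ)) := by
    intro x hx i j
    have h1 := led_C x (σ (ξ i j))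
    have h2 := led_pow (led_X x).1 (i : ℕ)
    have h3 := led_pow (hcvF x hx) (j : ℕ)
    have h4 : LedEv x (PowerSeries.mk (eK (σ c) (σ A) (σ B))) = Fan (σ c) (σ A) (σ B) x := by
      unfold LedEv Fan
      simp_rw [coeff_mk]
    refine ⟨led_cv_mul h1.1 (led_cv_mul h2.1 h3.1), ?_⟩
    rw [led_ev_mul h1.1 (led_cv_mul h2.1 h3.1), led_ev_mul h2.1 h3.1, h1.2, h2.2, h3.2, (led_X x).2, h4]
  have hPx : ∀ x : ℂ, ‖x‖ ≤ r → LedCv x P ∧ LedEv x P = ∑ i : Fin L, ∑ j : Fin M,
      σ (ξ i j) * (x ^ (i : ℕ) * Fan (σ c) (σ A) (σ B) x ^ (j : ℕ)) := by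
    intro x hx
    rw [hP, led_map]
    have h1 : ∀ i : Fin L, _ := fun i => led_sum (x := x) (Finset.univ : Finset (Fin M))
      (fun j => C (σ (ξ i j)) * ((X : PowerSeries ℂ) ^ (i : ℕ) *
        PowerSeries.mk (eK (σ c) (σ A) (σ B)) ^ (j : ℕ))) fun j _ => (hterm x hx i j).1
    have h2 := led_sum (x := x) (Finset.univ : Finset (Fin L))
      (fun i => ∑ j : Fin M, C (σ (ξ i j)) * ((X : PowerSeries ℂ) ^ (i : ℕ) *
        PowerSeries.mk (eK (σ c) (σ A) (σ B)) ^ (j : ℕ))) fun i _ => (h1 i).1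
    refine ⟨h2.1, ?_⟩
    rw [h2.2]
    refine Finset.sum_congr rfl fun i _ => ?_
    rw [(h1 i).2]
    exact Finset.sum_congr rfl fun j _ => (hterm x hx i j).2
  have hP0 : ∀ n, n < T → coeff n P = 0 := by
    intro n hn
    rw [hP, coeff_map, hT n hn, map_zero]
  -- the quotient is a convergent power series
  have hsh : ∀ x : ℂ, ‖x‖ ≤ r → LedEv x P = x ^ T * ∑' m, coeff (m + T) P * x ^ m := by
    intro x hx
    have hs : Summable fun n => coeff n P * x ^ n := (hPx x hx).1.of_norm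
    unfold LedEv
    rw [← hs.sum_add_tsum_nat_add T]
    rw [Finset.sum_eq_zero fun n hn => by rw [hP0 n (Finset.mem_range.1 hn), zero_mul], zero_add, ← tsum_mul_left]
    refine tsum_congr fun m => ?_
    rw [pow_add]
    ring
  have hsr : Summable fun m => ‖coeff (m + T) P‖ * r ^ m := by
    have h1 : Summable fun n => ‖coeff n P * (r : ℂ) ^ n‖ :=
      (hPx (r : ℂ) (by rw [Complex.norm_real, Real.norm_of_nonneg hr0.le])).1
    have h2 := (summable_nat_add_iff T).2 h1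
    have h3 := h2.mul_right ((r ^ T)⁻¹)
    refine h3.congr fun m => ?_
    rw [norm_mul, norm_pow, Complex.norm_real, Real.norm_of_nonneg hr0.le, pow_add]
    field_simp
  have hcont : ContinuousOn (fun x : ℂ => ∑' m, coeff (m + T) P * x ^ m) (Metric.closedBall 0 r) := by
    refine continuousOn_tsum (u := fun m => ‖coeff (m + T) P‖ * r ^ m) (fun m => by fun_prop) hsr ?_
    intro m x hx
    rw [norm_mul, norm_pow]
    rw [mem_closedBall_zero_iff] at hx
    exact mul_le_mul_of_nonneg_left (pow_le_pow_left₀ (norm_nonneg _) hx m) (norm_nonneg _)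
  have h0 : (∑' m, coeff (m + T) P * (0 : ℂ) ^ m) = σ (coeff T (Gs c A B L M ξ)) := by
    rw [tsum_eq_single 0 fun m hm => by rw [zero_pow hm, mul_zero], pow_zero, mul_one, zero_add, hP, coeff_map]
  have hat : ContinuousAt (fun x : ℂ => ∑' m, coeff (m + T) P * x ^ m) 0 :=
    hcont.continuousAt (Metric.closedBall_mem_nhds 0 hr0)
  have hlim : Tendsto (fun x : ℂ => ∑' m, coeff (m + T) P * x ^ m) (𝓝[≠] 0)
      (𝓝 (σ (coeff T (Gs c A B L M ξ)))) := by
    rw [← h0]
    exact hat.tendsto.mono_left nhdsWithin_le_nhds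
  refine hlim.congr' ?_
  have hev : ∀ᶠ x : ℂ in 𝓝[≠] 0, ‖x‖ ≤ r := by
    have : ∀ᶠ x : ℂ in 𝓝 0, x ∈ Metric.closedBall (0 : ℂ) r := Metric.closedBall_mem_nhds 0 hr0
    exact (this.mono fun x hx => mem_closedBall_zero_iff.1 hx).filter_mono nhdsWithin_le_nhds
  filter_upwards [hev, self_mem_nhdsWithin] with x hx hx0
  have hx0' : x ≠ 0 := hx0
  rw [← (hPx x hx).2, hsh x hx, mul_div_cancel_left₀ _ (pow_ne_zero T hx0')]

end Pool.Agent.H64.LG
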