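import Pool.Agent.H64.LG.Defs

/-!
# LG.Tay : Taylor formula modulo an ideal containing `ε²`

PROOF. In `R / J`: `Q ↦ eval₂ a Q + ε eval₂ a (D Q)` is a ring homomorphism because `D` is a derivation (`Derivation.leibniz`) and
`ε² = 0`; it agrees with `Q ↦ eval₂ (a + ε N a + r) Q` on constants (`D C = 0`) and on the variables. Or directly by
`MvPolynomial.induction_on` (constants, sums, products with a variable).
-/

set_option autoImplicit false

namespace Pool.Agent.H64.LG

open Pool.H61.QF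

theorem taylor {R0 R : Type} [CommRing R0] [CommRing R] (ι : R0 →+* R) (N : Fin 2 → Fin 2 → R0)
    (a r : Fin 2 × Fin 2 → R) (ε : R) (J : Ideal R) (hε : ε * ε ∈ J) (hr : ∀ ij, r ij ∈ J)
    (Q : MvPolynomial (Fin 2 × Fin 2) R0) :
    MvPolynomial.eval₂ ι (fun ij => a ij + ε * ∑ l : Fin 2, ι (N ij.1 l) * a (l, ij.2) + r ij) Q -
      (MvPolynomial.eval₂ ι a Q + ε * MvPolynomial.eval₂ ι a (DN N Q)) ∈ J := by
  induction Q using MvPolynomial.induction_on with
  | C x =>
    have h : DN N (MvPolynomial.C x) = 0 := by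
      rw [← MvPolynomial.algebraMap_eq]
      exact Derivation.map_algebraMap _ x
    rw [h]
    simp
  | add P Q hP hQ =>
    rw [map_add, MvPolynomial.eval₂_add, MvPolynomial.eval₂_add, MvPolynomial.eval₂_add]
    have := J.add_mem hP hQ
    refine (congrArg (· ∈ J) ?_).mp this
    ring
  | mul_X P ij hP =>
    have hD : DN N (P * MvPolynomial.X ij) = P * (∑ l : Fin 2, MvPolynomial.C (N ij.1 l) * MvPolynomial.X (l, ij.2)) +
        MvPolynomial.X ij * DN N P := by
      rw [Derivation.leibniz, smul_eq_mul, smul_eq_mul]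
      congr 2
      unfold DN
      rw [MvPolynomial.mkDerivation_X]
    rw [hD, MvPolynomial.eval₂_mul, MvPolynomial.eval₂_mul, MvPolynomial.eval₂_add, MvPolynomial.eval₂_mul,
      MvPolynomial.eval₂_mul, MvPolynomial.eval₂_X, MvPolynomial.eval₂_X]
    have hS : MvPolynomial.eval₂ ι a (∑ l : Fin 2, MvPolynomial.C (N ij.1 l) * MvPolynomial.X (l, ij.2)) =
        ∑ l : Fin 2, ι (N ij.1 l) * a (l, ij.2) := by
      rw [MvPolynomial.eval₂_sum]
      apply Finset.sum_congr rfl
      intro l _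
      rw [MvPolynomial.eval₂_mul, MvPolynomial.eval₂_C, MvPolynomial.eval₂_X]
    rw [hS]
    obtain ⟨S, hSS⟩ : ∃ S : R, S = ∑ l : Fin 2, ι (N ij.1 l) * a (l, ij.2) := ⟨_, rfl⟩
    rw [← hSS]
    generalize MvPolynomial.eval₂ ι (fun ij => a ij + ε * ∑ l : Fin 2, ι (N ij.1 l) * a (l, ij.2) + r ij) P = E' at hP ⊢
    generalize MvPolynomial.eval₂ ι a P = E at hP ⊢
    generalize MvPolynomial.eval₂ ι a (DN N P) = F at hP ⊢
    have h1 : (E' - (E + ε * F)) * (a ij + ε * S + r ij) ∈ J := J.mul_mem_right _ hP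
    have h2 : (E + ε * F) * r ij ∈ J := J.mul_mem_left _ (hr ij)
    have h3 : ε * ε * (F * S) ∈ J := J.mul_mem_right _ hε
    have h4 := J.add_mem (J.add_mem h1 h2) h3
    refine (congrArg (· ∈ J) ?_).mp h4
    ring

end Pool.Agent.H64.LG
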