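import Pool.Agent.H64.LG.Dec
import Pool.Agent.H64.LG.Tay
import Pool.Agent.H64.LG.Dk

/-!
# LG.LocA : the polar part of a polynomial in the solutions

PROOF. `locA`: `a, r` from `dec`, `a' ij = (a ij)(τ)` = `subst τ` of the polynomial (its coefficients are in `LocInt p`: a polynomial in `τ` with coefficients in `LocInt p`, `coeff_mul_mem`-type closure or the subring of series with coefficients in
`LocInt p`), `ε = C (p⁻¹) * τ^p`, `J = Ideal.span {τ^(2p-1)}` (contains `ε * ε`). `subst τ` is a ring homomorphism (`PowerSeries.substAlgHom`, `HasSubst.of_constantCoeff_zero'`), with `X ↦ τ`, `C x ↦ C x`, so `(dg c ij).subst τ = a' ij + ε ∑ C (N..) a' (l, j) + τ^(2p-1) (..)`.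
`taylor` with `ι = A0.subtype`, `N i l = cst (Np c p i l)`; `J` consists of the multiples of `τ^(2p-1)` (`Ideal.mem_span_singleton`). `locA'`: from `locA`, `τ^(2p-1)` and `C (p⁻¹) τ^p` are multiples of `τ^p`. `evG_int`: `evG a' Q` is a finite sum of products
(`MvPolynomial.eval₂_eq`). `DK_int`: `DK N Q` has coefficients which are sums of products of natural numbers, `N i l` and coefficients of `Q` (`MvPolynomial.induction_on'` / the polynomials whose coefficients have coefficients in `LocInt p` form a subring, stable under `DK N`: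
it is the image of `MvPolynomial σ (subring)`; or `MvPolynomial.mem_map_range`..).
-/

set_option autoImplicit false

namespace Pool.Agent.H64.LG

open Pool.H61.QF PowerSeries

/-- the power series with coefficients in `LocInt p` -/
private noncomputable def SI (p : ℕ) [Fact p.Prime] : Subring (PowerSeries Kbar) where
  carrier := {f | ∀ n, coeff n f ∈ LocInt p}
  mul_mem' := by
    intro f g hf hg n
    rw [PowerSeries.coeff_mul]
    exact (LocInt p).sum_mem fun x _ => (LocInt p).mul_mem (hf _) (hg _)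
  one_mem' := by
    intro n
    rw [PowerSeries.coeff_one]
    split_ifs
    · exact (LocInt p).one_mem
    · exact (LocInt p).zero_mem
  add_mem' := by
    intro f g hf hg n
    rw [map_add]
    exact (LocInt p).add_mem (hf n) (hg n)
  zero_mem' := by
    intro n
    rw [map_zero]
    exact (LocInt p).zero_mem
  neg_mem' := by
    intro f hf n
    rw [map_neg]
    exact (LocInt p).neg_mem (hf n)

private theorem mem_SI (p : ℕ) [Fact p.Prime] (f : PowerSeries Kbar) :
    f ∈ SI p ↔ ∀ n, coeff n f ∈ LocInt p := Iff.rfl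

private theorem C_mem_SI (p : ℕ) [Fact p.Prime] (x : Kbar) (hx : x ∈ LocInt p) :
    (C x : PowerSeries Kbar) ∈ SI p := by
  intro n
  rw [PowerSeries.coeff_C]
  split_ifs
  · exact hx
  · exact (LocInt p).zero_mem

/-- polynomials with all coefficients in a subring -/
private noncomputable def TC {σ R : Type} [CommRing R] (S : Subring R) : Subring (MvPolynomial σ R) where
  carrier := {Q | ∀ m, MvPolynomial.coeff m Q ∈ S}
  mul_mem' := by
    classical
    intro f g hf hg n
    rw [MvPolynomial.coeff_mul]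
    exact S.sum_mem fun x _ => S.mul_mem (hf _) (hg _)
  one_mem' := by
    classical
    intro n
    rw [MvPolynomial.coeff_one]
    split_ifs
    · exact S.one_mem
    · exact S.zero_mem
  add_mem' := by
    intro f g hf hg n
    rw [MvPolynomial.coeff_add]
    exact S.add_mem (hf n) (hg n)
  zero_mem' := by
    intro n
    rw [MvPolynomial.coeff_zero]
    exact S.zero_mem
  neg_mem' := by
    intro f hf n
    rw [MvPolynomial.coeff_neg]
    exact S.neg_mem (hf n)

private theorem mem_TC {σ R : Type} [CommRing R] (S : Subring R) (Q : MvPolynomial σ R) :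
    Q ∈ TC S ↔ ∀ m, MvPolynomial.coeff m Q ∈ S := Iff.rfl

private theorem C_mem_TC {σ R : Type} [CommRing R] (S : Subring R) (x : R) (hx : x ∈ S) :
    (MvPolynomial.C x : MvPolynomial σ R) ∈ TC S := by
  classical
  intro m
  rw [MvPolynomial.coeff_C]
  split_ifs
  · exact hx
  · exact S.zero_mem

private theorem X_mem_TC {σ R : Type} [CommRing R] (S : Subring R) (i : σ) :
    (MvPolynomial.X i : MvPolynomial σ R) ∈ TC S := by
  classical
  intro m
  rw [MvPolynomial.coeff_X]
  split_ifs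
  · exact S.one_mem
  · exact S.zero_mem

private theorem mon_mem_TC {σ R : Type} [CommRing R] (S : Subring R) (m : σ →₀ ℕ) (x : R) (hx : x ∈ S) :
    (MvPolynomial.monomial m x : MvPolynomial σ R) ∈ TC S := by
  classical
  intro m'
  rw [MvPolynomial.coeff_monomial]
  split_ifs
  · exact hx
  · exact S.zero_mem

/-- a derivation with images of the variables in `TC S` preserves `TC S` -/
private theorem der_mem_TC {σ R : Type} [CommRing R] (S : Subring R)
    (f : σ → MvPolynomial σ R) (hf : ∀ i, f i ∈ TC S)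
    (Q : MvPolynomial σ R) (hQ : Q ∈ TC S) : MvPolynomial.mkDerivation R f Q ∈ TC S := by
  classical
  have h1 : MvPolynomial.mkDerivation R f Q =
      ∑ m ∈ Q.support, MvPolynomial.mkDerivation R f (MvPolynomial.monomial m (MvPolynomial.coeff m Q)) := by
    rw [← map_sum, MvPolynomial.support_sum_monomial_coeff]
  rw [h1]
  refine (TC S).sum_mem fun m _ => ?_
  rw [MvPolynomial.mkDerivation_monomial, MvPolynomial.smul_eq_C_mul]
  refine (TC S).mul_mem (C_mem_TC S _ (hQ m)) ?_
  rw [Finsupp.sum]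
  refine (TC S).sum_mem fun i _ => ?_
  rw [smul_eq_mul]
  refine (TC S).mul_mem (mon_mem_TC S _ _ ?_) (hf i)
  exact natCast_mem S _

theorem evG_int (p : ℕ) [Fact p.Prime] (a : Fin 2 × Fin 2 → PowerSeries Kbar)
    (ha : ∀ ij n, coeff n (a ij) ∈ LocInt p) (Q : MvPolynomial (Fin 2 × Fin 2) A0)
    (hQ : ∀ m n, coeff n ((Q.coeff m : A0) : PowerSeries Kbar) ∈ LocInt p) (n : ℕ) :
    coeff n (evG a Q) ∈ LocInt p := by
  have h : evG a Q ∈ SI p := by
    have e : evG a Q = MvPolynomial.eval₂ A0.subtype a Q := rfl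
    rw [e, MvPolynomial.eval₂_eq]
    refine (SI p).sum_mem fun d _ => (SI p).mul_mem (hQ d) ?_
    refine (SI p).prod_mem fun i _ => (SI p).pow_mem (ha i) _
  exact h n

theorem DK_int (p : ℕ) [Fact p.Prime] (N : Fin 2 → Fin 2 → Kbar) (hN : ∀ i l, N i l ∈ LocInt p)
    (Q : MvPolynomial (Fin 2 × Fin 2) A0)
    (hQ : ∀ m n, coeff n ((Q.coeff m : A0) : PowerSeries Kbar) ∈ LocInt p) :
    ∀ m n, coeff n (((DK N Q).coeff m : A0) : PowerSeries Kbar) ∈ LocInt p := by
  have h1 : Q ∈ TC (σ := Fin 2 × Fin 2) ((SI p).comap A0.subtype) := fun m => hQ m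
  have h2 : DK N Q ∈ TC (σ := Fin 2 × Fin 2) ((SI p).comap A0.subtype) := by
    refine der_mem_TC _ _ (fun ij => ?_) Q h1
    refine Subring.sum_mem _ fun l _ => ?_
    refine Subring.mul_mem _ (C_mem_TC _ _ ?_) (X_mem_TC _ _)
    exact C_mem_SI p _ (hN ij.1 l)
  intro m
  exact h2 m

private theorem subst_C' (τ : PowerSeries Kbar) (x : Kbar) :
    (C x : PowerSeries Kbar).subst τ = (C x : PowerSeries Kbar) := by
  exact PowerSeries.subst_C x

theorem locA (p : ℕ) [Fact p.Prime] (c : Kbar) (hc : c ∈ LocInt p) (hci : (c * (1 - c))⁻¹ ∈ LocInt p)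
    (hc0 : c ≠ 0) (hc1 : c ≠ 1) (h5 : 5 ≤ p) (τ : PowerSeries Kbar) (hτ : ∀ n, coeff n τ ∈ LocInt p)
    (hτ0 : coeff 0 τ = 0) :
    ∃ a : Fin 2 × Fin 2 → PowerSeries Kbar, (∀ ij n, coeff n (a ij) ∈ LocInt p) ∧
      (∀ Q : MvPolynomial (Fin 2 × Fin 2) A0, ∃ z : PowerSeries Kbar,
        ev c τ Q = evG a Q + C ((p : Kbar)⁻¹) * τ ^ p * evG a (DK (Np c p) Q) + τ ^ (2 * p - 1) * z) ∧
      ∀ Q : MvPolynomial (Fin 2 × Fin 2) A0, ∃ z : PowerSeries Kbar, ev c τ Q = evG a Q + τ ^ p * z := by
  obtain ⟨a, r, ha, hd⟩ := dec p c hc hci hc0 hc1 h5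
  have hs : HasSubst τ := HasSubst.of_constantCoeff_zero' (by
    rw [← PowerSeries.coeff_zero_eq_constantCoeff_apply]; exact hτ0)
  have hmul : ∀ f g : PowerSeries Kbar, (f * g).subst τ = f.subst τ * g.subst τ := fun f g =>
    PowerSeries.subst_mul hs f g
  have hadd : ∀ f g : PowerSeries Kbar, (f + g).subst τ = f.subst τ + g.subst τ := fun f g =>
    PowerSeries.subst_add hs f g
  have hpow : ∀ (f : PowerSeries Kbar) (n : ℕ), (f ^ n).subst τ = (f.subst τ) ^ n := fun f n =>
    PowerSeries.subst_pow hs f n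
  have hX : (X : PowerSeries Kbar).subst τ = τ := PowerSeries.subst_X hs
  have hmain : ∀ Q : MvPolynomial (Fin 2 × Fin 2) A0, ∃ z : PowerSeries Kbar,
        ev c τ Q = evG (fun ij => (a ij : PowerSeries Kbar).subst τ) Q +
          C ((p : Kbar)⁻¹) * τ ^ p * evG (fun ij => (a ij : PowerSeries Kbar).subst τ) (DK (Np c p) Q) +
          τ ^ (2 * p - 1) * z := by
    intro Q
    have hε : (C ((p : Kbar)⁻¹) * τ ^ p) * (C ((p : Kbar)⁻¹) * τ ^ p) ∈ Ideal.span {τ ^ (2 * p - 1)} := by
      rw [Ideal.mem_span_singleton]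
      refine ⟨C ((p : Kbar)⁻¹) * C ((p : Kbar)⁻¹) * τ, ?_⟩
      have e : τ ^ p * τ ^ p = τ ^ (2 * p - 1) * τ := by
        rw [← pow_add, ← pow_succ]
        have : p + p = 2 * p - 1 + 1 := by omega
        rw [this]
      calc (C ((p : Kbar)⁻¹) * τ ^ p) * (C ((p : Kbar)⁻¹) * τ ^ p)
          = C ((p : Kbar)⁻¹) * C ((p : Kbar)⁻¹) * (τ ^ p * τ ^ p) := by ring
        _ = τ ^ (2 * p - 1) * (C ((p : Kbar)⁻¹) * C ((p : Kbar)⁻¹) * τ) := by rw [e]; ring
    have ht := taylor A0.subtype (fun i l => cst (Np c p i l))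
      (fun ij => (a ij : PowerSeries Kbar).subst τ) (fun ij => τ ^ (2 * p - 1) * (r ij).subst τ)
      (C ((p : Kbar)⁻¹) * τ ^ p) (Ideal.span {τ ^ (2 * p - 1)}) hε
      (fun ij => by
        rw [Ideal.mem_span_singleton]
        exact ⟨_, rfl⟩) Q
    rw [Ideal.mem_span_singleton] at ht
    obtain ⟨z, hz⟩ := ht
    refine ⟨z, ?_⟩
    have hdg : (fun ij => (dg c ij).subst τ) = fun ij : Fin 2 × Fin 2 =>
        (a ij : PowerSeries Kbar).subst τ + C ((p : Kbar)⁻¹) * τ ^ p *
          ∑ l : Fin 2, A0.subtype (cst (Np c p ij.1 l)) * (a (l, ij.2) : PowerSeries Kbar).subst τ +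
          τ ^ (2 * p - 1) * (r ij).subst τ := by
      funext ij
      rw [hd ij, hadd, hadd, hmul, hmul, hmul, hpow, hpow, hX, subst_C', Fin.sum_univ_two, Fin.sum_univ_two,
        hadd, hmul, hmul, subst_C', subst_C']
      rfl
    have e1 : ev c τ Q = MvPolynomial.eval₂ A0.subtype (fun ij => (dg c ij).subst τ) Q := rfl
    rw [hdg] at e1
    rw [e1]
    have e2 : evG (fun ij => (a ij : PowerSeries Kbar).subst τ) Q =
      MvPolynomial.eval₂ A0.subtype (fun ij => (a ij : PowerSeries Kbar).subst τ) Q := rfl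
    have e3 : evG (fun ij => (a ij : PowerSeries Kbar).subst τ) (DK (Np c p) Q) =
      MvPolynomial.eval₂ A0.subtype (fun ij => (a ij : PowerSeries Kbar).subst τ)
        (DN (fun i l => cst (Np c p i l)) Q) := rfl
    rw [e2, e3]
    exact (sub_eq_iff_eq_add'.mp hz)
  refine ⟨fun ij => (a ij : PowerSeries Kbar).subst τ, ?_, hmain, ?_⟩
  · intro ij
    have h : (a ij : PowerSeries Kbar).subst τ ∈ SI p := by
      have e : (a ij : PowerSeries Kbar).subst τ = Polynomial.aeval τ (a ij) :=
        PowerSeries.subst_coe hs (a ij)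
      rw [e, Polynomial.aeval_eq_sum_range]
      refine (SI p).sum_mem fun k _ => ?_
      rw [PowerSeries.smul_eq_C_mul]
      exact (SI p).mul_mem (C_mem_SI p _ (ha ij k)) ((SI p).pow_mem hτ k)
    exact h
  · intro Q
    obtain ⟨z, hz⟩ := hmain Q
    refine ⟨C ((p : Kbar)⁻¹) * evG (fun ij => (a ij : PowerSeries Kbar).subst τ) (DK (Np c p) Q) +
      τ ^ (p - 1) * z, ?_⟩
    have e : τ ^ (2 * p - 1) = τ ^ p * τ ^ (p - 1) := by
      rw [← pow_add]
      have : p + (p - 1) = 2 * p - 1 := by omega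
      rw [this]
    rw [hz, e]
    ring

end Pool.Agent.H64.LG
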