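import Pool.Agent.H64.LG.LocA
import Pool.Agent.H64.LG.Pls

/-!
# LG.LocB : the `p`-curvature kills the polynomials in the solutions which are integral at `p`

PROOF. `a` from `locA` (`coeff 0 τ = 0` as `e ≥ 1`), `D = DK (Np c p)`, `h = evG a (D Q)`; the coefficients of `evG a Q` and `h` are in `LocInt p` (`evG_int`, `DK_int`, `np_mem`). `f = ev Q = evG a Q + C (p⁻¹) τ^p h + τ^(2p-1) z`. `τ^(2p-1)` is divisible by `X^(e(2p-1))`, so for
`n' < e (2p - 1)`: `p⁻¹ * coeff n' (τ^p h)` is in `LocInt p`, so `red (coeff n' (τ^p h)) = 0` (`red_p`). So `redS (τ)^p * redS h` has vanishing coefficients below `e (2p - 1)` (`redS_mul`, `coeff_redS` in QF/Rd1). `redS τ = X^e * (unit)`, so `redS h` has vanishing coefficients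
below `e (2p - 1) - e p = e (p - 1)`, in particular below `p - 1`. `ev (D Q) - h = τ^p z'` (last part of `locA`), so `coeff n (ev (D Q)) = coeff n h` for `n < p`; and `coeff n (ev (D Q)) = ∑ Np * fl` (`ev_DK`), reduce (`rho_sum`, `rho_mul`, `np_mem`, `hfl`).
-/

set_option autoImplicit false

namespace Pool.Agent.H64.LG

open Pool.H61.QF PowerSeries

private theorem redS_mul' {p : ℕ} [Fact p.Prime] {k : Type} [Field k] (φ : LocInt p →+* k)
    {F F' : PowerSeries Kbar} (h : ∀ n, coeff n F ∈ LocInt p) (h' : ∀ n, coeff n F' ∈ LocInt p) :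
    redS φ (F * F') = redS φ F * redS φ F' := by
  ext n
  rw [coeff_redS]
  exact redS_mul φ (L := n + 1) (fun m _ => h m) (fun m _ => h' m) n (Nat.lt_succ_self n)

private theorem mul_int {p : ℕ} [Fact p.Prime] {F F' : PowerSeries Kbar}
    (h : ∀ n, coeff n F ∈ LocInt p) (h' : ∀ n, coeff n F' ∈ LocInt p) (n : ℕ) :
    coeff n (F * F') ∈ LocInt p :=
  coeff_mul_mem (L := n + 1) (fun m _ => h m) (fun m _ => h' m) n (Nat.lt_succ_self n)

private theorem pow_int {p : ℕ} [Fact p.Prime] {F : PowerSeries Kbar}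
    (h : ∀ n, coeff n F ∈ LocInt p) (m : ℕ) : ∀ n, coeff n (F ^ m) ∈ LocInt p := by
  induction m with
  | zero =>
    intro n
    rw [pow_zero, coeff_one]
    split_ifs
    · exact (LocInt p).one_mem
    · exact (LocInt p).zero_mem
  | succ m ih =>
    rw [pow_succ]
    exact mul_int ih h

private theorem redS_one {p : ℕ} [Fact p.Prime] {k : Type} [Field k] (φ : LocInt p →+* k) :
    redS φ (1 : PowerSeries Kbar) = 1 := by
  ext n
  rw [coeff_redS, coeff_one, coeff_one]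
  split_ifs
  · exact rho_one φ
  · exact rho_zero φ

private theorem redS_pow {p : ℕ} [Fact p.Prime] {k : Type} [Field k] (φ : LocInt p →+* k)
    {F : PowerSeries Kbar} (h : ∀ n, coeff n F ∈ LocInt p) (m : ℕ) :
    redS φ (F ^ m) = redS φ F ^ m := by
  induction m with
  | zero => rw [pow_zero, pow_zero, redS_one]
  | succ m ih => rw [pow_succ, pow_succ, redS_mul' φ (pow_int h m) h, ih]

theorem loc (v : Place) (c : Kbar) (hc : c ∈ LocInt v.p) (hci : (c * (1 - c))⁻¹ ∈ LocInt v.p)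
    (hc0 : c ≠ 0) (hc1 : c ≠ 1) (h5 : 5 ≤ v.p) (τ : PowerSeries Kbar) (hτ : ∀ n, coeff n τ ∈ LocInt v.p)
    (e : ℕ) (he : 1 ≤ e) (hτe : ∀ n, n < e → coeff n τ = 0) (hτu : v.red (coeff e τ) ≠ 0)
    (Q : MvPolynomial (Fin 2 × Fin 2) A0)
    (hQ : ∀ m n, coeff n ((Q.coeff m : A0) : PowerSeries Kbar) ∈ LocInt v.p)
    (hf : ∀ n, coeff n (ev c τ Q) ∈ LocInt v.p) (n : ℕ) (hn : n < v.p - 1)
    (hfl : ∀ i l, fl c τ Q n i l ∈ LocInt v.p) :
    ∑ i : Fin 2, ∑ l : Fin 2, v.red (Np c v.p i l) * v.red (fl c τ Q n i l) = 0 := by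
  have hp0 : (v.p : Kbar) ≠ 0 := by
    have := v.hp.out.pos
    exact_mod_cast this.ne'
  obtain ⟨a, ha, h1, h2⟩ := locA v.p c hc hci hc0 hc1 h5 τ hτ (hτe 0 (by omega))
  have hN : ∀ i l, Np c v.p i l ∈ LocInt v.p := np_mem v.p c hc hci hc0 hc1 h5
  have hg : ∀ n, coeff n (evG a Q) ∈ LocInt v.p := evG_int v.p a ha Q hQ
  have hh : ∀ n, coeff n (evG a (DK (Np c v.p) Q)) ∈ LocInt v.p :=
    evG_int v.p a ha _ (DK_int v.p _ hN Q hQ)
  have hτp : ∀ n, coeff n (τ ^ v.p) ∈ LocInt v.p := pow_int hτ v.p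
  have hXτ : (X : PowerSeries Kbar) ^ e ∣ τ := X_pow_dvd_iff.2 hτe
  have hXm : ∀ m, (X : PowerSeries Kbar) ^ (e * m) ∣ τ ^ m := by
    intro m
    rw [pow_mul]
    exact pow_dvd_pow_of_dvd hXτ m
  -- the coefficients of τ ^ p * h below e * (2 p - 1) vanish at v
  have hlow : ∀ m, m < e * (2 * v.p - 1) →
      rho v.φ (coeff m (τ ^ v.p * evG a (DK (Np c v.p) Q))) = 0 := by
    intro m hm
    obtain ⟨z, hz⟩ := h1 Q
    have hz0 : coeff m (τ ^ (2 * v.p - 1) * z) = 0 :=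
      X_pow_dvd_iff.1 (Dvd.dvd.mul_right (hXm (2 * v.p - 1)) z) m hm
    have h3 : (v.p : Kbar)⁻¹ * coeff m (τ ^ v.p * evG a (DK (Np c v.p) Q)) =
        coeff m (ev c τ Q) - coeff m (evG a Q) := by
      rw [hz, map_add, map_add, hz0, mul_assoc, coeff_C_mul]
      ring
    have h4 : (v.p : Kbar)⁻¹ * coeff m (τ ^ v.p * evG a (DK (Np c v.p) Q)) ∈ LocInt v.p := by
      rw [h3]
      exact (LocInt v.p).sub_mem (hf m) (hg m)
    have h5' : coeff m (τ ^ v.p * evG a (DK (Np c v.p) Q)) =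
        (v.p : Kbar) * ((v.p : Kbar)⁻¹ * coeff m (τ ^ v.p * evG a (DK (Np c v.p) Q))) := by
      rw [← mul_assoc, mul_inv_cancel₀ hp0, one_mul]
    rw [h5', rho_mul v.φ (natCast_mem _ _) h4]
    have h6 : rho v.φ (v.p : Kbar) = 0 := red_p v
    rw [h6, zero_mul]
  -- reduction of τ
  have hXr : (X : PowerSeries v.k) ^ e ∣ redS v.φ τ := by
    rw [X_pow_dvd_iff]
    intro m hm
    rw [coeff_redS, hτe m hm, rho_zero]
  obtain ⟨U, hU⟩ := hXr
  have hU0 : constantCoeff U ≠ 0 := by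
    intro h0
    apply hτu
    have h7 : coeff e (redS v.φ τ) = constantCoeff U := by
      rw [hU]
      have h8 := coeff_X_pow_mul U e 0
      rw [zero_add] at h8
      rw [h8, coeff_zero_eq_constantCoeff_apply]
    rw [coeff_redS, h0] at h7
    exact h7
  have hUu : IsUnit (U ^ v.p) := by
    apply IsUnit.pow
    rw [isUnit_iff_constantCoeff]
    exact isUnit_iff_ne_zero.2 hU0
  have hdvd : (X : PowerSeries v.k) ^ (e * (2 * v.p - 1)) ∣
      X ^ (e * v.p) * (U ^ v.p * redS v.φ (evG a (DK (Np c v.p) Q))) := by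
    have h9 : X ^ (e * v.p) * (U ^ v.p * redS v.φ (evG a (DK (Np c v.p) Q))) =
        redS v.φ (τ ^ v.p * evG a (DK (Np c v.p) Q)) := by
      rw [redS_mul' v.φ hτp hh, redS_pow v.φ hτ, hU, mul_pow, ← pow_mul, mul_assoc]
    rw [h9, X_pow_dvd_iff]
    intro m hm
    rw [coeff_redS]
    exact hlow m hm
  have hpp : 1 ≤ v.p := v.hp.out.one_lt.le
  have hexp : e * (2 * v.p - 1) = e * v.p + e * (v.p - 1) := by
    rw [← mul_add]
    congr 1
    omega
  have hdvd2 : (X : PowerSeries v.k) ^ (e * (v.p - 1)) ∣ redS v.φ (evG a (DK (Np c v.p) Q)) := by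
    rw [hexp, pow_add] at hdvd
    have h10 := (mul_dvd_mul_iff_left (pow_ne_zero (e * v.p) (X_ne_zero (R := v.k)))).1 hdvd
    exact (hUu.dvd_mul_left).1 h10
  have hnn : n < e * (v.p - 1) := lt_of_lt_of_le hn (Nat.le_mul_of_pos_left _ (by omega))
  have hred : rho v.φ (coeff n (evG a (DK (Np c v.p) Q))) = 0 := by
    rw [← coeff_redS]
    exact X_pow_dvd_iff.1 hdvd2 n hnn
  -- the coefficient of ev (D Q)
  have hev : coeff n (ev c τ (DK (Np c v.p) Q)) = coeff n (evG a (DK (Np c v.p) Q)) := by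
    obtain ⟨z, hz⟩ := h2 (DK (Np c v.p) Q)
    have hnp : n < e * v.p := lt_of_lt_of_le hnn (Nat.mul_le_mul_left e (Nat.sub_le _ _))
    have hz0 : coeff n (τ ^ v.p * z) = 0 :=
      X_pow_dvd_iff.1 (Dvd.dvd.mul_right (hXm v.p) z) n hnp
    rw [hz, map_add, hz0, add_zero]
  rw [ev_DK] at hev
  rw [← hev] at hred
  rw [← hred, rho_sum]
  · refine Finset.sum_congr rfl fun i _ => ?_
    rw [rho_sum]
    · refine Finset.sum_congr rfl fun l _ => ?_
      rw [rho_mul v.φ (hN i l) (hfl i l)]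
      rfl
    · intro l _
      exact (LocInt v.p).mul_mem (hN i l) (hfl i l)
  · intro i _
    exact (LocInt v.p).sum_mem fun l _ => (LocInt v.p).mul_mem (hN i l) (hfl i l)

end Pool.Agent.H64.LG
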