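import Pool.Agent.H64.LG.Dup

/-!
# LG.Mer : meromorphic continuation to arbitrarily large discs

PROOF. Base: near `0`, `D = 1`, `N = S`, `M = (wf c (S u²))⁻¹`, `Ψ = Fan c A B (S u)` are differentiable on some ball (`hS`; `and1`, `and2`; `wf ≠ 0` near `0`). Step from radius `R` to `2 R`: with `N, M, Ψ, D` evaluated at `u/2`, `H = D⁴ - c N⁴`:
`D' = D H²`, `N' = 2 N M D³ H`, `M' = D ⁹ (Zp (N / D))` as a polynomial, i.e. `D * ((D⁴ - 2 (1 + c) N² D² + 3 c N⁴) (D⁴ - c N⁴) + 4 c N⁴ (D² - N²)(D² - c N²))`, `Ψ' = 2 Ψ H² + 2 B N³ M D H`. Near `0`, `D ≠ 0`, `N = D S`, .. and `dup` at `u/2` give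
`N' = D' S(u)` etc. (field_simp; `S u = 2 S V / (1 - c S⁴)` at `u/2`). `D' 0 = D 0 (D 0)^8 = 1` as `N 0 = D 0 * S 0 = 0`. Iterate until the radius exceeds `R` (restrict to a smaller ball).
-/

set_option autoImplicit false

namespace Pool.Agent.H64.LG

open Filter Topology Metric

private def merP (c A B : ℂ) (S : ℂ → ℂ) (R : ℝ) : Prop :=
  ∃ N M Ψ D : ℂ → ℂ, DifferentiableOn ℂ N (ball 0 R) ∧ DifferentiableOn ℂ M (ball 0 R) ∧
    DifferentiableOn ℂ Ψ (ball 0 R) ∧ DifferentiableOn ℂ D (ball 0 R) ∧ D 0 = 1 ∧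
    ∀ᶠ u in 𝓝 (0 : ℂ), N u = D u * S u ∧ M u = D u * (wf c (S u ^ 2))⁻¹ ∧
      Ψ u = D u * Fan c A B (S u)

private theorem merP_mono (c A B : ℂ) (S : ℂ → ℂ) {R R' : ℝ} (h : R' ≤ R)
    (hP : merP c A B S R) : merP c A B S R' := by
  obtain ⟨N, M, Ψ, D, h1, h2, h3, h4, h5, h6⟩ := hP
  have hs : ball (0 : ℂ) R' ⊆ ball 0 R := ball_subset_ball h
  exact ⟨N, M, Ψ, D, h1.mono hs, h2.mono hs, h3.mono hs, h4.mono hs, h5, h6⟩

private theorem mer_base (c A B : ℂ) (S : ℂ → ℂ) (hS0 : S 0 = 0)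
    (hS : ∀ᶠ u in 𝓝 (0 : ℂ), HasDerivAt S (wf c (S u ^ 2))⁻¹ u) :
    ∃ r : ℝ, 0 < r ∧ merP c A B S r := by
  obtain ⟨r1, hr1, -, hw1, hw2, -⟩ := and1 c
  obtain ⟨r2, hr2, -, hF, -⟩ := and2 c A B
  have hcont : ContinuousAt S 0 := hS.self_of_nhds.continuousAt
  have hc2 : ContinuousAt (fun u => S u ^ 2) 0 := hcont.pow 2
  have e1 : ∀ᶠ u in 𝓝 (0 : ℂ), S u ^ 2 ∈ ball (0 : ℂ) r1 := by
    have : (ball (0 : ℂ) r1) ∈ 𝓝 (S 0 ^ 2) := by
      rw [hS0]
      exact isOpen_ball.mem_nhds (by simpa using hr1)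
    exact hc2.eventually this
  have e2 : ∀ᶠ u in 𝓝 (0 : ℂ), S u ∈ ball (0 : ℂ) r2 := by
    have : (ball (0 : ℂ) r2) ∈ 𝓝 (S 0) := by
      rw [hS0]
      exact isOpen_ball.mem_nhds (by simpa using hr2)
    exact hcont.eventually this
  have e3 : ∀ᶠ u in 𝓝 (0 : ℂ), DifferentiableAt ℂ S u ∧
      DifferentiableAt ℂ (fun u => (wf c (S u ^ 2))⁻¹) u ∧
      DifferentiableAt ℂ (fun u => Fan c A B (S u)) u := by
    filter_upwards [e1, e2, hS] with u h1 h2 h3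
    have hd : DifferentiableAt ℂ S u := h3.differentiableAt
    have hw : DifferentiableAt ℂ (wf c) (S u ^ 2) :=
      (hw1 (S u ^ 2) h1).differentiableAt (isOpen_ball.mem_nhds h1)
    have hne : wf c (S u ^ 2) ≠ 0 := by
      intro h0
      have := hw2 _ h1
      rw [h0] at this
      simp at this
    refine ⟨hd, ?_, ?_⟩
    · have hq : DifferentiableAt ℂ (fun u => S u ^ 2) u := hd.pow 2
      have hcomp : DifferentiableAt ℂ (fun u => wf c (S u ^ 2)) u :=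
        DifferentiableAt.comp u (f := fun u => S u ^ 2) (g := wf c) hw hq
      exact hcomp.inv hne
    · exact DifferentiableAt.comp u (f := S) (g := Fan c A B) (hF _ h2).differentiableAt hd
  obtain ⟨r, hr, hball⟩ := Metric.eventually_nhds_iff_ball.1 e3
  refine ⟨r, hr, S, fun u => (wf c (S u ^ 2))⁻¹, fun u => Fan c A B (S u), fun _ => 1, ?_, ?_, ?_,
    ?_, rfl, ?_⟩
  · exact fun u hu => (hball u hu).1.differentiableWithinAt
  · exact fun u hu => (hball u hu).2.1.differentiableWithinAt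
  · exact fun u hu => (hball u hu).2.2.differentiableWithinAt
  · exact differentiableOn_const 1
  · exact Filter.Eventually.of_forall fun u => ⟨by simp, by simp, by simp⟩

private theorem mer_half (f : ℂ → ℂ) (R : ℝ) (h : DifferentiableOn ℂ f (ball 0 R)) :
    DifferentiableOn ℂ (fun u => f (u / 2)) (ball 0 (2 * R)) := by
  refine DifferentiableOn.comp (g := f) (f := fun u : ℂ => u / 2) (t := ball 0 R) h ?_ ?_
  · exact (differentiable_id.div_const 2).differentiableOn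
  · intro u hu
    simp only [mem_ball, dist_zero_right] at hu ⊢
    rw [norm_div]
    have : ‖(2 : ℂ)‖ = 2 := by simp
    rw [this]
    linarith

private theorem mer_step (c A B : ℂ) (S : ℂ → ℂ) (hS0 : S 0 = 0)
    (hd : ∀ᶠ u in 𝓝 (0 : ℂ), S (2 * u) = 2 * S u * (wf c (S u ^ 2))⁻¹ / (1 - c * S u ^ 4) ∧
      (wf c (S (2 * u) ^ 2))⁻¹ = Zp c (S u) / (1 - c * S u ^ 4) ^ 2 ∧
      Fan c A B (S (2 * u)) = 2 * Fan c A B (S u) + B * S u ^ 2 * S (2 * u))
    (hcont : ContinuousAt S 0) {R : ℝ} (hP : merP c A B S R) : merP c A B S (2 * R) := by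
  obtain ⟨N, M, Ψ, D, h1, h2, h3, h4, h5, h6⟩ := hP
  have g1 := mer_half N R h1
  have g2 := mer_half M R h2
  have g3 := mer_half Ψ R h3
  have g4 := mer_half D R h4
  have hN0 : N 0 = 0 := by
    have := h6.self_of_nhds.1
    rw [this, hS0, mul_zero]
  refine ⟨fun u => 2 * N (u / 2) * M (u / 2) * D (u / 2) ^ 3 * (D (u / 2) ^ 4 - c * N (u / 2) ^ 4),
    fun u => D (u / 2) * ((D (u / 2) ^ 4 - 2 * (1 + c) * N (u / 2) ^ 2 * D (u / 2) ^ 2 +
      3 * c * N (u / 2) ^ 4) * (D (u / 2) ^ 4 - c * N (u / 2) ^ 4) +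
      4 * c * N (u / 2) ^ 4 * (D (u / 2) ^ 2 - N (u / 2) ^ 2) * (D (u / 2) ^ 2 - c * N (u / 2) ^ 2)),
    fun u => 2 * Ψ (u / 2) * (D (u / 2) ^ 4 - c * N (u / 2) ^ 4) ^ 2 +
      2 * B * N (u / 2) ^ 3 * M (u / 2) * D (u / 2) * (D (u / 2) ^ 4 - c * N (u / 2) ^ 4),
    fun u => D (u / 2) * (D (u / 2) ^ 4 - c * N (u / 2) ^ 4) ^ 2, ?_, ?_, ?_, ?_, ?_, ?_⟩
  · exact (((g1.const_mul 2).mul g2).mul (g4.pow 3)).mul ((g4.pow 4).sub ((g1.pow 4).const_mul c))
  · exact g4.mul (((((g4.pow 4).sub (((g1.pow 2).const_mul (2 * (1 + c))).mul (g4.pow 2))).add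
      ((g1.pow 4).const_mul (3 * c))).mul ((g4.pow 4).sub ((g1.pow 4).const_mul c))).add
      ((((g1.pow 4).const_mul (4 * c)).mul ((g4.pow 2).sub (g1.pow 2))).mul
        ((g4.pow 2).sub ((g1.pow 2).const_mul c))))
  · exact ((g3.const_mul 2).mul (((g4.pow 4).sub ((g1.pow 4).const_mul c)).pow 2)).add
      (((((g1.pow 3).const_mul (2 * B)).mul g2).mul g4).mul ((g4.pow 4).sub ((g1.pow 4).const_mul c)))
  · exact g4.mul (((g4.pow 4).sub ((g1.pow 4).const_mul c)).pow 2)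
  · simp only [zero_div, hN0, h5]
    norm_num
  · have hhalf : Tendsto (fun u : ℂ => u / 2) (𝓝 0) (𝓝 0) := by
      have : ContinuousAt (fun u : ℂ => u / 2) 0 := by fun_prop
      simpa [ContinuousAt] using this
    have h6' := hhalf.eventually h6
    have hd' := hhalf.eventually hd
    have hne : ∀ᶠ u in 𝓝 (0 : ℂ), 1 - c * S u ^ 4 ≠ 0 := by
      have hc : ContinuousAt (fun u => 1 - c * S u ^ 4) 0 :=
        continuousAt_const.sub (continuousAt_const.mul (hcont.pow 4))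
      refine hc.eventually_ne ?_
      rw [hS0]; simp
    have hne' := hhalf.eventually hne
    filter_upwards [h6', hd', hne'] with u k1 k2 k3
    obtain ⟨a1, a2, a3⟩ := k1
    obtain ⟨b1, b2, b3⟩ := k2
    have e2 : 2 * (u / 2) = u := by ring
    rw [e2] at b1 b2 b3
    refine ⟨?_, ?_, ?_⟩
    · simp only [a1, a2]
      rw [b1]
      field_simp
      try ring
    · simp only [a1]
      rw [b2]
      unfold Zp
      field_simp
      try ring
    · simp only [a1, a2, a3]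
      rw [b3, b1]
      field_simp
      try ring

theorem mer (c A B : ℂ) : ∃ S : ℂ → ℂ, S 0 = 0 ∧ HasDerivAt S 1 0 ∧
    ∀ R : ℝ, 0 < R → ∃ N Ψ D : ℂ → ℂ, DifferentiableOn ℂ N (ball 0 R) ∧ DifferentiableOn ℂ Ψ (ball 0 R) ∧
      DifferentiableOn ℂ D (ball 0 R) ∧ D 0 = 1 ∧
      ∀ᶠ u in 𝓝 (0 : ℂ), N u = D u * S u ∧ Ψ u = D u * Fan c A B (S u) := by
  obtain ⟨S, hS0, hS, hU, hV⟩ := inv c
  have hd := dup c A B S hS0 hS hU hV
  have hcont : ContinuousAt S 0 := hS.self_of_nhds.continuousAt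
  obtain ⟨r1, hr1, -, -, -, hw3⟩ := and1 c
  refine ⟨S, hS0, ?_, ?_⟩
  · have := hS.self_of_nhds
    rw [hS0] at this
    simpa [hw3] using this
  · intro R hR
    obtain ⟨r, hr, hP⟩ := mer_base c A B S hS0 hS
    have hall : ∀ n : ℕ, merP c A B S (2 ^ n * r) := by
      intro n
      induction n with
      | zero => simpa using hP
      | succ n ih =>
        have := mer_step c A B S hS0 hd hcont ih
        have e : 2 * (2 ^ n * r) = 2 ^ (n + 1) * r := by ring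
        rwa [e] at this
    obtain ⟨n, hn⟩ := pow_unbounded_of_one_lt (R / r) (by norm_num : (1 : ℝ) < 2)
    have hle : R ≤ 2 ^ n * r := by
      have := (div_lt_iff₀ hr).1 hn
      exact this.le
    obtain ⟨N, M, Ψ, D, q1, q2, q3, q4, q5, q6⟩ := merP_mono c A B S hle (hall n)
    exact ⟨N, Ψ, D, q1, q3, q4, q5, q6.mono fun u hu => ⟨hu.1, hu.2.2⟩⟩

end Pool.Agent.H64.LG
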