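import Pool.Agent.H64.LG.HasB


/-!
# LG.Nz : the `p`-curvature does not vanish

PROOF. Suppose that the four coefficients vanish. Let `u_i = ∑_{n ≤ p-3} ḡ_{i,n} s^n` in `v.k[s]`. By `gs_red` (HasB)
(for `n + 2 ≤ p - 1`, and both sides vanish for larger `n`: the right side because `ḡ_n = 0` for `n ≥ p - 2`, in particular at `n = p - 2`, `p - 1`
everything is `0`) the polynomials `u_0, u_1` satisfy Legendre's equation at `c̄ + s` exactly. So
`W = (c̄ + s)(1 - c̄ - s)(u_0 u_1' - u_1 u_0')` has derivative `0`, constant term `c̄ (1 - c̄)`, degree `≤ 2 + 2 (p - 3) - 1 = 2 p - 5 < 2 p`, so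
`W = c̄ (1 - c̄) + ω s^p`. Evaluate at `s = -c̄` and `s = 1 - c̄`: `W = 0` there, so `ω (-c̄)^p = ω (1 - c̄)^p`, and
`(1 - c̄)^p - (-c̄)^p = (1 - c̄ + c̄)^p = 1` (`sub_pow_char`), so `ω = 0` and `c̄ (1 - c̄) = 0`, a contradiction.
-/

set_option autoImplicit false

namespace Pool.Agent.H64.LG

open Pool.H61.QF PowerSeries

/-- Legendre's equation for a polynomial whose coefficients satisfy the recursion -/
private theorem ode {K : Type} [Field K] (c : K) (u : Polynomial K)
    (hr : ∀ n : ℕ, c * (1 - c) * ((n : K) + 2) * ((n : K) + 1) * u.coeff (n + 2) =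
      ((n : K) + 1 / 2) ^ 2 * u.coeff n - (1 - 2 * c) * ((n : K) + 1) ^ 2 * u.coeff (n + 1)) (h2 : (2 : K) ≠ 0) :
    (Polynomial.C c + Polynomial.X) * (1 - Polynomial.C c - Polynomial.X) *
        Polynomial.derivative (Polynomial.derivative u) +
      (1 - 2 * Polynomial.C c - 2 * Polynomial.X) * Polynomial.derivative u - Polynomial.C (1 / 4) * u = 0 := by
  have e1 : (Polynomial.C c + Polynomial.X) * (1 - Polynomial.C c - Polynomial.X) =
      Polynomial.C (c * (1 - c)) + Polynomial.C (1 - 2 * c) * Polynomial.X - Polynomial.X * Polynomial.X := by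
    simp only [Polynomial.C_mul, Polynomial.C_sub, Polynomial.C_1]
    have : Polynomial.C (2 : K) = 2 := rfl
    rw [this]
    ring
  have e2 : (1 - 2 * Polynomial.C c - 2 * Polynomial.X : Polynomial K) =
      Polynomial.C (1 - 2 * c) - Polynomial.C 2 * Polynomial.X := by
    simp only [Polynomial.C_mul, Polynomial.C_sub, Polynomial.C_1]
    have : Polynomial.C (2 : K) = 2 := rfl
    rw [this]
  have h4 : (1 / 4 : K) = 1 / 2 * (1 / 2) := by
    have h44 : (4 : K) ≠ 0 := by
      have : (4 : K) = 2 * 2 := by norm_num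
      rw [this]
      exact mul_ne_zero h2 h2
    field_simp
    norm_num
  rw [e1, e2, h4]
  ext n
  have hh : (1 / 2 : K) * 2 = 1 := by
    field_simp
  generalize (1 / 2 : K) = h at hr hh
  simp only [sub_mul, add_mul, mul_assoc, Polynomial.coeff_add, Polynomial.coeff_sub, Polynomial.coeff_C_mul,
    Polynomial.coeff_zero]
  rcases n with _ | _ | n
  · have := hr 0
    simp only [Polynomial.coeff_X_mul_zero, Polynomial.coeff_derivative]
    push_cast at this ⊢
    simp only [zero_add, mul_zero] at this ⊢
    linear_combination this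
  · have := hr 1
    simp only [Polynomial.coeff_X_mul, Polynomial.coeff_X_mul_zero, Polynomial.coeff_derivative]
    push_cast at this ⊢
    simp only [zero_add] at this ⊢
    linear_combination this + u.coeff 1 * hh
  · have := hr (n + 2)
    simp only [Polynomial.coeff_X_mul, Polynomial.coeff_derivative]
    push_cast at this ⊢
    linear_combination this + ((n : K) + 2) * u.coeff (n + 1 + 1) * hh

private theorem wronskian {K : Type} [Field K] (p : ℕ) [hp : Fact p.Prime] [CharP K p] (c : K) (u w : Polynomial K)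
    (hc : c ≠ 0) (hc1 : 1 - c ≠ 0) (h5 : 5 ≤ p)
    (hu : (Polynomial.C c + Polynomial.X) * (1 - Polynomial.C c - Polynomial.X) *
        Polynomial.derivative (Polynomial.derivative u) +
      (1 - 2 * Polynomial.C c - 2 * Polynomial.X) * Polynomial.derivative u - Polynomial.C (1 / 4) * u = 0)
    (hw : (Polynomial.C c + Polynomial.X) * (1 - Polynomial.C c - Polynomial.X) *
        Polynomial.derivative (Polynomial.derivative w) +
      (1 - 2 * Polynomial.C c - 2 * Polynomial.X) * Polynomial.derivative w - Polynomial.C (1 / 4) * w = 0)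
    (du : u.natDegree ≤ p - 3) (dw : w.natDegree ≤ p - 3) (u0 : u.coeff 0 = 1) (_ : u.coeff 1 = 0)
    (w0 : w.coeff 0 = 0) (w1 : w.coeff 1 = 1) : False := by
  set W : Polynomial K := (Polynomial.C c + Polynomial.X) * (1 - Polynomial.C c - Polynomial.X) *
    (u * Polynomial.derivative w - w * Polynomial.derivative u) with hW
  have hd : Polynomial.derivative W = 0 := by
    rw [hW]
    simp only [Polynomial.derivative_mul, Polynomial.derivative_add, Polynomial.derivative_sub,
      Polynomial.derivative_C, Polynomial.derivative_X, Polynomial.derivative_one]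
    linear_combination u * hw - w * hu
  have hex := Polynomial.expand_contract p hd hp.out.ne_zero
  set g := Polynomial.contract p W with hg
  have hev : ∀ x : K, g.eval (x ^ p) = W.eval x := by
    intro x
    rw [← hex, Polynomial.expand_eval]
  have e0 : W.eval (-c) = 0 := by
    rw [hW]
    simp
  have e1 : W.eval (1 - c) = 0 := by
    rw [hW]
    simp
  have e2 : W.eval 0 = c * (1 - c) := by
    rw [hW]
    simp only [Polynomial.eval_mul, Polynomial.eval_add, Polynomial.eval_sub, Polynomial.eval_C, Polynomial.eval_X,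
      Polynomial.eval_one, ← Polynomial.coeff_zero_eq_eval_zero, Polynomial.coeff_derivative]
    rw [u0, w0]
    push_cast
    rw [w1]
    ring
  have hdeg : W.natDegree < 2 * p := by
    have a1 : (Polynomial.C c + Polynomial.X : Polynomial K).natDegree ≤ 1 := by
      compute_degree
    have a2 : (1 - Polynomial.C c - Polynomial.X : Polynomial K).natDegree ≤ 1 := by
      compute_degree
    have a3 : (Polynomial.derivative u).natDegree ≤ p - 4 := by
      refine (Polynomial.natDegree_derivative_le u).trans (by omega)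
    have a4 : (Polynomial.derivative w).natDegree ≤ p - 4 := by
      refine (Polynomial.natDegree_derivative_le w).trans (by omega)
    have a5 : (u * Polynomial.derivative w - w * Polynomial.derivative u).natDegree ≤ (p - 3) + (p - 4) := by
      refine (Polynomial.natDegree_sub_le _ _).trans (max_le ?_ ?_)
      · exact Polynomial.natDegree_mul_le.trans (add_le_add du a4)
      · exact Polynomial.natDegree_mul_le.trans (add_le_add dw a3)
    have a6 : W.natDegree ≤ (1 + 1) + ((p - 3) + (p - 4)) := by
      rw [hW]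
      refine Polynomial.natDegree_mul_le.trans (add_le_add ?_ a5)
      exact Polynomial.natDegree_mul_le.trans (add_le_add a1 a2)
    omega
  have hgd : g.natDegree ≤ 1 := by
    have h := Polynomial.natDegree_expand p g
    rw [hex] at h
    by_contra hcon
    have : 2 * p ≤ g.natDegree * p := Nat.mul_le_mul_right p (by omega)
    omega
  obtain ⟨s, t, hst⟩ := Polynomial.exists_eq_X_add_C_of_natDegree_le_one hgd
  have hp0 : p ≠ 0 := hp.out.ne_zero
  have f0 := hev (-c)
  have f1 := hev (1 - c)
  have f2 := hev 0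
  rw [hst, e0] at f0
  rw [hst, e1] at f1
  rw [hst, e2, zero_pow hp0] at f2
  simp only [Polynomial.eval_add, Polynomial.eval_mul, Polynomial.eval_C, Polynomial.eval_X] at f0 f1 f2
  have h1 : (1 - c) ^ p - (-c) ^ p = 1 := by
    rw [← sub_pow_char]
    ring
  have hs : s = 0 := by
    linear_combination f1 - f0 - s * h1
  rw [hs] at f0 f2
  have : c * (1 - c) = 0 := by
    linear_combination f0 - f2
  rcases mul_eq_zero.1 this with h | h
  · exact hc h
  · exact hc1 h

theorem nz (v : Place) (c : Kbar) (hc : c ∈ LocInt v.p) (hci : (c * (1 - c))⁻¹ ∈ LocInt v.p)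
    (hc0 : c ≠ 0) (hc1 : c ≠ 1) (h5 : 5 ≤ v.p) :
    ¬ ∀ i : Fin 2, v.red (coeff (v.p - 1) (gs c i)) = 0 ∧ v.red (coeff (v.p - 2) (gs c i)) = 0 := by
  intro hall
  obtain ⟨c1, c2⟩ := red_c v c hc hci hc0 hc1
  have h2 : (2 : v.k) ≠ 0 := by
    intro h
    have h' : ((2 : ℕ) : v.k) = 0 := by
      push_cast
      exact h
    rw [CharP.cast_eq_zero_iff v.k v.p 2] at h'
    have := Nat.le_of_dvd (by norm_num) h'
    omega
  let u : Fin 2 → Polynomial v.k := fun i =>
    ∑ n ∈ Finset.range (v.p - 2), Polynomial.C (v.red (coeff n (gs c i))) * Polynomial.X ^ n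
  have hco : ∀ i n, (u i).coeff n = if n < v.p - 2 then v.red (coeff n (gs c i)) else 0 := by
    intro i n
    simp only [u, Polynomial.finsetSum_coeff, Polynomial.coeff_C_mul, Polynomial.coeff_X_pow, mul_ite, mul_one,
      mul_zero, Finset.sum_ite_eq, Finset.mem_range]
  have hrec : ∀ i : Fin 2, ∀ n : ℕ, v.red c * (1 - v.red c) * ((n : v.k) + 2) * ((n : v.k) + 1) * (u i).coeff (n + 2) =
      ((n : v.k) + 1 / 2) ^ 2 * (u i).coeff n - (1 - 2 * v.red c) * ((n : v.k) + 1) ^ 2 * (u i).coeff (n + 1) := by
    intro i n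
    have key : ∀ m, m < v.p → (u i).coeff m = v.red (coeff m (gs c i)) := by
      intro m hm
      rw [hco]
      split_ifs with h
      · rfl
      · have : m = v.p - 1 ∨ m = v.p - 2 := by omega
        rcases this with h | h
        · rw [h, (hall i).1]
        · rw [h, (hall i).2]
    rcases lt_or_ge (n + 2) v.p with h | h
    · rw [key n (by omega), key (n + 1) (by omega), key (n + 2) h]
      exact gs_red v c hc hci hc0 hc1 h5 i n h
    · have a1 : (u i).coeff n = 0 := by
        rw [hco, if_neg (by omega)]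
      have a2 : (u i).coeff (n + 1) = 0 := by
        rw [hco, if_neg (by omega)]
      have a3 : (u i).coeff (n + 2) = 0 := by
        rw [hco, if_neg (by omega)]
      rw [a1, a2, a3]
      ring
  have hdg : ∀ i, (u i).natDegree ≤ v.p - 3 := by
    intro i
    rw [Polynomial.natDegree_le_iff_coeff_eq_zero]
    intro n hn
    rw [hco, if_neg (by omega)]
  obtain ⟨i1, i2, i3, i4⟩ := gs_init c
  have r0 : v.red (0 : Kbar) = 0 := rho_zero v.φ
  have r1 : v.red (1 : Kbar) = 1 := rho_one v.φ
  refine wronskian v.p (v.red c) (u 0) (u 1) c1 c2 h5 (ode _ _ (hrec 0) h2) (ode _ _ (hrec 1) h2) (hdg 0) (hdg 1)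
    ?_ ?_ ?_ ?_
  · rw [hco, if_pos (by omega), i1, r1]
  · rw [hco, if_pos (by omega), i2, r0]
  · rw [hco, if_pos (by omega), i3, r0]
  · rw [hco, if_pos (by omega), i4, r1]

end Pool.Agent.H64.LG
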