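import Pool.Agent.H64.LG.Fin

/-!
# LG.Pul : arbitrary solutions, polynomials over the power series ring, denominators

PROOF. Let `c = κ(0)`, `τ = κ - C c ∈ A0`, `coeff 0 τ = 0`. (1) `τ = 0`: `y.subst 0 = C (coeff 0 y)` for every `y`, so the right side of `hf` is a polynomial in constants with algebraic coefficients, `q f ∈ A0`, `f ∈ A0` (`alg_of_mul`). (2) `τ ≠ 0`: `y₁ = C a₁ g_0 + C b₁ g_1`, `y₂` similarly (`leg_basis`), so with
`subst τ` a ring homomorphism fixing constants the four functions are linear combinations of `dg c ij (τ)`; `P` is the image of a `P' : MvPolynomial (Fin 4) A0` (all coefficients in `A0`: `MvPolynomial.mem_range_map_iff_coeffs_subset` or build it as a sum of monomials), and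
`Q = eval₂ C (linear forms) P' : MvPolynomial (Fin 2 × Fin 2) A0` has `ev c τ Q = q f`. `q f` is globally bounded (`gb_mul`, `gb_of_mem`), so `q f ∈ A0` (`main1`), `f ∈ A0` (`alg_of_mul`).
-/

set_option autoImplicit false

namespace Pool.Agent.H64.LG

open Pool.H61.QF PowerSeries

private theorem pul_C {τ : PowerSeries Kbar} (hτ : HasSubst τ) (a : Kbar) :
    (C a : PowerSeries Kbar).subst τ = C a := by
  have h := map_smul (substAlgHom (R := Kbar) hτ) a (1 : PowerSeries Kbar)
  rw [map_one] at h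
  have e : (a • (1 : PowerSeries Kbar)) = C a := by
    rw [PowerSeries.smul_eq_C_mul, mul_one]
  rw [e] at h
  rw [← coe_substAlgHom hτ]
  exact h

private theorem pul_zero (y : PowerSeries Kbar) : y.subst (0 : PowerSeries Kbar) = C (coeff 0 y) := by
  ext e
  rw [coeff_subst' HasSubst.zero', finsum_eq_single _ 0]
  · rw [pow_zero, smul_eq_mul]
    rw [← PowerSeries.coeff_C_mul, mul_one]
  · intro n hn
    rw [zero_pow hn, map_zero, smul_zero]

private theorem pul_mem (P : MvPolynomial (Fin 4) (PowerSeries Kbar)) (hP : ∀ m, P.coeff m ∈ A0)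
    (v : Fin 4 → PowerSeries Kbar) (hv : ∀ i, v i ∈ A0) : MvPolynomial.eval v P ∈ A0 := by
  rw [MvPolynomial.eval_eq]
  exact sum_mem fun m _ => mul_mem (hP m) (prod_mem fun i _ => pow_mem (hv i) _)

private theorem pul_lift (P : MvPolynomial (Fin 4) (PowerSeries Kbar)) (hP : ∀ m, P.coeff m ∈ A0) :
    ∃ P' : MvPolynomial (Fin 4) A0, MvPolynomial.map A0.subtype P' = P := by
  refine ⟨P.support.sum fun m => MvPolynomial.monomial m ⟨P.coeff m, hP m⟩, ?_⟩
  rw [map_sum]
  conv_rhs => rw [← MvPolynomial.support_sum_monomial_coeff P]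
  refine Finset.sum_congr rfl fun m _ => ?_
  rw [MvPolynomial.map_monomial]
  rfl

theorem main2 (κ : PowerSeries Kbar) (hκ : AlgSeries κ) (h0 : coeff 0 κ ≠ 0) (h1 : coeff 0 κ ≠ 1)
    (y₁ y₂ : PowerSeries Kbar) (hy₁ : Leg (coeff 0 κ) y₁) (hy₂ : Leg (coeff 0 κ) y₂)
    (P : MvPolynomial (Fin 4) (PowerSeries Kbar)) (hP : ∀ m, AlgSeries (P.coeff m))
    (q f : PowerSeries Kbar) (hq : AlgSeries q) (hq0 : q ≠ 0)
    (hf : q * f = MvPolynomial.eval ![y₁.subst (κ - C (coeff 0 κ)), y₂.subst (κ - C (coeff 0 κ)),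
      (derivative Kbar y₁).subst (κ - C (coeff 0 κ)), (derivative Kbar y₂).subst (κ - C (coeff 0 κ))] P)
    (hb : GloballyBounded f) : AlgSeries f := by
  set c := coeff 0 κ with hc
  set τ := κ - C c with hτdef
  have hκ0 : κ ∈ A0 := mem_of_algSeries hκ
  have hτA : τ ∈ A0 := sub_mem hκ0 (cst_mem c)
  have hτ0 : coeff 0 τ = 0 := by
    rw [hτdef, map_sub, coeff_zero_C, ← hc, sub_self]
  have hsub : HasSubst τ := by
    apply HasSubst.of_constantCoeff_zero'
    rw [← coeff_zero_eq_constantCoeff_apply]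
    exact hτ0
  have hqA : q ∈ A0 := mem_of_algSeries hq
  have hPA : ∀ m, P.coeff m ∈ A0 := fun m => mem_of_algSeries (hP m)
  have hqf : q * f ∈ A0 → AlgSeries f := fun h => algSeries_of_mem (alg_of_mul hqA hq0 h)
  apply hqf
  by_cases hτn : τ = 0
  · rw [hf]
    apply pul_mem P hPA
    intro i
    rw [hτn]
    fin_cases i
    · show y₁.subst (0 : PowerSeries Kbar) ∈ A0
      rw [pul_zero]; exact cst_mem _
    · show y₂.subst (0 : PowerSeries Kbar) ∈ A0
      rw [pul_zero]; exact cst_mem _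
    · show (derivative Kbar y₁).subst (0 : PowerSeries Kbar) ∈ A0
      rw [pul_zero]; exact cst_mem _
    · show (derivative Kbar y₂).subst (0 : PowerSeries Kbar) ∈ A0
      rw [pul_zero]; exact cst_mem _
  · obtain ⟨P', hP'⟩ := pul_lift P hPA
    have hgb : GloballyBounded (q * f) := gb_mul (gb_of_mem hqA) hb
    -- linear combinations
    have hlin0 : ∀ y : PowerSeries Kbar, Leg c y →
        y.subst τ = C (coeff 0 y) * (gs c 0).subst τ + C (coeff 1 y) * (gs c 1).subst τ := by
      intro y hy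
      conv_lhs => rw [leg_basis c h0 h1 y hy]
      rw [subst_add hsub, subst_mul hsub, subst_mul hsub, pul_C hsub, pul_C hsub]
    have hlin1 : ∀ y : PowerSeries Kbar, Leg c y →
        (derivative Kbar y).subst τ = C (coeff 0 y) * (derivative Kbar (gs c 0)).subst τ +
          C (coeff 1 y) * (derivative Kbar (gs c 1)).subst τ := by
      intro y hy
      have e : derivative Kbar y = C (coeff 0 y) * derivative Kbar (gs c 0) +
          C (coeff 1 y) * derivative Kbar (gs c 1) := by
        conv_lhs => rw [leg_basis c h0 h1 y hy]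
        rw [map_add, Derivation.leibniz, Derivation.leibniz, derivative_C, derivative_C]
        simp only [smul_eq_mul, mul_zero, add_zero]
      rw [e, subst_add hsub, subst_mul hsub, subst_mul hsub, pul_C hsub, pul_C hsub]
    let L : Kbar → Kbar → Fin 2 → MvPolynomial (Fin 2 × Fin 2) A0 := fun a b j =>
      MvPolynomial.C (cst a) * MvPolynomial.X (0, j) + MvPolynomial.C (cst b) * MvPolynomial.X (1, j)
    have hev : ∀ (a b : Kbar) (j : Fin 2), ev c τ (L a b j) =
        C a * (dg c (0, j)).subst τ + C b * (dg c (1, j)).subst τ := by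
      intro a b j
      show MvPolynomial.eval₂Hom A0.subtype (fun ij => (dg c ij).subst τ) _ = _
      rw [map_add, map_mul, map_mul, MvPolynomial.eval₂Hom_C, MvPolynomial.eval₂Hom_C,
        MvPolynomial.eval₂Hom_X', MvPolynomial.eval₂Hom_X']
      rfl
    let Lv : Fin 4 → MvPolynomial (Fin 2 × Fin 2) A0 :=
      ![L (coeff 0 y₁) (coeff 1 y₁) 0, L (coeff 0 y₂) (coeff 1 y₂) 0,
        L (coeff 0 y₁) (coeff 1 y₁) 1, L (coeff 0 y₂) (coeff 1 y₂) 1]
    have hLv : (fun i => ev c τ (Lv i)) = ![y₁.subst τ, y₂.subst τ,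
        (derivative Kbar y₁).subst τ, (derivative Kbar y₂).subst τ] := by
      funext i
      fin_cases i
      · show ev c τ (L (coeff 0 y₁) (coeff 1 y₁) 0) = y₁.subst τ
        rw [hev, hlin0 y₁ hy₁]
        rfl
      · show ev c τ (L (coeff 0 y₂) (coeff 1 y₂) 0) = y₂.subst τ
        rw [hev, hlin0 y₂ hy₂]
        rfl
      · show ev c τ (L (coeff 0 y₁) (coeff 1 y₁) 1) = (derivative Kbar y₁).subst τ
        rw [hev, hlin1 y₁ hy₁]
        rfl
      · show ev c τ (L (coeff 0 y₂) (coeff 1 y₂) 1) = (derivative Kbar y₂).subst τ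
        rw [hev, hlin1 y₂ hy₂]
        rfl
    have hQ : ev c τ (MvPolynomial.bind₁ Lv P') = q * f := by
      rw [hf, ← hP', MvPolynomial.eval_map, ← hLv]
      exact MvPolynomial.eval₂Hom_bind₁ A0.subtype (fun ij => (dg c ij).subst τ) Lv P'
    have h := main1 c h0 h1 τ hτA hτ0 hτn (MvPolynomial.bind₁ Lv P') (by rw [hQ]; exact hgb)
    rwa [hQ] at h

end Pool.Agent.H64.LG
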