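import Pool.Agent.H64.LG.Shp

/-!
# LG.Qud : the quadratic equations satisfied by the line of the `p`-curvature

PROOF. For almost all places the hypotheses of `loc` and `shape` hold: `5 ≤ p`, `n < p - 1` (`ev_gt`); `c`, `(c (1 - c))⁻¹`, `fl i l` in `LocInt` (`ev_mem`);
`τ` and the coefficients of `Q` integral (`ev_alg`, `ev_Q`); with `e` = order of `τ` (`≥ 1`), `red (coeff e τ) ≠ 0` (`ev_ne`); `ev Q` integral (`ev_gb`).
Insert `shape` into `loc` and cancel `ν`.
-/

set_option autoImplicit false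

namespace Pool.Agent.H64.LG

open Pool.H61.QF PowerSeries

theorem quad (c : Kbar) (hc0 : c ≠ 0) (hc1 : c ≠ 1) (τ : PowerSeries Kbar) (hτ : τ ∈ A0)
    (hτ0 : coeff 0 τ = 0) (hτn : τ ≠ 0) (Q : MvPolynomial (Fin 2 × Fin 2) A0)
    (hQ : GloballyBounded (ev c τ Q)) (n : ℕ) :
    ∀ᶠ v in pl, -(Place.red v (fl c τ Q n 1 0) * al v c ^ 2) +
      (Place.red v (fl c τ Q n 0 0) - Place.red v (fl c τ Q n 1 1)) * (al v c * be v c) +
      Place.red v (fl c τ Q n 0 1) * be v c ^ 2 = 0 := by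
  have hex : ∃ m, coeff m τ ≠ 0 := by
    by_contra h
    push Not at h
    exact hτn (PowerSeries.ext fun m => by rw [h m, map_zero])
  classical
  have he0 := Nat.find_spec hex
  have hemin : ∀ m, m < Nat.find hex → coeff m τ = 0 := fun m hm => by
    by_contra h
    exact Nat.find_min hex hm h
  have he1 : 1 ≤ Nat.find hex := by
    rcases Nat.eq_zero_or_pos (Nat.find hex) with h | h
    · rw [h] at he0
      exact absurd hτ0 he0
    · exact h
  generalize Nat.find hex = e at he0 hemin he1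
  filter_upwards [ev_gt 5, ev_gt (n + 1), ev_mem c, ev_mem (c * (1 - c))⁻¹, ev_alg τ hτ, ev_Q Q,
    ev_ne (coeff e τ) he0, ev_gb _ hQ, ev_mem (fl c τ Q n 0 0), ev_mem (fl c τ Q n 0 1),
    ev_mem (fl c τ Q n 1 0), ev_mem (fl c τ Q n 1 1)] with v v1 v2 v3 v4 v5 v6 v7 v8 v9 v10 v11 v12
  have key := loc v c v3 v4 hc0 hc1 (by omega) τ v5 e he1 hemin v7 Q v6 v8 n (by omega) (by
    intro i l
    fin_cases i <;> fin_cases l
    · exact v9
    · exact v10
    · exact v11
    · exact v12)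
  obtain ⟨ν, hν, h00, h01, h10, h11⟩ := shape v c v3 v4 hc0 hc1 (by omega)
  rw [Fin.sum_univ_two, Fin.sum_univ_two, Fin.sum_univ_two, h00, h01, h10, h11] at key
  refine (mul_eq_zero.mp (?_ : ν * _ = 0)).resolve_left hν
  linear_combination key

end Pool.Agent.H64.LG
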