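import Mathlib

/-!
# LG.RadB : nilpotent elements modulo `p` in a number field, `p` large

PROOF. Let `ω_j` be a `ℤ`-basis of `𝓞 K` (`RingOfIntegers.basis`), `ω*_j` the dual basis of `K` for the trace form (`BilinForm.dualBasis`, `traceForm_nondegenerate`), `δ ≥ 1` an integer with all `δ ω*_j` integral. Let `p ∤ δ` and `p ∣ z^n` in `𝓞 K`. For each `j`, `p ∣ (z ω_j)^n`, so the matrix (in the basis `ω`, reduced modulo `p`) of the
multiplication by `z ω_j` is nilpotent over `ZMod p` and its trace is `0` (`Matrix.isNilpotent_trace_of_isNilpotent`, `ZMod p` is reduced): `p ∣ Tr (z ω_j)` (`Algebra.trace ℤ (𝓞 K)`; `Algebra.trace_localization` / `Algebra.coe_trace_int`). So `δ z = ∑_j Tr (z ω_j) (δ ω*_j)` is in `p 𝓞 K`, and `p ∣ z` because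
`p` and `δ` are coprime. (Alternative: `δ` = the discriminant, which annihilates the radical: `discr * z = ∑ ..` by Cramer.)
-/

set_option autoImplicit false

namespace Pool.Agent.H64.LG

open NumberField

/-- If `p ∣ y ^ n` in `𝓞 K` then `p ∣ Tr y`. -/
private theorem radB_trace (K : Type) [Field K] [NumberField K] (p : ℕ) (hp : p.Prime)
    (y : 𝓞 K) (n : ℕ) (h : (p : 𝓞 K) ∣ y ^ n) : (p : ℤ) ∣ Algebra.trace ℤ (𝓞 K) y := by
  classical
  have : Fact p.Prime := ⟨hp⟩
  obtain ⟨w, hw⟩ := h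
  set b := RingOfIntegers.basis K with hb
  set A := Algebra.leftMulMatrix b y with hA
  have h1 : A ^ n = (p : ℤ) • Algebra.leftMulMatrix b w := by
    rw [hA, ← map_pow, hw, ← map_zsmul]
    congr 1
    simp
  have h2 : ((Int.castRingHom (ZMod p)).mapMatrix A) ^ n = 0 := by
    rw [← map_pow, h1]
    ext i j
    rw [RingHom.mapMatrix_apply, Matrix.map_apply, Matrix.smul_apply, smul_eq_mul, map_mul]
    simp
  have h3 : IsNilpotent ((Int.castRingHom (ZMod p)).mapMatrix A) := ⟨n, h2⟩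
  have h4 := Matrix.isNilpotent_trace_of_isNilpotent h3
  have h5 : Matrix.trace ((Int.castRingHom (ZMod p)).mapMatrix A) = 0 := h4.eq_zero
  have h6 : Matrix.trace ((Int.castRingHom (ZMod p)).mapMatrix A) = ((Matrix.trace A : ℤ) : ZMod p) := by
    simp [Matrix.trace]
  rw [Algebra.trace_eq_matrix_trace b, ← hA]
  rw [h6] at h5
  exact (ZMod.intCast_zmod_eq_zero_iff_dvd _ _).1 h5

theorem radB (K : Type) [Field K] [NumberField K] :
    ∃ δ : ℕ, 1 ≤ δ ∧ ∀ p : ℕ, p.Prime → ¬ p ∣ δ → ∀ z : 𝓞 K, (∃ n : ℕ, (p : 𝓞 K) ∣ z ^ n) → (p : 𝓞 K) ∣ z := by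
  classical
  refine ⟨(NumberField.discr K).natAbs, Int.natAbs_pos.2 (NumberField.discr_ne_zero K), ?_⟩
  intro p hp hpd z hz
  obtain ⟨n, hn⟩ := hz
  set b := RingOfIntegers.basis K with hb
  set c := b.repr z with hc
  have hz : z = ∑ i, c i • b i := (b.sum_repr z).symm
  set M := Algebra.traceMatrix ℤ b with hM
  have hdet : M.det = NumberField.discr K := by
    rw [hM, ← Algebra.discr_def]
  have h1 : ∀ j, (p : ℤ) ∣ (M.mulVec (fun i => c i)) j := by
    intro j
    have h2 : (M.mulVec (fun i => c i)) j = Algebra.trace ℤ (𝓞 K) (b j * z) := by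
      conv_rhs => rw [hz]
      rw [Finset.mul_sum, map_sum]
      simp only [Matrix.mulVec, dotProduct]
      refine Finset.sum_congr rfl fun i _ => ?_
      rw [mul_smul_comm, map_smul, smul_eq_mul, mul_comm]
      rfl
    rw [h2]
    refine radB_trace K p hp _ n ?_
    rw [mul_pow]
    exact Dvd.dvd.mul_left hn _
  have h3 : ∀ i, (p : ℤ) ∣ M.det * c i := by
    intro i
    have h4 : (M.adjugate.mulVec (M.mulVec (fun i => c i))) i = M.det * c i := by
      rw [Matrix.mulVec_mulVec, Matrix.adjugate_mul, Matrix.smul_mulVec, Matrix.one_mulVec]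
      rfl
    rw [← h4]
    simp only [Matrix.mulVec, dotProduct]
    refine Finset.dvd_sum fun j _ => ?_
    exact Dvd.dvd.mul_left (h1 j) _
  have hpp : Prime (p : ℤ) := Nat.prime_iff_prime_int.1 hp
  have h5 : ∀ i, (p : ℤ) ∣ c i := by
    intro i
    rcases hpp.dvd_or_dvd (h3 i) with h | h
    · exfalso
      apply hpd
      rw [hdet] at h
      exact Int.natCast_dvd.1 h
    · exact h
  rw [hz]
  refine Finset.dvd_sum fun i _ => ?_
  obtain ⟨e, he⟩ := h5 i
  rw [he, zsmul_eq_mul]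
  push_cast
  exact ⟨_, mul_assoc _ _ _⟩

end Pool.Agent.H64.LG
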