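import Pool.Agent.H64.LG.RadA
import Pool.Agent.H64.LG.RadB

/-!
# LG.Rad : a number in all primes above `p` is divisible by `p`, for almost all `p`

PROOF. `NumberField K`; `δ` from `radB`. `x^n = p y` (`radA`), `x ∈ K`, so `y ∈ K`. Take `s` prime to `p` with `s x` and `s y` integral over `ℤ` (product of two), `z = s x` as an element of `𝓞 K` (integral over `ℤ` in `K` as `K → Kbar` is injective); `z^(n+1) = p * (s^n y x s)`; more simply `z^n = s^n p y = p * (s^(n-1) (s y))` for
`n ≥ 1` (`n = 0` is impossible or use `n + 1`: `x^(n+1) = p (x y)`). So `p ∣ z` in `𝓞 K`, `x / p = (z / p) / s` is in `LocInt p`.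
-/

set_option autoImplicit false

namespace Pool.Agent.H64.LG

open Pool.H61.QF

theorem rad (K : IntermediateField ℚ Kbar) [FiniteDimensional ℚ K] :
    ∃ δ : ℕ, 1 ≤ δ ∧ ∀ (p : ℕ) [Fact p.Prime], ¬ p ∣ δ → ∀ x : Kbar, x ∈ K → x ∈ LocInt p →
      (∀ (k : Type) [Field k] [CharP k p] (φ : LocInt p →+* k), rho φ x = 0) → x / (p : Kbar) ∈ LocInt p := by
  have : NumberField K := { to_charZero := inferInstance, to_finiteDimensional := inferInstance }
  obtain ⟨δ, h1, h2⟩ := radB K
  refine ⟨δ, h1, ?_⟩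
  intro p hpF hpδ x hxK hxL hx0
  have hp : p.Prime := hpF.out
  have hp0 : (p : Kbar) ≠ 0 := by exact_mod_cast hp.ne_zero
  obtain ⟨n, y, hyL, hxy⟩ := radA p x hxL hx0
  have hxy' : x ^ (n + 1) = (p : Kbar) * (x * y) := by
    rw [pow_succ, hxy]
    ring
  have hyK : x * y ∈ K := by
    have e : x * y = x ^ (n + 1) / (p : Kbar) := by
      rw [hxy']
      field_simp
    rw [e]
    exact K.div_mem (pow_mem hxK (n + 1)) (natCast_mem K p)
  obtain ⟨s, hs, hsx⟩ := hxL
  obtain ⟨t, ht, hty⟩ := (LocInt p).mul_mem (show x ∈ LocInt p from ⟨s, hs, hsx⟩) hyL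
  have hst : ¬ p ∣ s * t := fun h => by
    rcases hp.dvd_mul.1 h with h | h
    · exact hs h
    · exact ht h
  have hzx : IsIntegral ℤ (((s * t : ℕ) : Kbar) * x) := by
    have e : ((s * t : ℕ) : Kbar) * x = (t : Kbar) * ((s : Kbar) * x) := by
      push_cast
      ring
    rw [e]
    exact (isIntegral_nat t).mul hsx
  have hzy : IsIntegral ℤ (((s * t : ℕ) : Kbar) * (x * y)) := by
    have e : ((s * t : ℕ) : Kbar) * (x * y) = (s : Kbar) * ((t : Kbar) * (x * y)) := by
      push_cast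
      ring
    rw [e]
    exact (isIntegral_nat s).mul hty
  have hinj : Function.Injective (algebraMap K Kbar) := (algebraMap K Kbar).injective
  have hzx' : IsIntegral ℤ (((s * t : ℕ) : K) * (⟨x, hxK⟩ : K)) := by
    rw [← isIntegral_algebraMap_iff hinj, map_mul, map_natCast]
    exact hzx
  have hzy' : IsIntegral ℤ (((s * t : ℕ) : K) * (⟨x * y, hyK⟩ : K)) := by
    rw [← isIntegral_algebraMap_iff hinj, map_mul, map_natCast]
    exact hzy
  set z : NumberField.RingOfIntegers K := ⟨((s * t : ℕ) : K) * (⟨x, hxK⟩ : K), hzx'⟩ with hz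
  set w : NumberField.RingOfIntegers K := ⟨((s * t : ℕ) : K) * (⟨x * y, hyK⟩ : K), hzy'⟩ with hw
  have hzc : algebraMap (NumberField.RingOfIntegers K) K z = ((s * t : ℕ) : K) * (⟨x, hxK⟩ : K) := rfl
  have hwc : algebraMap (NumberField.RingOfIntegers K) K w = ((s * t : ℕ) : K) * (⟨x * y, hyK⟩ : K) := rfl
  have hK : ((⟨x, hxK⟩ : K)) ^ (n + 1) = (p : K) * (⟨x * y, hyK⟩ : K) := by
    apply hinj
    rw [map_pow, map_mul, map_natCast]
    exact hxy'
  have hzw : z ^ (n + 1) = (p : NumberField.RingOfIntegers K) * (((s * t : ℕ) : NumberField.RingOfIntegers K) ^ n * w) := by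
    apply NumberField.RingOfIntegers.coe_injective
    rw [map_pow, map_mul, map_mul, map_pow, map_natCast, map_natCast, hzc, hwc, mul_pow, hK]
    ring
  obtain ⟨v, hv⟩ := h2 p hp hpδ z ⟨n + 1, ⟨_, hzw⟩⟩
  refine ⟨s * t, hst, ?_⟩
  have hvK : ((s * t : ℕ) : K) * (⟨x, hxK⟩ : K) = (p : K) * algebraMap (NumberField.RingOfIntegers K) K v := by
    rw [← hzc, hv, map_mul, map_natCast]
  have hvB : ((s * t : ℕ) : Kbar) * x = (p : Kbar) * algebraMap K Kbar (algebraMap (NumberField.RingOfIntegers K) K v) := by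
    have h3 := congrArg (algebraMap K Kbar) hvK
    rw [map_mul, map_mul, map_natCast, map_natCast] at h3
    exact h3
  have e : ((s * t : ℕ) : Kbar) * (x / (p : Kbar)) = algebraMap K Kbar (algebraMap (NumberField.RingOfIntegers K) K v) := by
    rw [← mul_div_assoc, hvB]
    field_simp
  rw [e]
  exact (isIntegral_algebraMap_iff hinj).2 (NumberField.RingOfIntegers.isIntegral_coe v)

end Pool.Agent.H64.LG
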