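import Pool.Agent.H61.QF.Rd1
import Pool.Agent.H61.QF.Pl

/-!
# LG.RadA : numbers in all primes above `p`

PROOF. `x` (as element of the ring `LocInt p`) is in every prime ideal `𝔓` of `LocInt p` which contains `p`: take `k` = fraction field of `LocInt p ⧸ 𝔓` (characteristic `p` as `p = 0` in it), `φ` the natural map; `rho φ x = φ x` (`rho_eq`) is zero, so `x ∈ 𝔓`. So `x` is in the radical of the ideal `(p)`
(`Ideal.radical_eq_sInf`), `x ^ n = p y`.
-/

set_option autoImplicit false

namespace Pool.Agent.H64.LG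

open Pool.H61.QF

theorem radA (p : ℕ) [Fact p.Prime] (x : Kbar) (hx : x ∈ LocInt p)
    (h : ∀ (k : Type) [Field k] [CharP k p] (φ : LocInt p →+* k), rho φ x = 0) :
    ∃ n : ℕ, ∃ y ∈ LocInt p, x ^ n = (p : Kbar) * y := by
  have hp : p.Prime := Fact.out
  have key : (⟨x, hx⟩ : LocInt p) ∈ (Ideal.span {((p : ℕ) : LocInt p)}).radical := by
    rw [Ideal.radical_eq_sInf, Submodule.mem_sInf]
    rintro J ⟨hJ, hJp⟩
    have hpJ : ((p : ℕ) : LocInt p) ∈ J := hJ (Ideal.subset_span rfl)
    have h0 : ((p : ℕ) : LocInt p ⧸ J) = 0 := by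
      have := Ideal.Quotient.eq_zero_iff_mem.2 hpJ
      simpa using this
    have h1 : ((p : ℕ) : FractionRing (LocInt p ⧸ J)) = 0 := by
      have := congrArg (algebraMap (LocInt p ⧸ J) (FractionRing (LocInt p ⧸ J))) h0
      simpa using this
    have hchar : CharP (FractionRing (LocInt p ⧸ J)) p := by
      rcases CharP.exists (FractionRing (LocInt p ⧸ J)) with ⟨c, hc⟩
      have hdvd : c ∣ p := (CharP.cast_eq_zero_iff (FractionRing (LocInt p ⧸ J)) c p).1 h1
      rcases (Nat.dvd_prime hp).1 hdvd with h | h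
      · exfalso
        rw [h] at hc
        exact CharP.char_ne_one (FractionRing (LocInt p ⧸ J)) 1 rfl
      · subst h; exact hc
    have h2 := h (FractionRing (LocInt p ⧸ J))
      ((algebraMap (LocInt p ⧸ J) (FractionRing (LocInt p ⧸ J))).comp (Ideal.Quotient.mk J))
    rw [rho_eq _ hx, RingHom.comp_apply] at h2
    have h3 := (IsFractionRing.injective (LocInt p ⧸ J) (FractionRing (LocInt p ⧸ J)))
      (h2.trans (map_zero _).symm)
    exact Ideal.Quotient.eq_zero_iff_mem.1 h3
  obtain ⟨n, hn⟩ := key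
  obtain ⟨y, hy⟩ := Ideal.mem_span_singleton'.1 hn
  refine ⟨n, y, y.2, ?_⟩
  have h4 := congrArg (fun z : LocInt p => (z : Kbar)) hy
  simp only [SubmonoidClass.coe_pow, MulMemClass.coe_mul] at h4
  rw [← h4, mul_comm]
  simp

end Pool.Agent.H64.LG
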