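import Pool.Agent.H64.LG.Tr
import Pool.Agent.H64.LG.Nz
import Pool.Agent.H64.LG.Cur

/-!
# LG.Shp : the shape of the `p`-curvature

PROOF. Write `α = al`, `β = be`, `N_{il} = red (Np i l)`. `has` at `n = p - 1` and `n = p - 2` (`> (p - 1)/2` as `p ≥ 5`) with `np0`, `np1` (and
`4 c̄ (1 - c̄) ≠ 0`): `α N_{0l} + β N_{1l} = 0` for `l = 0, 1`. `tr`: `N_{00} + N_{11} = 0`. Not all `N_{il}` are zero: otherwise by `np1`
`red (coeff (p-1))` vanish, then by `np0` `9 red (coeff (p-2))` vanish (`9 ≠ 0`), against `nz`. `(α, β) ≠ 0` (`al_be`).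
If `α ≠ 0`: `ν = - N_{10} / α²`: `N_{0l} = - (β/α) N_{1l}`, `N_{11} = - N_{00} = (β/α) N_{10}`, so `N_{10} = - ν α²`, `N_{11} = - ν α β`, `N_{00} = ν α β`,
`N_{01} = -(β/α) N_{11} = ν β²`, and `ν ≠ 0`. If `β ≠ 0` similarly with `ν = N_{01} / β²`.
-/

set_option autoImplicit false

namespace Pool.Agent.H64.LG

open Pool.H61.QF PowerSeries

private theorem cast_ne3 (v : Place) (n : ℕ) (h0 : 0 < n) (hn : n < v.p) : (n : v.k) ≠ 0 := by
  intro h
  rw [CharP.cast_eq_zero_iff v.k v.p n] at h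
  have := Nat.le_of_dvd h0 h
  omega

private theorem shape_alg {K : Type} [Field K] (a b n00 n01 n10 n11 : K) (r0 : a * n00 + b * n10 = 0)
    (r1 : a * n01 + b * n11 = 0) (ht : n00 + n11 = 0) (hn : ¬ (n00 = 0 ∧ n01 = 0 ∧ n10 = 0 ∧ n11 = 0))
    (hab : a ≠ 0 ∨ b ≠ 0) : ∃ ν : K, ν ≠ 0 ∧ n00 = ν * (a * b) ∧ n01 = ν * b ^ 2 ∧ n10 = -(ν * a ^ 2) ∧
      n11 = -(ν * (a * b)) := by
  rcases hab with ha | hb
  · have e00 : n00 = -(n10 / a ^ 2) * (a * b) := by
      field_simp
      linear_combination r0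
    have e11 : n11 = -(-(n10 / a ^ 2) * (a * b)) := by
      rw [← e00]
      linear_combination ht
    have e01 : n01 = -(n10 / a ^ 2) * b ^ 2 := by
      have : a * n01 = a * (-(n10 / a ^ 2) * b ^ 2) := by
        have h1 : a * n01 = -(b * n11) := by linear_combination r1
        rw [h1, e11]
        ring
      exact mul_left_cancel₀ ha this
    have e10 : n10 = -(-(n10 / a ^ 2) * a ^ 2) := by
      field_simp
    refine ⟨-(n10 / a ^ 2), ?_, e00, e01, e10, e11⟩
    intro h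
    apply hn
    refine ⟨?_, ?_, ?_, ?_⟩
    · rw [e00, h]; ring
    · rw [e01, h]; ring
    · rw [e10, h]; ring
    · rw [e11, h]; ring
  · have e11 : n11 = -(n01 / b ^ 2 * (a * b)) := by
      field_simp
      linear_combination r1
    have e00 : n00 = n01 / b ^ 2 * (a * b) := by
      linear_combination ht - e11
    have e10 : n10 = -(n01 / b ^ 2 * a ^ 2) := by
      have : b * n10 = b * (-(n01 / b ^ 2 * a ^ 2)) := by
        have h1 : b * n10 = -(a * n00) := by linear_combination r0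
        rw [h1, e00]
        ring
      exact mul_left_cancel₀ hb this
    have e01 : n01 = n01 / b ^ 2 * b ^ 2 := by
      field_simp
    refine ⟨n01 / b ^ 2, ?_, e00, e01, e10, e11⟩
    intro h
    apply hn
    refine ⟨?_, ?_, ?_, ?_⟩
    · rw [e00, h]; ring
    · rw [e01, h]; ring
    · rw [e10, h]; ring
    · rw [e11, h]; ring

theorem shape (v : Place) (c : Kbar) (hc : c ∈ LocInt v.p) (hci : (c * (1 - c))⁻¹ ∈ LocInt v.p)
    (hc0 : c ≠ 0) (hc1 : c ≠ 1) (h5 : 5 ≤ v.p) :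
    ∃ ν : v.k, ν ≠ 0 ∧ v.red (Np c v.p 0 0) = ν * (al v c * be v c) ∧ v.red (Np c v.p 0 1) = ν * be v c ^ 2 ∧
      v.red (Np c v.p 1 0) = -(ν * al v c ^ 2) ∧ v.red (Np c v.p 1 1) = -(ν * (al v c * be v c)) := by
  obtain ⟨c1, c2⟩ := red_c v c hc hci hc0 hc1
  have f2 : (2 : v.k) ≠ 0 := by
    have := cast_ne3 v 2 (by norm_num) (by omega)
    push_cast at this
    exact this
  have f3 : (3 : v.k) ≠ 0 := by
    have := cast_ne3 v 3 (by norm_num) (by omega)
    push_cast at this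
    exact this
  have f4 : (4 : v.k) ≠ 0 := by
    have := mul_ne_zero f2 f2
    norm_num at this
    exact this
  have f9 : (9 : v.k) ≠ 0 := by
    have := mul_ne_zero f3 f3
    norm_num at this
    exact this
  have hD : 4 * (v.red c * (1 - v.red c)) ≠ 0 := mul_ne_zero f4 (mul_ne_zero c1 c2)
  have hA := has v c hc hci hc0 hc1 h5 (v.p - 1) (by omega) (by omega)
  have hB := has v c hc hci hc0 hc1 h5 (v.p - 2) (by omega) (by omega)
  have p00 := np0 v c hc hci hc0 hc1 h5 0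
  have p10 := np0 v c hc hci hc0 hc1 h5 1
  have p01 := np1 v c hc hci hc0 hc1 h5 0
  have p11 := np1 v c hc hci hc0 hc1 h5 1
  refine shape_alg (al v c) (be v c) _ _ _ _ ?_ ?_ (tr v c hc hci hc0 hc1 h5) ?_ (al_be v c hc hci hc0 hc1 h5)
  · apply mul_left_cancel₀ hD
    linear_combination (al v c) * p00 + (be v c) * p10 + 4 * (1 - 2 * v.red c) * hA - 9 * hB
  · apply mul_left_cancel₀ hD
    linear_combination (al v c) * p01 + (be v c) * p11 + hA
  · rintro ⟨z00, z01, z10, z11⟩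
    apply nz v c hc hci hc0 hc1 h5
    have key : ∀ i : Fin 2, v.red (Np c v.p i 0) = 0 → v.red (Np c v.p i 1) = 0 →
        v.red (coeff (v.p - 1) (gs c i)) = 0 ∧ v.red (coeff (v.p - 2) (gs c i)) = 0 := by
      intro i h0 h1
      have q1 := np1 v c hc hci hc0 hc1 h5 i
      have q0 := np0 v c hc hci hc0 hc1 h5 i
      rw [h1, mul_zero] at q1
      rw [h0, mul_zero, ← q1, mul_zero, zero_sub] at q0
      refine ⟨q1.symm, ?_⟩
      have q2 : 9 * v.red (coeff (v.p - 2) (gs c i)) = 0 := by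
        linear_combination q0
      exact (mul_eq_zero.1 q2).resolve_left f9
    intro i
    fin_cases i
    · exact key 0 z00 z01
    · exact key 1 z10 z11

end Pool.Agent.H64.LG
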