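import Pool.Agent.H64.LG.SQud
import Pool.Agent.H64.LG.Shp
import Pool.Agent.H64.LG.Alg

/-!
# LG.SAnn : functionals which vanish on the projection of `S` vanish on the `p`-curvature

`Sp c τ e` = the tuples `N : J → M₂` which are `0` outside `vis = {j : coeff e (τ j) ≠ 0}` and satisfy `evS c τ (fun j => DK (N j) (Q j)) = 0` for all `Q` with `evS c τ Q` globally bounded.

PROOF of `sann`. Let `l` be a functional on `M₂` with `∑ l i k * N j0 i k = 0` for all `N ∈ Sp`. On the finite dimensional space `X = {N : N j = 0 for j ∉ vis}` the subspace `Sp` is the common kernel of the functionals `Φ_{Q,n}(N) = ∑_j ∑_{i,k} N j i k * fl (c j) (τ j) (Q j) n i k = coeff n (evS (DK (N j) (Q j)))` (`ev_DK`), `Q` globally bounded, `n ∈ ℕ`. So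
the functional `N ↦ ∑ l i k N j0 i k` on `X` is a finite linear combination `∑_a s_a Φ_a` (finite dimensional duality: the double annihilator of the span of the `Φ`; `Subspace.dualAnnihilator_dualCoannihilator_eq`, `mem_span_of_iInf_ker_le_ker`, `Submodule.mem_span_set`..). Testing on elementary tuples: for `j ∈ vis`: `δ_{j j0} l i k = ∑_a s_a fl_{a,j} i k`.
For almost all places everything is integral (`ev_mem`), `squad` holds for all `a`, and `shape` holds for `c j0`; multiply `squad` for `a` by `red s_a` and sum: the terms with `j ∉ vis` vanish (`red (coeff e τ_j) = red 0 = 0`, `p ≠ 0`), and so `0 = red (coeff e (τ j0))^p * ∑ red (Np (c j0) i k) red (l i k)`; `red (coeff e (τ j0)) ≠ 0` (`ev_ne`), insert `shape`, cancel `ν`.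
`Sp_comm`: if `N ∈ Sp` and `evS Q` is globally bounded, then `evS (DK (N j) (Q j)) = 0` is globally bounded, so `evS (DK (M j) (DK (N j) (Q j))) = 0` for `M ∈ Sp`; `DK_comm` for each `j`.
-/

set_option autoImplicit false

namespace Pool.Agent.H64.LG

open Pool.H61.QF PowerSeries

/-- the tuples of matrices which kill the globally bounded sums -/
def Sp {J : Type} [Fintype J] (c : J → Kbar) (τ : J → PowerSeries Kbar) (e : ℕ)
    (N : J → Fin 2 → Fin 2 → Kbar) : Prop :=
  (∀ j, coeff e (τ j) = 0 → N j = 0) ∧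
    ∀ Q : J → MvPolynomial (Fin 2 × Fin 2) A0, GloballyBounded (evS c τ Q) →
      evS c τ (fun j => DK (N j) (Q j)) = 0

private theorem DK_X' (N : Fin 2 → Fin 2 → Kbar) (a : Fin 2 × Fin 2) :
    DK N (MvPolynomial.X a) = MvPolynomial.C (cst (N a.1 0)) * MvPolynomial.X (0, a.2) +
      MvPolynomial.C (cst (N a.1 1)) * MvPolynomial.X (1, a.2) := by
  unfold DK DN
  rw [MvPolynomial.mkDerivation_X, Fin.sum_univ_two]

private theorem DK_add (M N : Fin 2 → Fin 2 → Kbar) (Q : MvPolynomial (Fin 2 × Fin 2) A0) :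
    DK (M + N) Q = DK M Q + DK N Q := by
  have h : DK (M + N) = DK M + DK N := by
    apply MvPolynomial.derivation_ext
    intro a
    rw [Derivation.add_apply, DK_X', DK_X', DK_X']
    simp only [Pi.add_apply, map_add]
    ring
  rw [h, Derivation.add_apply]

private theorem DK_smul (x : Kbar) (N : Fin 2 → Fin 2 → Kbar) (Q : MvPolynomial (Fin 2 × Fin 2) A0) :
    DK (x • N) Q = MvPolynomial.C (cst x) * DK N Q := by
  have h : DK (x • N) = (MvPolynomial.C (cst x) : MvPolynomial (Fin 2 × Fin 2) A0) • DK N := by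
    apply MvPolynomial.derivation_ext
    intro a
    rw [Derivation.smul_apply, DK_X', DK_X', smul_eq_mul]
    simp only [Pi.smul_apply, smul_eq_mul, map_mul]
    ring
  rw [h, Derivation.smul_apply, smul_eq_mul]

private theorem DK_zero (Q : MvPolynomial (Fin 2 × Fin 2) A0) : DK 0 Q = 0 := by
  have h := DK_smul 0 0 Q
  rw [smul_zero, map_zero, map_zero, zero_mul] at h
  exact h

private theorem ev_C (c : Kbar) (τ : PowerSeries Kbar) (x : Kbar) :
    ev c τ (MvPolynomial.C (cst x)) = PowerSeries.C x := by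
  unfold ev evG
  rw [MvPolynomial.coe_eval₂Hom, MvPolynomial.eval₂_C]
  rfl

theorem Sp_comm {J : Type} [Fintype J] (c : J → Kbar) (τ : J → PowerSeries Kbar) (e : ℕ)
    (M N : J → Fin 2 → Fin 2 → Kbar) (hM : Sp c τ e M) (hN : Sp c τ e N) :
    Sp c τ e (fun j i l => ∑ k : Fin 2, (N j i k * M j k l - M j i k * N j k l)) := by
  refine ⟨fun j hj => ?_, fun Q hQ => ?_⟩
  · funext i l
    have h1 := hM.1 j hj
    have h2 := hN.1 j hj
    show ∑ k : Fin 2, (N j i k * M j k l - M j i k * N j k l) = 0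
    rw [h1, h2]
    simp
  · have h1 := hN.2 Q hQ
    have h2 := hM.2 Q hQ
    have h3 := hM.2 (fun j => DK (N j) (Q j)) (by rw [h1]; exact gb_zero)
    have h4 := hN.2 (fun j => DK (M j) (Q j)) (by rw [h2]; exact gb_zero)
    have h5 : evS c τ (fun j => DK (fun i l => ∑ k : Fin 2, (N j i k * M j k l - M j i k * N j k l)) (Q j)) =
        evS c τ (fun j => DK (M j) (DK (N j) (Q j))) - evS c τ (fun j => DK (N j) (DK (M j) (Q j))) := by
      unfold evS
      rw [← Finset.sum_sub_distrib]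
      refine Finset.sum_congr rfl fun j _ => ?_
      rw [← map_sub, DK_comm]
    rw [h5, h3, h4, sub_zero]

theorem Sp_add {J : Type} [Fintype J] (c : J → Kbar) (τ : J → PowerSeries Kbar) (e : ℕ)
    (M N : J → Fin 2 → Fin 2 → Kbar) (hM : Sp c τ e M) (hN : Sp c τ e N) : Sp c τ e (M + N) := by
  refine ⟨fun j hj => ?_, fun Q hQ => ?_⟩
  · rw [Pi.add_apply, hM.1 j hj, hN.1 j hj, add_zero]
  · have h5 : evS c τ (fun j => DK ((M + N) j) (Q j)) =
        evS c τ (fun j => DK (M j) (Q j)) + evS c τ (fun j => DK (N j) (Q j)) := by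
      unfold evS
      rw [← Finset.sum_add_distrib]
      refine Finset.sum_congr rfl fun j _ => ?_
      show ev (c j) (τ j) (DK (M j + N j) (Q j)) = ev (c j) (τ j) (DK (M j) (Q j)) + ev (c j) (τ j) (DK (N j) (Q j))
      rw [DK_add, map_add]
    rw [h5, hM.2 Q hQ, hN.2 Q hQ, add_zero]

theorem Sp_smul {J : Type} [Fintype J] (c : J → Kbar) (τ : J → PowerSeries Kbar) (e : ℕ) (x : Kbar)
    (N : J → Fin 2 → Fin 2 → Kbar) (hN : Sp c τ e N) : Sp c τ e (x • N) := by
  refine ⟨fun j hj => ?_, fun Q hQ => ?_⟩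
  · rw [Pi.smul_apply, hN.1 j hj, smul_zero]
  · have h5 : evS c τ (fun j => DK ((x • N) j) (Q j)) =
        PowerSeries.C x * evS c τ (fun j => DK (N j) (Q j)) := by
      unfold evS
      rw [Finset.mul_sum]
      refine Finset.sum_congr rfl fun j _ => ?_
      show ev (c j) (τ j) (DK (x • N j) (Q j)) = PowerSeries.C x * ev (c j) (τ j) (DK (N j) (Q j))
      rw [DK_smul, map_mul, ev_C]
    rw [h5, hN.2 Q hQ, mul_zero]

theorem Sp_zero {J : Type} [Fintype J] (c : J → Kbar) (τ : J → PowerSeries Kbar) (e : ℕ) :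
    Sp c τ e 0 := by
  refine ⟨fun j _ => rfl, fun Q _ => ?_⟩
  unfold evS
  refine Finset.sum_eq_zero fun j _ => ?_
  show ev (c j) (τ j) (DK 0 (Q j)) = 0
  rw [DK_zero, map_zero]

/-- finite dimensional duality -/
private theorem mem_span_of_dual {ι : Type} [Fintype ι] [DecidableEq ι] (𝓕 : Set (ι → Kbar)) (L : ι → Kbar)
    (h : ∀ N : ι → Kbar, (∀ F ∈ 𝓕, ∑ x, N x * F x = 0) → ∑ x, N x * L x = 0) :
    L ∈ Submodule.span Kbar 𝓕 := by
  by_contra hL
  obtain ⟨f, hf, hk⟩ := Submodule.exists_le_ker_of_notMem hL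
  have hsum : ∀ F : ι → Kbar, f F = ∑ x, f (fun y => if x = y then 1 else 0) * F x := by
    intro F
    rw [LinearMap.pi_apply_eq_sum_univ]
    refine Finset.sum_congr rfl fun x _ => ?_
    rw [smul_eq_mul, mul_comm]
  apply hf
  rw [hsum]
  apply h
  intro F hF
  rw [← hsum]
  exact hk (Submodule.subset_span hF)

private theorem red_add' (v : Place) {x y : Kbar} (hx : x ∈ LocInt v.p) (hy : y ∈ LocInt v.p) :
    v.red (x + y) = v.red x + v.red y := rho_add v.φ hx hy

private theorem red_mul' (v : Place) {x y : Kbar} (hx : x ∈ LocInt v.p) (hy : y ∈ LocInt v.p) :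
    v.red (x * y) = v.red x * v.red y := rho_mul v.φ hx hy

private theorem red_zero' (v : Place) : v.red 0 = 0 := rho_zero v.φ

/-- the relation at a place -/
private noncomputable def rel {J : Type} [Fintype J] (c : J → Kbar) (τ : J → PowerSeries Kbar) (e : ℕ)
    (v : Place) (F : J × Fin 2 × Fin 2 → Kbar) : v.k :=
  ∑ x : J × Fin 2 × Fin 2, v.red (coeff e (τ x.1)) ^ v.p * v.red (Np (c x.1) v.p x.2.1 x.2.2) * v.red (F x)

private theorem rel_span {J : Type} [Fintype J] (c : J → Kbar) (τ : J → PowerSeries Kbar) (e : ℕ)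
    (𝓕 : Set (J × Fin 2 × Fin 2 → Kbar)) (h : ∀ F ∈ 𝓕, ∀ᶠ v in pl, rel c τ e v F = 0)
    (L : J × Fin 2 × Fin 2 → Kbar) (hL : L ∈ Submodule.span Kbar 𝓕) : ∀ᶠ v in pl, rel c τ e v L = 0 := by
  induction hL using Submodule.span_induction with
  | mem F hF => exact h F hF
  | zero =>
    refine Filter.Eventually.of_forall fun v => ?_
    unfold rel
    refine Finset.sum_eq_zero fun x _ => ?_
    rw [Pi.zero_apply, red_zero', mul_zero]
  | add F G _ _ hF hG =>
    filter_upwards [hF, hG, Filter.eventually_all.2 fun x => ev_mem (F x),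
      Filter.eventually_all.2 fun x => ev_mem (G x)] with v h1 h2 m1 m2
    have e1 : rel c τ e v (F + G) = rel c τ e v F + rel c τ e v G := by
      unfold rel
      rw [← Finset.sum_add_distrib]
      refine Finset.sum_congr rfl fun x _ => ?_
      rw [Pi.add_apply, red_add' v (m1 x) (m2 x), mul_add]
    rw [e1, h1, h2, add_zero]
  | smul a F _ hF =>
    filter_upwards [hF, ev_mem a, Filter.eventually_all.2 fun x => ev_mem (F x)] with v h1 ma m1
    have e1 : rel c τ e v (a • F) = v.red a * rel c τ e v F := by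
      unfold rel
      rw [Finset.mul_sum]
      refine Finset.sum_congr rfl fun x _ => ?_
      rw [Pi.smul_apply, smul_eq_mul, red_mul' v ma (m1 x)]
      ring
    rw [e1, h1, mul_zero]

theorem sann {J : Type} [Fintype J] (c : J → Kbar) (hc0 : ∀ j, c j ≠ 0) (hc1 : ∀ j, c j ≠ 1)
    (τ : J → PowerSeries Kbar) (hτ : ∀ j, τ j ∈ A0) (e : ℕ) (he : 1 ≤ e)
    (hτe : ∀ j n, n < e → coeff n (τ j) = 0) (j0 : J) (hj0 : coeff e (τ j0) ≠ 0)
    (l : Fin 2 → Fin 2 → Kbar)
    (hl : ∀ N : J → Fin 2 → Fin 2 → Kbar, Sp c τ e N → ∑ i : Fin 2, ∑ k : Fin 2, N j0 i k * l i k = 0) :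
    ∀ᶠ v in pl, -(Place.red v (l 1 0) * al v (c j0) ^ 2) +
      (Place.red v (l 0 0) - Place.red v (l 1 1)) * (al v (c j0) * be v (c j0)) +
      Place.red v (l 0 1) * be v (c j0) ^ 2 = 0 := by
  classical
  let 𝓕 : Set (J × Fin 2 × Fin 2 → Kbar) :=
    {F | (∃ (Q : J → MvPolynomial (Fin 2 × Fin 2) A0) (n : ℕ), GloballyBounded (evS c τ Q) ∧
      F = fun x => fl (c x.1) (τ x.1) (Q x.1) n x.2.1 x.2.2) ∨
      ∃ x : J × Fin 2 × Fin 2, coeff e (τ x.1) = 0 ∧ F = fun y => if x = y then 1 else 0}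
  let L : J × Fin 2 × Fin 2 → Kbar := fun x => if x.1 = j0 then l x.2.1 x.2.2 else 0
  have hsum3 : ∀ (R : Type) [AddCommMonoid R] (G : J → Fin 2 → Fin 2 → R),
      ∑ x : J × Fin 2 × Fin 2, G x.1 x.2.1 x.2.2 = ∑ j, ∑ i : Fin 2, ∑ k : Fin 2, G j i k := by
    intro R _ G
    rw [Fintype.sum_prod_type]
    refine Finset.sum_congr rfl fun j _ => ?_
    rw [Fintype.sum_prod_type]
  have hLspan : L ∈ Submodule.span Kbar 𝓕 := by
    apply mem_span_of_dual
    intro N hN
    let N' : J → Fin 2 → Fin 2 → Kbar := fun j i k => N (j, i, k)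
    have hSp : Sp c τ e N' := by
      refine ⟨fun j hj => ?_, fun Q hQ => ?_⟩
      · funext i k
        have h1 := hN (fun y => if ((j, i, k) : J × Fin 2 × Fin 2) = y then 1 else 0) (Or.inr ⟨(j, i, k), hj, rfl⟩)
        simp only [mul_ite, mul_one, mul_zero, Finset.sum_ite_eq, Finset.mem_univ, if_true] at h1
        exact h1
      · ext n
        have h1 := hN _ (Or.inl ⟨Q, n, hQ, rfl⟩)
        have h2 : ∑ x : J × Fin 2 × Fin 2, N x * fl (c x.1) (τ x.1) (Q x.1) n x.2.1 x.2.2 =
            ∑ j, ∑ i : Fin 2, ∑ k : Fin 2, N' j i k * fl (c j) (τ j) (Q j) n i k :=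
          hsum3 Kbar (fun j i k => N' j i k * fl (c j) (τ j) (Q j) n i k)
        rw [h2] at h1
        unfold evS
        rw [map_sum, map_zero, ← h1]
        exact Finset.sum_congr rfl fun j _ => ev_DK (c j) (τ j) (N' j) (Q j) n
    have h3 := hl N' hSp
    have h4 : ∑ x, N x * L x = ∑ j, ∑ i : Fin 2, ∑ k : Fin 2, N' j i k * (if j = j0 then l i k else 0) :=
      hsum3 Kbar (fun j i k => N' j i k * (if j = j0 then l i k else 0))
    rw [h4, Finset.sum_eq_single j0]
    · simp only [if_true]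
      exact h3
    · intro j _ hj
      simp only [if_neg hj, mul_zero, Finset.sum_const_zero]
    · intro h
      exact absurd (Finset.mem_univ j0) h
  have hrel := rel_span c τ e 𝓕 (by
    rintro F (⟨Q, n, hQ, rfl⟩ | ⟨x, hx, rfl⟩)
    · filter_upwards [squad c hc0 hc1 τ hτ e he hτe Q hQ n] with v hv
      have h2 : rel c τ e v (fun x => fl (c x.1) (τ x.1) (Q x.1) n x.2.1 x.2.2) =
          ∑ j, ∑ i : Fin 2, ∑ k : Fin 2, v.red (coeff e (τ j)) ^ v.p * v.red (Np (c j) v.p i k) *
            v.red (fl (c j) (τ j) (Q j) n i k) :=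
        hsum3 v.k (fun j i k => v.red (coeff e (τ j)) ^ v.p * v.red (Np (c j) v.p i k) *
            v.red (fl (c j) (τ j) (Q j) n i k))
      rw [h2, ← hv]
      refine Finset.sum_congr rfl fun j _ => ?_
      rw [Finset.mul_sum]
      refine Finset.sum_congr rfl fun i _ => ?_
      rw [Finset.mul_sum]
      refine Finset.sum_congr rfl fun k _ => ?_
      ring
    · refine Filter.Eventually.of_forall fun v => ?_
      unfold rel
      refine Finset.sum_eq_zero fun y _ => ?_
      by_cases hxy : x = y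
      · subst hxy
        rw [hx, red_zero', zero_pow v.hp.out.ne_zero, zero_mul, zero_mul]
      · show _ * v.red (if x = y then 1 else 0) = 0
        rw [if_neg hxy, red_zero', mul_zero]) L hLspan
  filter_upwards [hrel, ev_ne _ hj0, ev_mem (c j0), ev_mem ((c j0 * (1 - c j0))⁻¹), ev_gt 4]
    with v h1 h2 h3 h4 h5
  obtain ⟨ν, hν, s00, s01, s10, s11⟩ := shape v (c j0) h3 h4 (hc0 j0) (hc1 j0) (by omega)
  have h6 : rel c τ e v L =
      ∑ j, ∑ i : Fin 2, ∑ k : Fin 2, v.red (coeff e (τ j)) ^ v.p * v.red (Np (c j) v.p i k) *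
        v.red (if j = j0 then l i k else 0) :=
    hsum3 v.k (fun j i k => v.red (coeff e (τ j)) ^ v.p * v.red (Np (c j) v.p i k) *
        v.red (if j = j0 then l i k else 0))
  rw [h6, Finset.sum_eq_single j0] at h1
  · simp only [if_true, Fin.sum_univ_two] at h1
    rw [s00, s01, s10, s11] at h1
    have h7 : v.red (coeff e (τ j0)) ^ v.p * ν * (-(v.red (l 1 0) * al v (c j0) ^ 2) +
      (v.red (l 0 0) - v.red (l 1 1)) * (al v (c j0) * be v (c j0)) +
      v.red (l 0 1) * be v (c j0) ^ 2) = 0 := by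
      linear_combination h1
    exact (mul_eq_zero.1 h7).resolve_left (mul_ne_zero (pow_ne_zero _ h2) hν)
  · intro j _ hj
    simp only [if_neg hj, red_zero', mul_zero, Finset.sum_const_zero]
  · intro h
    exact absurd (Finset.mem_univ j0) h

end Pool.Agent.H64.LG
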