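import Pool.Agent.H64.LG.SAnn
import Pool.Agent.H64.LG.Cap
import Pool.Agent.H64.LG.Rec

/-!
# LG.SCas : lowering the degree in one family

PROOF. `d = totalDegree (Q j0) ≥ 1`. Let `E, F, H ∈ Sp` be lifts (`hpr`) of the elementary matrices `E_{01}`, `E_{10}`, `diag(1, -1)` at `j0`. `R_j = 2 (D_E D_F + D_F D_E) (Q j) + D_H D_H (Q j)` (with `DK (E j)` etc.); `evS R = 0` (apply `Sp` twice; a tuple with value `0` is globally bounded, `gb_zero`). At `j0`, `capelli` (`DK N = DN (cst N)`, and `cst` of the entries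
`0, 1, -1`): `R_{j0} = Eu (Eu Q) + 2 Eu Q - 4 det * Om Q`. `ev det = w`, where `κ (1 - κ) w = c (1 - c)`, `κ = C (c j0) + τ j0` (`wron` and `subst`), so `w ∈ A0` (`alg_of_mul`); so `ev R_{j0} = ev R'`, `R' = Eu (Eu Q) + 2 Eu Q - 4 C w * Om Q`, `Q = Q j0`. Put `Q' j = Q j - (d (d + 2))⁻¹ R_j` for `j ≠ j0` (constant `C (cst ..)`), and
`Q' j0 = Q - (d (d + 2))⁻¹ R'`. Then `evS Q' = evS Q - (d (d + 2))⁻¹ evS R = evS Q`. `totalDegree (Q' j0) < d`: on monomials of degree `e`, `Eu` is multiplication by `e`, so the part of degree `d` of `d (d + 2) Q - Eu (Eu Q) - 2 Eu Q` vanishes, and `Om` lowers the degree by `2`. `totalDegree (DK N Q) ≤ totalDegree Q` (`DK N` maps monomials to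
sums of monomials of the same degree with constant coefficients). If `coeff e (τ j) = 0` then `E j = F j = H j = 0`, so `R_j = 0` and `Q' j = Q j`.
-/

set_option autoImplicit false

namespace Pool.Agent.H64.LG

open Pool.H61.QF PowerSeries

private lemma coeff_xp {R : Type} [CommRing R] (P : MvPolynomial (Fin 2 × Fin 2) R) (i : Fin 2 × Fin 2)
    (s : (Fin 2 × Fin 2) →₀ ℕ) :
    MvPolynomial.coeff s (MvPolynomial.X i * MvPolynomial.pderiv i P) = (s i : R) * MvPolynomial.coeff s P := by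
  classical
  rw [MvPolynomial.coeff_X_mul']
  by_cases h : i ∈ s.support
  · have h0 : s i ≠ 0 := Finsupp.mem_support_iff.1 h
    have h1 : s - Finsupp.single i 1 + Finsupp.single i 1 = s := by
      ext j
      by_cases hj : j = i
      · subst hj
        simp
        omega
      · simp [Ne.symm hj]
    rw [if_pos h, MvPolynomial.coeff_pderiv, h1]
    have h2 : ((s - (Finsupp.single i 1 : (Fin 2 × Fin 2) →₀ ℕ)) i : ℕ) + 1 = s i := by
      simp
      omega
    have h3 : (((s - (Finsupp.single i 1 : (Fin 2 × Fin 2) →₀ ℕ)) i : ℕ) : R) + 1 = (s i : R) := by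
      rw [← h2]
      push_cast
      rfl
    rw [h3, mul_comm]
  · have h0 : s i = 0 := Finsupp.notMem_support_iff.1 h
    rw [if_neg h, h0]
    simp

private lemma coeff_Eu {R : Type} [CommRing R] (P : MvPolynomial (Fin 2 × Fin 2) R)
    (s : (Fin 2 × Fin 2) →₀ ℕ) :
    MvPolynomial.coeff s (Eu P) = ((∑ i, s i : ℕ) : R) * MvPolynomial.coeff s P := by
  unfold Eu
  rw [MvPolynomial.coeff_sum, Nat.cast_sum, Finset.sum_mul]
  exact Finset.sum_congr rfl fun i _ => coeff_xp P i s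

private lemma sum_supp (s : (Fin 2 × Fin 2) →₀ ℕ) : ∑ i ∈ s.support, s i = ∑ i, s i :=
  Finset.sum_subset (Finset.subset_univ _) fun _ _ hi => Finsupp.notMem_support_iff.1 hi

private lemma co_zero {R : Type} [CommRing R] {P : MvPolynomial (Fin 2 × Fin 2) R} {d : ℕ}
    (h : P.totalDegree ≤ d) {s : (Fin 2 × Fin 2) →₀ ℕ} (hs : d < ∑ i, s i) : MvPolynomial.coeff s P = 0 := by
  refine MvPolynomial.coeff_eq_zero_of_totalDegree_lt ?_
  rw [sum_supp]
  omega

private lemma td_le {R : Type} [CommRing R] {P : MvPolynomial (Fin 2 × Fin 2) R} {d : ℕ}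
    (h : ∀ s : (Fin 2 × Fin 2) →₀ ℕ, d < ∑ i, s i → MvPolynomial.coeff s P = 0) : P.totalDegree ≤ d := by
  unfold MvPolynomial.totalDegree
  refine Finset.sup_le fun s hs => ?_
  by_contra hc
  push Not at hc
  have h1 : (s.sum fun _ e => e) = ∑ i, s i := Finsupp.sum_fintype _ _ fun _ => rfl
  rw [h1] at hc
  exact (MvPolynomial.mem_support_iff.1 hs) (h s hc)

private lemma co_Om {R : Type} [CommRing R] {P : MvPolynomial (Fin 2 × Fin 2) R} {d : ℕ}
    (h : P.totalDegree ≤ d + 1) {s : (Fin 2 × Fin 2) →₀ ℕ} (hs : d < ∑ i, s i) :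
    MvPolynomial.coeff s (Om P) = 0 := by
  unfold Om
  have key : ∀ a b : Fin 2 × Fin 2,
      MvPolynomial.coeff (s + Finsupp.single a 1 + Finsupp.single b 1) P = 0 := by
    intro a b
    refine co_zero h ?_
    have h1 : ∑ i, (s + (Finsupp.single a 1 : (Fin 2 × Fin 2) →₀ ℕ) + (Finsupp.single b 1 : (Fin 2 × Fin 2) →₀ ℕ)) i =
        (∑ i, s i) + (∑ i, (Finsupp.single a 1 : (Fin 2 × Fin 2) →₀ ℕ) i) +
          ∑ i, (Finsupp.single b 1 : (Fin 2 × Fin 2) →₀ ℕ) i := by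
      rw [← Finset.sum_add_distrib, ← Finset.sum_add_distrib]
      rfl
    have h2 : ∀ c : Fin 2 × Fin 2, (∑ i, (Finsupp.single c 1 : (Fin 2 × Fin 2) →₀ ℕ) i) = 1 := by
      intro c
      rw [Finset.sum_eq_single c]
      · simp
      · intro j _ hj
        simp [Ne.symm hj]
      · intro hc
        exact absurd (Finset.mem_univ c) hc
    rw [h1, h2, h2]
    omega
  rw [MvPolynomial.coeff_sub, MvPolynomial.coeff_pderiv, MvPolynomial.coeff_pderiv,
    MvPolynomial.coeff_pderiv, MvPolynomial.coeff_pderiv, key, key]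
  simp

private lemma ev_C (c : Kbar) (τ : PowerSeries Kbar) (a : A0) : ev c τ (MvPolynomial.C a) = (a : PowerSeries Kbar) := by
  unfold ev evG
  rw [MvPolynomial.coe_eval₂Hom, MvPolynomial.eval₂_C]
  rfl

private lemma ev_X (c : Kbar) (τ : PowerSeries Kbar) (i : Fin 2 × Fin 2) :
    ev c τ (MvPolynomial.X i) = (dg c i).subst τ := by
  unfold ev evG
  rw [MvPolynomial.coe_eval₂Hom, MvPolynomial.eval₂_X]

private lemma DN_DK (N : Fin 2 → Fin 2 → Kbar) (N' : Fin 2 → Fin 2 → A0) (h : ∀ i l, N' i l = cst (N i l)) :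
    DN N' = DK N := by
  unfold DK
  congr 1
  funext i l
  exact h i l

private lemma det_mem (c : Kbar) (hc0 : c ≠ 0) (hc1 : c ≠ 1) (τ : PowerSeries Kbar) (hτ : τ ∈ A0)
    (hτ0 : coeff 0 τ = 0) :
    ev c τ (MvPolynomial.X (0, 0) * MvPolynomial.X (1, 1) - MvPolynomial.X (1, 0) * MvPolynomial.X (0, 1)) ∈ A0 := by
  have hs : HasSubst τ := by
    refine HasSubst.of_constantCoeff_zero' ?_
    rw [← coeff_zero_eq_constantCoeff_apply]
    exact hτ0
  have h1 := congrArg (fun f => substAlgHom (R := Kbar) hs f) (wron c hc0 hc1)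
  simp only [map_mul, map_sub, map_add, map_one] at h1
  have hX : substAlgHom (R := Kbar) hs (X : PowerSeries Kbar) = τ := substAlgHom_X hs
  have hC : ∀ x : Kbar, (C x : PowerSeries Kbar).subst τ = (C x : PowerSeries Kbar) := by
    intro x
    rw [← coe_substAlgHom hs]
    exact (substAlgHom (R := Kbar) hs).commutes x
  rw [hX] at h1
  simp only [coe_substAlgHom, hC] at h1
  have h2 : ev c τ (MvPolynomial.X (0, 0) * MvPolynomial.X (1, 1) -
      MvPolynomial.X (1, 0) * MvPolynomial.X (0, 1)) =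
      (dg c (0, 0)).subst τ * (dg c (1, 1)).subst τ - (dg c (1, 0)).subst τ * (dg c (0, 1)).subst τ := by
    rw [map_sub, map_mul, map_mul, ev_X, ev_X, ev_X, ev_X]
  rw [h2]
  have hc : c * (1 - c) ≠ 0 := mul_ne_zero hc0 (sub_ne_zero.2 (Ne.symm hc1))
  have hCne : (C (c * (1 - c)) : PowerSeries Kbar) ≠ 0 := by
    intro h
    apply hc
    have h3 := congrArg (fun f => coeff 0 f) h
    simpa using h3
  have hq : (C c + τ) * (1 - (C c + τ)) ∈ A0 :=
    A0.mul_mem (A0.add_mem (cst_mem c) hτ) (A0.sub_mem A0.one_mem (A0.add_mem (cst_mem c) hτ))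
  refine alg_of_mul hq ?_ ?_
  · intro h0
    rw [h0, zero_mul] at h1
    apply hCne
    rw [map_mul, map_sub, map_one]
    exact h1.symm
  · rw [h1]
    exact A0.mul_mem (cst_mem _) (A0.sub_mem A0.one_mem (cst_mem _))

private theorem dn_eq' {R : Type} [CommRing R] (N : Fin 2 → Fin 2 → R) (P : MvPolynomial (Fin 2 × Fin 2) R) :
    DN N P = ∑ ij : Fin 2 × Fin 2, (∑ l : Fin 2, MvPolynomial.C (N ij.1 l) * MvPolynomial.X (l, ij.2)) *
      MvPolynomial.pderiv ij P := by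
  have h : DN N =
      (∑ l : Fin 2, MvPolynomial.C (N 0 l) * MvPolynomial.X (l, 0) : MvPolynomial (Fin 2 × Fin 2) R) •
        (MvPolynomial.pderiv (0, 0) : Derivation R (MvPolynomial (Fin 2 × Fin 2) R) (MvPolynomial (Fin 2 × Fin 2) R)) +
      (∑ l : Fin 2, MvPolynomial.C (N 0 l) * MvPolynomial.X (l, 1) : MvPolynomial (Fin 2 × Fin 2) R) •
        (MvPolynomial.pderiv (0, 1) : Derivation R (MvPolynomial (Fin 2 × Fin 2) R) (MvPolynomial (Fin 2 × Fin 2) R)) +
      (∑ l : Fin 2, MvPolynomial.C (N 1 l) * MvPolynomial.X (l, 0) : MvPolynomial (Fin 2 × Fin 2) R) •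
        (MvPolynomial.pderiv (1, 0) : Derivation R (MvPolynomial (Fin 2 × Fin 2) R) (MvPolynomial (Fin 2 × Fin 2) R)) +
      (∑ l : Fin 2, MvPolynomial.C (N 1 l) * MvPolynomial.X (l, 1) : MvPolynomial (Fin 2 × Fin 2) R) •
        (MvPolynomial.pderiv (1, 1) : Derivation R (MvPolynomial (Fin 2 × Fin 2) R) (MvPolynomial (Fin 2 × Fin 2) R)) := by
    refine MvPolynomial.derivation_ext fun k => ?_
    unfold DN
    rw [MvPolynomial.mkDerivation_X]
    simp only [Derivation.add_apply, Derivation.smul_apply, MvPolynomial.pderiv_X, smul_eq_mul]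
    obtain ⟨i, j⟩ := k
    fin_cases i <;> fin_cases j <;> simp
  rw [h]
  simp only [Derivation.add_apply, Derivation.smul_apply, smul_eq_mul, Fintype.sum_prod_type,
    Fin.sum_univ_two]
  ring

private lemma deg_single (c : Fin 2 × Fin 2) : (∑ i, (Finsupp.single c 1 : (Fin 2 × Fin 2) →₀ ℕ) i) = 1 := by
  rw [Finset.sum_eq_single c]
  · simp
  · intro j _ hj
    simp [Ne.symm hj]
  · intro hc
    exact absurd (Finset.mem_univ c) hc

private lemma co_Xp {R : Type} [CommRing R] {P : MvPolynomial (Fin 2 × Fin 2) R} {d : ℕ}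
    (h : P.totalDegree ≤ d) (a b : Fin 2 × Fin 2) {s : (Fin 2 × Fin 2) →₀ ℕ} (hs : d < ∑ i, s i) :
    MvPolynomial.coeff s (MvPolynomial.X a * MvPolynomial.pderiv b P) = 0 := by
  classical
  rw [MvPolynomial.coeff_X_mul']
  split_ifs with ha
  · rw [MvPolynomial.coeff_pderiv]
    have h0 : s a ≠ 0 := Finsupp.mem_support_iff.1 ha
    have h1 : s - Finsupp.single a 1 + Finsupp.single a 1 = s := by
      ext j
      by_cases hj : j = a
      · subst hj
        simp
        omega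
      · simp [Ne.symm hj]
    have h2 : ∑ i, (s - (Finsupp.single a 1 : (Fin 2 × Fin 2) →₀ ℕ) + (Finsupp.single b 1 : (Fin 2 × Fin 2) →₀ ℕ)) i =
        ∑ i, s i := by
      have e1 : ∑ i, (s - (Finsupp.single a 1 : (Fin 2 × Fin 2) →₀ ℕ) + (Finsupp.single b 1 : (Fin 2 × Fin 2) →₀ ℕ)) i =
          ∑ i, (s - (Finsupp.single a 1 : (Fin 2 × Fin 2) →₀ ℕ)) i + ∑ i, (Finsupp.single b 1 : (Fin 2 × Fin 2) →₀ ℕ) i := by
        rw [← Finset.sum_add_distrib]
        rfl
      have e2 : ∑ i, s i =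
          ∑ i, (s - (Finsupp.single a 1 : (Fin 2 × Fin 2) →₀ ℕ)) i + ∑ i, (Finsupp.single a 1 : (Fin 2 × Fin 2) →₀ ℕ) i := by
        rw [← Finset.sum_add_distrib]
        refine Finset.sum_congr rfl fun i _ => ?_
        have := congrArg (fun f : (Fin 2 × Fin 2) →₀ ℕ => f i) h1
        simpa using this.symm
      rw [e1, e2, deg_single, deg_single]
    have h3 : MvPolynomial.coeff (s - (Finsupp.single a 1 : (Fin 2 × Fin 2) →₀ ℕ) + (Finsupp.single b 1 : (Fin 2 × Fin 2) →₀ ℕ)) P = 0 :=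
      co_zero h (by rw [h2]; exact hs)
    rw [h3, zero_mul]
  · rfl

private lemma td_DK (N : Fin 2 → Fin 2 → Kbar) (P : MvPolynomial (Fin 2 × Fin 2) A0) :
    (DK N P).totalDegree ≤ P.totalDegree := by
  refine td_le fun s hs => ?_
  unfold DK
  rw [dn_eq', MvPolynomial.coeff_sum]
  refine Finset.sum_eq_zero fun ij _ => ?_
  rw [Finset.sum_mul, MvPolynomial.coeff_sum]
  refine Finset.sum_eq_zero fun l _ => ?_
  rw [mul_assoc, MvPolynomial.coeff_C_mul, co_Xp le_rfl _ _ hs, mul_zero]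

private lemma td_C_mul (x : A0) (P : MvPolynomial (Fin 2 × Fin 2) A0) {d : ℕ} (h : P.totalDegree ≤ d) :
    (MvPolynomial.C x * P).totalDegree ≤ d := by
  refine td_le fun s hs => ?_
  rw [MvPolynomial.coeff_C_mul, co_zero h hs, mul_zero]

private lemma td_add {P Q : MvPolynomial (Fin 2 × Fin 2) A0} {d : ℕ} (h : P.totalDegree ≤ d)
    (h' : Q.totalDegree ≤ d) : (P + Q).totalDegree ≤ d := by
  refine td_le fun s hs => ?_
  rw [MvPolynomial.coeff_add, co_zero h hs, co_zero h' hs, add_zero]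

private lemma td_sub {P Q : MvPolynomial (Fin 2 × Fin 2) A0} {d : ℕ} (h : P.totalDegree ≤ d)
    (h' : Q.totalDegree ≤ d) : (P - Q).totalDegree ≤ d := by
  refine td_le fun s hs => ?_
  rw [MvPolynomial.coeff_sub, co_zero h hs, co_zero h' hs, sub_zero]

private theorem DK_zero' (Q : MvPolynomial (Fin 2 × Fin 2) A0) : DK 0 Q = 0 := by
  unfold DK
  rw [dn_eq']
  refine Finset.sum_eq_zero fun ij _ => ?_
  simp

/-- the Casimir element for three matrices -/
private noncomputable def Cs (E F H : Fin 2 → Fin 2 → Kbar) (Q : MvPolynomial (Fin 2 × Fin 2) A0) :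
    MvPolynomial (Fin 2 × Fin 2) A0 :=
  MvPolynomial.C 2 * (DK E (DK F Q) + DK F (DK E Q)) + DK H (DK H Q)

private lemma td_Cs (E F H : Fin 2 → Fin 2 → Kbar) (Q : MvPolynomial (Fin 2 × Fin 2) A0) :
    (Cs E F H Q).totalDegree ≤ Q.totalDegree := by
  unfold Cs
  have h : ∀ M N : Fin 2 → Fin 2 → Kbar, (DK M (DK N Q)).totalDegree ≤ Q.totalDegree :=
    fun M N => (td_DK M _).trans (td_DK N Q)
  exact td_add (td_C_mul _ _ (td_add (h _ _) (h _ _))) (h _ _)

private lemma Cs_zero (Q : MvPolynomial (Fin 2 × Fin 2) A0) : Cs 0 0 0 Q = 0 := by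
  unfold Cs
  simp only [DK_zero', add_zero, mul_zero]

private lemma Cs_std (Q : MvPolynomial (Fin 2 × Fin 2) A0) :
    Cs (fun i l => if i = 0 ∧ l = 1 then 1 else 0) (fun i l => if i = 1 ∧ l = 0 then 1 else 0)
      (fun i l => if i = 0 ∧ l = 0 then 1 else if i = 1 ∧ l = 1 then -1 else 0) Q =
    Eu (Eu Q) + MvPolynomial.C 2 * Eu Q - MvPolynomial.C 4 *
      ((MvPolynomial.X (0, 0) * MvPolynomial.X (1, 1) - MvPolynomial.X (1, 0) * MvPolynomial.X (0, 1)) * Om Q) := by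
  have e1 := capelli Q
  have hE : (DN fun i l : Fin 2 => if i = 0 ∧ l = 1 then (1 : A0) else 0) =
      DK fun i l => if i = 0 ∧ l = 1 then (1 : Kbar) else 0 :=
    DN_DK _ _ fun i l => by split_ifs <;> simp
  have hF : (DN fun i l : Fin 2 => if i = 1 ∧ l = 0 then (1 : A0) else 0) =
      DK fun i l => if i = 1 ∧ l = 0 then (1 : Kbar) else 0 :=
    DN_DK _ _ fun i l => by split_ifs <;> simp
  have hH : (DN fun i l : Fin 2 => if i = 0 ∧ l = 0 then (1 : A0) else if i = 1 ∧ l = 1 then -1 else 0) =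
      DK fun i l => if i = 0 ∧ l = 0 then (1 : Kbar) else if i = 1 ∧ l = 1 then -1 else 0 :=
    DN_DK _ _ fun i l => by split_ifs <;> simp
  simp only [hE, hF, hH] at e1
  unfold Cs
  have h2 : (MvPolynomial.C 2 : MvPolynomial (Fin 2 × Fin 2) A0) = 2 := map_ofNat _ 2
  have h4 : (MvPolynomial.C 4 : MvPolynomial (Fin 2 × Fin 2) A0) = 4 := map_ofNat _ 4
  rw [h2, h4]
  exact e1

theorem scas {J : Type} [Fintype J] (c : J → Kbar) (hc0 : ∀ j, c j ≠ 0) (hc1 : ∀ j, c j ≠ 1)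
    (τ : J → PowerSeries Kbar) (hτ : ∀ j, τ j ∈ A0) (hτ0 : ∀ j, coeff 0 (τ j) = 0) (e : ℕ)
    (j0 : J) (hj0 : coeff e (τ j0) ≠ 0)
    (hpr : ∀ N : Fin 2 → Fin 2 → Kbar, N 0 0 + N 1 1 = 0 →
      ∃ M : J → Fin 2 → Fin 2 → Kbar, Sp c τ e M ∧ M j0 = N)
    (Q : J → MvPolynomial (Fin 2 × Fin 2) A0) (hQ : GloballyBounded (evS c τ Q))
    (hd : 1 ≤ (Q j0).totalDegree) :
    ∃ Q' : J → MvPolynomial (Fin 2 × Fin 2) A0, evS c τ Q' = evS c τ Q ∧
      (Q' j0).totalDegree < (Q j0).totalDegree ∧ (∀ j, (Q' j).totalDegree ≤ (Q j).totalDegree) ∧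
      ∀ j, coeff e (τ j) = 0 → Q' j = Q j := by
  classical
  obtain ⟨E, hE, hE0⟩ := hpr (fun i l => if i = 0 ∧ l = 1 then 1 else 0) (by simp)
  obtain ⟨F, hF, hF0⟩ := hpr (fun i l => if i = 1 ∧ l = 0 then 1 else 0) (by simp)
  obtain ⟨H, hH, hH0⟩ := hpr (fun i l => if i = 0 ∧ l = 0 then 1 else if i = 1 ∧ l = 1 then -1 else 0)
    (by simp)
  obtain ⟨w, hw⟩ : ∃ w : A0, (w : PowerSeries Kbar) = ev (c j0) (τ j0)
      (MvPolynomial.X (0, 0) * MvPolynomial.X (1, 1) - MvPolynomial.X (1, 0) * MvPolynomial.X (0, 1)) :=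
    ⟨⟨_, det_mem (c j0) (hc0 j0) (hc1 j0) (τ j0) (hτ j0) (hτ0 j0)⟩, rfl⟩
  have hk2 : ∀ M N : J → Fin 2 → Fin 2 → Kbar, Sp c τ e M → Sp c τ e N →
      ∑ j, ev (c j) (τ j) (DK (M j) (DK (N j) (Q j))) = 0 := by
    intro M N hM hN
    have h1 := hN.2 Q hQ
    exact hM.2 (fun j => DK (N j) (Q j)) (by rw [h1]; exact gb_zero)
  have hR : ∑ j, ev (c j) (τ j) (Cs (E j) (F j) (H j) (Q j)) = 0 := by
    have h1 : ∀ j, ev (c j) (τ j) (Cs (E j) (F j) (H j) (Q j)) =
        2 * (ev (c j) (τ j) (DK (E j) (DK (F j) (Q j))) + ev (c j) (τ j) (DK (F j) (DK (E j) (Q j)))) +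
          ev (c j) (τ j) (DK (H j) (DK (H j) (Q j))) := by
      intro j
      unfold Cs
      simp only [map_add, map_mul, map_ofNat]
    simp only [h1]
    rw [Finset.sum_add_distrib, ← Finset.mul_sum, Finset.sum_add_distrib, hk2 E F hE hF,
      hk2 F E hF hE, hk2 H H hH hH]
    ring
  obtain ⟨d, hd'⟩ : ∃ d, (Q j0).totalDegree = d + 1 := ⟨(Q j0).totalDegree - 1, by omega⟩
  set n : ℕ := (d + 1) * (d + 3) with hn
  have hn0 : (n : Kbar) ≠ 0 := by
    have : n ≠ 0 := by rw [hn]; positivity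
    exact_mod_cast this
  set k : A0 := cst ((n : Kbar)⁻¹) with hk
  have hkn : k * (n : A0) = 1 := by
    rw [hk, ← map_natCast cst, ← map_mul, inv_mul_cancel₀ hn0, map_one]
  let R' : MvPolynomial (Fin 2 × Fin 2) A0 :=
    Eu (Eu (Q j0)) + MvPolynomial.C 2 * Eu (Q j0) - MvPolynomial.C (4 * w) * Om (Q j0)
  have hR' : ev (c j0) (τ j0) R' = ev (c j0) (τ j0) (Cs (E j0) (F j0) (H j0) (Q j0)) := by
    rw [hE0, hF0, hH0, Cs_std]
    show ev (c j0) (τ j0) (Eu (Eu (Q j0)) + MvPolynomial.C 2 * Eu (Q j0) - MvPolynomial.C (4 * w) * Om (Q j0)) = _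
    simp only [map_add, map_sub, map_mul, map_ofNat, ev_C, hw]
    ring
  have hdeg0 : (Q j0 - MvPolynomial.C k * R').totalDegree ≤ d := by
    refine td_le fun s hs => ?_
    have e1 : MvPolynomial.coeff s R' = ((∑ i, s i : ℕ) : A0) * (((∑ i, s i : ℕ) : A0) * MvPolynomial.coeff s (Q j0)) +
        2 * (((∑ i, s i : ℕ) : A0) * MvPolynomial.coeff s (Q j0)) := by
      show MvPolynomial.coeff s (Eu (Eu (Q j0)) + MvPolynomial.C 2 * Eu (Q j0) - MvPolynomial.C (4 * w) * Om (Q j0)) = _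
      rw [MvPolynomial.coeff_sub, MvPolynomial.coeff_add, MvPolynomial.coeff_C_mul, MvPolynomial.coeff_C_mul,
        coeff_Eu, coeff_Eu, co_Om hd'.le hs, mul_zero, sub_zero]
    rw [MvPolynomial.coeff_sub, MvPolynomial.coeff_C_mul, e1]
    rcases Nat.lt_or_ge (d + 1) (∑ i, s i) with h1 | h1
    · rw [co_zero hd'.le h1]
      simp
    · have h2 : ∑ i, s i = d + 1 := by omega
      rw [h2]
      have h3 : ((n : ℕ) : A0) = ((d : A0) + 1) * ((d : A0) + 3) := by
        rw [hn]; push_cast; ring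
      rw [h3] at hkn
      push_cast
      linear_combination (-(MvPolynomial.coeff s (Q j0))) * hkn
  refine ⟨fun j => if j = j0 then Q j0 - MvPolynomial.C k * R' else
    Q j - MvPolynomial.C k * Cs (E j) (F j) (H j) (Q j), ?_, ?_, ?_, ?_⟩
  · have h1 : ∀ j, ev (c j) (τ j) (if j = j0 then Q j0 - MvPolynomial.C k * R' else
        Q j - MvPolynomial.C k * Cs (E j) (F j) (H j) (Q j)) =
        ev (c j) (τ j) (Q j) - (k : PowerSeries Kbar) * ev (c j) (τ j) (Cs (E j) (F j) (H j) (Q j)) := by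
      intro j
      by_cases hj : j = j0
      · subst hj
        rw [if_pos rfl, map_sub, map_mul, ev_C, hR']
      · rw [if_neg hj, map_sub, map_mul, ev_C]
    unfold evS
    simp only [h1]
    rw [Finset.sum_sub_distrib, ← Finset.mul_sum, hR, mul_zero, sub_zero]
  · show (if j0 = j0 then Q j0 - MvPolynomial.C k * R' else
      Q j0 - MvPolynomial.C k * Cs (E j0) (F j0) (H j0) (Q j0)).totalDegree < _
    rw [if_pos rfl, hd']
    omega
  · intro j
    show (if j = j0 then Q j0 - MvPolynomial.C k * R' else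
      Q j - MvPolynomial.C k * Cs (E j) (F j) (H j) (Q j)).totalDegree ≤ _
    by_cases hj : j = j0
    · subst hj
      rw [if_pos rfl]
      omega
    · rw [if_neg hj]
      exact td_sub le_rfl (td_C_mul _ _ (td_Cs _ _ _ _))
  · intro j hj
    have hne : j ≠ j0 := by
      rintro rfl
      exact hj0 hj
    show (if j = j0 then Q j0 - MvPolynomial.C k * R' else
      Q j - MvPolynomial.C k * Cs (E j) (F j) (H j) (Q j)) = Q j
    rw [if_neg hne, hE.1 j hj, hF.1 j hj, hH.1 j hj, Cs_zero, mul_zero, sub_zero]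

end Pool.Agent.H64.LG
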