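import Pool.Agent.H64.LG.Defs

/-!
# LG.SDef : sums over several families

For a finite family of points `c j` and algebraic series `τ j` (`τ j (0) = 0`): `evS c τ Q = ∑_j ev (c j) (τ j) (Q j)`. THEOREM (`SFin`): if `evS c τ Q` is globally bounded then it is algebraic.
-/

set_option autoImplicit false

namespace Pool.Agent.H64.LG

open Pool.H61.QF

/-- sum of polynomials in the solutions for several families -/
noncomputable def evS {J : Type} [Fintype J] (c : J → Kbar) (τ : J → PowerSeries Kbar)
    (Q : J → MvPolynomial (Fin 2 × Fin 2) A0) : PowerSeries Kbar := ∑ j, ev (c j) (τ j) (Q j)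

end Pool.Agent.H64.LG
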