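import Pool.Agent.H64.LG.SPr
import Pool.Agent.H64.LG.SCas
import Pool.Agent.H64.LG.Cor

/-!
# LG.SFin : globally bounded sums are algebraic

PROOF. Induction on the number of elements of `J`. `J` empty: `evS = 0`. Otherwise let `e` = the least order of the `τ j` (`≥ 1`), so `coeff n (τ j) = 0` for `n < e`, and `vis = {j : coeff e (τ j) ≠ 0}` is not empty. (`step`) By induction on `∑_{j ∈ vis} totalDegree (Q j)` (`spr` with `lin`, and `scas`) there is `Q'` with `evS Q' = evS Q`,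
`totalDegree (Q' j) = 0` for `j ∈ vis` and `Q' j = Q j` for `j ∉ vis`. For `j ∈ vis`, `Q' j = C a_j` and `ev (Q' j) = a_j ∈ A0`. So `evS Q = (algebraic) + ∑_{j ∉ vis} ev (Q j)`; the second sum is `evS` of the restriction to the subtype `{j // coeff e (τ j) = 0}`, it is globally bounded (`gb_add`, `gb_of_mem`), the subtype has fewer elements, so it is
algebraic by induction. (Universe: all `J : Type`.)
-/

set_option autoImplicit false

namespace Pool.Agent.H64.LG

open Pool.H61.QF PowerSeries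

private theorem step {J : Type} [Fintype J] (c : J → Kbar) (hc0 : ∀ j, c j ≠ 0) (hc1 : ∀ j, c j ≠ 1)
    (τ : J → PowerSeries Kbar) (hτ : ∀ j, τ j ∈ A0) (hτ0 : ∀ j, coeff 0 (τ j) = 0) (e : ℕ) (he : 1 ≤ e)
    (hτe : ∀ j n, n < e → coeff n (τ j) = 0) (vis : Finset J) (hvis : ∀ j, j ∈ vis ↔ coeff e (τ j) ≠ 0) :
    ∀ (D : ℕ) (Q : J → MvPolynomial (Fin 2 × Fin 2) A0), GloballyBounded (evS c τ Q) →
      ∑ j ∈ vis, (Q j).totalDegree ≤ D →
      ∃ Q' : J → MvPolynomial (Fin 2 × Fin 2) A0, evS c τ Q' = evS c τ Q ∧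
        (∀ j ∈ vis, (Q' j).totalDegree = 0) ∧ ∀ j, j ∉ vis → Q' j = Q j := by
  intro D
  induction D with
  | zero =>
    intro Q _ hD
    refine ⟨Q, rfl, ?_, fun _ _ => rfl⟩
    intro j hj
    have h0 : ∑ j ∈ vis, (Q j).totalDegree = 0 := Nat.le_zero.mp hD
    exact (Finset.sum_eq_zero_iff.mp h0) j hj
  | succ D ih =>
    intro Q hQ hD
    by_cases hall : ∀ j ∈ vis, (Q j).totalDegree = 0
    · exact ⟨Q, rfl, hall, fun _ _ => rfl⟩
    · push Not at hall
      obtain ⟨j0, hj0, hd⟩ := hall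
      have hj0' : coeff e (τ j0) ≠ 0 := (hvis j0).mp hj0
      obtain ⟨Q1, h1, h2, h3, h4⟩ := scas c hc0 hc1 τ hτ hτ0 e j0 hj0'
        (fun N hN => spr c hc0 hc1 τ hτ e he hτe j0 hj0'
          (fun u w h => lin (c j0) (hc0 j0) (hc1 j0) u w h) N hN) Q hQ (Nat.one_le_iff_ne_zero.mpr hd)
      have hlt : ∑ j ∈ vis, (Q1 j).totalDegree < ∑ j ∈ vis, (Q j).totalDegree :=
        Finset.sum_lt_sum (fun j _ => h3 j) ⟨j0, hj0, h2⟩
      obtain ⟨Q2, g1, g2, g3⟩ := ih Q1 (by rw [h1]; exact hQ) (by omega)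
      refine ⟨Q2, by rw [g1, h1], g2, ?_⟩
      intro j hj
      rw [g3 j hj]
      apply h4 j
      by_contra hne
      exact hj ((hvis j).mpr hne)

private theorem ev_const (c : Kbar) (τ : PowerSeries Kbar) (P : MvPolynomial (Fin 2 × Fin 2) A0)
    (h : P.totalDegree = 0) : ev c τ P ∈ A0 := by
  rw [MvPolynomial.totalDegree_eq_zero_iff_eq_C] at h
  rw [h]
  show MvPolynomial.eval₂Hom A0.subtype _ (MvPolynomial.C _) ∈ A0
  rw [MvPolynomial.eval₂Hom_C]
  exact (P.coeff 0).2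

theorem sfin (k : ℕ) : ∀ (J : Type) [Fintype J], Fintype.card J = k → ∀ (c : J → Kbar), (∀ j, c j ≠ 0) →
    (∀ j, c j ≠ 1) → ∀ (τ : J → PowerSeries Kbar), (∀ j, τ j ∈ A0) → (∀ j, coeff 0 (τ j) = 0) →
    (∀ j, τ j ≠ 0) → ∀ (Q : J → MvPolynomial (Fin 2 × Fin 2) A0), GloballyBounded (evS c τ Q) →
    evS c τ Q ∈ A0 := by
  classical
  induction k using Nat.strong_induction_on with
  | _ k IH =>
  intro J _ hk c hc0 hc1 τ hτ hτ0 hτn Q hQ
  rcases isEmpty_or_nonempty J with hE | hNE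
  · have : evS c τ Q = 0 := by
      unfold evS
      exact Finset.sum_eq_zero fun j _ => (IsEmpty.false j).elim
    rw [this]
    exact A0.zero_mem
  · have hex : ∃ e, ∃ j, coeff e (τ j) ≠ 0 := by
      obtain ⟨j⟩ := hNE
      by_contra hcon
      push Not at hcon
      exact hτn j (PowerSeries.ext fun n => by rw [hcon n j, map_zero])
    obtain ⟨j0, hj0⟩ : ∃ j, coeff (Nat.find hex) (τ j) ≠ 0 := Nat.find_spec hex
    have hmin : ∀ j n, n < Nat.find hex → coeff n (τ j) = 0 := by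
      intro j n hn
      by_contra hne
      exact Nat.find_min hex hn ⟨j, hne⟩
    generalize Nat.find hex = e at hj0 hmin
    have he : 1 ≤ e := by
      rcases Nat.eq_zero_or_pos e with h | h
      · rw [h] at hj0
        exact absurd (hτ0 j0) hj0
      · exact h
    obtain ⟨Q', h1, h2, h3⟩ := step c hc0 hc1 τ hτ hτ0 e he hmin
      (Finset.univ.filter fun j => coeff e (τ j) ≠ 0) (by simp) _ Q hQ le_rfl
    have hsplit : evS c τ Q' = ∑ j ∈ Finset.univ.filter (fun j => coeff e (τ j) ≠ 0), ev (c j) (τ j) (Q' j) +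
        ∑ j ∈ Finset.univ.filter (fun j => ¬ coeff e (τ j) ≠ 0), ev (c j) (τ j) (Q' j) := by
      unfold evS
      exact (Finset.sum_filter_add_sum_filter_not _ _ _).symm
    have hA : ∑ j ∈ Finset.univ.filter (fun j => coeff e (τ j) ≠ 0), ev (c j) (τ j) (Q' j) ∈ A0 :=
      A0.sum_mem fun j hj => ev_const _ _ _ (h2 j hj)
    have hB : ∑ j ∈ Finset.univ.filter (fun j => ¬ coeff e (τ j) ≠ 0), ev (c j) (τ j) (Q' j) =
        evS (J := {j // coeff e (τ j) = 0}) (fun j => c j.1) (fun j => τ j.1) (fun j => Q' j.1) := by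
      unfold evS
      exact Finset.sum_subtype _ (fun j => by simp) (fun j => ev (c j) (τ j) (Q' j))
    rw [← h1, hsplit, hB]
    refine A0.add_mem hA ?_
    refine IH (Fintype.card {j // coeff e (τ j) = 0}) ?_ {j // coeff e (τ j) = 0} rfl
      (fun j => c j.1) (fun j => hc0 j.1) (fun j => hc1 j.1) (fun j => τ j.1) (fun j => hτ j.1)
      (fun j => hτ0 j.1) (fun j => hτn j.1) (fun j => Q' j.1) ?_
    · rw [← hk]
      exact Fintype.card_subtype_lt (x := j0) hj0
    · have hdiff : evS (J := {j // coeff e (τ j) = 0}) (fun j => c j.1) (fun j => τ j.1) (fun j => Q' j.1) =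
          evS c τ Q + -(∑ j ∈ Finset.univ.filter (fun j => coeff e (τ j) ≠ 0), ev (c j) (τ j) (Q' j)) := by
        rw [← h1, hsplit, hB]
        ring
      rw [hdiff]
      exact gb_add hQ (gb_of_mem (A0.neg_mem hA))

end Pool.Agent.H64.LG
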