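import Pool.Agent.H64.LG.SDef
import Pool.Agent.H64.LG.LocA
import Pool.Agent.H64.LG.Pls

/-!
# LG.SLoc : the `p`-curvatures kill the sums which are integral at `p`

PROOF (as `LocB`, which is the case of one family). For each `j` take `a_j` from `locA`, `h_j = evG a_j (DK (Np (c j) p) (Q j))`; the coefficients of `evG a_j (Q j)` and `h_j` are in `LocInt p` (`evG_int`, `DK_int`, `np_mem`), so those of `∑_j (C (p⁻¹) τ_j^p h_j + τ_j^(2p-1) z_j)` are. `τ_j^(2p-1)` is divisible by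
`X^(e(2p-1))`, and `e p + n < e (2p - 1)` as `n < p - 1`, `e ≥ 1` (`e (2p-1) - e p = e (p - 1) ≥ p - 1`). So for `n' ≤ e p + n`: `p⁻¹ coeff n' (∑ τ_j^p h_j)` is in `LocInt p`, so `red (coeff n' (∑ τ_j^p h_j)) = 0` (`red_p`). In characteristic `p`, `redS (τ_j)^p = ∑ (red coeff_i)^p X^(i p)` has no terms between `X^(e p)` and `X^((e + 1) p)` and below `X^(e p)`, and
`n < p`, so the coefficient of `X^(e p + n)` in `∑ redS (τ_j)^p redS (h_j)` is `∑_j (red (coeff e τ_j))^p red (coeff n h_j)` (`redS_mul`, `coeff_redS`, QF/Rd1). Finally `coeff n h_j = coeff n (ev (c j) (τ j) (DK (Np ..) (Q j)))` (`n < p`, last part of `locA`) `= ∑ Np * fl` (`ev_DK`), reduce.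
-/

set_option autoImplicit false

namespace Pool.Agent.H64.LG

open Pool.H61.QF PowerSeries

private theorem sl_redS_mul {p : ℕ} [Fact p.Prime] {k : Type} [Field k] (φ : LocInt p →+* k)
    {F F' : PowerSeries Kbar} (h : ∀ n, coeff n F ∈ LocInt p) (h' : ∀ n, coeff n F' ∈ LocInt p) :
    redS φ (F * F') = redS φ F * redS φ F' := by
  ext n
  rw [coeff_redS]
  exact redS_mul φ (L := n + 1) (fun m _ => h m) (fun m _ => h' m) n (Nat.lt_succ_self n)

private theorem sl_mul_int {p : ℕ} [Fact p.Prime] {F F' : PowerSeries Kbar}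
    (h : ∀ n, coeff n F ∈ LocInt p) (h' : ∀ n, coeff n F' ∈ LocInt p) (n : ℕ) :
    coeff n (F * F') ∈ LocInt p :=
  coeff_mul_mem (L := n + 1) (fun m _ => h m) (fun m _ => h' m) n (Nat.lt_succ_self n)

private theorem sl_pow_int {p : ℕ} [Fact p.Prime] {F : PowerSeries Kbar}
    (h : ∀ n, coeff n F ∈ LocInt p) (m : ℕ) : ∀ n, coeff n (F ^ m) ∈ LocInt p := by
  induction m with
  | zero =>
    intro n
    rw [pow_zero, coeff_one]
    split_ifs
    · exact (LocInt p).one_mem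
    · exact (LocInt p).zero_mem
  | succ m ih =>
    rw [pow_succ]
    exact sl_mul_int ih h

private theorem sl_redS_one {p : ℕ} [Fact p.Prime] {k : Type} [Field k] (φ : LocInt p →+* k) :
    redS φ (1 : PowerSeries Kbar) = 1 := by
  ext n
  rw [coeff_redS, coeff_one, coeff_one]
  split_ifs
  · exact rho_one φ
  · exact rho_zero φ

private theorem sl_redS_pow {p : ℕ} [Fact p.Prime] {k : Type} [Field k] (φ : LocInt p →+* k)
    {F : PowerSeries Kbar} (h : ∀ n, coeff n F ∈ LocInt p) (m : ℕ) :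
    redS φ (F ^ m) = redS φ F ^ m := by
  induction m with
  | zero => rw [pow_zero, pow_zero, sl_redS_one]
  | succ m ih => rw [pow_succ, pow_succ, sl_redS_mul φ (sl_pow_int h m) h, ih]

private theorem sl_coeff_pow {k : Type} [Field k] {p : ℕ} [hp : Fact p.Prime] [CharP k p]
    (w : PowerSeries k) (n : ℕ) :
    coeff n (w ^ p) = if p ∣ n then (coeff (n / p) w) ^ p else 0 := by
  have hp0 : p ≠ 0 := hp.out.ne_zero
  have hE : ExpChar k p := ExpChar.prime hp.out
  have h : w ^ p = PowerSeries.map (frobenius k p) (PowerSeries.expand p hp0 w) :=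
    (MvPowerSeries.map_frobenius_expand p hp0).symm
  rw [h, PowerSeries.coeff_map, PowerSeries.coeff_expand]
  split_ifs with hd
  · rfl
  · exact map_zero _

/-- the coefficient of `X ^ (e p + n)`, `n < p`, in `g ^ p * h`, `g = X ^ e * U` -/
private theorem sl_coeff {k : Type} [Field k] {p : ℕ} [hp : Fact p.Prime] [CharP k p]
    (g h : PowerSeries k) (e n : ℕ) (hn : n < p) (hg : ∀ m, m < e → coeff m g = 0) :
    coeff (e * p + n) (g ^ p * h) = (coeff e g) ^ p * coeff n h := by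
  obtain ⟨U, hU⟩ := X_pow_dvd_iff.2 hg
  have h1 : coeff e g = coeff 0 U := by
    rw [hU]
    have h8 := coeff_X_pow_mul U e 0
    rwa [zero_add] at h8
  have h2 : g ^ p * h = X ^ (e * p) * (U ^ p * h) := by
    rw [hU, mul_pow, ← pow_mul, mul_assoc]
  rw [h2, add_comm, coeff_X_pow_mul, h1, coeff_mul, Finset.sum_eq_single (0, n)]
  · simp only
    rw [sl_coeff_pow, if_pos (dvd_zero p), Nat.zero_div]
  · rintro ⟨i, j⟩ hij hne
    rw [Finset.HasAntidiagonal.mem_antidiagonal] at hij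
    simp only at hij ⊢
    rw [sl_coeff_pow, if_neg, zero_mul]
    intro hd
    have hi : i = 0 := Nat.eq_zero_of_dvd_of_lt hd (by omega)
    apply hne
    rw [hi] at hij ⊢
    rw [zero_add] at hij
    rw [hij]
  · intro h3
    exact absurd (Finset.HasAntidiagonal.mem_antidiagonal.2 (zero_add n)) h3

theorem sloc {J : Type} [Fintype J] (v : Place) (c : J → Kbar) (hc : ∀ j, c j ∈ LocInt v.p)
    (hci : ∀ j, (c j * (1 - c j))⁻¹ ∈ LocInt v.p) (hc0 : ∀ j, c j ≠ 0) (hc1 : ∀ j, c j ≠ 1) (h5 : 5 ≤ v.p)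
    (τ : J → PowerSeries Kbar) (hτ : ∀ j n, coeff n (τ j) ∈ LocInt v.p)
    (e : ℕ) (he : 1 ≤ e) (hτe : ∀ j n, n < e → coeff n (τ j) = 0)
    (Q : J → MvPolynomial (Fin 2 × Fin 2) A0)
    (hQ : ∀ j m n, coeff n (((Q j).coeff m : A0) : PowerSeries Kbar) ∈ LocInt v.p)
    (hf : ∀ n, coeff n (evS c τ Q) ∈ LocInt v.p) (n : ℕ) (hn : n < v.p - 1)
    (hfl : ∀ j i l, fl (c j) (τ j) (Q j) n i l ∈ LocInt v.p) :
    ∑ j, v.red (coeff e (τ j)) ^ v.p *
      ∑ i : Fin 2, ∑ l : Fin 2, v.red (Np (c j) v.p i l) * v.red (fl (c j) (τ j) (Q j) n i l) = 0 := by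
  classical
  have hp0 : (v.p : Kbar) ≠ 0 := by
    have := v.hp.out.pos
    exact_mod_cast this.ne'
  have hpp : 1 ≤ v.p := v.hp.out.one_lt.le
  have hlocA := fun j => locA v.p (c j) (hc j) (hci j) (hc0 j) (hc1 j) h5 (τ j) (hτ j)
    (hτe j 0 (by omega))
  choose a ha h1 h2 using hlocA
  have hN : ∀ j i l, Np (c j) v.p i l ∈ LocInt v.p := fun j =>
    np_mem v.p (c j) (hc j) (hci j) (hc0 j) (hc1 j) h5
  have hg : ∀ j n, coeff n (evG (a j) (Q j)) ∈ LocInt v.p := fun j =>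
    evG_int v.p (a j) (ha j) (Q j) (hQ j)
  have hh : ∀ j n, coeff n (evG (a j) (DK (Np (c j) v.p) (Q j))) ∈ LocInt v.p := fun j =>
    evG_int v.p (a j) (ha j) _ (DK_int v.p _ (hN j) (Q j) (hQ j))
  have hτp : ∀ j n, coeff n (τ j ^ v.p) ∈ LocInt v.p := fun j => sl_pow_int (hτ j) v.p
  have hXm : ∀ j m, (X : PowerSeries Kbar) ^ (e * m) ∣ τ j ^ m := by
    intro j m
    rw [pow_mul]
    exact pow_dvd_pow_of_dvd (X_pow_dvd_iff.2 (hτe j)) m
  have hexp : e * (2 * v.p - 1) = e * v.p + e * (v.p - 1) := by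
    rw [← mul_add]
    congr 1
    omega
  have hnn : n < e * (v.p - 1) := lt_of_lt_of_le hn (Nat.le_mul_of_pos_left _ (by omega))
  -- the coefficient of the sum of the polar parts vanishes at v
  have hlow : rho v.φ (coeff (e * v.p + n)
      (∑ j, τ j ^ v.p * evG (a j) (DK (Np (c j) v.p) (Q j)))) = 0 := by
    have hm : e * v.p + n < e * (2 * v.p - 1) := by omega
    have h3 : (v.p : Kbar)⁻¹ * coeff (e * v.p + n)
        (∑ j, τ j ^ v.p * evG (a j) (DK (Np (c j) v.p) (Q j))) =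
        coeff (e * v.p + n) (evS c τ Q) - ∑ j, coeff (e * v.p + n) (evG (a j) (Q j)) := by
      unfold evS
      rw [map_sum, map_sum, Finset.mul_sum, ← Finset.sum_sub_distrib]
      refine Finset.sum_congr rfl fun j _ => ?_
      obtain ⟨z, hz⟩ := h1 j (Q j)
      have hz0 : coeff (e * v.p + n) (τ j ^ (2 * v.p - 1) * z) = 0 :=
        X_pow_dvd_iff.1 (Dvd.dvd.mul_right (hXm j (2 * v.p - 1)) z) _ hm
      rw [hz, map_add, map_add, hz0, mul_assoc, coeff_C_mul]
      ring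
    have h4 : (v.p : Kbar)⁻¹ * coeff (e * v.p + n)
        (∑ j, τ j ^ v.p * evG (a j) (DK (Np (c j) v.p) (Q j))) ∈ LocInt v.p := by
      rw [h3]
      exact (LocInt v.p).sub_mem (hf _) ((LocInt v.p).sum_mem fun j _ => hg j _)
    have h5' : coeff (e * v.p + n) (∑ j, τ j ^ v.p * evG (a j) (DK (Np (c j) v.p) (Q j))) =
        (v.p : Kbar) * ((v.p : Kbar)⁻¹ * coeff (e * v.p + n)
          (∑ j, τ j ^ v.p * evG (a j) (DK (Np (c j) v.p) (Q j)))) := by
      rw [← mul_assoc, mul_inv_cancel₀ hp0, one_mul]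
    rw [h5', rho_mul v.φ (natCast_mem _ _) h4]
    have h6 : rho v.φ (v.p : Kbar) = 0 := red_p v
    rw [h6, zero_mul]
  -- the same coefficient, family by family
  have hterm : ∀ j, rho v.φ (coeff (e * v.p + n) (τ j ^ v.p * evG (a j) (DK (Np (c j) v.p) (Q j)))) =
      v.red (coeff e (τ j)) ^ v.p * rho v.φ (coeff n (evG (a j) (DK (Np (c j) v.p) (Q j)))) := by
    intro j
    rw [← coeff_redS, sl_redS_mul v.φ (hτp j) (hh j), sl_redS_pow v.φ (hτ j),
      sl_coeff (redS v.φ (τ j)) _ e n (by omega) (fun m hm => by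
        rw [coeff_redS, hτe j m hm, rho_zero]), coeff_redS, coeff_redS]
    rfl
  rw [map_sum, rho_sum _ _ _ (fun j _ => sl_mul_int (hτp j) (hh j) _)] at hlow
  rw [← hlow]
  refine Finset.sum_congr rfl fun j _ => ?_
  rw [hterm j]
  congr 1
  -- the coefficient of ev (D Q)
  have hev : coeff n (ev (c j) (τ j) (DK (Np (c j) v.p) (Q j))) =
      coeff n (evG (a j) (DK (Np (c j) v.p) (Q j))) := by
    obtain ⟨z, hz⟩ := h2 j (DK (Np (c j) v.p) (Q j))
    have hnp : n < e * v.p := lt_of_lt_of_le hnn (Nat.mul_le_mul_left e (Nat.sub_le _ _))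
    have hz0 : coeff n (τ j ^ v.p * z) = 0 :=
      X_pow_dvd_iff.1 (Dvd.dvd.mul_right (hXm j v.p) z) n hnp
    rw [hz, map_add, hz0, add_zero]
  rw [← hev, ev_DK, rho_sum]
  · refine Finset.sum_congr rfl fun i _ => ?_
    rw [rho_sum]
    · refine Finset.sum_congr rfl fun l _ => ?_
      rw [rho_mul v.φ (hN j i l) (hfl j i l)]
      rfl
    · intro l _
      exact (LocInt v.p).mul_mem (hN j i l) (hfl j i l)
  · intro i _
    exact (LocInt v.p).sum_mem fun l _ => (LocInt v.p).mul_mem (hN j i l) (hfl j i l)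

end Pool.Agent.H64.LG
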