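import Pool.Agent.H64.LG.SAnn
import Pool.Agent.H64.LG.Quf

/-!
# LG.SPr : the projection of `S` to one family is `sl₂`

PROOF. `𝓛` = the functionals `l` (as in `hl` of `sann`) vanishing on `{N j0 : N ∈ Sp}` =: `P`, a linear subspace of `M₂` (`Sp_add`, `Sp_smul`, `Sp_zero`). `quf` for `c j0` with this `𝓛`: `h1` is `sann`; `hab`: `al_be` for almost all places; `h2`: if `M, N` are killed by all `l ∈ 𝓛` then `M, N ∈ P` (double annihilator in the finite dimensional space `M₂`),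
so `M = M' j0`, `N = N' j0` with `M', N' ∈ Sp`, and `Sp_comm` gives the commutator. So every `l ∈ 𝓛` is a multiple of the trace functional (`l 0 1 = l 1 0 = 0`, `l 0 0 = l 1 1`), hence every `N` with `N 0 0 + N 1 1 = 0` is killed by all `l ∈ 𝓛`, so it is in `P` (double annihilator again).
-/

set_option autoImplicit false

namespace Pool.Agent.H64.LG

open Pool.H61.QF PowerSeries

/-- the values at `j0` of the tuples in `Sp` -/
private noncomputable def prj {J : Type} [Fintype J] (c : J → Kbar) (τ : J → PowerSeries Kbar) (e : ℕ)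
    (j0 : J) : Submodule Kbar (Fin 2 → Fin 2 → Kbar) where
  carrier := {B | ∃ M : J → Fin 2 → Fin 2 → Kbar, Sp c τ e M ∧ M j0 = B}
  add_mem' := by
    rintro a b ⟨M, hM, rfl⟩ ⟨N, hN, rfl⟩
    exact ⟨M + N, Sp_add c τ e M N hM hN, rfl⟩
  zero_mem' := ⟨0, Sp_zero c τ e, rfl⟩
  smul_mem' := by
    rintro x a ⟨M, hM, rfl⟩
    exact ⟨x • M, Sp_smul c τ e x M hM, rfl⟩

private lemma dual_apply (φ : Module.Dual Kbar (Fin 2 → Fin 2 → Kbar)) (B : Fin 2 → Fin 2 → Kbar) :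
    φ B = ∑ i : Fin 2, ∑ k : Fin 2, B i k * φ (Pi.single i (Pi.single k 1)) := by
  have h : B = ∑ i : Fin 2, ∑ k : Fin 2, B i k • (Pi.single i (Pi.single k 1) : Fin 2 → Fin 2 → Kbar) := by
    funext i k
    simp only [Fin.sum_univ_two, Pi.add_apply, Pi.smul_apply, smul_eq_mul]
    fin_cases i <;> fin_cases k <;> simp
  conv_lhs => rw [h]
  rw [map_sum]
  refine Finset.sum_congr rfl fun i _ => ?_
  rw [map_sum]
  refine Finset.sum_congr rfl fun k _ => ?_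
  rw [map_smul, smul_eq_mul]

private lemma mem_prj {P : Submodule Kbar (Fin 2 → Fin 2 → Kbar)} {B : Fin 2 → Fin 2 → Kbar}
    (h : ∀ l : Fin 2 → Fin 2 → Kbar, (∀ A ∈ P, ∑ i : Fin 2, ∑ k : Fin 2, A i k * l i k = 0) →
      ∑ i : Fin 2, ∑ k : Fin 2, B i k * l i k = 0) : B ∈ P := by
  rw [← Subspace.dualAnnihilator_dualCoannihilator_eq (W := P), Submodule.mem_dualCoannihilator]
  intro φ hφ
  rw [Submodule.mem_dualAnnihilator] at hφ
  rw [dual_apply]
  refine h (fun i k => φ (Pi.single i (Pi.single k 1))) fun A hA => ?_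
  rw [← dual_apply]
  exact hφ A hA

theorem spr {J : Type} [Fintype J] (c : J → Kbar) (hc0 : ∀ j, c j ≠ 0) (hc1 : ∀ j, c j ≠ 1)
    (τ : J → PowerSeries Kbar) (hτ : ∀ j, τ j ∈ A0) (e : ℕ) (he : 1 ≤ e)
    (hτe : ∀ j n, n < e → coeff n (τ j) = 0) (j0 : J) (hj0 : coeff e (τ j0) ≠ 0)
    (hlin : ∀ u w : Kbar, ¬ (u = 0 ∧ w = 0) →
      ¬ ∀ᶠ v in pl, Place.red v u * al v (c j0) + Place.red v w * be v (c j0) = 0)
    (N : Fin 2 → Fin 2 → Kbar) (hN : N 0 0 + N 1 1 = 0) :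
    ∃ M : J → Fin 2 → Fin 2 → Kbar, Sp c τ e M ∧ M j0 = N := by
  have hab : ∀ᶠ v in pl, al v (c j0) ≠ 0 ∨ be v (c j0) ≠ 0 := by
    filter_upwards [ev_mem (c j0), ev_mem (c j0 * (1 - c j0))⁻¹, ev_gt 4] with v h1 h2 h3
    exact al_be v (c j0) h1 h2 (hc0 j0) (hc1 j0) h3
  set 𝓛 : Set (Fin 2 → Fin 2 → Kbar) :=
    {l | ∀ A ∈ prj c τ e j0, ∑ i : Fin 2, ∑ k : Fin 2, A i k * l i k = 0} with h𝓛
  have hq := quf (c j0) hlin hab 𝓛
    (fun l hl => sann c hc0 hc1 τ hτ e he hτe j0 hj0 l fun M hM => hl (M j0) ⟨M, hM, rfl⟩)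
    (by
      intro A B hA hB l hl
      obtain ⟨M, hM, rfl⟩ : A ∈ prj c τ e j0 := mem_prj hA
      obtain ⟨M', hM', rfl⟩ : B ∈ prj c τ e j0 := mem_prj hB
      exact hl _ ⟨_, Sp_comm c τ e M M' hM hM', rfl⟩)
  have h : N ∈ prj c τ e j0 := by
    refine mem_prj fun l hl => ?_
    obtain ⟨a1, a2, a3⟩ := hq l hl
    simp only [Fin.sum_univ_two]
    linear_combination (l 1 1) * hN + N 0 1 * a1 + N 1 0 * a2 + N 0 0 * a3
  exact h

end Pool.Agent.H64.LG
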