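import Pool.Agent.H64.LG.SFin

/-!
# LG.SPul : arbitrary solutions, polynomials over the power series ring, denominators

PROOF. Let `c j = κ j (0)`, `τ j = κ j - C (c j) ∈ A0`, `coeff 0 (τ j) = 0`. `one` (one family): there is `Q : MvPolynomial (Fin 2 × Fin 2) A0` with `ev c τ Q` = the value of `P`: `y₁ = C a₁ g_0 + C b₁ g_1`, `y₂` similarly (`leg_basis`), `subst τ` is a ring homomorphism fixing constants, so the four functions are linear combinations of the `(dg c ij).subst τ`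
(`derivative (gs c i) = dg c (i, 1)`); `P` is the image of a `P' : MvPolynomial (Fin 4) A0` (all coefficients in `A0`; `MvPolynomial.mem_range_map_iff_coeffs_subset` or build it as a sum of monomials), `Q = eval₂ C (linear forms) P'`. `main3`: for the `j` with `τ j = 0` the value of `P j` is in `A0` (everything is a polynomial in constants: `y.subst 0 = C (coeff 0 y)`),
for the other `j` use `one` and `sfin` for the subtype `{j // τ j ≠ 0}`: `q f - (algebraic)` is globally bounded (`gb_add`, `gb_mul`, `gb_of_mem`), so it is in `A0`; hence `q f ∈ A0`, `f ∈ A0` (`alg_of_mul`).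
-/

set_option autoImplicit false

namespace Pool.Agent.H64.LG

open Pool.H61.QF PowerSeries

private theorem spul_hs (κ : PowerSeries Kbar) : HasSubst (κ - C (coeff 0 κ)) := by
  apply HasSubst.of_constantCoeff_zero'
  simp

private theorem spul_lin {τ : PowerSeries Kbar} (hτ : HasSubst τ) (a b : Kbar)
    (f g : PowerSeries Kbar) :
    (C a * f + C b * g).subst τ = C a * f.subst τ + C b * g.subst τ := by
  have hC : ∀ x : Kbar, (C x : PowerSeries Kbar).subst τ = C x := fun x => subst_C (a := τ) x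
  rw [subst_add hτ, subst_mul hτ, subst_mul hτ, hC, hC]

private theorem spul_der (a b : Kbar) (f g : PowerSeries Kbar) :
    derivative Kbar (C a * f + C b * g) = C a * derivative Kbar f + C b * derivative Kbar g := by
  have h : ∀ (x : Kbar) (u : PowerSeries Kbar), derivative Kbar (C x * u) = C x * derivative Kbar u := by
    intro x u
    rw [← smul_eq_C_mul, ← smul_eq_C_mul, Derivation.map_smul]
  rw [map_add, h, h]

private theorem spul_evC (c : Kbar) (τ : PowerSeries Kbar) (a : A0) :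
    ev c τ (MvPolynomial.C a) = (a : PowerSeries Kbar) := by
  unfold ev evG
  rw [MvPolynomial.coe_eval₂Hom, MvPolynomial.eval₂_C]
  rfl

private theorem spul_evX (c : Kbar) (τ : PowerSeries Kbar) (ij : Fin 2 × Fin 2) :
    ev c τ (MvPolynomial.X ij) = (dg c ij).subst τ := by
  unfold ev evG
  rw [MvPolynomial.coe_eval₂Hom, MvPolynomial.eval₂_X]

/-- the linear form -/
private noncomputable def spulL (a b : Kbar) (j : Fin 2) : MvPolynomial (Fin 2 × Fin 2) A0 :=
  MvPolynomial.C (cst a) * MvPolynomial.X (0, j) + MvPolynomial.C (cst b) * MvPolynomial.X (1, j)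

private theorem spul_evL (c : Kbar) {τ : PowerSeries Kbar} (hτ : HasSubst τ) (a b : Kbar) (j : Fin 2) :
    ev c τ (spulL a b j) = (C a * dg c (0, j) + C b * dg c (1, j)).subst τ := by
  unfold spulL
  rw [map_add, map_mul, map_mul, spul_evC, spul_evC, spul_evX, spul_evX, spul_lin hτ]
  rfl

private noncomputable def spulV (y₁ y₂ : PowerSeries Kbar) : Fin 4 → MvPolynomial (Fin 2 × Fin 2) A0 :=
  ![spulL (coeff 0 y₁) (coeff 1 y₁) 0, spulL (coeff 0 y₂) (coeff 1 y₂) 0,
    spulL (coeff 0 y₁) (coeff 1 y₁) 1, spulL (coeff 0 y₂) (coeff 1 y₂) 1]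

private theorem spul_V (c : Kbar) (h0 : c ≠ 0) (h1 : c ≠ 1) {τ : PowerSeries Kbar} (hs : HasSubst τ)
    (y₁ y₂ : PowerSeries Kbar) (hy₁ : Leg c y₁) (hy₂ : Leg c y₂) (v : Fin 4 → PowerSeries Kbar)
    (hv : v = ![y₁.subst τ, y₂.subst τ, (derivative Kbar y₁).subst τ, (derivative Kbar y₂).subst τ])
    (i : Fin 4) : ev c τ (spulV y₁ y₂ i) = v i := by
  have hb : ∀ y : PowerSeries Kbar, Leg c y →
      C (coeff 0 y) * dg c (0, 0) + C (coeff 1 y) * dg c (1, 0) = y := by
    intro y hy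
    exact (leg_basis c h0 h1 y hy).symm
  have hd : ∀ y : PowerSeries Kbar, Leg c y →
      C (coeff 0 y) * dg c (0, 1) + C (coeff 1 y) * dg c (1, 1) = derivative Kbar y := by
    intro y hy
    have e := congrArg (derivative Kbar) (leg_basis c h0 h1 y hy)
    rw [spul_der] at e
    exact e.symm
  subst hv
  fin_cases i
  · show ev c τ (spulL (coeff 0 y₁) (coeff 1 y₁) 0) = y₁.subst τ
    rw [spul_evL c hs, hb y₁ hy₁]
  · show ev c τ (spulL (coeff 0 y₂) (coeff 1 y₂) 0) = y₂.subst τ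
    rw [spul_evL c hs, hb y₂ hy₂]
  · show ev c τ (spulL (coeff 0 y₁) (coeff 1 y₁) 1) = (derivative Kbar y₁).subst τ
    rw [spul_evL c hs, hd y₁ hy₁]
  · show ev c τ (spulL (coeff 0 y₂) (coeff 1 y₂) 1) = (derivative Kbar y₂).subst τ
    rw [spul_evL c hs, hd y₂ hy₂]

private theorem spul_Q (c : Kbar) (τ : PowerSeries Kbar) (L : Fin 4 → MvPolynomial (Fin 2 × Fin 2) A0)
    (v : Fin 4 → PowerSeries Kbar) (hL : ∀ i, ev c τ (L i) = v i)
    (P : MvPolynomial (Fin 4) (PowerSeries Kbar)) (hP : ∀ m, P.coeff m ∈ A0) :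
    ∃ Q : MvPolynomial (Fin 2 × Fin 2) A0, ev c τ Q = MvPolynomial.eval v P := by
  refine ⟨∑ m ∈ P.support, MvPolynomial.C (⟨P.coeff m, hP m⟩ : A0) * ∏ i, L i ^ m i, ?_⟩
  rw [MvPolynomial.eval_eq', map_sum]
  refine Finset.sum_congr rfl fun m _ => ?_
  rw [map_mul, spul_evC, map_prod]
  refine congrArg (fun z => P.coeff m * z) (Finset.prod_congr rfl fun i _ => ?_)
  rw [map_pow, hL]

theorem one (κ : PowerSeries Kbar) (h0 : coeff 0 κ ≠ 0) (h1 : coeff 0 κ ≠ 1)
    (y₁ y₂ : PowerSeries Kbar) (hy₁ : Leg (coeff 0 κ) y₁) (hy₂ : Leg (coeff 0 κ) y₂)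
    (P : MvPolynomial (Fin 4) (PowerSeries Kbar)) (hP : ∀ m, AlgSeries (P.coeff m)) :
    ∃ Q : MvPolynomial (Fin 2 × Fin 2) A0, ev (coeff 0 κ) (κ - C (coeff 0 κ)) Q =
      MvPolynomial.eval ![y₁.subst (κ - C (coeff 0 κ)), y₂.subst (κ - C (coeff 0 κ)),
        (derivative Kbar y₁).subst (κ - C (coeff 0 κ)), (derivative Kbar y₂).subst (κ - C (coeff 0 κ))] P :=
  spul_Q _ _ (spulV y₁ y₂) _ (spul_V _ h0 h1 (spul_hs κ) y₁ y₂ hy₁ hy₂ _ rfl) P
    (fun m => mem_of_algSeries (hP m))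

private theorem spul_zero (y : PowerSeries Kbar) : y.subst (0 : PowerSeries Kbar) = C (coeff 0 y) := by
  have h0 : HasSubst (0 : PowerSeries Kbar) := HasSubst.zero'
  have e : y = C (coeff 0 y) + (y - C (coeff 0 y)) := by ring
  have h1 : (y - C (coeff 0 y)).subst (0 : PowerSeries Kbar) = 0 :=
    subst_zero_of_constantCoeff_zero (by simp)
  have hC : (C (coeff 0 y) : PowerSeries Kbar).subst (0 : PowerSeries Kbar) = C (coeff 0 y) :=
    subst_C (a := (0 : PowerSeries Kbar)) _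
  have h2 : y.subst (0 : PowerSeries Kbar) =
      (C (coeff 0 y) + (y - C (coeff 0 y))).subst (0 : PowerSeries Kbar) :=
    congrArg (fun z : PowerSeries Kbar => z.subst (0 : PowerSeries Kbar)) e
  rw [subst_add h0, h1, hC, add_zero] at h2
  exact h2

private theorem spul_mem (c : Kbar) (Q : MvPolynomial (Fin 2 × Fin 2) A0) : ev c 0 Q ∈ A0 := by
  induction Q using MvPolynomial.induction_on with
  | C a =>
    rw [spul_evC]
    exact a.2
  | add p q hp hq =>
    rw [map_add]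
    exact A0.add_mem hp hq
  | mul_X p i hp =>
    rw [map_mul, spul_evX, spul_zero]
    exact A0.mul_mem hp (cst_mem _)

theorem main3 (m : ℕ) (κ : Fin m → PowerSeries Kbar) (hκ : ∀ j, AlgSeries (κ j))
    (h0 : ∀ j, coeff 0 (κ j) ≠ 0) (h1 : ∀ j, coeff 0 (κ j) ≠ 1)
    (y₁ y₂ : Fin m → PowerSeries Kbar) (hy₁ : ∀ j, Leg (coeff 0 (κ j)) (y₁ j))
    (hy₂ : ∀ j, Leg (coeff 0 (κ j)) (y₂ j))
    (P : Fin m → MvPolynomial (Fin 4) (PowerSeries Kbar)) (hP : ∀ j r, AlgSeries ((P j).coeff r))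
    (q f : PowerSeries Kbar) (hq : AlgSeries q) (hq0 : q ≠ 0)
    (hf : q * f = ∑ j, MvPolynomial.eval ![(y₁ j).subst (κ j - C (coeff 0 (κ j))),
      (y₂ j).subst (κ j - C (coeff 0 (κ j))), (derivative Kbar (y₁ j)).subst (κ j - C (coeff 0 (κ j))),
      (derivative Kbar (y₂ j)).subst (κ j - C (coeff 0 (κ j)))] (P j))
    (hb : GloballyBounded f) : AlgSeries f := by
  classical
  choose Q hQ using fun j => one (κ j) (h0 j) (h1 j) (y₁ j) (y₂ j) (hy₁ j) (hy₂ j) (P j) (hP j)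
  have hqf : q * f = ∑ j, ev (coeff 0 (κ j)) (κ j - C (coeff 0 (κ j))) (Q j) := by
    rw [hf]
    exact Finset.sum_congr rfl fun j _ => (hQ j).symm
  obtain ⟨A, hA⟩ : ∃ A, A = ∑ j ∈ Finset.univ.filter (fun j => κ j - C (coeff 0 (κ j)) = 0),
      ev (coeff 0 (κ j)) (κ j - C (coeff 0 (κ j))) (Q j) := ⟨_, rfl⟩
  have hAmem : A ∈ A0 := by
    rw [hA]
    refine A0.sum_mem fun j hj => ?_
    rw [(Finset.mem_filter.1 hj).2]
    exact spul_mem _ _
  have hsplit : q * f = A + evS (J := {j : Fin m // ¬ (κ j - C (coeff 0 (κ j)) = 0)})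
      (fun j => coeff 0 (κ j.1)) (fun j => κ j.1 - C (coeff 0 (κ j.1))) (fun j => Q j.1) := by
    rw [hqf, hA, ← Finset.sum_filter_add_sum_filter_not Finset.univ
      (fun j => κ j - C (coeff 0 (κ j)) = 0)]
    congr 1
    unfold evS
    exact Finset.sum_subtype (Finset.univ.filter (fun j => ¬ (κ j - C (coeff 0 (κ j)) = 0)))
      (fun j => by simp) (fun j => ev (coeff 0 (κ j)) (κ j - C (coeff 0 (κ j))) (Q j))
  have hq' : q ∈ A0 := mem_of_algSeries hq
  have hgb : GloballyBounded (evS (J := {j : Fin m // ¬ (κ j - C (coeff 0 (κ j)) = 0)})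
      (fun j => coeff 0 (κ j.1)) (fun j => κ j.1 - C (coeff 0 (κ j.1))) (fun j => Q j.1)) := by
    have e : evS (J := {j : Fin m // ¬ (κ j - C (coeff 0 (κ j)) = 0)})
      (fun j => coeff 0 (κ j.1)) (fun j => κ j.1 - C (coeff 0 (κ j.1))) (fun j => Q j.1) =
      q * f + (-A) := by
      rw [hsplit]
      ring
    rw [e]
    exact gb_add (gb_mul (gb_of_mem hq') hb) (gb_of_mem (A0.neg_mem hAmem))
  have hmem := sfin _ {j : Fin m // ¬ (κ j - C (coeff 0 (κ j)) = 0)} rfl
    (fun j => coeff 0 (κ j.1)) (fun j => h0 j.1) (fun j => h1 j.1)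
    (fun j => κ j.1 - C (coeff 0 (κ j.1)))
    (fun j => A0.sub_mem (mem_of_algSeries (hκ j.1)) (cst_mem _)) (fun j => by simp)
    (fun j => j.2) (fun j => Q j.1) hgb
  have hqfm : q * f ∈ A0 := by
    rw [hsplit]
    exact A0.add_mem hAmem hmem
  exact algSeries_of_mem (alg_of_mul hq' hq0 hqfm)

end Pool.Agent.H64.LG
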