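import Pool.Agent.H64.LG.SLoc

/-!
# LG.SQud : the same for almost all places

PROOF. For almost all places the hypotheses of `sloc` hold: `5 ≤ p`, `n < p - 1` (`ev_gt`); `c j`, `(c j (1 - c j))⁻¹`, `fl .. i l` in `LocInt` (`ev_mem`); `τ j` and the coefficients of `Q j` integral (`ev_alg`, `ev_Q`); `evS c τ Q` integral (`ev_gb`). Finitely many `j` (`Filter.eventually_all`).
-/

set_option autoImplicit false

namespace Pool.Agent.H64.LG

open Pool.H61.QF PowerSeries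

theorem squad {J : Type} [Fintype J] (c : J → Kbar) (hc0 : ∀ j, c j ≠ 0) (hc1 : ∀ j, c j ≠ 1)
    (τ : J → PowerSeries Kbar) (hτ : ∀ j, τ j ∈ A0) (e : ℕ) (he : 1 ≤ e)
    (hτe : ∀ j n, n < e → coeff n (τ j) = 0) (Q : J → MvPolynomial (Fin 2 × Fin 2) A0)
    (hQ : GloballyBounded (evS c τ Q)) (n : ℕ) :
    ∀ᶠ v in pl, ∑ j, Place.red v (coeff e (τ j)) ^ Place.p v *
      ∑ i : Fin 2, ∑ l : Fin 2,
        Place.red v (Np (c j) (Place.p v) i l) * Place.red v (fl (c j) (τ j) (Q j) n i l) = 0 := by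
  have w1 : ∀ᶠ v in pl, ∀ j, c j ∈ LocInt (Place.p v) := Filter.eventually_all.2 fun j => ev_mem (c j)
  have w2 : ∀ᶠ v in pl, ∀ j, (c j * (1 - c j))⁻¹ ∈ LocInt (Place.p v) :=
    Filter.eventually_all.2 fun j => ev_mem _
  have w3 := Filter.eventually_all.2 fun j => ev_alg (τ j) (hτ j)
  have w4 := Filter.eventually_all.2 fun j => ev_Q (Q j)
  have w5 : ∀ᶠ v in pl, ∀ j, ∀ i l : Fin 2, fl (c j) (τ j) (Q j) n i l ∈ LocInt (Place.p v) :=
    Filter.eventually_all.2 fun j => Filter.eventually_all.2 fun i =>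
      Filter.eventually_all.2 fun l => ev_mem _
  filter_upwards [ev_gt 5, ev_gt (n + 1), w1, w2, w3, w4, w5, ev_gb _ hQ] with v v1 v2 v3 v4 v5 v6 v7 v8
  exact sloc v c v3 v4 hc0 hc1 (by omega) τ v5 e he hτe Q v6 v8 n (by omega) v7

end Pool.Agent.H64.LG
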