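import Mathlib

/-!
# LG.Sig : Siegel's lemma over a number field, `T` equations in `2 T` unknowns

PROOF. `NumberField.house.exists_ne_zero_int_vec_house_le` (Mathlib) with `p = T`, `q = 2 T`: the exponent is `T / (2 T - T) = 1`. Its constant `c₁ K` is private but can be
produced by unification: `⟨_, fun T hT M A hA h => exists_ne_zero_int_vec_house_le K M ..⟩` (then enlarge it to a constant `≥ 1`; take the maximum with `1`; for this first `obtain` the existential
with the exact constant). If `M = 0` take `ξ = 1` (`house 1 = 1`).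
-/

set_option autoImplicit false

namespace Pool.Agent.H64.LG

open NumberField

private theorem sieg_aux (K : Type) [Field K] [NumberField K] :
    ∃ c : ℝ, ∀ (α β : Type) [Fintype α] [Fintype β] (T : ℕ), 0 < T → Fintype.card α = T →
      Fintype.card β = 2 * T → ∀ (M : Matrix α β (𝓞 K)) (A : ℝ), M ≠ 0 →
      (∀ i j, house ((algebraMap (𝓞 K) K) (M i j)) ≤ A) →
      ∃ ξ : β → 𝓞 K, ξ ≠ 0 ∧ Matrix.mulVec M ξ = 0 ∧ ∀ l, house ((ξ l : 𝓞 K) : K) ≤
        c * ((c * ((2 * T : ℕ) : ℝ) * A) ^ ((T : ℝ) / (((2 * T : ℕ) : ℝ) - T))) := by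
  classical
  refine ⟨?_, ?_⟩
  swap
  · intro α β _ _ T hT hα hβ M A hM h
    exact NumberField.house.exists_ne_zero_int_vec_house_le K M hM hT (by omega) hβ h hα

theorem siegel (K : Type) [Field K] [NumberField K] :
    ∃ C : ℝ, 1 ≤ C ∧ ∀ (α β : Type) [Fintype α] [Fintype β] (T : ℕ), 1 ≤ T → Fintype.card α = T →
      Fintype.card β = 2 * T → ∀ (M : Matrix α β (𝓞 K)) (A : ℝ), 1 ≤ A →
      (∀ i j, house ((algebraMap (𝓞 K) K) (M i j)) ≤ A) →
      ∃ ξ : β → 𝓞 K, ξ ≠ 0 ∧ Matrix.mulVec M ξ = 0 ∧ ∀ l, house ((ξ l : 𝓞 K) : K) ≤ C * (C * (2 * T) * A) := by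
  obtain ⟨c, hc⟩ := sieg_aux K
  refine ⟨1 + |c|, by linarith [abs_nonneg c], fun α β _ _ T hT hα hβ M A hA h => ?_⟩
  have hT' : (1 : ℝ) ≤ T := by exact_mod_cast hT
  have hc1 : (1 : ℝ) ≤ 1 + |c| := by linarith [abs_nonneg c]
  by_cases hM : M = 0
  · refine ⟨fun _ => 1, ?_, ?_, ?_⟩
    · intro h0
      have hne : Nonempty β := Fintype.card_pos_iff.1 (by rw [hβ]; omega)
      obtain ⟨b⟩ := hne
      exact one_ne_zero (congrFun h0 b)
    · rw [hM, Matrix.zero_mulVec]
    · intro l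
      have h1 : house (((1 : 𝓞 K) : 𝓞 K) : K) = 1 := by
        have : (((1 : 𝓞 K) : 𝓞 K) : K) = ((1 : ℤ) : K) := by simp
        rw [this, house_intCast]; simp
      rw [h1]
      have h2 : (1 : ℝ) ≤ 2 * T := by linarith
      have h3 : (1 : ℝ) ≤ (1 + |c|) * (2 * T) * A := by
        have := mul_le_mul (mul_le_mul hc1 h2 zero_le_one (by linarith)) hA zero_le_one (by positivity)
        simpa using this
      have := mul_le_mul hc1 h3 zero_le_one (by linarith)
      simpa using this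
  · obtain ⟨ξ, h1, h2, h3⟩ := hc α β T hT hα hβ M A hM h
    refine ⟨ξ, h1, h2, fun l => (h3 l).trans ?_⟩
    have he : (T : ℝ) / (((2 * T : ℕ) : ℝ) - T) = 1 := by
      push_cast
      rw [show (2 * (T : ℝ) - T) = T by ring]
      exact div_self (by linarith)
    rw [he, Real.rpow_one]
    push_cast
    have h4 : c * c ≤ (1 + |c|) * (1 + |c|) := by
      nlinarith [abs_nonneg c, abs_mul_abs_self c]
    have h5 : 0 ≤ 2 * (T : ℝ) * A := by positivity
    calc c * (c * (2 * (T : ℝ)) * A) = (c * c) * (2 * (T : ℝ) * A) := by ring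
      _ ≤ ((1 + |c|) * (1 + |c|)) * (2 * (T : ℝ) * A) := mul_le_mul_of_nonneg_right h4 h5
      _ = (1 + |c|) * ((1 + |c|) * (2 * T) * A) := by ring

end Pool.Agent.H64.LG
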