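import Pool.Agent.H64.LG.LocB

/-!
# LG.Tr : the `p`-curvature has trace zero

PROOF. `loc` with `τ = X`, `e = 1`, `Q = X (0,0) X (1,1) - X (1,0) X (0,1)`, `n = 0`. `ev c X Q = g_0 g_1' - g_1 g_0'` (`X_subst`), and by `wron`
`(c + X)(1 - c - X) ev Q = c (1 - c)`; its coefficients are in `LocInt p` (recursion, `c (1 - c)` is a unit of `LocInt p`).
`DK (Em i l) Q`: `D_N Q = (N 0 0 + N 1 1) Q`, so `fl c X Q 0 i l = 1` if `i = l` and `0` otherwise (`coeff 0 (ev Q) = 1`).
-/

set_option autoImplicit false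

namespace Pool.Agent.H64.LG

open Pool.H61.QF PowerSeries

private lemma tr_DK_X (N : Fin 2 → Fin 2 → Kbar) (a : Fin 2 × Fin 2) :
    DK N (MvPolynomial.X a) = MvPolynomial.C (cst (N a.1 0)) * MvPolynomial.X (0, a.2) +
      MvPolynomial.C (cst (N a.1 1)) * MvPolynomial.X (1, a.2) := by
  unfold DK DN
  rw [MvPolynomial.mkDerivation_X, Fin.sum_univ_two]

/-- the Wronskian -/
private noncomputable def trQ : MvPolynomial (Fin 2 × Fin 2) A0 :=
  MvPolynomial.X (0, 0) * MvPolynomial.X (1, 1) - MvPolynomial.X (1, 0) * MvPolynomial.X (0, 1)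

private lemma tr_DK (N : Fin 2 → Fin 2 → Kbar) :
    DK N trQ = MvPolynomial.C (cst (N 0 0 + N 1 1)) * trQ := by
  unfold trQ
  rw [map_sub, Derivation.leibniz, Derivation.leibniz, tr_DK_X, tr_DK_X, tr_DK_X, tr_DK_X]
  simp only [smul_eq_mul, map_add]
  ring

private lemma tr_C (c : Kbar) (τ : PowerSeries Kbar) (x : Kbar) :
    ev c τ (MvPolynomial.C (cst x)) = PowerSeries.C x := by
  unfold ev evG
  rw [MvPolynomial.coe_eval₂Hom, MvPolynomial.eval₂_C]
  rfl

private lemma tr_ev (c : Kbar) : ev c X trQ = dg c (0, 0) * dg c (1, 1) - dg c (1, 0) * dg c (0, 1) := by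
  unfold trQ ev evG
  rw [map_sub, map_mul, map_mul]
  simp only [MvPolynomial.coe_eval₂Hom, MvPolynomial.eval₂_X, X_subst]

/-- the coefficients of `Q` -/
private lemma tr_Q (p : ℕ) [Fact p.Prime] (m : Fin 2 × Fin 2 →₀ ℕ) (n : ℕ) :
    coeff n ((trQ.coeff m : A0) : PowerSeries Kbar) ∈ LocInt p := by
  have hmon : ∀ i j : Fin 2 × Fin 2, ∀ m : Fin 2 × Fin 2 →₀ ℕ, ∀ n : ℕ,
      coeff n (((MvPolynomial.X i * MvPolynomial.X j : MvPolynomial (Fin 2 × Fin 2) A0).coeff m : A0) :
        PowerSeries Kbar) ∈ LocInt p := by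
    intro i j m n
    have h1 : (MvPolynomial.X i * MvPolynomial.X j : MvPolynomial (Fin 2 × Fin 2) A0) =
        MvPolynomial.monomial (Finsupp.single i 1 + Finsupp.single j 1) 1 := by
      rw [MvPolynomial.X, MvPolynomial.X, MvPolynomial.monomial_mul, one_mul]
    rw [h1, MvPolynomial.coeff_monomial]
    split_ifs
    · show coeff n (1 : PowerSeries Kbar) ∈ LocInt p
      rw [coeff_one]
      split_ifs
      · exact (LocInt p).one_mem
      · exact (LocInt p).zero_mem
    · show coeff n (0 : PowerSeries Kbar) ∈ LocInt p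
      rw [map_zero]
      exact (LocInt p).zero_mem
  unfold trQ
  rw [MvPolynomial.coeff_sub, AddSubgroupClass.coe_sub, map_sub]
  exact (LocInt p).sub_mem (hmon _ _ m n) (hmon _ _ m n)

private lemma tr_cX (W : PowerSeries Kbar) (c : Kbar) (n : ℕ) :
    coeff (n + 2) ((C c + X) * (1 - (C c + X)) * W) =
      c * (1 - c) * coeff (n + 2) W + (1 - 2 * c) * coeff (n + 1) W - coeff n W := by
  have e : (C c + X) * (1 - (C c + X)) * W =
      C (c * (1 - c)) * W + C (1 - 2 * c) * (X * W) - X * (X * W) := by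
    have h2 : (C (2 : Kbar) : PowerSeries Kbar) = 2 := map_ofNat C 2
    simp only [map_mul, map_sub, map_one, h2]
    ring
  rw [e, map_sub, map_add, coeff_C_mul, coeff_C_mul, coeff_succ_X_mul, coeff_succ_X_mul, coeff_succ_X_mul]

private lemma tr_c1 (W : PowerSeries Kbar) (c : Kbar) :
    coeff 1 ((C c + X) * (1 - (C c + X)) * W) = c * (1 - c) * coeff 1 W + (1 - 2 * c) * coeff 0 W := by
  have e : (C c + X) * (1 - (C c + X)) * W =
      C (c * (1 - c)) * W + C (1 - 2 * c) * (X * W) - X * (X * W) := by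
    have h2 : (C (2 : Kbar) : PowerSeries Kbar) = 2 := map_ofNat C 2
    simp only [map_mul, map_sub, map_one, h2]
    ring
  have h0 : coeff 1 (X * (X * W)) = coeff 0 (X * W) := coeff_succ_X_mul 0 (X * W)
  have h1 : coeff 1 (X * W) = coeff 0 W := coeff_succ_X_mul 0 W
  have h3 : coeff 0 (X * W) = 0 := by
    rw [coeff_zero_eq_constantCoeff_apply, map_mul, constantCoeff_X, zero_mul]
  rw [e, map_sub, map_add, coeff_C_mul, coeff_C_mul, h0, h1, h3, sub_zero]

private lemma tr_c0 (W : PowerSeries Kbar) (c : Kbar) :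
    coeff 0 ((C c + X) * (1 - (C c + X)) * W) = c * (1 - c) * coeff 0 W := by
  simp only [coeff_zero_eq_constantCoeff_apply, map_mul, map_add, map_sub, map_one, constantCoeff_C,
    constantCoeff_X, add_zero]

theorem tr (v : Place) (c : Kbar) (hc : c ∈ LocInt v.p) (hci : (c * (1 - c))⁻¹ ∈ LocInt v.p)
    (hc0 : c ≠ 0) (hc1 : c ≠ 1) (h5 : 5 ≤ v.p) :
    v.red (Np c v.p 0 0) + v.red (Np c v.p 1 1) = 0 := by
  have hcc : c * (1 - c) ≠ 0 := mul_ne_zero hc0 (sub_ne_zero.2 (Ne.symm hc1))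
  have hW := wron c hc0 hc1
  rw [← tr_ev c] at hW
  set W := ev c X trQ with hWdef
  have h2 : (2 : Kbar) ∈ LocInt v.p := by
    have h := (LocInt v.p).add_mem (LocInt v.p).one_mem (LocInt v.p).one_mem
    have e : (1 : Kbar) + 1 = 2 := by norm_num
    rwa [e] at h
  have h12 : 1 - 2 * c ∈ LocInt v.p :=
    (LocInt v.p).sub_mem (LocInt v.p).one_mem ((LocInt v.p).mul_mem h2 hc)
  have hw0 : coeff 0 W = 1 := by
    have h := congrArg (coeff 0) hW
    rw [tr_c0, coeff_zero_C] at h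
    exact mul_left_cancel₀ hcc (by rw [h, mul_one])
  have hw1 : coeff 1 W = -((c * (1 - c))⁻¹ * (1 - 2 * c)) := by
    have h := congrArg (coeff 1) hW
    rw [tr_c1, hw0, coeff_C, if_neg one_ne_zero] at h
    have h3 : coeff 1 W = (c * (1 - c))⁻¹ * (c * (1 - c) * coeff 1 W) := by
      rw [← mul_assoc, inv_mul_cancel₀ hcc, one_mul]
    have h4 : c * (1 - c) * coeff 1 W = -(1 - 2 * c) := by linear_combination h
    rw [h3, h4]
    ring
  have hwn : ∀ n, coeff (n + 2) W = (c * (1 - c))⁻¹ * (coeff n W - (1 - 2 * c) * coeff (n + 1) W) := by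
    intro n
    have h := congrArg (coeff (n + 2)) hW
    rw [tr_cX, coeff_C, if_neg (by omega)] at h
    have h3 : coeff (n + 2) W = (c * (1 - c))⁻¹ * (c * (1 - c) * coeff (n + 2) W) := by
      rw [← mul_assoc, inv_mul_cancel₀ hcc, one_mul]
    have h4 : c * (1 - c) * coeff (n + 2) W = coeff n W - (1 - 2 * c) * coeff (n + 1) W := by
      linear_combination h
    rw [h3, h4]
  have hint : ∀ n, coeff n W ∈ LocInt v.p ∧ coeff (n + 1) W ∈ LocInt v.p := by
    intro n
    induction n with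
    | zero =>
      refine ⟨?_, ?_⟩
      · rw [hw0]
        exact (LocInt v.p).one_mem
      · rw [zero_add, hw1]
        exact (LocInt v.p).neg_mem ((LocInt v.p).mul_mem hci h12)
    | succ n ih =>
      refine ⟨ih.2, ?_⟩
      rw [show n + 1 + 1 = n + 2 from rfl, hwn n]
      exact (LocInt v.p).mul_mem hci ((LocInt v.p).sub_mem ih.1 ((LocInt v.p).mul_mem h12 ih.2))
  have hfl : ∀ i l : Fin 2, fl c X trQ 0 i l = if i = l then 1 else 0 := by
    intro i l
    unfold fl
    rw [tr_DK, map_mul, tr_C, coeff_C_mul, ← hWdef, hw0, mul_one]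
    fin_cases i <;> fin_cases l <;> simp [Em]
  have hflm : ∀ i l, fl c X trQ 0 i l ∈ LocInt v.p := by
    intro i l
    rw [hfl]
    split_ifs
    · exact (LocInt v.p).one_mem
    · exact (LocInt v.p).zero_mem
  have hX : ∀ n, coeff n (X : PowerSeries Kbar) ∈ LocInt v.p := by
    intro n
    rw [coeff_X]
    split_ifs
    · exact (LocInt v.p).one_mem
    · exact (LocInt v.p).zero_mem
  have hXe : ∀ n, n < 1 → coeff n (X : PowerSeries Kbar) = 0 := by
    intro n hn
    rw [coeff_X, if_neg (by omega)]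
  have hred1 : v.red 1 = 1 := rho_one v.φ
  have hXu : v.red (coeff 1 (X : PowerSeries Kbar)) ≠ 0 := by
    rw [coeff_one_X, hred1]
    exact one_ne_zero
  have key := loc v c hc hci hc0 hc1 h5 X hX 1 le_rfl hXe hXu trQ (tr_Q v.p) (fun n => (hint n).1) 0
    (by omega) hflm
  have hred0 : v.red 0 = 0 := rho_zero v.φ
  simp only [Fin.sum_univ_two, hfl] at key
  simpa [hred1, hred0] using key

end Pool.Agent.H64.LG
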