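import Mathlib

/-!
# LG.TrP : a polynomial identity

`Q = (1 - x²)(1 - c x²)`. There are no polynomials `D ≠ 0`, `R` over a field of characteristic `0` with
`2 Q (D R' - R D') + D R Q' + 2 n D² (A + B x²) = 0`, `n ≥ 1`, `(A, B) ≠ (0, 0)`, `c ≠ 0, 1`.

PROOF. Pass to an algebraic closure (or work with irreducible factors). `R ≠ 0` (otherwise `2 n D² (A + B x²) = 0`). Dividing by the square of `gcd(D, R)` we may assume `D, R` coprime (`D = g D₁`, `R = g R₁`: `D R' - R D' = g² (D₁ R₁' - R₁ D₁')`).
Let `π` be a root of `D` of multiplicity `m ≥ 1`. `D ∣ 2 Q R D'`, so `D ∣ Q D'`; the multiplicity of `π` in `D'` is `m - 1`, so `π` is a root of `Q`, simple (`Q` is squarefree: `c ≠ 0, 1`). Modulo `(x - π)^(m+1)`: `2 Q D R' = 0`,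
`D² = 0` (as `2 m ≥ m + 1`), so `R (-2 Q D' + D Q') = 0`, so `(x - π)^(m+1) ∣ 2 Q D' - D Q'`; with `D = (x - π)^m D₁`, `Q = (x - π) Q₁` this is `(x - π)^m ((2 m - 1) D₁ Q₁ + (x - π)(..))`, impossible as `2 m - 1 ≠ 0`.
So `D` is a nonzero constant `d`, and `2 Q R' + R Q' = - 2 n d (A + B x²)`. The coefficient of the left side at `x^(deg R + 3)` is `c (2 deg R + 4) lead(R) ≠ 0`, but the right side has degree `≤ 2`.
-/

set_option autoImplicit false

namespace Pool.Agent.H64.LG

open Polynomial

private lemma trp_red {L : Type*} [Field L] [CharZero L] [IsAlgClosed L] (Q P : Polynomial L)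
    (hQ : ∀ x, Q.eval x = 0 → (derivative Q).eval x ≠ 0) (n : ℕ) :
    ∀ (N : ℕ) (D R : Polynomial L), D.natDegree ≤ N → D ≠ 0 →
      2 * Q * (D * derivative R - R * derivative D) + D * R * derivative Q +
        2 * (n : Polynomial L) * D ^ 2 * P = 0 →
      ∃ (d : L) (S : Polynomial L), d ≠ 0 ∧
        2 * Q * derivative S + S * derivative Q + 2 * (n : Polynomial L) * C d * P = 0 := by
  intro N
  induction N with
  | zero =>
    intro D R hN hD h
    have h0 : D.natDegree = 0 := by omega
    obtain ⟨d, rfl⟩ : ∃ d, D = C d := ⟨_, eq_C_of_natDegree_eq_zero h0⟩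
    have hd : d ≠ 0 := fun e => hD (by rw [e, C_0])
    refine ⟨d, R, hd, ?_⟩
    have h1 : (C d : Polynomial L) * (2 * Q * derivative R + R * derivative Q +
        2 * (n : Polynomial L) * C d * P) = 0 := by
      rw [← h, derivative_C]
      ring
    exact (mul_eq_zero.1 h1).resolve_left (by simpa using hd)
  | succ N ih =>
    intro D R hN hD h
    rcases Nat.lt_or_ge D.natDegree (N + 1) with hlt | hge
    · exact ih D R (by omega) hD h
    have hdeg : D.degree ≠ 0 := by
      intro h0
      have := natDegree_eq_zero_iff_degree_le_zero.2 h0.le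
      omega
    obtain ⟨x, hx⟩ := IsAlgClosed.exists_root D hdeg
    have hg0 : (X - C x : Polynomial L) ≠ 0 := X_sub_C_ne_zero x
    have hg' : derivative (X - C x : Polynomial L) = 1 := by simp
    by_cases hR : R.eval x = 0
    · obtain ⟨D1, rfl⟩ := dvd_iff_isRoot.2 hx
      obtain ⟨R1, rfl⟩ := dvd_iff_isRoot.2 (show R.IsRoot x from hR)
      have hD1 : D1 ≠ 0 := right_ne_zero_of_mul hD
      refine ih D1 R1 ?_ hD1 ?_
      · rw [natDegree_mul hg0 hD1, natDegree_X_sub_C] at hN
        omega
      · have h1 : (X - C x : Polynomial L) ^ 2 * (2 * Q * (D1 * derivative R1 - R1 * derivative D1) +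
            D1 * R1 * derivative Q + 2 * (n : Polynomial L) * D1 ^ 2 * P) = 0 := by
          rw [← h, derivative_mul, derivative_mul, hg']
          ring
        exact (mul_eq_zero.1 h1).resolve_left (pow_ne_zero 2 hg0)
    · exfalso
      obtain ⟨D1, hD1, hnd⟩ := exists_eq_pow_rootMultiplicity_mul_and_not_dvd D hD x
      have hm : 0 < rootMultiplicity x D := (rootMultiplicity_pos hD).2 hx
      obtain ⟨k, hk⟩ : ∃ k, rootMultiplicity x D = k + 1 := ⟨_, (Nat.succ_pred_eq_of_pos hm).symm⟩
      rw [hk] at hD1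
      have hD1x : D1.eval x ≠ 0 := fun e => hnd (dvd_iff_isRoot.2 e)
      have e1 : (X - C x : Polynomial L) ^ k * (2 * Q * ((X - C x) * D1 * derivative R -
          R * (((k : Polynomial L) + 1) * D1 + (X - C x) * derivative D1)) +
          (X - C x) * D1 * R * derivative Q +
          2 * (n : Polynomial L) * (X - C x) ^ (k + 2) * D1 ^ 2 * P) = 0 := by
        rw [← h, hD1, derivative_mul, derivative_pow, hg', Nat.add_sub_cancel]
        simp only [Nat.cast_add, Nat.cast_one, map_add, map_natCast, map_one]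
        ring
      have e2 := (mul_eq_zero.1 e1).resolve_left (pow_ne_zero k hg0)
      have e3 := congrArg (eval x) e2
      simp only [eval_add, eval_mul, eval_sub, eval_pow, eval_X, eval_C, sub_self, eval_zero,
        zero_mul, mul_zero, add_zero, zero_add, eval_natCast, eval_one, eval_ofNat, zero_sub,
        zero_pow (Nat.succ_ne_zero (k + 1)), zero_pow (show k + 2 ≠ 0 by omega)] at e3
      have hk1 : ((k : L) + 1) ≠ 0 := by exact_mod_cast Nat.succ_ne_zero k
      have hQx : Q.eval x = 0 := by
        by_contra hq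
        have : (2 : L) * eval x Q * (eval x R * (((k : L) + 1) * eval x D1)) = 0 := by
          linear_combination -e3
        have h2 : (2 : L) ≠ 0 := two_ne_zero
        exact (mul_ne_zero (mul_ne_zero h2 hq) (mul_ne_zero hR (mul_ne_zero hk1 hD1x))) this
      have hQ' := hQ x hQx
      obtain ⟨Q1, hQ1⟩ := dvd_iff_isRoot.2 (show Q.IsRoot x from hQx)
      have hdQ : derivative Q = Q1 + (X - C x) * derivative Q1 := by
        rw [hQ1, derivative_mul, hg']
        ring
      have hQ1x : Q1.eval x ≠ 0 := by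
        intro e
        apply hQ'
        rw [hdQ]
        simp [e]
      have e4 : (X - C x : Polynomial L) * (2 * Q1 * ((X - C x) * D1 * derivative R -
          R * (((k : Polynomial L) + 1) * D1 + (X - C x) * derivative D1)) +
          D1 * R * derivative Q +
          2 * (n : Polynomial L) * (X - C x) ^ (k + 1) * D1 ^ 2 * P) = 0 := by
        rw [← e2]
        nth_rewrite 2 [hQ1]
        ring
      have e5 := (mul_eq_zero.1 e4).resolve_left hg0
      rw [hdQ] at e5
      have e6 := congrArg (eval x) e5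
      simp only [eval_add, eval_mul, eval_sub, eval_pow, eval_X, eval_C, sub_self, eval_zero,
        zero_mul, mul_zero, add_zero, zero_add, eval_natCast, eval_one, eval_ofNat, zero_sub,
        zero_pow (Nat.succ_ne_zero k)] at e6
      have hk2 : (2 * (k : L) + 1) ≠ 0 := by exact_mod_cast (by omega : 2 * k + 1 ≠ 0)
      have : (2 * (k : L) + 1) * (eval x D1 * (eval x R * eval x Q1)) = 0 := by
        linear_combination -e6
      exact (mul_ne_zero hk2 (mul_ne_zero hD1x (mul_ne_zero hR hQ1x))) this

private lemma trp_deg {L : Type*} [Field L] [CharZero L] (c A B d : L) (hc0 : c ≠ 0)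
    (hAB : ¬ (A = 0 ∧ B = 0)) (hd : d ≠ 0) (n : ℕ) (hn : 1 ≤ n) (S : Polynomial L)
    (h : 2 * ((1 - X ^ 2) * (1 - C c * X ^ 2)) * derivative S +
      S * derivative ((1 - X ^ 2) * (1 - C c * X ^ 2)) +
        2 * (n : Polynomial L) * C d * (C A + C B * X ^ 2) = 0) : False := by
  have hn0 : (n : L) ≠ 0 := by exact_mod_cast (by omega : n ≠ 0)
  have hQe : ((1 - X ^ 2) * (1 - C c * X ^ 2) : Polynomial L) =
      C c * X ^ 4 - C (1 + c) * X ^ 2 + 1 := by
    rw [C_add, C_1]
    ring
  have hdQ : derivative ((1 - X ^ 2) * (1 - C c * X ^ 2) : Polynomial L) =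
      C (4 * c) * X ^ 3 - C (2 * (1 + c)) * X := by
    rw [hQe]
    simp only [derivative_add, derivative_sub, derivative_one, derivative_C_mul, derivative_X_pow]
    simp only [C_mul, C_add, C_1, Nat.cast_ofNat, map_ofNat, show 4 - 1 = 3 from rfl,
      show 2 - 1 = 1 from rfl, pow_one]
    ring
  rw [hdQ, hQe] at h
  by_cases hS : S = 0
  · rw [hS, derivative_zero, mul_zero, zero_mul, zero_add, zero_add] at h
    have h0 := congrArg (fun p : Polynomial L => p.coeff 0) h
    have h2 := congrArg (fun p : Polynomial L => p.coeff 2) h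
    have e : (2 * (n : Polynomial L) * C d * (C A + C B * X ^ 2) : Polynomial L) =
        C (2 * n * d * A) + C (2 * n * d * B) * X ^ 2 := by
      simp only [C_mul, map_ofNat, map_natCast]
      ring
    rw [e] at h0 h2
    simp only [coeff_add, coeff_C_mul, coeff_X_pow, coeff_C, coeff_zero] at h0 h2
    have k0 : 2 * (n : L) * d ≠ 0 := mul_ne_zero (mul_ne_zero two_ne_zero hn0) hd
    refine hAB ⟨?_, ?_⟩
    · simpa [hn0, hd, two_ne_zero] using h0
    · simpa [hn0, hd, two_ne_zero] using h2
  · have hl : S.leadingCoeff ≠ 0 := leadingCoeff_ne_zero.2 hS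
    set r := S.natDegree with hr
    have e : (2 * (C c * X ^ 4 - C (1 + c) * X ^ 2 + 1) * derivative S +
        S * (C (4 * c) * X ^ 3 - C (2 * (1 + c)) * X) +
        2 * (n : Polynomial L) * C d * (C A + C B * X ^ 2) : Polynomial L) =
        C (2 * c) * (derivative S * X ^ 4) - C (2 * (1 + c)) * (derivative S * X ^ 2) +
        C 2 * derivative S + C (4 * c) * (S * X ^ 3) - C (2 * (1 + c)) * (S * X ^ 1) +
        (C (2 * n * d * A) + C (2 * n * d * B) * X ^ 2) := by
      simp only [C_mul, map_ofNat, map_natCast, C_add, C_1]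
      ring
    rw [e] at h
    have h1 := congrArg (fun p : Polynomial L => p.coeff (r + 3)) h
    have s1 : ∀ k, r < k → S.coeff k = 0 := fun k hk => coeff_eq_zero_of_natDegree_lt hk
    have d1 : (derivative S).coeff (r + 1) = 0 := by
      rw [coeff_derivative, s1 _ (by omega), zero_mul]
    have d3 : (derivative S).coeff (r + 3) = 0 := by
      rw [coeff_derivative, s1 _ (by omega), zero_mul]
    have x1 : (S * X ^ 1).coeff (r + 3) = 0 := by
      rw [show r + 3 = (r + 2) + 1 by ring, coeff_mul_X_pow, s1 _ (by omega)]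
    have x3 : (S * X ^ 3).coeff (r + 3) = S.leadingCoeff := by
      rw [coeff_mul_X_pow]
      rfl
    have x2 : (derivative S * X ^ 2).coeff (r + 3) = 0 := by
      rw [show r + 3 = (r + 1) + 2 by ring, coeff_mul_X_pow, d1]
    have x4 : (derivative S * X ^ 4).coeff (r + 3) = r * S.leadingCoeff := by
      rcases Nat.eq_zero_or_pos r with h0 | h0
      · rw [h0, Nat.cast_zero, zero_mul]
        have : derivative S = 0 := by
          rw [eq_C_of_natDegree_eq_zero (hr ▸ h0 : S.natDegree = 0), derivative_C]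
        rw [this, zero_mul, coeff_zero]
      · rw [show r + 3 = (r - 1) + 4 by omega, coeff_mul_X_pow, coeff_derivative,
          show r - 1 + 1 = r by omega]
        have : ((r - 1 : ℕ) : L) + 1 = r := by
          rw [← Nat.cast_succ]
          congr 1
          omega
        rw [this, mul_comm]
        rfl
    simp only [coeff_add, coeff_sub, coeff_C_mul, x1, x2, x3, x4, d3, coeff_zero, coeff_X_pow,
      coeff_C] at h1
    rw [if_neg (by omega : ¬ (r + 3 = 0)), if_neg (by omega : ¬ (r + 3 = 2))] at h1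
    have h2 : c * ((2 * (r : L) + 4) * S.leadingCoeff) = 0 := by linear_combination h1
    have h3 : (2 * (r : L) + 4) ≠ 0 := by exact_mod_cast (by omega : 2 * r + 4 ≠ 0)
    exact (mul_ne_zero hc0 (mul_ne_zero h3 hl)) h2

theorem trp {K : Type} [Field K] [CharZero K] (c A B : K) (hc0 : c ≠ 0) (hc1 : c ≠ 1) (hAB : ¬ (A = 0 ∧ B = 0))
    (n : ℕ) (hn : 1 ≤ n) (D R : Polynomial K) (hD : D ≠ 0)
    (h : 2 * ((1 - X ^ 2) * (1 - C c * X ^ 2)) * (D * derivative R - R * derivative D) +
      D * R * derivative ((1 - X ^ 2) * (1 - C c * X ^ 2)) + 2 * (n : Polynomial K) * D ^ 2 * (C A + C B * X ^ 2) = 0) :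
    False := by
  set f : K →+* AlgebraicClosure K := algebraMap K (AlgebraicClosure K) with hf
  have hfi : Function.Injective f := f.injective
  have : CharZero (AlgebraicClosure K) := charZero_of_injective_algebraMap (R := K) hfi
  have hm := congrArg (Polynomial.map f) h
  simp only [Polynomial.map_add, Polynomial.map_mul, Polynomial.map_sub, Polynomial.map_one,
    Polynomial.map_pow, map_X, map_C, Polynomial.map_zero, ← derivative_map,
    Polynomial.map_natCast, Polynomial.map_ofNat] at hm
  have hc0' : f c ≠ 0 := fun e => hc0 (hfi (by rw [e, map_zero]))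
  have hc1' : f c ≠ 1 := fun e => hc1 (hfi (by rw [e, map_one]))
  have hAB' : ¬ (f A = 0 ∧ f B = 0) := fun e =>
    hAB ⟨hfi (by rw [e.1, map_zero]), hfi (by rw [e.2, map_zero])⟩
  have hQ : ∀ x : AlgebraicClosure K, ((1 - X ^ 2) * (1 - C (f c) * X ^ 2) :
      Polynomial (AlgebraicClosure K)).eval x = 0 →
      (derivative ((1 - X ^ 2) * (1 - C (f c) * X ^ 2) : Polynomial (AlgebraicClosure K))).eval x
        ≠ 0 := by
    intro x hx h'
    simp only [eval_mul, eval_sub, eval_one, eval_pow, eval_X, eval_C] at hx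
    simp only [derivative_mul, derivative_sub, derivative_one, derivative_X_pow, derivative_C,
      eval_add, eval_mul, eval_sub, eval_one, eval_pow, eval_X, eval_C, eval_zero, zero_mul,
      zero_sub, zero_add, eval_neg, Nat.cast_ofNat, eval_ofNat, show 2 - 1 = 1 from rfl,
      pow_one, map_ofNat] at h'
    have h2 : (2 : AlgebraicClosure K) ≠ 0 := two_ne_zero
    rcases mul_eq_zero.1 hx with e | e
    · have e1 : x ^ 2 = 1 := by linear_combination -e
      have hx0 : x ≠ 0 := by
        intro e0
        rw [e0] at e1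
        norm_num at e1
      have e2 : 2 * x * (1 - f c) = 0 := by linear_combination -h' - 2 * f c * x * e - 2 * x * f c * e
      exact (mul_ne_zero (mul_ne_zero h2 hx0) (sub_ne_zero.2 hc1'.symm)) e2
    · have hx0 : x ≠ 0 := by
        intro e0
        rw [e0] at e
        norm_num at e
      have e2 : 2 * x * (f c - 1) = 0 := by linear_combination -h' - 2 * x * e - 2 * x * e
      exact (mul_ne_zero (mul_ne_zero h2 hx0) (sub_ne_zero.2 hc1')) e2
  have hD' : D.map f ≠ 0 := (Polynomial.map_ne_zero_iff hfi).2 hD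
  obtain ⟨d, S, hd, hS⟩ := trp_red ((1 - X ^ 2) * (1 - C (f c) * X ^ 2)) (C (f A) + C (f B) * X ^ 2)
    hQ n _ (D.map f) (R.map f) le_rfl hD' hm
  exact trp_deg (f c) (f A) (f B) d hc0' hAB' hd n hn S hS

end Pool.Agent.H64.LG
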